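import Mathlib

/-!
# Even subgraph expansions: the switching argument in reduced form

Abstract setting: a type `ι` of edges with boundary `δ : ι → Γ` in an abelian group of exponent
two, weights `x e ∈ [0, 1]`, and the partition functions
`Z T a = ∑_{S ⊆ T, ∂S = a} ∏_{e ∈ S} x e`.
-/

set_option autoImplicit false
set_option linter.unusedSectionVars false
set_option linter.unusedSimpArgs false

open Finset

namespace Pool.Agent.TH980

variable {ι Γ : Type*} [DecidableEq ι] [AddCommGroup Γ] [DecidableEq Γ]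

/-- boundary of a set of edges -/
def bd (δ : ι → Γ) (S : Finset ι) : Γ := ∑ e ∈ S, δ e

@[simp] lemma bd_empty (δ : ι → Γ) : bd δ ∅ = 0 := rfl

lemma bd_insert (δ : ι → Γ) {e : ι} {S : Finset ι} (h : e ∉ S) :
    bd δ (insert e S) = bd δ S + δ e := by
  unfold bd; rw [sum_insert h, add_comm]

lemma bd_union_disj (δ : ι → Γ) {S S' : Finset ι} (h : Disjoint S S') :
    bd δ (S ∪ S') = bd δ S + bd δ S' := by
  unfold bd; rw [sum_union h]

lemma bd_symmDiff (h2 : ∀ g : Γ, g + g = 0) (δ : ι → Γ) (S S' : Finset ι) :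
    bd δ (symmDiff S S') = bd δ S + bd δ S' := by
  have e1 : S = (S \ S') ∪ (S ∩ S') := by
    ext a; simp only [mem_union, mem_sdiff, mem_inter]; tauto
  have e2 : S' = (S' \ S) ∪ (S ∩ S') := by
    ext a; simp only [mem_union, mem_sdiff, mem_inter]; tauto
  have d1 : Disjoint (S \ S') (S ∩ S') := by
    rw [disjoint_left]; intro a; simp only [mem_sdiff, mem_inter]; tauto
  have d2 : Disjoint (S' \ S) (S ∩ S') := by
    rw [disjoint_left]; intro a; simp only [mem_sdiff, mem_inter]; tauto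
  have d3 : Disjoint (S \ S') (S' \ S) := by
    rw [disjoint_left]; intro a; simp only [mem_sdiff]; tauto
  have e3 : symmDiff S S' = (S \ S') ∪ (S' \ S) := rfl
  have h1 : bd δ S = bd δ (S \ S') + bd δ (S ∩ S') := by
    conv_lhs => rw [e1]
    exact bd_union_disj δ d1
  have h3 : bd δ S' = bd δ (S' \ S) + bd δ (S ∩ S') := by
    conv_lhs => rw [e2]
    exact bd_union_disj δ d2
  rw [e3, bd_union_disj δ d3, h1, h3]
  have := h2 (bd δ (S ∩ S'))
  calc bd δ (S \ S') + bd δ (S' \ S)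
      = bd δ (S \ S') + bd δ (S' \ S) + (bd δ (S ∩ S') + bd δ (S ∩ S')) := by rw [this, add_zero]
    _ = _ := by abel

/-- partition function with sources `a` -/
def Z (δ : ι → Γ) (x : ι → ℝ) (T : Finset ι) (a : Γ) : ℝ :=
  ∑ S ∈ T.powerset, if bd δ S = a then ∏ e ∈ S, x e else 0

variable {δ : ι → Γ} {x : ι → ℝ} {T : Finset ι}

lemma Z_nonneg (hx : ∀ e, 0 ≤ x e) (a : Γ) : 0 ≤ Z δ x T a := by
  unfold Z
  refine sum_nonneg fun S _ => ?_
  split_ifs
  · exact prod_nonneg fun e _ => hx e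
  · exact le_rfl

lemma one_le_Z (hx : ∀ e, 0 ≤ x e) : 1 ≤ Z δ x T 0 := by
  unfold Z
  have h : (if bd δ (∅ : Finset ι) = 0 then ∏ e ∈ (∅ : Finset ι), x e else 0) ≤
      ∑ S ∈ T.powerset, if bd δ S = 0 then ∏ e ∈ S, x e else 0 := by
    refine single_le_sum (f := fun S => if bd δ S = 0 then ∏ e ∈ S, x e else 0)
      (fun S _ => ?_) (empty_mem_powerset T)
    split_ifs
    · exact prod_nonneg fun e _ => hx e
    · exact le_rfl
  simpa using h

lemma Z_pos (hx : ∀ e, 0 ≤ x e) : 0 < Z δ x T 0 := lt_of_lt_of_le one_pos (one_le_Z hx)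

lemma Z_insert {e : ι} (h : e ∉ T) (h2 : ∀ g : Γ, g + g = 0) (a : Γ) :
    Z δ x (insert e T) a = Z δ x T a + x e * Z δ x T (a + δ e) := by
  unfold Z
  rw [sum_powerset_insert h, mul_sum]
  congr 1
  refine sum_congr rfl fun S hS => ?_
  have heS : e ∉ S := fun h' => h (mem_powerset.mp hS h')
  rw [bd_insert δ heS, prod_insert heS]
  have : bd δ S + δ e = a ↔ bd δ S = a + δ e := by
    constructor
    · intro h'; rw [← h', add_assoc, h2, add_zero]
    · intro h'; rw [h', add_assoc, h2, add_zero]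
  by_cases hc : bd δ S = a + δ e
  · rw [if_pos (this.mpr hc), if_pos hc]
  · rw [if_neg (fun h' => hc (this.mp h')), if_neg hc, mul_zero]

/-! ### The weight of a pair of configurations and a trace -/

/-- weight of `(t, D)` where `t` is the trace and `D` the symmetric difference of the two
configurations -/
def om (x : ι → ℝ) (T t D : Finset ι) : ℝ :=
  (∏ e ∈ T \ t, (1 - x e ^ 2)) * (∏ e ∈ t \ D, x e ^ 2) * ∏ e ∈ D, x e

lemma om_nonneg (hx : ∀ e, 0 ≤ x e) (hx1 : ∀ e, x e ≤ 1) (t D : Finset ι) : 0 ≤ om x T t D := by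
  unfold om
  refine mul_nonneg (mul_nonneg (prod_nonneg fun e _ => ?_) (prod_nonneg fun e _ => sq_nonneg _))
    (prod_nonneg fun e _ => hx e)
  have := hx e; have := hx1 e
  nlinarith

/-- The trace is, off the union of the two configurations, an independent Bernoulli field. -/
lemma om_factor {S₁ S₂ t : Finset ι} (h1 : S₁ ⊆ t) (h2 : S₂ ⊆ t) :
    om x T t (symmDiff S₁ S₂) =
      (∏ e ∈ T \ t, (1 - x e ^ 2)) * (∏ e ∈ t \ (S₁ ∪ S₂), x e ^ 2) *
        ((∏ e ∈ S₁, x e) * ∏ e ∈ S₂, x e) := by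
  unfold om
  have e0 : t \ symmDiff S₁ S₂ = (t \ (S₁ ∪ S₂)) ∪ (S₁ ∩ S₂) := by
    ext a
    have := @h1 a; have := @h2 a
    simp only [mem_union, mem_sdiff, mem_inter, mem_symmDiff]; tauto
  have d0 : Disjoint (t \ (S₁ ∪ S₂)) (S₁ ∩ S₂) := by
    rw [disjoint_left]; intro a; simp only [mem_sdiff, mem_inter, mem_union]; tauto
  have e3 : symmDiff S₁ S₂ = (S₁ \ S₂) ∪ (S₂ \ S₁) := rfl
  have d3 : Disjoint (S₁ \ S₂) (S₂ \ S₁) := by
    rw [disjoint_left]; intro a; simp only [mem_sdiff]; tauto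
  have e1 : ∏ e ∈ S₁, x e = (∏ e ∈ S₁ \ S₂, x e) * ∏ e ∈ S₁ ∩ S₂, x e := by
    rw [← prod_union]
    · congr 1; ext a; simp only [mem_union, mem_sdiff, mem_inter]; tauto
    · rw [disjoint_left]; intro a; simp only [mem_sdiff, mem_inter]; tauto
  have e2 : ∏ e ∈ S₂, x e = (∏ e ∈ S₂ \ S₁, x e) * ∏ e ∈ S₁ ∩ S₂, x e := by
    rw [← prod_union]
    · congr 1; ext a; simp only [mem_union, mem_sdiff, mem_inter]; tauto
    · rw [disjoint_left]; intro a; simp only [mem_sdiff, mem_inter]; tauto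
  rw [e0, prod_union d0, e3, prod_union d3, e1, e2, prod_pow (s := S₁ ∩ S₂)]
  ring

lemma sum_trace_one (x : ι → ℝ) {U T : Finset ι} (hU : U ⊆ T) :
    ∑ t ∈ T.powerset with U ⊆ t, (∏ e ∈ T \ t, (1 - x e ^ 2)) * ∏ e ∈ t \ U, x e ^ 2 = 1 := by
  have h : ∏ e ∈ T \ U, (x e ^ 2 + (1 - x e ^ 2)) = 1 := by
    refine prod_eq_one fun e _ => by ring
  rw [prod_add] at h
  refine Eq.trans ?_ h
  refine sum_bij' (fun t _ => t \ U) (fun s _ => s ∪ U) ?_ ?_ ?_ ?_ ?_
  · intro t ht
    rw [mem_filter, mem_powerset] at ht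
    rw [mem_powerset]
    exact sdiff_subset_sdiff ht.1 le_rfl
  · intro s hs
    rw [mem_powerset] at hs
    rw [mem_filter, mem_powerset]
    exact ⟨union_subset (hs.trans sdiff_subset) hU, subset_union_right⟩
  · intro t ht
    rw [mem_filter, mem_powerset] at ht
    exact sdiff_union_of_subset ht.2
  · intro s hs
    rw [mem_powerset] at hs
    ext a
    have := @hs a
    simp only [mem_sdiff, mem_union] at this ⊢
    tauto
  · intro t ht
    rw [mem_filter, mem_powerset] at ht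
    have : T \ t = (T \ U) \ (t \ U) := by
      ext a
      have := @ht.2 a
      simp only [mem_sdiff]
      tauto
    rw [← this, mul_comm]

/-- Product of the weights of two configurations as a sum over traces. -/
lemma prod_eq_sum_trace {S₁ S₂ : Finset ι} (h1 : S₁ ⊆ T) (h2 : S₂ ⊆ T) :
    (∏ e ∈ S₁, x e) * ∏ e ∈ S₂, x e =
      ∑ t ∈ T.powerset with S₁ ∪ S₂ ⊆ t, om x T t (symmDiff S₁ S₂) := by
  have h := sum_trace_one x (union_subset h1 h2)
  have : ∑ t ∈ T.powerset with S₁ ∪ S₂ ⊆ t, om x T t (symmDiff S₁ S₂) =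
      (∑ t ∈ T.powerset with S₁ ∪ S₂ ⊆ t, (∏ e ∈ T \ t, (1 - x e ^ 2)) *
        ∏ e ∈ t \ (S₁ ∪ S₂), x e ^ 2) * ((∏ e ∈ S₁, x e) * ∏ e ∈ S₂, x e) := by
    rw [sum_mul]
    refine sum_congr rfl fun t ht => ?_
    rw [mem_filter] at ht
    exact om_factor (subset_union_left.trans ht.2) (subset_union_right.trans ht.2)
  rw [this, h, one_mul]

/-- conditional weight of the trace `t` given the union `U` of the two configurations -/
def omt (x : ι → ℝ) (T U t : Finset ι) : ℝ :=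
  (∏ e ∈ T \ t, (1 - x e ^ 2)) * ∏ e ∈ t \ U, x e ^ 2

/-- General form: summing a function of two configurations and a trace. -/
lemma sum_triples_eq (F : Finset ι → Finset ι → Finset ι → ℝ) :
    ∑ t ∈ T.powerset, ∑ S₁ ∈ t.powerset, ∑ S₂ ∈ t.powerset,
        om x T t (symmDiff S₁ S₂) * F S₁ S₂ t =
    ∑ S₁ ∈ T.powerset, ∑ S₂ ∈ T.powerset, ((∏ e ∈ S₁, x e) * ∏ e ∈ S₂, x e) *
      ∑ t ∈ T.powerset with S₁ ∪ S₂ ⊆ t, omt x T (S₁ ∪ S₂) t * F S₁ S₂ t := by
  symm
  have h1 : ∑ S₁ ∈ T.powerset, ∑ S₂ ∈ T.powerset, ((∏ e ∈ S₁, x e) * ∏ e ∈ S₂, x e) *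
        ∑ t ∈ T.powerset with S₁ ∪ S₂ ⊆ t, omt x T (S₁ ∪ S₂) t * F S₁ S₂ t =
      ∑ S₁ ∈ T.powerset, ∑ S₂ ∈ T.powerset, ∑ t ∈ T.powerset,
        if S₁ ∪ S₂ ⊆ t then om x T t (symmDiff S₁ S₂) * F S₁ S₂ t else 0 := by
    refine sum_congr rfl fun S₁ hS₁ => sum_congr rfl fun S₂ hS₂ => ?_
    rw [mul_sum, ← sum_filter]
    refine sum_congr rfl fun t ht => ?_
    rw [mem_filter] at ht
    rw [om_factor (subset_union_left.trans ht.2) (subset_union_right.trans ht.2)]
    unfold omt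
    ring
  rw [h1]
  have h2 : ∀ S₁ ∈ T.powerset, (∑ S₂ ∈ T.powerset, ∑ t ∈ T.powerset,
        if S₁ ∪ S₂ ⊆ t then om x T t (symmDiff S₁ S₂) * F S₁ S₂ t else 0) =
      ∑ t ∈ T.powerset, ∑ S₂ ∈ T.powerset,
        if S₁ ∪ S₂ ⊆ t then om x T t (symmDiff S₁ S₂) * F S₁ S₂ t else 0 := fun S₁ _ => sum_comm
  rw [sum_congr rfl h2, sum_comm]
  refine sum_congr rfl fun t ht => ?_
  rw [mem_powerset] at ht
  have hsub : t.powerset ⊆ T.powerset := powerset_mono.mpr ht
  rw [← sum_subset hsub (fun S₁ _ hS₁ => ?_)]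
  · refine sum_congr rfl fun S₁ hS₁ => ?_
    rw [mem_powerset] at hS₁
    rw [← sum_subset hsub (fun S₂ _ hS₂ => ?_)]
    · refine sum_congr rfl fun S₂ hS₂ => ?_
      rw [mem_powerset] at hS₂
      rw [if_pos (union_subset hS₁ hS₂)]
    · rw [mem_powerset] at hS₂
      rw [if_neg fun h => hS₂ (subset_union_right.trans h)]
  · rw [mem_powerset] at hS₁
    refine sum_eq_zero fun S₂ _ => ?_
    rw [if_neg fun h => hS₁ (subset_union_left.trans h)]

lemma sum_pairs_eq (F : Finset ι → Finset ι → ℝ) :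
    ∑ S₁ ∈ T.powerset, ∑ S₂ ∈ T.powerset, ((∏ e ∈ S₁, x e) * ∏ e ∈ S₂, x e) * F S₁ S₂ =
      ∑ t ∈ T.powerset, ∑ S₁ ∈ t.powerset, ∑ S₂ ∈ t.powerset,
        om x T t (symmDiff S₁ S₂) * F S₁ S₂ := by
  rw [sum_triples_eq (fun S₁ S₂ _ => F S₁ S₂)]
  refine sum_congr rfl fun S₁ hS₁ => sum_congr rfl fun S₂ hS₂ => ?_
  rw [mem_powerset] at hS₁ hS₂
  rw [← sum_mul]
  have h := sum_trace_one x (union_subset hS₁ hS₂)
  unfold omt
  rw [h, one_mul]

/-- number of configurations inside `t` with boundary `b` -/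
def cnt (δ : ι → Γ) (t : Finset ι) (b : Γ) : ℕ := (t.powerset.filter fun S => bd δ S = b).card

lemma cnt_eq (h2 : ∀ g : Γ, g + g = 0) {t : Finset ι} {b : Γ} (hb : ∃ S ⊆ t, bd δ S = b) :
    cnt δ t b = cnt δ t 0 := by
  obtain ⟨R, hR, rfl⟩ := hb
  unfold cnt
  refine card_bij' (fun S _ => symmDiff S R) (fun S _ => symmDiff S R) ?_ ?_ ?_ ?_
  · intro S hS
    rw [mem_filter, mem_powerset] at hS ⊢
    refine ⟨?_, by rw [bd_symmDiff h2, hS.2, h2]⟩
    exact (symmDiff_le_sup : symmDiff S R ≤ S ⊔ R).trans (union_subset hS.1 hR)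
  · intro S hS
    rw [mem_filter, mem_powerset] at hS ⊢
    refine ⟨?_, by rw [bd_symmDiff h2, hS.2, zero_add]⟩
    exact (symmDiff_le_sup : symmDiff S R ≤ S ⊔ R).trans (union_subset hS.1 hR)
  · intro S _; simp [symmDiff_assoc]
  · intro S _; simp [symmDiff_assoc]

lemma cnt_zero {t : Finset ι} {b : Γ} (hb : ¬ ∃ S ⊆ t, bd δ S = b) : cnt δ t b = 0 := by
  unfold cnt
  rw [card_eq_zero, filter_eq_empty_iff]
  intro S hS h
  exact hb ⟨S, mem_powerset.mp hS, h⟩

lemma cnt_le (h2 : ∀ g : Γ, g + g = 0) (t : Finset ι) (b : Γ) : cnt δ t b ≤ cnt δ t 0 := by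
  by_cases hb : ∃ S ⊆ t, bd δ S = b
  · exact (cnt_eq h2 hb).le
  · rw [cnt_zero hb]; exact Nat.zero_le _

/-- Switching identity in reduced form. -/
lemma Z_mul_Z (h2 : ∀ g : Γ, g + g = 0) (a b : Γ) :
    Z δ x T a * Z δ x T b =
      ∑ t ∈ T.powerset, (∑ D ∈ t.powerset, if bd δ D = a + b then om x T t D else 0) *
        cnt δ t b := by
  have h1 : Z δ x T a * Z δ x T b = ∑ S₁ ∈ T.powerset, ∑ S₂ ∈ T.powerset,
      ((∏ e ∈ S₁, x e) * ∏ e ∈ S₂, x e) *
        ((if bd δ S₁ = a then 1 else 0) * (if bd δ S₂ = b then 1 else 0)) := by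
    unfold Z
    rw [sum_mul_sum]
    refine sum_congr rfl fun S₁ _ => sum_congr rfl fun S₂ _ => ?_
    split_ifs <;> simp
  rw [h1, sum_pairs_eq]
  refine sum_congr rfl fun t _ => ?_
  rw [sum_comm]
  have h3 : ∀ S₂ ∈ t.powerset, (∑ S₁ ∈ t.powerset, om x T t (symmDiff S₁ S₂) *
      ((if bd δ S₁ = a then 1 else 0) * (if bd δ S₂ = b then 1 else 0))) =
      (if bd δ S₂ = b then 1 else 0) *
        ∑ D ∈ t.powerset, if bd δ D = a + b then om x T t D else 0 := by
    intro S₂ hS₂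
    by_cases hb : bd δ S₂ = b
    · simp only [if_pos hb, mul_one, one_mul]
      rw [mem_powerset] at hS₂
      refine sum_bij' (fun S _ => symmDiff S S₂) (fun S _ => symmDiff S S₂) ?_ ?_ ?_ ?_ ?_
      · intro S hS
        rw [mem_powerset] at hS ⊢
        exact (symmDiff_le_sup : symmDiff S S₂ ≤ S ⊔ S₂).trans (union_subset hS hS₂)
      · intro S hS
        rw [mem_powerset] at hS ⊢
        exact (symmDiff_le_sup : symmDiff S S₂ ≤ S ⊔ S₂).trans (union_subset hS hS₂)
      · intro S _; simp [symmDiff_assoc]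
      · intro S _; simp [symmDiff_assoc]
      · intro S hS
        rw [bd_symmDiff h2, hb]
        by_cases ha : bd δ S = a
        · rw [if_pos ha, if_pos (by rw [ha]), mul_one]
        · rw [if_neg ha, if_neg (fun h => ha (add_right_cancel h)), mul_zero]
    · simp [hb]
  rw [sum_congr rfl h3, ← sum_mul, mul_comm]
  congr 1
  unfold cnt
  rw [sum_boole]

/-- Second Griffiths inequality. -/
lemma gks (h2 : ∀ g : Γ, g + g = 0) (hx : ∀ e, 0 ≤ x e) (hx1 : ∀ e, x e ≤ 1) (a b : Γ) :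
    Z δ x T a * Z δ x T b ≤ Z δ x T (a + b) * Z δ x T 0 := by
  rw [Z_mul_Z h2, Z_mul_Z h2 (a + b) 0]
  refine sum_le_sum fun t _ => ?_
  rw [add_zero]
  refine mul_le_mul_of_nonneg_left ?_ (sum_nonneg fun D _ => ?_)
  · exact_mod_cast cnt_le h2 t b
  · split_ifs
    · exact om_nonneg hx hx1 t D
    · exact le_rfl

/-- Correlation function. -/
noncomputable def cor (δ : ι → Γ) (x : ι → ℝ) (T : Finset ι) (a : Γ) : ℝ :=
  Z δ x T a / Z δ x T 0

lemma cor_nonneg (hx : ∀ e, 0 ≤ x e) (a : Γ) : 0 ≤ cor δ x T a :=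
  div_nonneg (Z_nonneg hx a) (Z_nonneg hx 0)

lemma cor_zero (hx : ∀ e, 0 ≤ x e) : cor δ x T 0 = 1 := div_self (Z_pos hx).ne'

lemma cor_gks (h2 : ∀ g : Γ, g + g = 0) (hx : ∀ e, 0 ≤ x e) (hx1 : ∀ e, x e ≤ 1) (a b : Γ) :
    cor δ x T a * cor δ x T b ≤ cor δ x T (a + b) := by
  unfold cor
  have hp := Z_pos (δ := δ) (T := T) hx
  rw [div_mul_div_comm, div_le_div_iff₀ (mul_pos hp hp) hp]
  have := gks (δ := δ) (T := T) h2 hx hx1 a b
  calc Z δ x T a * Z δ x T b * Z δ x T 0 ≤ Z δ x T (a + b) * Z δ x T 0 * Z δ x T 0 :=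
        mul_le_mul_of_nonneg_right this hp.le
    _ = _ := by ring

lemma cor_le_one (h2 : ∀ g : Γ, g + g = 0) (hx : ∀ e, 0 ≤ x e) (hx1 : ∀ e, x e ≤ 1) (a : Γ) :
    cor δ x T a ≤ 1 := by
  have h := cor_gks (δ := δ) (T := T) h2 hx hx1 a a
  rw [h2, cor_zero hx] at h
  nlinarith [cor_nonneg (δ := δ) (T := T) hx a]

lemma Z_mono_insert (h2 : ∀ g : Γ, g + g = 0) (hx : ∀ e, 0 ≤ x e) (hx1 : ∀ e, x e ≤ 1) (a : Γ)
    {e : ι} (he : e ∉ T) : cor δ x T a ≤ cor δ x (insert e T) a := by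
  unfold cor
  have hp := Z_pos (δ := δ) (T := T) hx
  have hp' := Z_pos (δ := δ) (T := insert e T) hx
  rw [div_le_div_iff₀ hp hp', Z_insert he h2, Z_insert he h2, zero_add]
  have := gks (δ := δ) (T := T) h2 hx hx1 a (δ e)
  have := mul_le_mul_of_nonneg_left this (hx e)
  nlinarith

lemma cor_mono (h2 : ∀ g : Γ, g + g = 0) (hx : ∀ e, 0 ≤ x e) (hx1 : ∀ e, x e ≤ 1) (a : Γ)
    {T T' : Finset ι} (h : T ⊆ T') : cor δ x T a ≤ cor δ x T' a := by
  have key : ∀ D : Finset ι, cor δ x T a ≤ cor δ x (D ∪ T) a := by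
    intro D
    induction D using Finset.induction_on with
    | empty => rw [empty_union]
    | insert e D he ih =>
      rw [insert_union]
      by_cases h' : e ∈ D ∪ T
      · rwa [insert_eq_of_mem h']
      · exact ih.trans (Z_mono_insert h2 hx hx1 a h')
  have := key T'
  rwa [union_eq_left.mpr h] at this

/-- The ratio of partition functions after removal of `F` is decreasing in the graph. -/
lemma ratio_mono (h2 : ∀ g : Γ, g + g = 0) (hx : ∀ e, 0 ≤ x e) (hx1 : ∀ e, x e ≤ 1)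
    {T T' : Finset ι} (h : T ⊆ T') (F : Finset ι) (hF : F ⊆ T) :
    Z δ x (T' \ F) 0 / Z δ x T' 0 ≤ Z δ x (T \ F) 0 / Z δ x T 0 := by
  induction F using Finset.induction_on with
  | empty =>
    simp only [sdiff_empty]
    rw [div_self (Z_pos hx).ne', div_self (Z_pos hx).ne']
  | insert e F he ih =>
    have hF' : F ⊆ T := (subset_insert e F).trans hF
    have heT : e ∈ T := hF (mem_insert_self e F)
    have ih := ih hF'
    have key : ∀ R : Finset ι, e ∈ R → e ∉ F → Z δ x (R \ insert e F) 0 / Z δ x R 0 =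
        (Z δ x (R \ F) 0 / Z δ x R 0) *
          (1 + x e * cor δ x (R \ insert e F) (δ e))⁻¹ := by
      intro R heR _
      have e1 : R \ F = insert e (R \ insert e F) := by
        ext a
        by_cases hae : a = e
        · subst hae; simp [heR, he]
        · simp [hae]
      have e2 : Z δ x (R \ F) 0 = Z δ x (R \ insert e F) 0 *
          (1 + x e * cor δ x (R \ insert e F) (δ e)) := by
        rw [e1, Z_insert (by simp) h2, zero_add]
        unfold cor
        have := Z_pos (δ := δ) (T := R \ insert e F) hx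
        field_simp
      rw [e2]
      have h1 : 0 < 1 + x e * cor δ x (R \ insert e F) (δ e) := by
        have := mul_nonneg (hx e) (cor_nonneg (δ := δ) (T := R \ insert e F) hx (δ e))
        linarith
      field_simp
    rw [key T heT he, key T' (h heT) he]
    have h1 : 0 < 1 + x e * cor δ x (T \ insert e F) (δ e) := by
      have := mul_nonneg (hx e) (cor_nonneg (δ := δ) (T := T \ insert e F) hx (δ e))
      linarith
    have h3 : cor δ x (T \ insert e F) (δ e) ≤ cor δ x (T' \ insert e F) (δ e) :=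
      cor_mono h2 hx hx1 _ (sdiff_subset_sdiff h le_rfl)
    have h4 := mul_le_mul_of_nonneg_left h3 (hx e)
    refine mul_le_mul ih (inv_anti₀ h1 (by linarith)) (inv_nonneg.mpr (by linarith)) ?_
    exact div_nonneg (Z_nonneg hx 0) (Z_nonneg hx 0)

/-! ### Monotonicity in the weights -/

lemma Z_update_of_mem {e : ι} (he : e ∈ T) (h2 : ∀ g : Γ, g + g = 0) (a : Γ) :
    Z δ x T a = Z δ x (T.erase e) a + x e * Z δ x (T.erase e) (a + δ e) := by
  conv_lhs => rw [← insert_erase he]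
  exact Z_insert (notMem_erase e T) h2 a

lemma Z_congr {x' : ι → ℝ} (h : ∀ e ∈ T, x e = x' e) (a : Γ) : Z δ x T a = Z δ x' T a := by
  unfold Z
  refine sum_congr rfl fun S hS => ?_
  rw [mem_powerset] at hS
  split_ifs
  · exact prod_congr rfl fun e he => h e (hS he)
  · rfl

lemma cor_congr {x' : ι → ℝ} (h : ∀ e ∈ T, x e = x' e) (a : Γ) : cor δ x T a = cor δ x' T a := by
  unfold cor; rw [Z_congr h, Z_congr h]

lemma cor_mono_weight_one (h2 : ∀ g : Γ, g + g = 0) (hx : ∀ e, 0 ≤ x e) (hx1 : ∀ e, x e ≤ 1)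
    (a : Γ) {e : ι} {r : ℝ} (hr : x e ≤ r) :
    cor δ x T a ≤ cor δ (Function.update x e r) T a := by
  have hr0 : 0 ≤ r := (hx e).trans hr
  by_cases he : e ∈ T
  · have hx' : ∀ e', 0 ≤ Function.update x e r e' := by
      intro e'
      by_cases h : e' = e
      · subst h; simpa using hr0
      · rw [Function.update_of_ne h]; exact hx e'
    unfold cor
    have hp := Z_pos (δ := δ) (T := T) hx
    have hp' := Z_pos (δ := δ) (T := T) hx'
    rw [div_le_div_iff₀ hp hp']
    have hc : ∀ e' ∈ T.erase e, Function.update x e r e' = x e' := fun e' he' =>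
      Function.update_of_ne (ne_of_mem_erase he') _ _
    rw [Z_update_of_mem (x := x) he h2 a, Z_update_of_mem (x := x) he h2 0,
      Z_update_of_mem (x := Function.update x e r) he h2 a,
      Z_update_of_mem (x := Function.update x e r) he h2 0,
      Z_congr hc, Z_congr hc, Z_congr hc, Z_congr hc, zero_add, Function.update_self]
    have := gks (δ := δ) (T := T.erase e) h2 hx hx1 a (δ e)
    have := mul_le_mul_of_nonneg_left this (sub_nonneg.mpr hr)
    nlinarith
  · refine (cor_congr (fun e' he' => ?_) a).le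
    rw [Function.update_of_ne]
    rintro rfl; exact he he'

lemma cor_mono_weight (h2 : ∀ g : Γ, g + g = 0) (hx : ∀ e, 0 ≤ x e) {x' : ι → ℝ}
    (hxx : ∀ e, x e ≤ x' e) (hx1 : ∀ e, x' e ≤ 1) (a : Γ) (T : Finset ι) :
    cor δ x T a ≤ cor δ x' T a := by
  have key : ∀ R : Finset ι, cor δ x T a ≤ cor δ (fun e => if e ∈ R then x' e else x e) T a := by
    intro R
    induction R using Finset.induction_on with
    | empty => simp
    | insert e R he ih =>
      refine ih.trans ?_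
      have e1 : (fun e' => if e' ∈ insert e R then x' e' else x e') =
          Function.update (fun e' => if e' ∈ R then x' e' else x e') e (x' e) := by
        funext e'
        by_cases h : e' = e
        · subst h; simp
        · rw [Function.update_of_ne h]; simp [h]
      rw [e1]
      refine cor_mono_weight_one h2 (fun e' => ?_) (fun e' => ?_) a ?_
      · split_ifs
        · exact (hx e').trans (hxx e')
        · exact hx e'
      · split_ifs
        · exact hx1 e'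
        · exact (hxx e').trans (hx1 e')
      · simp [he, hxx e]
  refine (key T).trans (cor_congr (fun e he => by simp [he]) a).le

/-! ### Moments of the local observables -/

/-- `∏_{e ∈ J} x_e ^ (1 - 2 [e ∈ S])` -/
noncomputable def um (x : ι → ℝ) (J S : Finset ι) : ℝ :=
  ∏ e ∈ J, if e ∈ S then (x e)⁻¹ else x e

/-- partition function with sources and a weight of the total boundary -/
def ZG (δ : ι → Γ) (x : ι → ℝ) (T : Finset ι) (G : Γ → ℝ) (a : Γ) : ℝ :=
  ∑ S ∈ T.powerset, (∏ e ∈ S, x e) * G (a + bd δ S)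

lemma prod_mul_um {J : Finset ι} (hx : ∀ e ∈ J, x e ≠ 0) (S : Finset ι) :
    (∏ e ∈ S, x e) * um x J S = ∏ e ∈ symmDiff S J, x e := by
  unfold um
  have hJ : J = (J \ S) ∪ (J ∩ S) := by
    ext a; simp only [mem_union, mem_sdiff, mem_inter]; tauto
  have hS : S = (S \ J) ∪ (J ∩ S) := by
    ext a; simp only [mem_union, mem_sdiff, mem_inter]; tauto
  have d1 : Disjoint (J \ S) (J ∩ S) := by
    rw [disjoint_left]; intro a; simp only [mem_sdiff, mem_inter]; tauto
  have d2 : Disjoint (S \ J) (J ∩ S) := by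
    rw [disjoint_left]; intro a; simp only [mem_sdiff, mem_inter]; tauto
  have d3 : Disjoint (S \ J) (J \ S) := by
    rw [disjoint_left]; intro a; simp only [mem_sdiff]; tauto
  have e3 : symmDiff S J = (S \ J) ∪ (J \ S) := rfl
  have h1 : ∏ e ∈ J, (if e ∈ S then (x e)⁻¹ else x e) =
      (∏ e ∈ J \ S, x e) * ∏ e ∈ J ∩ S, (x e)⁻¹ := by
    conv_lhs => rw [hJ]
    rw [prod_union d1]
    congr 1
    · refine prod_congr rfl fun e he => ?_
      rw [if_neg (mem_sdiff.mp he).2]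
    · refine prod_congr rfl fun e he => ?_
      rw [if_pos (mem_inter.mp he).2]
  have h3 : ∏ e ∈ S, x e = (∏ e ∈ S \ J, x e) * ∏ e ∈ J ∩ S, x e := by
    conv_lhs => rw [hS]
    rw [prod_union d2]
  rw [h1, e3, prod_union d3, h3, prod_inv_distrib]
  have : ∏ e ∈ J ∩ S, x e ≠ 0 := prod_ne_zero_iff.mpr fun e he => hx e (mem_inter.mp he).1
  field_simp

/-- moments: multiplying by `um x J` moves the sources by `∂J` -/
lemma sum_um (h2 : ∀ g : Γ, g + g = 0) {J : Finset ι} (hx : ∀ e ∈ J, x e ≠ 0) (hJ : J ⊆ T)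
    (G : Γ → ℝ) (a : Γ) :
    ∑ S ∈ T.powerset, (∏ e ∈ S, x e) * G (a + bd δ S) * um x J S =
      ZG δ x T G (a + bd δ J) := by
  unfold ZG
  refine sum_bij' (fun S _ => symmDiff S J) (fun S _ => symmDiff S J) ?_ ?_ ?_ ?_ ?_
  · intro S hS
    rw [mem_powerset] at hS ⊢
    exact (symmDiff_le_sup : symmDiff S J ≤ S ⊔ J).trans (union_subset hS hJ)
  · intro S hS
    rw [mem_powerset] at hS ⊢
    exact (symmDiff_le_sup : symmDiff S J ≤ S ⊔ J).trans (union_subset hS hJ)
  · intro S _; simp [symmDiff_assoc]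
  · intro S _; simp [symmDiff_assoc]
  · intro S hS
    rw [bd_symmDiff h2, mul_right_comm, prod_mul_um hx]
    congr 2
    have := h2 (bd δ J)
    calc a + bd δ S = a + bd δ S + (bd δ J + bd δ J) := by rw [this, add_zero]
      _ = _ := by abel

end Pool.Agent.TH980
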