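import Pool.Agent.TH980.A1

/-!
# Positive definiteness of the correlation function, and a bound on truncated correlations
-/

set_option autoImplicit false
set_option linter.unusedSectionVars false
set_option linter.unusedSimpArgs false

open Finset

namespace Pool.Agent.TH980

variable {ι Γ : Type*} [DecidableEq ι] [AddCommGroup Γ] [DecidableEq Γ]

/-- positive definite functions on a group of exponent two -/
def PD (f : Γ → ℝ) : Prop :=
  ∀ (κ : Type) (s : Finset κ) (p : κ → ℝ) (a : κ → Γ),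
    0 ≤ ∑ i ∈ s, ∑ j ∈ s, p i * p j * f (a i + a j)

lemma PD_base (h2 : ∀ g : Γ, g + g = 0) : PD (fun g : Γ => if g = 0 then (1 : ℝ) else 0) := by
  intro κ s p a
  have h1 : ∑ i ∈ s, ∑ j ∈ s, p i * p j * (if a i + a j = 0 then (1 : ℝ) else 0) =
      ∑ g ∈ s.image a, (∑ i ∈ s, if a i = g then p i else 0) ^ 2 := by
    simp_rw [sq, sum_mul_sum]
    rw [sum_comm]
    have h3 : ∀ i ∈ s, ∑ g ∈ s.image a, ∑ j ∈ s,
        (if a i = g then p i else 0) * (if a j = g then p j else 0) =
        ∑ j ∈ s, p i * p j * (if a i + a j = 0 then (1 : ℝ) else 0) := by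
      intro i hi
      rw [sum_comm]
      refine sum_congr rfl fun j hj => ?_
      rw [sum_eq_single (a i)]
      · have : a i + a j = 0 ↔ a j = a i := by
          constructor
          · intro h
            have := h2 (a i)
            calc a j = a i + a i + a j := by rw [this, zero_add]
              _ = a i + (a i + a j) := by abel
              _ = a i := by rw [h, add_zero]
          · intro h; rw [h, h2]
        by_cases hc : a j = a i
        · rw [if_pos rfl, if_pos hc, if_pos (this.mpr hc), mul_one]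
        · rw [if_neg hc, if_neg (fun h => hc (this.mp h)), mul_zero, mul_zero]
      · intro g _ hg
        rw [if_neg (fun h => hg h.symm), zero_mul]
      · intro h; exact absurd (mem_image_of_mem a hi) h
    symm
    rw [sum_comm]
    rw [sum_congr rfl h3]
    rw [sum_comm]
  rw [h1]
  exact sum_nonneg fun g _ => sq_nonneg _

lemma PD_step (h2 : ∀ g : Γ, g + g = 0) {f : Γ → ℝ} (hf : PD f) {r : ℝ} (h0 : 0 ≤ r)
    (h1 : r ≤ 1) (d : Γ) : PD (fun g => f g + r * f (g + d)) := by
  intro κ s p a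
  set A := ∑ i ∈ s, ∑ j ∈ s, p i * p j * f (a i + a j) with hA
  set B := ∑ i ∈ s, ∑ j ∈ s, p i * p j * f (a i + a j + d) with hB
  have hAB : ∀ ε : ℝ, ε * ε = 1 → 0 ≤ A + ε * B := by
    intro ε hε
    have h := hf (κ ⊕ κ) (s.disjSum s) (Sum.elim p (fun i => ε * p i))
      (Sum.elim a (fun i => a i + d))
    simp only [sum_disjSum, Sum.elim_inl, Sum.elim_inr] at h
    have e1 : ∀ i ∈ s, (∑ j ∈ s, p i * p j * f (a i + a j) +
        ∑ j ∈ s, p i * (ε * p j) * f (a i + (a j + d))) =
        ∑ j ∈ s, p i * p j * f (a i + a j) + ε * ∑ j ∈ s, p i * p j * f (a i + a j + d) := by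
      intro i _
      rw [mul_sum]
      congr 1
      refine sum_congr rfl fun j _ => ?_
      rw [← add_assoc (a i)]; ring
    have e2 : ∀ i ∈ s, (∑ j ∈ s, ε * p i * p j * f (a i + d + a j) +
        ∑ j ∈ s, ε * p i * (ε * p j) * f (a i + d + (a j + d))) =
        ε * ∑ j ∈ s, p i * p j * f (a i + a j + d) + ∑ j ∈ s, p i * p j * f (a i + a j) := by
      intro i _
      rw [mul_sum]
      congr 1
      · refine sum_congr rfl fun j _ => ?_
        rw [show a i + d + a j = a i + a j + d by abel]; ring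
      · refine sum_congr rfl fun j _ => ?_
        rw [show a i + d + (a j + d) = a i + a j + (d + d) by abel, h2, add_zero]
        calc ε * p i * (ε * p j) * f (a i + a j) = (ε * ε) * (p i * p j * f (a i + a j)) := by ring
          _ = _ := by rw [hε, one_mul]
    rw [sum_congr rfl e1, sum_congr rfl e2, sum_add_distrib, sum_add_distrib, ← mul_sum, ← hA,
      ← hB] at h
    linarith
  have e3 : ∑ i ∈ s, ∑ j ∈ s, p i * p j * (f (a i + a j) + r * f (a i + a j + d)) =
      A + r * B := by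
    rw [hA, hB, mul_sum, ← sum_add_distrib]
    refine sum_congr rfl fun i _ => ?_
    rw [mul_sum, ← sum_add_distrib]
    refine sum_congr rfl fun j _ => ?_
    ring
  rw [e3]
  have p1 := hAB 1 (by ring)
  have p2 := hAB (-1) (by ring)
  have hA0 : 0 ≤ A := by linarith
  by_cases hB0 : 0 ≤ B
  · have := mul_nonneg h0 hB0; linarith
  · push Not at hB0
    nlinarith

lemma PD_Z (h2 : ∀ g : Γ, g + g = 0) {δ : ι → Γ} {x : ι → ℝ} (hx : ∀ e, 0 ≤ x e)
    (hx1 : ∀ e, x e ≤ 1) (T : Finset ι) : PD (Z δ x T) := by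
  induction T using Finset.induction_on with
  | empty =>
    have : Z δ x ∅ = fun g : Γ => if g = 0 then (1 : ℝ) else 0 := by
      funext g
      unfold Z
      by_cases hg : g = 0
      · subst hg; simp
      · have : ¬ (0 : Γ) = g := fun h => hg h.symm
        simp [hg, this]
    rw [this]
    exact PD_base h2
  | insert e T he ih =>
    have : Z δ x (insert e T) = fun g => Z δ x T g + x e * Z δ x T (g + δ e) := by
      funext g
      exact Z_insert he h2 g
    rw [this]
    exact PD_step h2 ih (hx e) (hx1 e) (δ e)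

lemma PD_cor (h2 : ∀ g : Γ, g + g = 0) {δ : ι → Γ} {x : ι → ℝ} (hx : ∀ e, 0 ≤ x e)
    (hx1 : ∀ e, x e ≤ 1) (T : Finset ι) : PD (cor δ x T) := by
  intro κ s p a
  have h := PD_Z h2 (δ := δ) hx hx1 T κ s p a
  have hp := Z_pos (δ := δ) (T := T) hx
  have : ∑ i ∈ s, ∑ j ∈ s, p i * p j * cor δ x T (a i + a j) =
      (∑ i ∈ s, ∑ j ∈ s, p i * p j * Z δ x T (a i + a j)) / Z δ x T 0 := by
    rw [sum_div]
    refine sum_congr rfl fun i _ => ?_
    rw [sum_div]
    refine sum_congr rfl fun j _ => ?_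
    unfold cor
    ring
  rw [this]
  exact div_nonneg h hp.le

lemma PD_lim {f : ℕ → Γ → ℝ} {g : Γ → ℝ} (hf : ∀ n, PD (f n))
    (h : ∀ a, Filter.Tendsto (fun n => f n a) Filter.atTop (nhds (g a))) : PD g := by
  intro κ s p a
  refine ge_of_tendsto' (b := 0) (f := fun n => ∑ i ∈ s, ∑ j ∈ s, p i * p j * f n (a i + a j))
    (x := Filter.atTop) ?_ (fun n => hf n κ s p a)
  refine tendsto_finsetSum _ fun i _ => tendsto_finsetSum _ fun j _ => ?_
  exact (h _).const_mul _

lemma PD.cauchy {f : Γ → ℝ} (hf : PD f) {κ κ' : Type} (s : Finset κ) (s' : Finset κ')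
    (p : κ → ℝ) (q : κ' → ℝ) (a : κ → Γ) (b : κ' → Γ) :
    (∑ i ∈ s, ∑ j ∈ s', p i * q j * f (a i + b j)) ^ 2 ≤
      (∑ i ∈ s, ∑ j ∈ s, p i * p j * f (a i + a j)) *
        ∑ i ∈ s', ∑ j ∈ s', q i * q j * f (b i + b j) := by
  set A := ∑ i ∈ s, ∑ j ∈ s, p i * p j * f (a i + a j) with hA
  set B := ∑ i ∈ s', ∑ j ∈ s', q i * q j * f (b i + b j) with hB
  set C := ∑ i ∈ s, ∑ j ∈ s', p i * q j * f (a i + b j) with hC
  have key : ∀ l : ℝ, 0 ≤ A * (l * l) + (2 * C) * l + B := by
    intro l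
    have h := hf (κ ⊕ κ') (s.disjSum s') (Sum.elim (fun i => l * p i) q) (Sum.elim a b)
    simp only [sum_disjSum, Sum.elim_inl, Sum.elim_inr] at h
    have e1 : ∑ i ∈ s, (∑ j ∈ s, l * p i * (l * p j) * f (a i + a j) +
        ∑ j ∈ s', l * p i * q j * f (a i + b j)) = A * (l * l) + C * l := by
      rw [hA, hC, sum_mul, sum_mul, ← sum_add_distrib]
      refine sum_congr rfl fun i _ => ?_
      rw [sum_mul, sum_mul]
      congr 1
      · exact sum_congr rfl fun j _ => by ring
      · exact sum_congr rfl fun j _ => by ring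
    have e2 : ∑ i ∈ s', (∑ j ∈ s, q i * (l * p j) * f (b i + a j) +
        ∑ j ∈ s', q i * q j * f (b i + b j)) = C * l + B := by
      rw [sum_add_distrib, ← hB]
      congr 1
      rw [hC, sum_mul, sum_comm]
      refine sum_congr rfl fun i _ => ?_
      rw [sum_mul]
      refine sum_congr rfl fun j _ => ?_
      rw [add_comm (b j)]; ring
    rw [e1, e2] at h
    linarith
  have := discrim_le_zero key
  unfold discrim at this
  nlinarith

/-! ### Truncated correlations -/

variable {δ : ι → Γ} {x : ι → ℝ} {T : Finset ι}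

lemma omt_nonneg (hx : ∀ e, 0 ≤ x e) (hx1 : ∀ e, x e ≤ 1) (U t : Finset ι) :
    0 ≤ omt x T U t := by
  unfold omt
  refine mul_nonneg (prod_nonneg fun e _ => ?_) (prod_nonneg fun e _ => sq_nonneg _)
  have := hx e; have := hx1 e
  nlinarith

/-- Truncated correlations in terms of pairs of configurations and traces. -/
lemma Z_trunc (h2 : ∀ g : Γ, g + g = 0) (a b : Γ) :
    Z δ x T (a + b) * Z δ x T 0 - Z δ x T a * Z δ x T b =
      ∑ S₁ ∈ T.powerset, ∑ S₂ ∈ T.powerset, ((∏ e ∈ S₁, x e) * ∏ e ∈ S₂, x e) *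
        ∑ t ∈ T.powerset with S₁ ∪ S₂ ⊆ t, omt x T (S₁ ∪ S₂) t *
          (if bd δ S₁ = a + b ∧ bd δ S₂ = 0 ∧ ¬ ∃ S ⊆ t, bd δ S = b then 1 else 0) := by
  rw [Z_mul_Z h2 (a + b) 0, Z_mul_Z h2 a b, ← sum_sub_distrib]
  rw [← sum_triples_eq (fun S₁ S₂ t =>
    if bd δ S₁ = a + b ∧ bd δ S₂ = 0 ∧ ¬ ∃ S ⊆ t, bd δ S = b then 1 else 0)]
  refine sum_congr rfl fun t _ => ?_
  rw [add_zero, ← mul_sub]
  by_cases hb : ∃ S ⊆ t, bd δ S = b
  · rw [cnt_eq h2 hb, sub_self, mul_zero]
    symm
    refine sum_eq_zero fun S₁ _ => sum_eq_zero fun S₂ _ => ?_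
    rw [if_neg (fun h => h.2.2 hb), mul_zero]
  · rw [cnt_zero hb, Nat.cast_zero, sub_zero]
    simp only [hb, not_false_eq_true, and_true]
    rw [sum_comm]
    have h3 : ∀ S₂ ∈ t.powerset, (∑ S₁ ∈ t.powerset, om x T t (symmDiff S₁ S₂) *
        (if bd δ S₁ = a + b ∧ bd δ S₂ = 0 then (1 : ℝ) else 0)) =
        (if bd δ S₂ = 0 then 1 else 0) *
          ∑ D ∈ t.powerset, if bd δ D = a + b then om x T t D else 0 := by
      intro S₂ hS₂
      by_cases hb : bd δ S₂ = 0
      · simp only [hb, and_true, if_true, one_mul]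
        rw [mem_powerset] at hS₂
        refine sum_bij' (fun S _ => symmDiff S S₂) (fun S _ => symmDiff S S₂) ?_ ?_ ?_ ?_ ?_
        · intro S hS
          rw [mem_powerset] at hS ⊢
          exact (symmDiff_le_sup : symmDiff S S₂ ≤ S ⊔ S₂).trans (union_subset hS hS₂)
        · intro S hS
          rw [mem_powerset] at hS ⊢
          exact (symmDiff_le_sup : symmDiff S S₂ ≤ S ⊔ S₂).trans (union_subset hS hS₂)
        · intro S _; simp [symmDiff_assoc]
        · intro S _; simp [symmDiff_assoc]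
        · intro S hS
          rw [bd_symmDiff h2, hb, add_zero]
          by_cases ha : bd δ S = a + b
          · rw [if_pos ha, if_pos ha, mul_one]
          · rw [if_neg ha, if_neg ha, mul_zero]
      · simp [hb]
    rw [sum_congr rfl h3, ← sum_mul, mul_comm]
    congr 1
    unfold cnt
    rw [sum_boole]

lemma trunc_le (h2 : ∀ g : Γ, g + g = 0) (hx : ∀ e, 0 ≤ x e) (a b : Γ)
    {ε : ℝ}
    (h : ∀ S₁ ⊆ T, ∀ S₂ ⊆ T, bd δ S₁ = a + b → bd δ S₂ = 0 →
      ∑ t ∈ T.powerset with S₁ ∪ S₂ ⊆ t, omt x T (S₁ ∪ S₂) t *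
          (if ¬ ∃ S ⊆ t, bd δ S = b then 1 else 0) ≤ ε) :
    cor δ x T (a + b) - cor δ x T a * cor δ x T b ≤ ε * cor δ x T (a + b) := by
  have hp := Z_pos (δ := δ) (T := T) hx
  have key : Z δ x T (a + b) * Z δ x T 0 - Z δ x T a * Z δ x T b ≤
      ε * (Z δ x T (a + b) * Z δ x T 0) := by
    rw [Z_trunc h2]
    have e1 : Z δ x T (a + b) * Z δ x T 0 = ∑ S₁ ∈ T.powerset, ∑ S₂ ∈ T.powerset,
        ((∏ e ∈ S₁, x e) * ∏ e ∈ S₂, x e) *
          (if bd δ S₁ = a + b ∧ bd δ S₂ = 0 then 1 else 0) := by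
      unfold Z
      rw [sum_mul_sum]
      refine sum_congr rfl fun S₁ _ => sum_congr rfl fun S₂ _ => ?_
      by_cases h1 : bd δ S₁ = a + b <;> by_cases h3 : bd δ S₂ = 0 <;> simp [h1, h3]
    rw [e1, mul_sum]
    refine sum_le_sum fun S₁ hS₁ => ?_
    rw [mul_sum]
    refine sum_le_sum fun S₂ hS₂ => ?_
    rw [mem_powerset] at hS₁ hS₂
    rw [mul_left_comm]
    refine mul_le_mul_of_nonneg_left ?_ (mul_nonneg (prod_nonneg fun e _ => hx e)
      (prod_nonneg fun e _ => hx e))
    by_cases hc : bd δ S₁ = a + b ∧ bd δ S₂ = 0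
    · rw [if_pos hc, mul_one]
      have := h S₁ hS₁ S₂ hS₂ hc.1 hc.2
      refine le_trans (le_of_eq ?_) this
      refine sum_congr rfl fun t _ => ?_
      congr 1
      by_cases hb : ∃ S ⊆ t, bd δ S = b
      · rw [if_neg (fun h => h.2.2 hb), if_neg (fun h => h hb)]
      · rw [if_pos ⟨hc.1, hc.2, hb⟩, if_pos hb]
    · rw [if_neg hc, mul_zero]
      refine (sum_eq_zero fun t _ => ?_).le
      rw [if_neg (fun h => hc ⟨h.1, h.2.1⟩), mul_zero]
  have e2 : cor δ x T (a + b) - cor δ x T a * cor δ x T b =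
      (Z δ x T (a + b) * Z δ x T 0 - Z δ x T a * Z δ x T b) / (Z δ x T 0) ^ 2 := by
    unfold cor; field_simp
  have e3 : ε * cor δ x T (a + b) = (ε * (Z δ x T (a + b) * Z δ x T 0)) / (Z δ x T 0) ^ 2 := by
    unfold cor; field_simp
  rw [e2, e3]
  exact div_le_div_of_nonneg_right key (by positivity)

/-- Probability that a set `K(t)` of at least `k` edges, all with the same weight `y`, is closed,
when `K(t)` does not depend on the state of its own edges. -/
lemma closed_bound (hx : ∀ e, 0 ≤ x e) (hx1 : ∀ e, x e ≤ 1) {U : Finset ι} (hU : U ⊆ T)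
    (K : Finset ι → Finset ι) (P : Finset ι → Prop) [DecidablePred P] {y : ℝ} (hy0 : 0 ≤ y)
    (hy1 : y < 1) {k : ℕ}
    (h : ∀ t ⊆ T, U ⊆ t → P t → K t ⊆ T ∧ Disjoint (K t) t ∧ k ≤ (K t).card ∧
      (∀ e ∈ K t, x e = y) ∧ ∀ W ⊆ K t, K (t ∪ W) = K t) :
    ∑ t ∈ T.powerset with U ⊆ t, omt x T U t * (if P t then 1 else 0) ≤ (1 - y ^ 2) ^ k := by
  have hy2 : 0 < 1 - y ^ 2 := by nlinarith
  have hy3 : 1 - y ^ 2 ≤ 1 := by nlinarith
  have step : ∀ t ∈ T.powerset.filter (fun t => U ⊆ t ∧ P t),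
      omt x T U t ≤ (1 - y ^ 2) ^ k * ∑ W ∈ (K t).powerset, omt x T U (t ∪ W) := by
    intro t ht
    rw [mem_filter, mem_powerset] at ht
    obtain ⟨htT, hUt, hP⟩ := ht
    obtain ⟨hKT, hKt, hk, hKy, -⟩ := h t htT hUt hP
    have e1 : ∀ W ∈ (K t).powerset, omt x T U (t ∪ W) =
        ((∏ e ∈ (T \ t) \ K t, (1 - x e ^ 2)) * ∏ e ∈ t \ U, x e ^ 2) *
          ((∏ e ∈ W, x e ^ 2) * ∏ e ∈ K t \ W, (1 - x e ^ 2)) := by
      intro W hW
      rw [mem_powerset] at hW
      unfold omt
      have a1 : T \ (t ∪ W) = ((T \ t) \ K t) ∪ (K t \ W) := by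
        ext e
        have := @hKT e
        have := @hW e
        have : e ∈ K t → e ∉ t := fun h => disjoint_left.mp hKt h
        simp only [mem_sdiff, mem_union]
        tauto
      have a2 : (t ∪ W) \ U = (t \ U) ∪ W := by
        ext e
        have := @hUt e
        have := @hW e
        have : e ∈ K t → e ∉ t := fun h => disjoint_left.mp hKt h
        simp only [mem_sdiff, mem_union]
        tauto
      rw [a1, a2, prod_union, prod_union]
      · ring
      · rw [disjoint_left]; intro e he he'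
        exact disjoint_left.mp hKt (hW he') (mem_sdiff.mp he).1
      · rw [disjoint_left]; intro e he he'
        exact (mem_sdiff.mp he).2 (mem_sdiff.mp he').1
    rw [sum_congr rfl e1, ← mul_sum, ← prod_add]
    have e2 : ∏ e ∈ K t, (x e ^ 2 + (1 - x e ^ 2)) = 1 := prod_eq_one fun e _ => by ring
    rw [e2, mul_one]
    unfold omt
    have e3 : ∏ e ∈ T \ t, (1 - x e ^ 2) =
        (∏ e ∈ (T \ t) \ K t, (1 - x e ^ 2)) * (1 - y ^ 2) ^ (K t).card := by
      have a1 : T \ t = ((T \ t) \ K t) ∪ K t := by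
        ext e
        have := @hKT e
        have : e ∈ K t → e ∉ t := fun h => disjoint_left.mp hKt h
        simp only [mem_sdiff, mem_union]
        tauto
      conv_lhs => rw [a1]
      rw [prod_union sdiff_disjoint]
      congr 1
      rw [prod_congr rfl (fun e he => by rw [hKy e he]), prod_const]
    rw [e3]
    have e4 : (1 - y ^ 2) ^ (K t).card ≤ (1 - y ^ 2) ^ k := pow_le_pow_of_le_one hy2.le hy3 hk
    have n1 : 0 ≤ (∏ e ∈ (T \ t) \ K t, (1 - x e ^ 2)) * ∏ e ∈ t \ U, x e ^ 2 := by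
      refine mul_nonneg (prod_nonneg fun e _ => ?_) (prod_nonneg fun e _ => sq_nonneg _)
      have := hx e; have := hx1 e
      nlinarith
    calc _ = ((∏ e ∈ (T \ t) \ K t, (1 - x e ^ 2)) * ∏ e ∈ t \ U, x e ^ 2) *
          (1 - y ^ 2) ^ (K t).card := by ring
      _ ≤ ((∏ e ∈ (T \ t) \ K t, (1 - x e ^ 2)) * ∏ e ∈ t \ U, x e ^ 2) *
          (1 - y ^ 2) ^ k := mul_le_mul_of_nonneg_left e4 n1
      _ = _ := by ring
  have e5 : ∑ t ∈ T.powerset with U ⊆ t, omt x T U t * (if P t then 1 else 0) =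
      ∑ t ∈ T.powerset.filter (fun t => U ⊆ t ∧ P t), omt x T U t := by
    rw [sum_filter, sum_filter]
    refine sum_congr rfl fun t _ => ?_
    by_cases h1 : U ⊆ t <;> by_cases h3 : P t <;> simp [h1, h3]
  rw [e5]
  refine (sum_le_sum step).trans ?_
  rw [← mul_sum]
  have e6 : ∑ t ∈ T.powerset.filter (fun t => U ⊆ t ∧ P t),
      ∑ W ∈ (K t).powerset, omt x T U (t ∪ W) ≤ 1 := by
    rw [← sum_trace_one x hU, sum_sigma']
    have inj : Set.InjOn (fun p : (Σ _ : Finset ι, Finset ι) => p.1 ∪ p.2)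
        (((T.powerset.filter (fun t => U ⊆ t ∧ P t)).sigma fun t => (K t).powerset :
          Finset (Σ _ : Finset ι, Finset ι)) : Set (Σ _ : Finset ι, Finset ι)) := by
      rintro ⟨t, W⟩ htW ⟨t', W'⟩ htW' heq
      rw [mem_coe, mem_sigma, mem_filter, mem_powerset, mem_powerset] at htW htW'
      simp only at htW htW' heq
      obtain ⟨⟨htT, hUt, hP⟩, hW⟩ := htW
      obtain ⟨⟨htT', hUt', hP'⟩, hW'⟩ := htW'
      obtain ⟨-, hd, -, -, hK⟩ := h t htT hUt hP
      obtain ⟨-, hd', -, -, hK'⟩ := h t' htT' hUt' hP'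
      have hKK : K t = K t' := by rw [← hK W hW, heq, hK' W' hW']
      have ht : t = t' := by
        have a1 : t = (t ∪ W) \ K t := by
          ext e
          have := @hW e
          have : e ∈ K t → e ∉ t := fun h => disjoint_left.mp hd h
          simp only [mem_sdiff, mem_union]
          tauto
        have a2 : t' = (t' ∪ W') \ K t' := by
          ext e
          have := @hW' e
          have : e ∈ K t' → e ∉ t' := fun h => disjoint_left.mp hd' h
          simp only [mem_sdiff, mem_union]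
          tauto
        rw [a1, a2, heq, hKK]
      subst ht
      have hWW : W = W' := by
        have a1 : W = (t ∪ W) \ t := by
          ext e
          have := @hW e
          have : e ∈ K t → e ∉ t := fun h => disjoint_left.mp hd h
          simp only [mem_sdiff, mem_union]
          tauto
        have a2 : W' = (t ∪ W') \ t := by
          ext e
          have := @hW' e
          have : e ∈ K t → e ∉ t := fun h => disjoint_left.mp hd h
          simp only [mem_sdiff, mem_union]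
          tauto
        rw [a1, a2, heq]
      rw [hWW]
    rw [← sum_image (f := fun t => omt x T U t) inj]
    have hsub : ((T.powerset.filter (fun t => U ⊆ t ∧ P t)).sigma fun t => (K t).powerset).image
        (fun p : (Σ _ : Finset ι, Finset ι) => p.1 ∪ p.2) ⊆
        T.powerset.filter (fun t => U ⊆ t) := by
      intro s hs
      rw [mem_image] at hs
      obtain ⟨⟨t, W⟩, htW, rfl⟩ := hs
      rw [mem_sigma, mem_filter, mem_powerset, mem_powerset] at htW
      simp only at htW
      obtain ⟨⟨htT, hUt, hP⟩, hW⟩ := htW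
      obtain ⟨hKT, -, -, -, -⟩ := h t htT hUt hP
      rw [mem_filter, mem_powerset]
      exact ⟨union_subset htT (hW.trans hKT), hUt.trans subset_union_left⟩
    exact sum_le_sum_of_subset_of_nonneg hsub fun t _ _ => omt_nonneg hx hx1 U t
  calc (1 - y ^ 2) ^ k * ∑ t ∈ T.powerset.filter (fun t => U ⊆ t ∧ P t),
      ∑ W ∈ (K t).powerset, omt x T U (t ∪ W) ≤ (1 - y ^ 2) ^ k * 1 :=
        mul_le_mul_of_nonneg_left e6 (pow_nonneg hy2.le k)
    _ = _ := mul_one _

end Pool.Agent.TH980
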