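import Pool.Agent.TH980.A2

/-!
# Local events in terms of correlations
-/

set_option autoImplicit false
set_option linter.unusedSectionVars false
set_option linter.unusedSimpArgs false

open Finset

namespace Pool.Agent.TH980

variable {ι Γ : Type*} [DecidableEq ι] [AddCommGroup Γ] [DecidableEq Γ]
variable {δ : ι → Γ} {x : ι → ℝ} {T : Finset ι}

/-- coefficients of the indicator of `η_e = s` in terms of `u_e = x^(1 - 2 η_e)` -/
noncomputable def al (x : ℝ) (s : Bool) : ℝ := if s then -x ^ 2 / (1 - x ^ 2) else 1 / (1 - x ^ 2)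

/-- coefficients of the indicator of `η_e = s` in terms of `u_e = x^(1 - 2 η_e)` -/
noncomputable def gm (x : ℝ) (s : Bool) : ℝ := if s then x / (1 - x ^ 2) else -x / (1 - x ^ 2)

lemma al_gm {x : ℝ} (hx : x ≠ 0) (hx1 : 1 - x ^ 2 ≠ 0) (s t : Bool) :
    gm x s * (if t then x⁻¹ else x) + al x s = if t = s then 1 else 0 := by
  unfold gm al
  rcases s <;> rcases t <;> simp <;> field_simp <;> ring

/-- Sums over configurations with prescribed restriction to `B`. -/
lemma cyl_sum (h2 : ∀ g : Γ, g + g = 0) {B : Finset ι} (hx : ∀ e ∈ B, x e ≠ 0)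
    (hx1 : ∀ e ∈ B, 1 - x e ^ 2 ≠ 0) (hB : B ⊆ T) (G : Γ → ℝ) (a : Γ) (s : ι → Bool) :
    ∑ S ∈ T.powerset, (∏ e ∈ S, x e) * G (a + bd δ S) *
        (if ∀ e ∈ B, decide (e ∈ S) = s e then 1 else 0) =
      ∑ J ∈ B.powerset, (∏ e ∈ J, gm (x e) (s e)) * (∏ e ∈ B \ J, al (x e) (s e)) *
        ZG δ x T G (a + bd δ J) := by
  have h1 : ∀ J ∈ B.powerset, (∏ e ∈ J, gm (x e) (s e)) * (∏ e ∈ B \ J, al (x e) (s e)) *
        ZG δ x T G (a + bd δ J) = ∑ S ∈ T.powerset, (∏ e ∈ S, x e) * G (a + bd δ S) *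
        ((∏ e ∈ J, gm (x e) (s e) * (if decide (e ∈ S) then (x e)⁻¹ else x e)) *
          (∏ e ∈ B \ J, al (x e) (s e))) := by
    intro J hJ
    rw [mem_powerset] at hJ
    rw [← sum_um h2 (fun e he => hx e (hJ he)) (hJ.trans hB), mul_sum]
    refine sum_congr rfl fun S _ => ?_
    unfold um
    rw [prod_mul_distrib]
    have : ∏ e ∈ J, (if e ∈ S then (x e)⁻¹ else x e) =
        ∏ e ∈ J, (if decide (e ∈ S) then (x e)⁻¹ else x e) := by
      refine prod_congr rfl fun e _ => ?_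
      by_cases h : e ∈ S <;> simp [h]
    rw [this]
    ring
  rw [sum_congr rfl h1, sum_comm]
  refine sum_congr rfl fun S _ => ?_
  rw [← mul_sum, ← prod_add]
  congr 1
  rw [prod_congr rfl (fun e he => al_gm (hx e he) (hx1 e he) (s e) (decide (e ∈ S)))]
  rw [prod_ite_zero]
  simp

/-- `∏_{e ∈ J \ F} x_e⁻¹ ∏_{e ∈ F} (x_e - x_e⁻¹)` -/
noncomputable def exc (x : ι → ℝ) (J F : Finset ι) : ℝ :=
  (∏ e ∈ F, (x e - (x e)⁻¹)) * ∏ e ∈ J \ F, (x e)⁻¹

lemma um_expand (J S : Finset ι) :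
    um x J S = ∑ F ∈ J.powerset, exc x J F * (if Disjoint F S then 1 else 0) := by
  unfold um
  have h1 : ∀ e ∈ J, (if e ∈ S then (x e)⁻¹ else x e) =
      (x e - (x e)⁻¹) * (if e ∉ S then 1 else 0) + (x e)⁻¹ := by
    intro e _
    by_cases h : e ∈ S <;> simp [h]
  rw [prod_congr rfl h1, prod_add]
  refine sum_congr rfl fun F _ => ?_
  unfold exc
  rw [prod_mul_distrib, prod_ite_zero]
  have : (∀ i ∈ F, i ∉ S) ↔ Disjoint F S := disjoint_left.symm
  by_cases h : Disjoint F S
  · rw [if_pos (this.mpr h), if_pos h]; simp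
  · rw [if_neg (fun h' => h (this.mp h')), if_neg h]; simp

lemma sum_disjoint_eq (T F : Finset ι) :
    ∑ S ∈ T.powerset, (if bd δ S = 0 then ∏ e ∈ S, x e else 0) * (if Disjoint F S then 1 else 0) =
      Z δ x (T \ F) 0 := by
  unfold Z
  have hsub : (T \ F).powerset ⊆ T.powerset := powerset_mono.mpr sdiff_subset
  rw [← sum_subset hsub]
  · refine sum_congr rfl fun S hS => ?_
    rw [mem_powerset] at hS
    have hd : Disjoint F S := by
      rw [disjoint_left]
      intro e he heS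
      exact (mem_sdiff.mp (hS heS)).2 he
    rw [if_pos hd, mul_one]
  · intro S hST hS
    rw [mem_powerset] at hST hS
    have hd : ¬ Disjoint F S := by
      intro hd
      apply hS
      intro e he
      rw [mem_sdiff]
      exact ⟨hST he, fun h => disjoint_left.mp hd h he⟩
    rw [if_neg hd, mul_zero]

lemma ZG_delta (h2 : ∀ g : Γ, g + g = 0) (c : Γ) :
    ZG δ x T (fun g => if g = 0 then 1 else 0) c = Z δ x T c := by
  unfold ZG Z
  refine sum_congr rfl fun S _ => ?_
  have : c + bd δ S = 0 ↔ bd δ S = c := by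
    constructor
    · intro h
      calc bd δ S = c + c + bd δ S := by rw [h2, zero_add]
        _ = c + (c + bd δ S) := by abel
        _ = _ := by rw [h, add_zero]
    · intro h; rw [h, h2]
  by_cases hc : bd δ S = c
  · rw [if_pos hc]
    show _ * (if c + bd δ S = 0 then (1 : ℝ) else 0) = _
    rw [if_pos (this.mpr hc), mul_one]
  · rw [if_neg hc]
    show _ * (if c + bd δ S = 0 then (1 : ℝ) else 0) = _
    rw [if_neg (fun h => hc (this.mp h)), mul_zero]

/-- Correlations in terms of the probabilities that sets of edges are empty. -/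
lemma expand2 (h2 : ∀ g : Γ, g + g = 0) {J J' : Finset ι} (hx : ∀ e ∈ J ∪ J', x e ≠ 0)
    (hJ : J ⊆ T) (hJ' : J' ⊆ T) (hd : Disjoint J J') :
    Z δ x T (bd δ J + bd δ J') = ∑ F ∈ J.powerset, ∑ F' ∈ J'.powerset,
      exc x J F * exc x J' F' * Z δ x (T \ (F ∪ F')) 0 := by
  have h0 := sum_um (δ := δ) (x := x) (T := T) h2 hx (union_subset hJ hJ')
    (fun g => if g = 0 then 1 else 0) 0
  rw [ZG_delta h2, zero_add, bd_union_disj δ hd] at h0
  rw [← h0]
  have h3 : ∀ S ∈ T.powerset, (∏ e ∈ S, x e) * (if 0 + bd δ S = 0 then 1 else 0) *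
      um x (J ∪ J') S = ∑ F ∈ J.powerset, ∑ F' ∈ J'.powerset, exc x J F * exc x J' F' *
        ((if bd δ S = 0 then ∏ e ∈ S, x e else 0) *
          (if Disjoint (F ∪ F') S then 1 else 0)) := by
    intro S _
    have e1 : um x (J ∪ J') S = um x J S * um x J' S := by
      unfold um; rw [prod_union hd]
    rw [e1, um_expand, um_expand, sum_mul_sum, mul_sum]
    refine sum_congr rfl fun F _ => ?_
    rw [mul_sum]
    refine sum_congr rfl fun F' _ => ?_
    rw [zero_add]
    by_cases hb : bd δ S = 0 <;> by_cases hF : Disjoint F S <;> by_cases hF' : Disjoint F' S <;>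
      simp [hb, hF, hF', disjoint_union_left] <;> ring
  rw [sum_congr rfl h3, sum_comm]
  refine sum_congr rfl fun F _ => ?_
  rw [sum_comm]
  refine sum_congr rfl fun F' _ => ?_
  rw [← mul_sum, sum_disjoint_eq]

/-- the probability that all edges of `F` are empty -/
lemma empty_prob (h2 : ∀ g : Γ, g + g = 0) {F : Finset ι} (hx : ∀ e ∈ F, x e ≠ 0)
    (hx1 : ∀ e ∈ F, 1 - x e ^ 2 ≠ 0) (hF : F ⊆ T) :
    Z δ x (T \ F) 0 = ∑ J ∈ F.powerset, (∏ e ∈ J, gm (x e) false) *
      (∏ e ∈ F \ J, al (x e) false) * Z δ x T (bd δ J) := by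
  have h := cyl_sum (δ := δ) (x := x) (T := T) h2 hx hx1 hF (fun g => if g = 0 then 1 else 0) 0
    (fun _ => false)
  simp only [ZG_delta h2, zero_add] at h
  rw [← h, ← sum_disjoint_eq]
  refine sum_congr rfl fun S _ => ?_
  have : (∀ e ∈ F, decide (e ∈ S) = false) ↔ Disjoint F S := by
    rw [disjoint_left]
    simp
  rw [show (if ∀ e ∈ F, decide (e ∈ S) = false then (1 : ℝ) else 0) =
    (if Disjoint F S then 1 else 0) from if_congr this rfl rfl]
  congr 1
  by_cases h3 : bd δ S = 0 <;> simp [h3]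

end Pool.Agent.TH980
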