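import Pool.Agent.TH980.M6

/-!
# Averages of local events with sources
-/

set_option autoImplicit false
set_option linter.unusedSectionVars false
set_option linter.unusedSimpArgs false

open Finset Filter Topology MeasureTheory

namespace Pool.Agent.TH980

variable {d : ℕ}

/-- properties of a correlation function -/
structure GoodC (c : Gam d → ℝ) : Prop where
  pd : PD c
  zero : c 0 = 1
  nonneg : ∀ a, 0 ≤ c a
  le_one : ∀ a, c a ≤ 1
  gks : ∀ a b, c a * c b ≤ c (a + b)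
  shift : ∀ v a, c (sh v a) = c a
  mix : Mix c

lemma good_cp {x : ℝ} (hx : 0 < x) (hx1 : x < 1) : GoodC (cp d x) where
  pd := cp_PD hx.le hx1.le
  zero := cp_zero hx.le hx1.le
  nonneg := cp_nonneg hx.le hx1.le
  le_one := cp_le_one hx.le hx1.le
  gks := cp_gks hx.le hx1.le
  shift := cp_sh hx.le hx1.le
  mix := Mix_cp hx.le hx1.le

lemma good_ci {x : ℝ} (hx : 0 < x) (hx1 : x < 1) : GoodC (ci d x 0) where
  pd := ci_PD hx.le hx1.le le_rfl zero_le_one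
  zero := ci_zero hx.le hx1.le le_rfl zero_le_one
  nonneg := ci_nonneg hx.le hx1.le le_rfl zero_le_one
  le_one := ci_le_one hx.le hx1.le le_rfl zero_le_one
  gks := ci_gks hx.le hx1.le le_rfl zero_le_one
  shift := ci_sh hx.le hx1.le le_rfl zero_le_one
  mix := Mix_ci hx hx1

/-- the filter of large finite sets -/
def big (d : ℕ) : Filter (Finset (Vtx d)) := comap Finset.card atTop

lemma ev_big (N : ℕ) : ∀ᶠ Λ in big d, N ≤ Λ.card :=
  tendsto_comap.eventually (eventually_ge_atTop N)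

/-- truncated correlation -/
def del (c : Gam d → ℝ) (b : Gam d) (x y z : Vtx d) : ℝ :=
  c (dV x + dV y + sh z b) - c (dV x + dV y) * c b

section good

variable {c : Gam d → ℝ}

lemma GoodC.del_nonneg (hc : GoodC c) (b : Gam d) (x y z : Vtx d) : 0 ≤ del c b x y z := by
  unfold del
  have := hc.gks (dV x + dV y) (sh z b)
  rw [hc.shift] at this
  linarith

lemma cesaro {g : Vtx d → ℝ} (hg : Tendsto g cofinite (𝓝 0)) (h1 : ∀ v, g v ≤ 1) {ε : ℝ}
    (hε : 0 < ε) : ∀ᶠ Λ in big d, ∑ z ∈ Λ, ∑ z' ∈ Λ, g (z' - z) ≤ ε * (Λ.card : ℝ) ^ 2 := by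
  classical
  have h2 : ∀ᶠ v in cofinite, g v < ε / 2 := (tendsto_order.mp hg).2 _ (by positivity)
  rw [eventually_cofinite] at h2
  set E := h2.toFinset with hE
  obtain ⟨N, hN⟩ := exists_nat_gt (2 * (E.card : ℝ) / ε)
  filter_upwards [ev_big N] with Λ hΛ
  have hN' : 2 * (E.card : ℝ) ≤ ε * Λ.card := by
    rw [div_lt_iff₀ hε] at hN
    have : (N : ℝ) ≤ Λ.card := by exact_mod_cast hΛ
    nlinarith
  have h3 : ∀ z ∈ Λ, ∑ z' ∈ Λ, g (z' - z) ≤ ε / 2 * Λ.card + E.card := by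
    intro z _
    have h4 : ∀ z' ∈ Λ, g (z' - z) ≤ ε / 2 + if z' - z ∈ E then 1 else 0 := by
      intro z' _
      by_cases h : z' - z ∈ E
      · rw [if_pos h]
        have := h1 (z' - z)
        linarith
      · rw [if_neg h, add_zero]
        rw [hE, Set.Finite.mem_toFinset, Set.mem_ofPred_eq, not_not] at h
        exact h.le
    refine (sum_le_sum h4).trans ?_
    rw [sum_add_distrib, sum_const, nsmul_eq_mul, mul_comm]
    refine add_le_add le_rfl ?_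
    rw [sum_boole]
    have h5 : (Λ.filter (fun z' => z' - z ∈ E)).card ≤ E.card := by
      refine card_le_card_of_injOn (fun z' => z' - z) ?_ ?_
      · intro z' hz'
        exact (mem_filter.mp hz').2
      · intro a _ b _ hab
        exact sub_left_injective hab
    exact_mod_cast h5
  refine (sum_le_sum h3).trans ?_
  rw [sum_const, nsmul_eq_mul]
  have : (0 : ℝ) ≤ Λ.card := Nat.cast_nonneg _
  nlinarith

lemma GoodC.del_sq (hc : GoodC c) (b : Gam d) (Λ : Finset (Vtx d)) :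
    (∑ x ∈ Λ, ∑ y ∈ Λ, ∑ z ∈ Λ, del c b x y z) ^ 2 ≤ (Λ.card : ℝ) ^ 4 *
      ∑ z ∈ Λ, ∑ z' ∈ Λ, (c (b + sh (z' - z) b) - c b * c b) := by
  have h := hc.pd.cauchy (Λ ×ˢ Λ) (insertNone Λ) (fun _ => 1)
    (fun o => o.elim (-(Λ.card : ℝ) * c b) (fun _ => 1)) (fun p => dV p.1 + dV p.2)
    (fun o => o.elim 0 (fun z => sh z b))
  have e1 : ∑ i ∈ Λ ×ˢ Λ, ∑ j ∈ insertNone Λ, (1 : ℝ) * (j.elim (-(Λ.card : ℝ) * c b) (fun _ => 1)) *
      c ((dV i.1 + dV i.2) + j.elim 0 (fun z => sh z b)) =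
      ∑ x ∈ Λ, ∑ y ∈ Λ, ∑ z ∈ Λ, del c b x y z := by
    rw [sum_product]
    refine sum_congr rfl fun x _ => sum_congr rfl fun y _ => ?_
    rw [sum_insertNone]
    simp only [Option.elim_none, Option.elim_some, one_mul, add_zero]
    unfold del
    rw [sum_sub_distrib, sum_const, nsmul_eq_mul]
    ring
  have e2 : ∑ i ∈ Λ ×ˢ Λ, ∑ j ∈ Λ ×ˢ Λ, (1 : ℝ) * 1 * c ((dV i.1 + dV i.2) + (dV j.1 + dV j.2)) ≤
      (Λ.card : ℝ) ^ 4 := by
    have : ∀ i ∈ Λ ×ˢ Λ, ∑ j ∈ Λ ×ˢ Λ, (1 : ℝ) * 1 * c ((dV i.1 + dV i.2) + (dV j.1 + dV j.2)) ≤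
        (Λ.card : ℝ) ^ 2 := by
      intro i _
      refine (sum_le_card_nsmul _ _ 1 fun j _ => ?_).trans ?_
      · rw [one_mul, one_mul]; exact hc.le_one _
      · rw [nsmul_eq_mul, mul_one, card_product]
        push_cast
        exact le_of_eq (by ring)
    refine (sum_le_card_nsmul _ _ _ this).trans ?_
    rw [nsmul_eq_mul, card_product]
    push_cast
    exact le_of_eq (by ring)
  have e3 : ∑ i ∈ insertNone Λ, ∑ j ∈ insertNone Λ,
      (i.elim (-(Λ.card : ℝ) * c b) (fun _ => 1)) * (j.elim (-(Λ.card : ℝ) * c b) (fun _ => 1)) *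
      c (i.elim 0 (fun z => sh z b) + j.elim 0 (fun z => sh z b)) =
      ∑ z ∈ Λ, ∑ z' ∈ Λ, (c (b + sh (z' - z) b) - c b * c b) := by
    rw [sum_insertNone]
    simp only [sum_insertNone, Option.elim_none, Option.elim_some, one_mul, mul_one, add_zero,
      zero_add, hc.zero, hc.shift]
    have e4 : ∀ z ∈ Λ, ∑ z' ∈ Λ, c (sh z b + sh z' b) = ∑ z' ∈ Λ, c (b + sh (z' - z) b) := by
      intro z _
      refine sum_congr rfl fun z' _ => ?_
      rw [← hc.shift z (b + sh (z' - z) b), map_add, sh_sh, add_sub_cancel]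
    rw [sum_add_distrib, sum_congr rfl e4]
    simp only [sum_sub_distrib, sum_const, nsmul_eq_mul]
    ring
  rw [e1, e3] at h
  refine h.trans (mul_le_mul_of_nonneg_right e2 ?_)
  refine sum_nonneg fun z _ => sum_nonneg fun z' _ => ?_
  have := hc.gks b (sh (z' - z) b)
  rw [hc.shift] at this
  linarith

lemma GoodC.del_avg (hc : GoodC c) (J : Finset (Edg d)) :
    Tendsto (fun Λ : Finset (Vtx d) =>
      (∑ x ∈ Λ, ∑ y ∈ Λ, ∑ z ∈ Λ, del c (bd dE J) x y z) / (Λ.card : ℝ) ^ 3) (big d) (𝓝 0) := by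
  have h0 : ∀ Λ : Finset (Vtx d), 0 ≤ ∑ x ∈ Λ, ∑ y ∈ Λ, ∑ z ∈ Λ, del c (bd dE J) x y z :=
    fun Λ => sum_nonneg fun x _ => sum_nonneg fun y _ => sum_nonneg fun z _ =>
      hc.del_nonneg _ _ _ _
  rw [tendsto_order]
  constructor
  · intro a ha
    refine Eventually.of_forall fun Λ => ha.trans_le (div_nonneg (h0 Λ) (by positivity))
  · intro ε hε
    have h1 : Tendsto (fun v : Vtx d => c (bd dE J + sh v (bd dE J)) -
        c (bd dE J) * c (bd dE J)) cofinite (𝓝 0) := by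
      have := (hc.mix J J).sub_const (c (bd dE J) * c (bd dE J))
      rwa [sub_self] at this
    have h2 := cesaro h1 (fun v => by
      have := hc.le_one (bd dE J + sh v (bd dE J))
      have := mul_nonneg (hc.nonneg (bd dE J)) (hc.nonneg (bd dE J))
      linarith) (ε := (ε / 2) ^ 2) (by positivity)
    filter_upwards [h2, ev_big 1] with Λ hΛ hΛ1
    have hN : (0 : ℝ) < Λ.card := by exact_mod_cast hΛ1
    have h3 := hc.del_sq (bd dE J) Λ
    have h4 : (∑ x ∈ Λ, ∑ y ∈ Λ, ∑ z ∈ Λ, del c (bd dE J) x y z) ^ 2 ≤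
        (ε / 2 * (Λ.card : ℝ) ^ 3) ^ 2 := by
      refine h3.trans ?_
      calc (Λ.card : ℝ) ^ 4 * ∑ z ∈ Λ, ∑ z' ∈ Λ, (c (bd dE J + sh (z' - z) (bd dE J)) -
            c (bd dE J) * c (bd dE J)) ≤ (Λ.card : ℝ) ^ 4 * ((ε / 2) ^ 2 * (Λ.card : ℝ) ^ 2) :=
            mul_le_mul_of_nonneg_left hΛ (by positivity)
        _ = _ := by ring
    have h5 := abs_le_of_sq_le_sq' h4 (by positivity)
    rw [div_lt_iff₀ (by positivity)]
    have : 0 < ε / 2 * (Λ.card : ℝ) ^ 3 := by positivity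
    linarith [h5.2]

lemma abs_coef_sum {x : ℝ} (c' : Finset (Edg d) → ℝ) (B : Finset (Edg d)) (s : Edg d → Bool)
    (h0 : ∀ J, 0 ≤ c' J) (h1 : ∀ J, c' J ≤ 1) :
    |∑ J ∈ B.powerset, (∏ e ∈ J, gm x (s e)) * (∏ e ∈ B \ J, al x (s e)) * c' J| ≤
      ∑ J ∈ B.powerset, |(∏ e ∈ J, gm x (s e)) * (∏ e ∈ B \ J, al x (s e))| := by
  refine (abs_sum_le_sum_abs _ _).trans (sum_le_sum fun J _ => ?_)
  rw [abs_mul, abs_of_nonneg (h0 J)]
  exact mul_le_of_le_one_right (abs_nonneg _) (h1 J)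

lemma GoodC.elz_diff (hc : GoodC c) (x : ℝ) (u v z : Vtx d) (B : Finset (Edg d))
    (s : Edg d → Bool) :
    |elz x c (dV u + dV v) z B s - c (dV u + dV v) * ell x c 0 B s| ≤
      ∑ J ∈ B.powerset, |(∏ e ∈ J, gm x (s e)) * (∏ e ∈ B \ J, al x (s e))| *
        del c (bd dE J) u v z := by
  unfold elz ell
  rw [mul_sum, ← sum_sub_distrib]
  refine (abs_sum_le_sum_abs _ _).trans (le_of_eq (sum_congr rfl fun J _ => ?_))
  rw [zero_add]
  have : (∏ e ∈ J, gm x (s e)) * (∏ e ∈ B \ J, al x (s e)) * c (dV u + dV v + sh z (bd dE J)) -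
      c (dV u + dV v) * ((∏ e ∈ J, gm x (s e)) * (∏ e ∈ B \ J, al x (s e)) * c (bd dE J)) =
      ((∏ e ∈ J, gm x (s e)) * (∏ e ∈ B \ J, al x (s e))) * del c (bd dE J) u v z := by
    unfold del
    ring
  rw [this, abs_mul, abs_of_nonneg (hc.del_nonneg _ _ _ _)]

end good

lemma qz_bound {x : ℝ} (hx : 0 ≤ x) (hx1 : x ≤ 1) {c₁ c₂ : Gam d → ℝ} (h1 : GoodC c₁)
    (h2 : GoodC c₂) (B : Finset (Edg d)) (m : Om d) (hq : 0 ≤ qq x c₁ c₂ 0 B m) :
    ∃ k : Finset (Edg d) → ℝ, ∀ u v z : Vtx d, qz x c₁ c₂ (dV u + dV v) z B m ≤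
      qq x c₁ c₂ 0 B m + ∑ J ∈ B.powerset, k J * (del c₁ (bd dE J) u v z +
        del c₂ (bd dE J) u v z) := by
  set k1 : Finset (Edg d) → ℝ := fun J =>
    |(∏ e ∈ J, gm x (m (0, e))) * (∏ e ∈ B \ J, al x (m (0, e)))| with hk1
  set k2 : Finset (Edg d) → ℝ := fun J =>
    |(∏ e ∈ J, gm x (m (1, e))) * (∏ e ∈ B \ J, al x (m (1, e)))| with hk2
  set K1 := ∑ J ∈ B.powerset, k1 J with hK1
  set K2 := ∑ J ∈ B.powerset, k2 J with hK2
  set P := ∏ e ∈ B, kp x (m (0, e) || m (1, e)) (m (2, e)) with hP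
  have hP0 : 0 ≤ P := prod_nonneg fun e _ => kp_nonneg hx hx1 _ _
  have hk10 : ∀ J, 0 ≤ k1 J := fun J => abs_nonneg _
  have hk20 : ∀ J, 0 ≤ k2 J := fun J => abs_nonneg _
  have hK10 : 0 ≤ K1 := sum_nonneg fun J _ => hk10 J
  have hK20 : 0 ≤ K2 := sum_nonneg fun J _ => hk20 J
  refine ⟨fun J => P * (k1 J * K2 + K1 * k2 J), fun u v z => ?_⟩
  set E1 := elz x c₁ (dV u + dV v) z B (fun e => m (0, e)) with hE1
  set E2 := elz x c₂ (dV u + dV v) z B (fun e => m (1, e)) with hE2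
  set l1 := ell x c₁ 0 B (fun e => m (0, e)) with hl1
  set l2 := ell x c₂ 0 B (fun e => m (1, e)) with hl2
  set a1 := c₁ (dV u + dV v) with ha1
  set a2 := c₂ (dV u + dV v) with ha2
  have ha10 := h1.nonneg (dV u + dV v)
  have ha11 := h1.le_one (dV u + dV v)
  have ha20 := h2.nonneg (dV u + dV v)
  have ha21 := h2.le_one (dV u + dV v)
  have d1 : |E1 - a1 * l1| ≤ ∑ J ∈ B.powerset, k1 J * del c₁ (bd dE J) u v z :=
    h1.elz_diff x u v z B _
  have d2 : |E2 - a2 * l2| ≤ ∑ J ∈ B.powerset, k2 J * del c₂ (bd dE J) u v z :=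
    h2.elz_diff x u v z B _
  have b1 : |l1| ≤ K1 := by
    refine abs_coef_sum (fun J => c₁ (0 + bd dE J)) B _ (fun J => h1.nonneg _)
      (fun J => h1.le_one _)
  have b2 : |E2| ≤ K2 := by
    refine abs_coef_sum (fun J => c₂ (dV u + dV v + sh z (bd dE J))) B _ (fun J => h2.nonneg _)
      (fun J => h2.le_one _)
  have e1 : E1 * E2 ≤ a1 * l1 * (a2 * l2) + (|E1 - a1 * l1| * K2 + K1 * |E2 - a2 * l2|) := by
    have i1 : E1 * E2 - a1 * l1 * (a2 * l2) = (E1 - a1 * l1) * E2 + a1 * l1 * (E2 - a2 * l2) := by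
      ring
    have i2 : (E1 - a1 * l1) * E2 ≤ |E1 - a1 * l1| * K2 := by
      calc (E1 - a1 * l1) * E2 ≤ |(E1 - a1 * l1) * E2| := le_abs_self _
        _ = |E1 - a1 * l1| * |E2| := abs_mul _ _
        _ ≤ _ := mul_le_mul_of_nonneg_left b2 (abs_nonneg _)
    have i3 : a1 * l1 * (E2 - a2 * l2) ≤ K1 * |E2 - a2 * l2| := by
      calc a1 * l1 * (E2 - a2 * l2) ≤ |a1 * l1 * (E2 - a2 * l2)| := le_abs_self _
        _ = a1 * |l1| * |E2 - a2 * l2| := by rw [abs_mul, abs_mul, abs_of_nonneg ha10]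
        _ ≤ 1 * K1 * |E2 - a2 * l2| := by
            refine mul_le_mul_of_nonneg_right ?_ (abs_nonneg _)
            exact mul_le_mul ha11 b1 (abs_nonneg _) zero_le_one
        _ = _ := by ring
    linarith
  have e2 : a1 * l1 * (a2 * l2) * P ≤ l1 * l2 * P := by
    have hq' : 0 ≤ l1 * l2 * P := hq
    have : a1 * l1 * (a2 * l2) * P = (a1 * a2) * (l1 * l2 * P) := by ring
    rw [this]
    have h12 : a1 * a2 ≤ 1 := mul_le_one₀ ha11 ha20 ha21
    exact mul_le_of_le_one_left hq' h12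
  have e3 : ∑ J ∈ B.powerset, P * (k1 J * K2 + K1 * k2 J) * (del c₁ (bd dE J) u v z +
      del c₂ (bd dE J) u v z) ≥ P * (|E1 - a1 * l1| * K2 + K1 * |E2 - a2 * l2|) := by
    have i1 : P * (|E1 - a1 * l1| * K2 + K1 * |E2 - a2 * l2|) ≤
        P * ((∑ J ∈ B.powerset, k1 J * del c₁ (bd dE J) u v z) * K2 +
          K1 * ∑ J ∈ B.powerset, k2 J * del c₂ (bd dE J) u v z) := by
      refine mul_le_mul_of_nonneg_left ?_ hP0
      exact add_le_add (mul_le_mul_of_nonneg_right d1 hK20) (mul_le_mul_of_nonneg_left d2 hK10)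
    refine le_trans i1 ?_
    rw [sum_mul, mul_sum, ← sum_add_distrib, mul_sum]
    refine sum_le_sum fun J _ => ?_
    have g1 := h1.del_nonneg (bd dE J) u v z
    have g2 := h2.del_nonneg (bd dE J) u v z
    have p1 : 0 ≤ P * (k1 J * K2) * del c₂ (bd dE J) u v z :=
      mul_nonneg (mul_nonneg hP0 (mul_nonneg (hk10 J) hK20)) g2
    have p2 : 0 ≤ P * (K1 * k2 J) * del c₁ (bd dE J) u v z :=
      mul_nonneg (mul_nonneg hP0 (mul_nonneg hK10 (hk20 J))) g1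
    nlinarith
  show E1 * E2 * P ≤ l1 * l2 * P + _
  have e4 := mul_le_mul_of_nonneg_right e1 hP0
  nlinarith

/-- Averages of the weights of translated local events with two sources. -/
lemma qv_avg {x : ℝ} (hx : 0 < x) (hx1 : x < 1) {Q : Measure (Om d)} [IsProbabilityMeasure Q]
    (hQ : IsQ x Q) {B : Finset (Edg d)} {A : Set (Om d)} (hA : Loc B A) :
    ∃ err : Finset (Vtx d) → ℝ, Tendsto err (big d) (𝓝 0) ∧ ∀ᶠ Λ in big d,
      ∑ u ∈ Λ, ∑ v ∈ Λ, ∑ z ∈ Λ, qv x (cp d x) (ci d x 0) (dV u + dV v) (tE z B) (shO z ⁻¹' A) ≤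
        (Q.real A + err Λ) * (Λ.card : ℝ) ^ 3 := by
  have h1 : GoodC (cp d x) := good_cp hx hx1
  have h2 : GoodC (ci d x 0) := good_ci hx hx1
  have hq : ∀ M, 0 ≤ qq x (cp d x) (ci d x 0) 0 B (pt M) := by
    intro M
    rw [← hQ]
    exact measureReal_nonneg
  choose k hk using fun M => qz_bound hx.le hx1.le h1 h2 B (pt M) (hq M)
  refine ⟨fun Λ => ∑ M ∈ PB B, ind A (pt M) * ∑ J ∈ B.powerset, k M J *
    ((∑ u ∈ Λ, ∑ v ∈ Λ, ∑ z ∈ Λ, del (cp d x) (bd dE J) u v z) / (Λ.card : ℝ) ^ 3 +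
      (∑ u ∈ Λ, ∑ v ∈ Λ, ∑ z ∈ Λ, del (ci d x 0) (bd dE J) u v z) / (Λ.card : ℝ) ^ 3), ?_, ?_⟩
  · have t1 : Tendsto (fun Λ : Finset (Vtx d) => ∑ M ∈ PB B, ind A (pt M) *
        ∑ J ∈ B.powerset, k M J *
        ((∑ u ∈ Λ, ∑ v ∈ Λ, ∑ z ∈ Λ, del (cp d x) (bd dE J) u v z) / (Λ.card : ℝ) ^ 3 +
        (∑ u ∈ Λ, ∑ v ∈ Λ, ∑ z ∈ Λ, del (ci d x 0) (bd dE J) u v z) / (Λ.card : ℝ) ^ 3))
        (big d) (𝓝 (∑ M ∈ PB B, ind A (pt M) * ∑ J ∈ B.powerset, k M J * (0 + 0))) := by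
      refine tendsto_finsetSum _ fun M _ => Tendsto.const_mul _ ?_
      refine tendsto_finsetSum _ fun J _ => Tendsto.const_mul _ ?_
      exact (h1.del_avg J).add (h2.del_avg J)
    simpa using t1
  · filter_upwards [ev_big 1] with Λ hΛ
    have hN : (0 : ℝ) < Λ.card := by exact_mod_cast hΛ
    have hN3 : (0 : ℝ) < (Λ.card : ℝ) ^ 3 := by positivity
    have e1 : ∀ u v z : Vtx d, qv x (cp d x) (ci d x 0) (dV u + dV v) (tE z B) (shO z ⁻¹' A) ≤
        Q.real A + ∑ M ∈ PB B, ind A (pt M) * ∑ J ∈ B.powerset, k M J *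
          (del (cp d x) (bd dE J) u v z + del (ci d x 0) (bd dE J) u v z) := by
      intro u v z
      rw [qv_tE, Q_loc hQ hA]
      unfold qv
      rw [← sum_add_distrib]
      refine sum_le_sum fun M _ => ?_
      rw [← mul_add]
      exact mul_le_mul_of_nonneg_left (hk M u v z) (ind_nonneg _ _)
    refine (sum_le_sum fun u _ => sum_le_sum fun v _ => sum_le_sum fun z _ => e1 u v z).trans ?_
    have e2 : ∑ u ∈ Λ, ∑ v ∈ Λ, ∑ z ∈ Λ, (Q.real A + ∑ M ∈ PB B, ind A (pt M) *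
        ∑ J ∈ B.powerset, k M J *
          (del (cp d x) (bd dE J) u v z + del (ci d x 0) (bd dE J) u v z)) =
        Q.real A * (Λ.card : ℝ) ^ 3 + ∑ M ∈ PB B, ind A (pt M) * ∑ J ∈ B.powerset, k M J *
        (∑ u ∈ Λ, ∑ v ∈ Λ, ∑ z ∈ Λ, del (cp d x) (bd dE J) u v z +
        ∑ u ∈ Λ, ∑ v ∈ Λ, ∑ z ∈ Λ, del (ci d x 0) (bd dE J) u v z) := by
      simp only [sum_add_distrib, sum_const, nsmul_eq_mul]
      congr 1
      · ring
      · have i1 : ∀ (κ : Type) (s : Finset κ) (w : κ → ℝ) (f : κ → Vtx d → Vtx d → Vtx d → ℝ),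
            ∑ u ∈ Λ, ∑ v ∈ Λ, ∑ z ∈ Λ, ∑ i ∈ s, w i * f i u v z =
            ∑ i ∈ s, w i * ∑ u ∈ Λ, ∑ v ∈ Λ, ∑ z ∈ Λ, f i u v z := by
          intro κ s w f
          simp only [mul_sum]
          symm
          rw [sum_comm]
          refine sum_congr rfl fun u _ => ?_
          rw [sum_comm]
          refine sum_congr rfl fun v _ => ?_
          rw [sum_comm]
        rw [i1]
        refine sum_congr rfl fun M _ => ?_
        rw [i1]
        congr 1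
        refine sum_congr rfl fun J _ => ?_
        simp only [sum_add_distrib]
    rw [e2, add_mul]
    refine add_le_add le_rfl (le_of_eq ?_)
    rw [sum_mul]
    refine sum_congr rfl fun M _ => ?_
    rw [mul_assoc, sum_mul]
    congr 1
    refine sum_congr rfl fun J _ => ?_
    field_simp

end Pool.Agent.TH980
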