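import Pool.Agent.TH980.Model
import Pool.Agent.TH980.M7

/-!
# Sums over currents
-/

set_option autoImplicit false
set_option linter.unusedSectionVars false
set_option linter.unusedSimpArgs false

open Finset Filter Topology MeasureTheory
open scoped Nat

namespace Pool.Agent.TH980

/-! ### Sums of products over spaces of functions -/

lemma hasSum_mul_pair {κ κ' : Type} {f : κ → ℝ} {g : κ' → ℝ} {a b : ℝ} (h0 : ∀ k, 0 ≤ f k)
    (h1 : ∀ k, 0 ≤ g k) (hf : HasSum f a) (hg : HasSum g b) :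
    HasSum (fun p : κ × κ' => f p.1 * g p.2) (a * b) := by
  have hs : Summable (fun p : κ × κ' => f p.1 * g p.2) :=
    Summable.mul_of_nonneg hf.summable hg.summable h0 h1
  exact HasSum.mul hf hg hs

lemma hasSum_pi_fin {κ : Type} (n : ℕ) : ∀ (f : Fin n → κ → ℝ) (s : Fin n → ℝ),
    (∀ i k, 0 ≤ f i k) → (∀ i, HasSum (f i) (s i)) →
    HasSum (fun c : Fin n → κ => ∏ i, f i (c i)) (∏ i, s i) := by
  induction n with
  | zero =>
    intro f s _ _
    simp only [Finset.univ_eq_empty, Finset.prod_empty]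
    exact hasSum_unique _
  | succ n ih =>
    intro f s h0 h
    have h1 : HasSum (fun c : Fin n → κ => ∏ i, f i.succ (c i)) (∏ i : Fin n, s i.succ) :=
      ih (fun i => f i.succ) (fun i => s i.succ) (fun i k => h0 _ k) (fun i => h _)
    have g0 : ∀ c : Fin n → κ, 0 ≤ ∏ i, f i.succ (c i) := fun c =>
      Finset.prod_nonneg fun i _ => h0 i.succ (c i)
    have hn : ∀ k, 0 ≤ f 0 k := h0 0
    have hf : HasSum (f 0) (s 0) := h 0
    have h2 := hasSum_mul_pair hn g0 hf h1
    rw [Fin.prod_univ_succ]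
    let e : κ × (Fin n → κ) ≃ (Fin (n + 1) → κ) := Fin.consEquiv (fun _ : Fin (n + 1) => κ)
    have h3 : (fun c : Fin (n + 1) → κ => ∏ i, f i (c i)) ∘ e =
        fun p => f 0 p.1 * ∏ i, f i.succ (p.2 i) := by
      funext p
      show ∏ i, f i ((Fin.cons p.1 p.2 : Fin (n + 1) → κ) i) = _
      rw [Fin.prod_univ_succ]
      rfl
    rw [← e.hasSum_iff, h3]
    exact h2

lemma hasSum_pi_prod {ι : Type} [Fintype ι] {κ : Type} (f : ι → κ → ℝ) (s : ι → ℝ)
    (h0 : ∀ i k, 0 ≤ f i k) (h : ∀ i, HasSum (f i) (s i)) :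
    HasSum (fun c : ι → κ => ∏ i, f i (c i)) (∏ i, s i) := by
  let ψ := Fintype.equivFin ι
  have h1 := hasSum_pi_fin (Fintype.card ι) (fun i => f (ψ.symm i)) (fun i => s (ψ.symm i))
    (fun i k => h0 _ k) (fun i => h _)
  rw [Equiv.prod_comp ψ.symm s] at h1
  let e : (ι → κ) ≃ (Fin (Fintype.card ι) → κ) := Equiv.arrowCongr ψ (Equiv.refl κ)
  have h2 : (fun c : Fin (Fintype.card ι) → κ => ∏ i, f (ψ.symm i) (c i)) ∘ e =
      fun c => ∏ i, f i (c i) := by
    funext c
    show ∏ i, f (ψ.symm i) (c (ψ.symm i)) = _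
    exact Equiv.prod_comp ψ.symm (fun i => f i (c i))
  rw [← e.hasSum_iff, h2] at h1
  exact h1

/-! ### Sums over one edge -/

/-- weight of an integer with a given parity -/
noncomputable def pw (β : ℝ) (u : Bool) (k : ℕ) : ℝ :=
  if decide (Odd k) = u then β ^ k / (k ! : ℝ) else 0

/-- hyperbolic functions -/
noncomputable def hyp (β : ℝ) (u : Bool) : ℝ := if u then Real.sinh β else Real.cosh β

lemma pw_nonneg {β : ℝ} (hβ : 0 ≤ β) (u : Bool) (k : ℕ) : 0 ≤ pw β u k := by
  unfold pw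
  split_ifs
  · positivity
  · exact le_rfl

lemma hasSum_pw (β : ℝ) (u : Bool) : HasSum (pw β u) (hyp β u) := by
  rcases u
  · have hinj : Function.Injective (fun n : ℕ => 2 * n) := fun a b h => by
      simp only at h; omega
    have h1 : pw β false ∘ (fun n : ℕ => 2 * n) = fun n => β ^ (2 * n) / ((2 * n)! : ℝ) := by
      funext n
      show pw β false (2 * n) = _
      unfold pw
      have : ¬ Odd (2 * n) := by simp
      rw [if_pos (by simp)]
    have h2 : HasSum (pw β false ∘ (fun n : ℕ => 2 * n)) (Real.cosh β) := by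
      rw [h1]
      exact Real.hasSum_cosh β
    have h3 : ∀ k ∉ Set.range (fun n : ℕ => 2 * n), pw β false k = 0 := by
      intro k hk
      unfold pw
      rw [if_neg]
      intro h
      have hk' : ¬ Odd k := by simpa using h
      rw [Nat.not_odd_iff_even] at hk'
      obtain ⟨m, hm⟩ := hk'
      exact hk ⟨m, by simp only; omega⟩
    exact (hinj.hasSum_iff h3).mp h2
  · have hinj : Function.Injective (fun n : ℕ => 2 * n + 1) := fun a b h => by
      simp only at h; omega
    have h1 : pw β true ∘ (fun n : ℕ => 2 * n + 1) =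
        fun n => β ^ (2 * n + 1) / ((2 * n + 1)! : ℝ) := by
      funext n
      show pw β true (2 * n + 1) = _
      unfold pw
      rw [if_pos (by simp)]
    have h2 : HasSum (pw β true ∘ (fun n : ℕ => 2 * n + 1)) (Real.sinh β) := by
      rw [h1]
      exact Real.hasSum_sinh β
    have h3 : ∀ k ∉ Set.range (fun n : ℕ => 2 * n + 1), pw β true k = 0 := by
      intro k hk
      unfold pw
      rw [if_neg]
      intro h
      have hk' : Odd k := by simpa using h
      obtain ⟨m, hm⟩ := hk'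
      exact hk ⟨m, by simp only; omega⟩
    exact (hinj.hasSum_iff h3).mp h2

lemma hyp_eq (β : ℝ) (u : Bool) : hyp β u = Real.cosh β * if u then Real.tanh β else 1 := by
  unfold hyp
  rcases u
  · simp
  · simp only [if_true]
    rw [Real.tanh_eq_sinh_div_cosh, mul_div_cancel₀ _ (Real.cosh_pos β).ne']

/-- weight of a pair of integers with given parities and constrained support -/
noncomputable def p2 (β : ℝ) (u₁ u₂ : Bool) (a : Bool → Bool) (k : ℕ × ℕ) : ℝ :=
  pw β u₁ k.1 * pw β u₂ k.2 * (if a (decide (0 < k.1 + k.2)) then 1 else 0)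

lemma p2_nonneg {β : ℝ} (hβ : 0 ≤ β) (u₁ u₂ : Bool) (a : Bool → Bool) (k : ℕ × ℕ) :
    0 ≤ p2 β u₁ u₂ a k := by
  unfold p2
  refine mul_nonneg (mul_nonneg (pw_nonneg hβ _ _) (pw_nonneg hβ _ _)) ?_
  split_ifs
  · exact zero_le_one
  · exact le_rfl

lemma hasSum_pair {β γ : ℝ} (hβ : 0 ≤ β) (hγ : 0 ≤ γ) (u₁ u₂ : Bool) :
    HasSum (fun k : ℕ × ℕ => pw β u₁ k.1 * pw γ u₂ k.2) (hyp β u₁ * hyp γ u₂) :=
  (hasSum_pw β u₁).mul (hasSum_pw γ u₂) (Summable.mul_of_nonneg (hasSum_pw β u₁).summable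
    (hasSum_pw γ u₂).summable (fun _ => pw_nonneg hβ _ _) (fun _ => pw_nonneg hγ _ _))

lemma hasSum_p2 {β : ℝ} (hβ : 0 ≤ β) (u₁ u₂ : Bool) (a : Bool → Bool) :
    HasSum (p2 β u₁ u₂ a) (Real.cosh β ^ 2 *
      ((if a true then lw (Real.tanh β) u₁ u₂ true else 0) +
        (if a false then lw (Real.tanh β) u₁ u₂ false else 0))) := by
  have hc := Real.cosh_pos β
  have hcs : Real.cosh β ^ 2 - Real.sinh β ^ 2 = 1 := Real.cosh_sq_sub_sinh_sq β
  have hall := hasSum_pair hβ hβ u₁ u₂
  -- the term `(0, 0)`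
  set w0 : ℝ := pw β u₁ 0 * pw β u₂ 0 with hw0
  have h0 : HasSum (fun k : ℕ × ℕ => pw β u₁ k.1 * pw β u₂ k.2 *
      (if decide (0 < k.1 + k.2) = false then 1 else 0)) w0 := by
    have h1 : (fun k : ℕ × ℕ => pw β u₁ k.1 * pw β u₂ k.2 *
        (if decide (0 < k.1 + k.2) = false then (1 : ℝ) else 0)) =
        fun k => if k = (0, 0) then w0 else 0 := by
      funext k
      by_cases hk : k = (0, 0)
      · rw [if_pos hk, hk]
        simp [hw0]
      · rw [if_neg hk, if_neg, mul_zero]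
        intro h
        apply hk
        have : ¬ 0 < k.1 + k.2 := by simpa using h
        ext <;> simp only <;> omega
    rw [h1]
    exact hasSum_ite_eq (0, 0) w0
  have e0 : w0 = Real.cosh β ^ 2 * lw (Real.tanh β) u₁ u₂ false := by
    rw [hw0]
    unfold pw lw kp
    have ht : Real.cosh β ^ 2 * (1 - Real.tanh β ^ 2) = 1 := by
      rw [Real.tanh_eq_sinh_div_cosh]
      field_simp
      exact hcs
    rcases u₁ <;> rcases u₂ <;> simp [ht]
  have e1 : hyp β u₁ * hyp β u₂ - w0 = Real.cosh β ^ 2 * lw (Real.tanh β) u₁ u₂ true := by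
    rw [hw0]
    unfold pw lw kp hyp
    have ht : Real.cosh β * Real.tanh β = Real.sinh β := by
      rw [Real.tanh_eq_sinh_div_cosh, mul_div_cancel₀ _ hc.ne']
    rcases u₁ <;> rcases u₂ <;> simp
    · rw [← mul_pow, ht]; linarith
    · rw [← ht]; ring
    · rw [← ht]; ring
    · rw [← ht]; ring
  have h1 : HasSum (fun k : ℕ × ℕ => pw β u₁ k.1 * pw β u₂ k.2 *
      (if decide (0 < k.1 + k.2) = true then 1 else 0)) (hyp β u₁ * hyp β u₂ - w0) := by
    have h2 := hall.sub h0
    have h3 : (fun k : ℕ × ℕ => pw β u₁ k.1 * pw β u₂ k.2 *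
        (if decide (0 < k.1 + k.2) = true then (1 : ℝ) else 0)) =
        fun k : ℕ × ℕ => pw β u₁ k.1 * pw β u₂ k.2 - pw β u₁ k.1 * pw β u₂ k.2 *
        (if decide (0 < k.1 + k.2) = false then 1 else 0) := by
      funext k
      by_cases hk : 0 < k.1 + k.2
      · simp [hk]
      · simp [hk]
    rw [h3]
    exact h2
  rw [e0] at h0
  rw [e1] at h1
  have h4 : HasSum (fun k : ℕ × ℕ => (if a true then (1 : ℝ) else 0) *
      (pw β u₁ k.1 * pw β u₂ k.2 * (if decide (0 < k.1 + k.2) = true then 1 else 0)) +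
      (if a false then (1 : ℝ) else 0) *
      (pw β u₁ k.1 * pw β u₂ k.2 * (if decide (0 < k.1 + k.2) = false then 1 else 0)))
      ((if a true then (1 : ℝ) else 0) * (Real.cosh β ^ 2 * lw (Real.tanh β) u₁ u₂ true) +
      (if a false then (1 : ℝ) else 0) * (Real.cosh β ^ 2 * lw (Real.tanh β) u₁ u₂ false)) :=
    (h1.mul_left _).add (h0.mul_left _)
  have e5 : p2 β u₁ u₂ a = fun k : ℕ × ℕ => (if a true then (1 : ℝ) else 0) *
      (pw β u₁ k.1 * pw β u₂ k.2 * (if decide (0 < k.1 + k.2) = true then 1 else 0)) +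
      (if a false then (1 : ℝ) else 0) *
      (pw β u₁ k.1 * pw β u₂ k.2 * (if decide (0 < k.1 + k.2) = false then 1 else 0)) := by
    funext k
    unfold p2
    by_cases hk : 0 < k.1 + k.2
    · simp [hk]
    · simp [hk]
  rw [e5]
  convert h4 using 1
  split_ifs <;> ring

end Pool.Agent.TH980
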