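import Pool.Agent.TH980.C1
import Pool.Agent.TH980.M7

/-!
# The trace of two currents in a box
-/

set_option autoImplicit false
set_option linter.unusedSectionVars false
set_option linter.unusedSimpArgs false

open Finset Filter Topology MeasureTheory
open scoped Nat

namespace Pool.Agent.TH980

open Model

variable {d n : ℕ}

/-- the edges with odd values of a current -/
noncomputable def par (c : Current d n) : Finset (Edg d ⊕ Vtx d) :=
  (univ.filter (fun a : {a // a ∈ GhostEdges d n} => Odd (c a))).map (Function.Embedding.subtype _)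

lemma mem_par {c : Current d n} {s : Edg d ⊕ Vtx d} :
    s ∈ par c ↔ ∃ h : s ∈ GhostEdges d n, Odd (c ⟨s, h⟩) := by
  unfold par
  rw [Finset.mem_map]
  constructor
  · rintro ⟨a, ha, rfl⟩
    exact ⟨a.2, (mem_filter.mp ha).2⟩
  · rintro ⟨h, ho⟩
    exact ⟨⟨s, h⟩, mem_filter.mpr ⟨mem_univ _, ho⟩, rfl⟩

lemma par_subset (c : Current d n) : par c ⊆ TS d n := fun _ hs => (mem_par.mp hs).1

lemma mem_par' (c : Current d n) (a : {a // a ∈ GhostEdges d n}) : a.1 ∈ par c ↔ Odd (c a) := by
  rw [mem_par]
  exact ⟨fun ⟨_, h⟩ => h, fun h => ⟨a.2, h⟩⟩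

open Classical in
lemma dS_apply (s : Edg d ⊕ Vtx d) (x : Vtx d) : dS d s x = if Touches x s then 1 else 0 := by
  rcases s with e | v
  · show dE e x = _
    rw [dE_apply]
    have : e ∈ inc x ↔ Touches x (Sum.inl e) := by
      rw [mem_inc]
      exact ⟨fun h => h.imp Eq.symm Eq.symm, fun h => h.imp Eq.symm Eq.symm⟩
    by_cases h : e ∈ inc x
    · rw [if_pos h, if_pos (this.mp h)]
    · rw [if_neg h, if_neg (fun h' => h (this.mpr h'))]
  · show (Pi.single v 1 : Gam d) x = _
    by_cases h : x = v
    · subst h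
      rw [Pi.single_eq_same, if_pos (show Touches x (Sum.inr x) from rfl)]
    · rw [Pi.single_eq_of_ne h, if_neg (show ¬ Touches x (Sum.inr v) from h)]

open Classical in
lemma bd_par (c : Current d n) (x : Vtx d) :
    bd (dS d) (par c) x = ((∑ a, if Touches x a.1 then c a else 0 : ℕ) : ZMod 2) := by
  unfold bd par
  rw [Finset.sum_apply, sum_map, sum_filter]
  push_cast
  refine sum_congr rfl fun a _ => ?_
  show (if Odd (c a) then dS d a.1 x else 0) = _
  rw [dS_apply]
  by_cases h : Touches x a.1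
  · rw [if_pos h, if_pos h]
    by_cases ho : Odd (c a)
    · rw [if_pos ho]
      exact (ZMod.natCast_eq_one_iff_odd.mpr ho).symm
    · rw [if_neg ho]
      rw [Nat.not_odd_iff_even] at ho
      exact (ZMod.natCast_eq_zero_iff_even.mpr ho).symm
  · rw [if_neg h, if_neg h]
    simp

lemma sourceless_iff (c : Current d n) : Sourceless c ↔ bd (dS d) (par c) = 0 := by
  classical
  constructor
  · intro h
    funext x
    rw [bd_par]
    show _ = (0 : ZMod 2)
    rw [ZMod.natCast_eq_zero_iff_even]
    by_cases hx : x ∈ bx d n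
    · exact h x hx
    · have : ∑ a : {a // a ∈ GhostEdges d n}, (if Touches x a.1 then c a else 0) = 0 := by
        refine sum_eq_zero fun a _ => ?_
        rw [if_neg]
        intro ht
        obtain ⟨s, hs⟩ := a
        rcases s with e | v
        · have := mem_bE.mp (inl_mem_TS.mp hs)
          rcases ht with ht | ht
          · rw [ht] at hx; exact hx this.1
          · rw [ht] at hx; exact hx this.2
        · have := inr_mem_TS.mp hs
          have ht' : x = v := ht
          rw [ht'] at hx; exact hx this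
      rw [this]
      exact Even.zero
  · intro h x _
    rw [← ZMod.natCast_eq_zero_iff_even, ← bd_par, h]
    rfl

/-- product of local weights with prescribed parities -/
noncomputable def wpar (β h : ℝ) (S : Finset (Edg d ⊕ Vtx d)) (c : Current d n) : ℝ :=
  ∏ a, pw (coupling β h a.1) (decide (a.1 ∈ S)) (c a)

lemma wpar_eq (β h : ℝ) {S : Finset (Edg d ⊕ Vtx d)} (hS : S ⊆ TS d n) (c : Current d n) :
    wpar β h S c = if S = par c then weight β h c else 0 := by
  unfold wpar
  by_cases hc : S = par c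
  · rw [if_pos hc, hc]
    unfold weight
    refine prod_congr rfl fun a _ => ?_
    unfold pw
    rw [if_pos]
    exact decide_eq_decide.mpr (mem_par' c a).symm
  · rw [if_neg hc]
    have : ∃ a : {a // a ∈ GhostEdges d n}, ¬ (a.1 ∈ S ↔ Odd (c a)) := by
      by_contra hcon
      push Not at hcon
      apply hc
      ext s
      constructor
      · intro hs
        exact (mem_par' c ⟨s, hS hs⟩).mpr ((hcon ⟨s, hS hs⟩).mp hs)
      · intro hs
        have h1 := par_subset c hs
        exact (hcon ⟨s, h1⟩).mpr ((mem_par' c ⟨s, h1⟩).mp hs)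
    obtain ⟨a, ha⟩ := this
    refine prod_eq_zero (mem_univ a) ?_
    unfold pw
    rw [if_neg]
    intro h'
    exact ha (decide_eq_decide.mp h').symm

open Classical in
lemma src_weight (β h : ℝ) (c : Current d n) : (if Sourceless c then weight β h c else 0) =
    ∑ S ∈ (TS d n).powerset, if bd (dS d) S = 0 then wpar β h S c else 0 := by
  rw [sum_eq_single (par c)]
  · rw [if_congr (sourceless_iff c) rfl rfl, wpar_eq β h (par_subset c), if_pos rfl]
  · intro S hS hne
    rw [wpar_eq β h (mem_powerset.mp hS), if_neg hne]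
    simp
  · intro h'
    exact absurd (mem_powerset.mpr (par_subset c)) h'

lemma coupling_nonneg {β h : ℝ} (hβ : 0 ≤ β) (hh : 0 ≤ h) (s : Edg d ⊕ Vtx d) :
    0 ≤ coupling β h s := by
  rcases s with e | v
  · exact hβ
  · exact mul_nonneg hβ hh

lemma tanh_coupling (β h : ℝ) (s : Edg d ⊕ Vtx d) :
    Real.tanh (coupling β h s) = wS d (Real.tanh β) (Real.tanh (β * h)) s := by
  rcases s with e | v <;> rfl

/-- product of hyperbolic cosines -/
noncomputable def Kc (d n : ℕ) (β h : ℝ) : ℝ :=
  ∏ a : {a // a ∈ GhostEdges d n}, Real.cosh (coupling β h a.1)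

lemma Kc_pos (β h : ℝ) : 0 < Kc d n β h := prod_pos fun _ _ => Real.cosh_pos _

open Classical in
/-- The partition function of sourceless currents. -/
lemma hasSum_single {β h : ℝ} (hβ : 0 ≤ β) (hh : 0 ≤ h) :
    HasSum (fun c : Current d n => if Sourceless c then weight β h c else 0)
      (Kc d n β h * Z (dS d) (wS d (Real.tanh β) (Real.tanh (β * h))) (TS d n) 0) := by
  have h1 : ∀ S : Finset (Edg d ⊕ Vtx d), HasSum (fun c : Current d n => wpar β h S c)
      (∏ a : {a // a ∈ GhostEdges d n}, hyp (coupling β h a.1) (decide (a.1 ∈ S))) := by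
    intro S
    unfold wpar
    exact hasSum_pi_prod (fun (a : {a // a ∈ GhostEdges d n}) k =>
      pw (coupling β h a.1) (decide (a.1 ∈ S)) k) _
      (fun a k => pw_nonneg (coupling_nonneg hβ hh _) _ _) (fun a => hasSum_pw _ _)
  have h2 : HasSum (fun c : Current d n => ∑ S ∈ (TS d n).powerset,
      if bd (dS d) S = 0 then wpar β h S c else 0)
      (∑ S ∈ (TS d n).powerset, if bd (dS d) S = 0 then
        ∏ a : {a // a ∈ GhostEdges d n}, hyp (coupling β h a.1) (decide (a.1 ∈ S)) else 0) := by
    refine hasSum_sum fun S _ => ?_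
    by_cases hb : bd (dS d) S = 0
    · simp only [if_pos hb]; exact h1 S
    · simp only [if_neg hb]; exact hasSum_zero
  simp only [src_weight]
  convert h2 using 1
  unfold Z
  rw [mul_sum]
  refine sum_congr rfl fun S hS => ?_
  rw [mem_powerset] at hS
  by_cases hb : bd (dS d) S = 0
  · rw [if_pos hb, if_pos hb]
    have h3 : ∀ a ∈ (univ : Finset {a // a ∈ GhostEdges d n}),
        hyp (coupling β h a.1) (decide (a.1 ∈ S)) = Real.cosh (coupling β h a.1) *
          (if a.1 ∈ S then wS d (Real.tanh β) (Real.tanh (β * h)) a.1 else 1) := by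
      intro a _
      rw [hyp_eq, tanh_coupling]
      simp
    rw [prod_congr rfl h3, prod_mul_distrib]
    unfold Kc
    congr 1
    rw [prod_sub_eq hS]
    exact (Finset.prod_coe_sort (TS d n) (fun s =>
      if s ∈ S then wS d (Real.tanh β) (Real.tanh (β * h)) s else 1)).symm
  · rw [if_neg hb, if_neg hb, mul_zero]

lemma Zpart_eq {β h : ℝ} (hβ : 0 ≤ β) (hh : 0 ≤ h) : Zpart d n β h =
    Kc d n β h * Z (dS d) (wS d (Real.tanh β) (Real.tanh (β * h))) (TS d n) 0 :=
  (hasSum_single hβ hh).tsum_eq

lemma tanh_nonneg' {y : ℝ} (hy : 0 ≤ y) : 0 ≤ Real.tanh y := by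
  rw [Real.tanh_eq_sinh_div_cosh]
  exact div_nonneg (Real.sinh_nonneg_iff.mpr hy) (Real.cosh_pos y).le

lemma Zpart_pos {β h : ℝ} (hβ : 0 ≤ β) (hh : 0 ≤ h) : 0 < Zpart d n β h := by
  rw [Zpart_eq hβ hh]
  exact mul_pos (Kc_pos β h) (Z_pos (wS_nonneg (tanh_nonneg' hβ) (tanh_nonneg' (mul_nonneg hβ hh))))

lemma hasSum_prob {β h : ℝ} (hβ : 0 ≤ β) (hh : 0 ≤ h) :
    HasSum (fun c : Current d n => prob β h c) 1 := by
  have h1 := (hasSum_single (d := d) (n := n) hβ hh).div_const (Zpart d n β h)
  rw [← Zpart_eq hβ hh, div_self (Zpart_pos hβ hh).ne'] at h1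
  exact h1

end Pool.Agent.TH980
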