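import Pool.Agent.TH980.C2

/-!
# The law of the trace of two currents in a box
-/

set_option autoImplicit false
set_option linter.unusedSectionVars false
set_option linter.unusedSimpArgs false

open Finset Filter Topology MeasureTheory
open scoped Nat

namespace Pool.Agent.TH980

open Model

variable {d n : ℕ}

/-- the event that the trace agrees with `s` on `B` -/
def TE (B : Finset (Edg d)) (s : Set (Edg d)) : Set (Om d) :=
  {ω | ∀ e ∈ B, (ω (2, e) = true ↔ e ∈ s)}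

lemma Loc_TE (B : Finset (Edg d)) (s : Set (Edg d)) : Loc B (TE B s) := by
  intro ω ω' h hω e he
  rw [← h e he 2]
  exact hω e he

open Classical in
/-- allowed states of an edge -/
noncomputable def alw (B : Finset (Edg d)) (s : Set (Edg d)) : Edg d ⊕ Vtx d → Bool → Bool
  | Sum.inl e => fun σ => decide (e ∈ B → (σ = true ↔ e ∈ s))
  | Sum.inr _ => fun _ => true

/-- weight of a pair of values at an edge -/
noncomputable def Ha (β h : ℝ) (B : Finset (Edg d)) (s : Set (Edg d))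
    (S₁ S₂ : Finset (Edg d ⊕ Vtx d)) (a : Edg d ⊕ Vtx d) (k : ℕ × ℕ) : ℝ :=
  pw (coupling β h a) (decide (a ∈ S₁)) k.1 * pw (coupling β 0 a) (decide (a ∈ S₂)) k.2 *
    (if alw B s a (decide (0 < k.1 + k.2)) then 1 else 0)

/-- sum of the weights at an edge, up to hyperbolic cosines -/
noncomputable def Ra (x y : ℝ) (B : Finset (Edg d)) (s : Set (Edg d))
    (S₁ S₂ : Finset (Edg d ⊕ Vtx d)) : Edg d ⊕ Vtx d → ℝ
  | Sum.inl e => (if alw B s (Sum.inl e) true then
        lw x (decide (Sum.inl e ∈ S₁)) (decide (Sum.inl e ∈ S₂)) true else 0) +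
      (if alw B s (Sum.inl e) false then
        lw x (decide (Sum.inl e ∈ S₁)) (decide (Sum.inl e ∈ S₂)) false else 0)
  | Sum.inr v => (if Sum.inr v ∈ S₁ then y else 1) * (if Sum.inr v ∈ S₂ then 0 else 1)

lemma Ha_nonneg {β h : ℝ} (hβ : 0 ≤ β) (hh : 0 ≤ h) (B : Finset (Edg d)) (s : Set (Edg d))
    (S₁ S₂ : Finset (Edg d ⊕ Vtx d)) (a : Edg d ⊕ Vtx d) (k : ℕ × ℕ) :
    0 ≤ Ha β h B s S₁ S₂ a k := by
  unfold Ha
  refine mul_nonneg (mul_nonneg (pw_nonneg (coupling_nonneg hβ hh _) _ _)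
    (pw_nonneg (coupling_nonneg hβ le_rfl _) _ _)) ?_
  split_ifs
  · exact zero_le_one
  · exact le_rfl

lemma hasSum_Ha {β h : ℝ} (hβ : 0 ≤ β) (hh : 0 ≤ h) (B : Finset (Edg d)) (s : Set (Edg d))
    (S₁ S₂ : Finset (Edg d ⊕ Vtx d)) (a : Edg d ⊕ Vtx d) :
    HasSum (Ha β h B s S₁ S₂ a) (Real.cosh (coupling β h a) * Real.cosh (coupling β 0 a) *
      Ra (Real.tanh β) (Real.tanh (β * h)) B s S₁ S₂ a) := by
  rcases a with e | v
  · have h1 := hasSum_p2 hβ (decide (Sum.inl e ∈ S₁)) (decide (Sum.inl e ∈ S₂))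
      (alw B s (Sum.inl e))
    have e1 : Real.cosh (coupling β h (Sum.inl e : Edg d ⊕ Vtx d)) *
        Real.cosh (coupling β 0 (Sum.inl e : Edg d ⊕ Vtx d)) = Real.cosh β ^ 2 := by
      show Real.cosh β * Real.cosh β = _
      ring
    rw [e1]
    exact h1
  · have h1 := hasSum_pair (mul_nonneg hβ hh) (mul_nonneg hβ (le_refl (0 : ℝ)))
      (decide (Sum.inr v ∈ S₁)) (decide (Sum.inr v ∈ S₂))
    have e1 : Ha β h B s S₁ S₂ (Sum.inr v) = fun k : ℕ × ℕ =>
        pw (β * h) (decide (Sum.inr v ∈ S₁)) k.1 * pw (β * 0) (decide (Sum.inr v ∈ S₂)) k.2 := by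
      funext k
      show pw (β * h) _ k.1 * pw (β * 0) _ k.2 * (if true = true then 1 else 0) = _
      simp
    rw [e1]
    convert h1 using 1
    rw [hyp_eq, hyp_eq]
    show Real.cosh (β * h) * Real.cosh (β * 0) * ((if Sum.inr v ∈ S₁ then Real.tanh (β * h) else 1) *
      (if Sum.inr v ∈ S₂ then 0 else 1)) = _
    simp only [mul_zero, Real.tanh_zero, decide_eq_true_eq]
    ring

lemma prod_ghost (f : Edg d ⊕ Vtx d → ℝ) :
    ∏ a : {a // a ∈ GhostEdges d n}, f a.1 = (∏ e ∈ bE d n, f (Sum.inl e)) *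
      ∏ v ∈ bx d n, f (Sum.inr v) := by
  rw [← prod_TS]
  exact Finset.prod_coe_sort (TS d n) f

open Classical in
lemma prod_Ra (x y : ℝ) {B : Finset (Edg d)} (hB : B ⊆ bE d n) (s : Set (Edg d))
    (S₁ S₂ : Finset (Edg d ⊕ Vtx d)) :
    ∏ a : {a // a ∈ GhostEdges d n}, Ra x y B s S₁ S₂ a.1 =
      ∑ t ∈ (bE d n).powerset, WT n x y S₁ S₂ t * ind (TE B s) (cf S₁ S₂ t) := by
  rw [prod_ghost]
  have h1 : ∏ e ∈ bE d n, Ra x y B s S₁ S₂ (Sum.inl e) = ∑ t ∈ (bE d n).powerset,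
      (∏ e ∈ bE d n, lw x (decide (Sum.inl e ∈ S₁)) (decide (Sum.inl e ∈ S₂)) (decide (e ∈ t))) *
        ind (TE B s) (cf S₁ S₂ t) := by
    show ∏ e ∈ bE d n, ((if alw B s (Sum.inl e) true then
        lw x (decide (Sum.inl e ∈ S₁)) (decide (Sum.inl e ∈ S₂)) true else 0) +
      (if alw B s (Sum.inl e) false then
        lw x (decide (Sum.inl e ∈ S₁)) (decide (Sum.inl e ∈ S₂)) false else 0)) = _
    rw [prod_add]
    refine sum_congr rfl fun t ht => ?_
    rw [mem_powerset] at ht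
    have e1 : ∀ f : Edg d → Bool → ℝ, (∏ e ∈ t, f e true) * ∏ e ∈ bE d n \ t, f e false =
        ∏ e ∈ bE d n, f e (decide (e ∈ t)) := by
      intro f
      rw [← prod_sdiff ht, mul_comm]
      congr 1
      · refine prod_congr rfl fun e he => ?_
        rw [decide_eq_false (Finset.mem_sdiff.mp he).2]
      · exact prod_congr rfl fun e he => by rw [decide_eq_true he]
    rw [e1 (fun e σ => if alw B s (Sum.inl e) σ then
      lw x (decide (Sum.inl e ∈ S₁)) (decide (Sum.inl e ∈ S₂)) σ else 0)]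
    have e2 : ∀ e ∈ bE d n, (if alw B s (Sum.inl e) (decide (e ∈ t)) = true then
        lw x (decide (Sum.inl e ∈ S₁)) (decide (Sum.inl e ∈ S₂)) (decide (e ∈ t)) else 0) =
        lw x (decide (Sum.inl e ∈ S₁)) (decide (Sum.inl e ∈ S₂)) (decide (e ∈ t)) *
        (if e ∈ B → (e ∈ t ↔ e ∈ s) then 1 else 0) := by
      intro e _
      have : alw B s (Sum.inl e) (decide (e ∈ t)) = true ↔ (e ∈ B → (e ∈ t ↔ e ∈ s)) := by
        show decide (e ∈ B → (decide (e ∈ t) = true ↔ e ∈ s)) = true ↔ _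
        simp only [decide_eq_true_eq]
      rw [if_congr this rfl rfl]
      split_ifs
      · rw [mul_one]
      · rw [mul_zero]
    rw [prod_congr rfl e2, prod_mul_distrib]
    congr 1
    rw [prod_ite_zero]
    have e3 : (∀ e ∈ bE d n, e ∈ B → (e ∈ t ↔ e ∈ s)) ↔ cf S₁ S₂ t ∈ TE B s := by
      constructor
      · intro h e he
        show decide (e ∈ t) = true ↔ e ∈ s
        rw [decide_eq_true_eq]
        exact h e (hB he) he
      · intro h e _ he
        have := h e he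
        have h2 : decide (e ∈ t) = true ↔ e ∈ s := this
        rwa [decide_eq_true_eq] at h2
    by_cases h2 : cf S₁ S₂ t ∈ TE B s
    · rw [ind_pos h2, if_pos (e3.mpr h2)]; simp
    · rw [ind_neg h2, if_neg (fun h => h2 (e3.mp h))]
  rw [h1, sum_mul]
  refine sum_congr rfl fun t _ => ?_
  unfold WT
  show _ * ∏ v ∈ bx d n, ((if Sum.inr v ∈ S₁ then y else 1) * (if Sum.inr v ∈ S₂ then 0 else 1)) = _
  ring

open Classical in
/-- the summand of the law of the trace in terms of parities -/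
lemma pair_weight (β h : ℝ) {B : Finset (Edg d)} (hB : B ⊆ bE d n) (s : Set (Edg d))
    (p : Current d n × Current d n) :
    (if ∀ e ∈ B, (e ∈ trace p.1 p.2 ↔ e ∈ s) then (if Sourceless p.1 then weight β h p.1 else 0) *
      (if Sourceless p.2 then weight β 0 p.2 else 0) else 0) =
    ∑ S₁ ∈ (TS d n).powerset, ∑ S₂ ∈ (TS d n).powerset,
      if bd (dS d) S₁ = 0 ∧ bd (dS d) S₂ = 0 then
        ∏ a : {a // a ∈ GhostEdges d n}, Ha β h B s S₁ S₂ a.1 (p.1 a, p.2 a) else 0 := by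
  -- the product
  have h1 : ∀ S₁ S₂ : Finset (Edg d ⊕ Vtx d),
      ∏ a : {a // a ∈ GhostEdges d n}, Ha β h B s S₁ S₂ a.1 (p.1 a, p.2 a) =
      wpar β h S₁ p.1 * wpar β 0 S₂ p.2 *
        (if ∀ e ∈ B, (e ∈ trace p.1 p.2 ↔ e ∈ s) then 1 else 0) := by
    intro S₁ S₂
    unfold Ha wpar
    rw [prod_mul_distrib, prod_mul_distrib]
    congr 1
    rw [prod_ite_zero]
    have e1 : (∀ a ∈ (univ : Finset {a // a ∈ GhostEdges d n}),
        alw B s a.1 (decide (0 < p.1 a + p.2 a)) = true) ↔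
        ∀ e ∈ B, (e ∈ trace p.1 p.2 ↔ e ∈ s) := by
      constructor
      · intro h e he
        have hm : Sum.inl e ∈ GhostEdges d n := inl_mem_TS.mpr (hB he)
        have h2 := h ⟨Sum.inl e, hm⟩ (mem_univ _)
        have h3 : decide (e ∈ B → (decide (0 < p.1 ⟨Sum.inl e, hm⟩ + p.2 ⟨Sum.inl e, hm⟩) = true ↔
          e ∈ s)) = true := h2
        rw [decide_eq_true_eq] at h3
        have h4 := h3 he
        rw [decide_eq_true_eq] at h4
        rw [← h4]
        exact ⟨fun ⟨_, h⟩ => h, fun h => ⟨hm, h⟩⟩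
      · rintro h ⟨a, ha⟩ -
        rcases a with e | v
        · show decide (e ∈ B → (decide (0 < p.1 ⟨Sum.inl e, ha⟩ + p.2 ⟨Sum.inl e, ha⟩) = true ↔
            e ∈ s)) = true
          rw [decide_eq_true_eq]
          intro he
          rw [decide_eq_true_eq, ← h e he]
          exact ⟨fun h => ⟨ha, h⟩, fun ⟨_, h⟩ => h⟩
        · rfl
    by_cases h2 : ∀ e ∈ B, (e ∈ trace p.1 p.2 ↔ e ∈ s)
    · rw [if_pos h2, if_pos (e1.mpr h2)]; simp
    · rw [if_neg h2, if_neg (fun h => h2 (e1.mp h))]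
  rw [src_weight, src_weight, sum_mul_sum]
  by_cases hc : ∀ e ∈ B, (e ∈ trace p.1 p.2 ↔ e ∈ s)
  · rw [if_pos hc]
    refine sum_congr rfl fun S₁ _ => sum_congr rfl fun S₂ _ => ?_
    rw [h1, if_pos hc, mul_one]
    by_cases b1 : bd (dS d) S₁ = 0 <;> by_cases b2 : bd (dS d) S₂ = 0 <;> simp [b1, b2]
  · rw [if_neg hc]
    symm
    refine sum_eq_zero fun S₁ _ => sum_eq_zero fun S₂ _ => ?_
    rw [h1, if_neg hc, mul_zero]
    simp

open Classical in
lemma hasSum_trace {β h : ℝ} (hβ : 0 ≤ β) (hh : 0 ≤ h) {B : Finset (Edg d)} (hB : B ⊆ bE d n)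
    (s : Set (Edg d)) :
    HasSum (fun p : Current d n × Current d n => if ∀ e ∈ B, (e ∈ trace p.1 p.2 ↔ e ∈ s) then
      (if Sourceless p.1 then weight β h p.1 else 0) *
      (if Sourceless p.2 then weight β 0 p.2 else 0) else 0)
      (Kc d n β h * Kc d n β 0 *
        NV d n (Real.tanh β) (Real.tanh (β * h)) 0 (ind (TE B s))) := by
  have h1 : ∀ S₁ S₂ : Finset (Edg d ⊕ Vtx d), HasSum (fun p : Current d n × Current d n =>
      ∏ a : {a // a ∈ GhostEdges d n}, Ha β h B s S₁ S₂ a.1 (p.1 a, p.2 a))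
      (Kc d n β h * Kc d n β 0 * ∑ t ∈ (bE d n).powerset,
        WT n (Real.tanh β) (Real.tanh (β * h)) S₁ S₂ t * ind (TE B s) (cf S₁ S₂ t)) := by
    intro S₁ S₂
    have h2 := hasSum_pi_prod (fun (a : {a // a ∈ GhostEdges d n}) k => Ha β h B s S₁ S₂ a.1 k)
      (fun a => Real.cosh (coupling β h a.1) * Real.cosh (coupling β 0 a.1) *
        Ra (Real.tanh β) (Real.tanh (β * h)) B s S₁ S₂ a.1)
      (fun a k => Ha_nonneg hβ hh B s S₁ S₂ a.1 k) (fun a => hasSum_Ha hβ hh B s S₁ S₂ a.1)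
    rw [prod_mul_distrib, prod_mul_distrib, prod_Ra _ _ hB] at h2
    let e : (Current d n × Current d n) ≃ ({a // a ∈ GhostEdges d n} → ℕ × ℕ) :=
      (Equiv.arrowProdEquivProdArrow {a // a ∈ GhostEdges d n} (fun _ => ℕ) (fun _ => ℕ)).symm
    have h3 : (fun c : {a // a ∈ GhostEdges d n} → ℕ × ℕ =>
        ∏ a : {a // a ∈ GhostEdges d n}, Ha β h B s S₁ S₂ a.1 (c a)) ∘ e =
        fun p : Current d n × Current d n =>
      ∏ a : {a // a ∈ GhostEdges d n}, Ha β h B s S₁ S₂ a.1 (p.1 a, p.2 a) := rfl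
    rw [← h3, e.hasSum_iff]
    exact h2
  have h4 : HasSum (fun p : Current d n × Current d n => ∑ S₁ ∈ (TS d n).powerset,
      ∑ S₂ ∈ (TS d n).powerset, if bd (dS d) S₁ = 0 ∧ bd (dS d) S₂ = 0 then
        ∏ a : {a // a ∈ GhostEdges d n}, Ha β h B s S₁ S₂ a.1 (p.1 a, p.2 a) else 0)
      (∑ S₁ ∈ (TS d n).powerset, ∑ S₂ ∈ (TS d n).powerset,
        if bd (dS d) S₁ = 0 ∧ bd (dS d) S₂ = 0 then
        (Kc d n β h * Kc d n β 0 * ∑ t ∈ (bE d n).powerset,
        WT n (Real.tanh β) (Real.tanh (β * h)) S₁ S₂ t * ind (TE B s) (cf S₁ S₂ t)) else 0) := by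
    refine hasSum_sum fun S₁ _ => hasSum_sum fun S₂ _ => ?_
    by_cases hb : bd (dS d) S₁ = 0 ∧ bd (dS d) S₂ = 0
    · simp only [if_pos hb]; exact h1 S₁ S₂
    · simp only [if_neg hb]; exact hasSum_zero
  simp only [pair_weight β h hB s]
  convert h4 using 1
  unfold NV
  rw [sum_comm, mul_sum]
  refine sum_congr rfl fun S₁ _ => ?_
  rw [sum_comm, mul_sum]
  refine sum_congr rfl fun S₂ _ => ?_
  by_cases hb : bd (dS d) S₁ = 0 ∧ bd (dS d) S₂ = 0
  · simp only [if_pos hb]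
  · simp only [if_neg hb, zero_mul, sum_const_zero, mul_zero]

/-- The law of the trace in a box. -/
lemma traceProb_eq {β h : ℝ} (hβ : 0 ≤ β) (hh : 0 ≤ h) {B : Finset (Edg d)} (hB : B ⊆ bE d n)
    (s : Set (Edg d)) :
    traceProb d n β h B s = EV d n (Real.tanh β) (Real.tanh (β * h)) 0 (ind (TE B s)) := by
  classical
  have h1 := (hasSum_trace hβ hh hB s).div_const (Zpart d n β h * Zpart d n β 0)
  have h2 : traceProb d n β h B s = Kc d n β h * Kc d n β 0 *
      NV d n (Real.tanh β) (Real.tanh (β * h)) 0 (ind (TE B s)) /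
        (Zpart d n β h * Zpart d n β 0) := by
    rw [← h1.tsum_eq]
    unfold traceProb
    refine tsum_congr fun p => ?_
    unfold prob
    by_cases hc : ∀ e ∈ B, (e ∈ trace p.1 p.2 ↔ e ∈ s)
    · rw [if_pos hc, if_pos hc, div_mul_div_comm]
    · rw [if_neg hc, if_neg hc, zero_div]
  rw [h2, Zpart_eq hβ hh, Zpart_eq hβ le_rfl]
  unfold EV
  have k1 := (Kc_pos (d := d) (n := n) β h).ne'
  have k2 := (Kc_pos (d := d) (n := n) β 0).ne'
  rw [mul_zero, Real.tanh_zero]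
  field_simp

end Pool.Agent.TH980
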