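import Pool.Agent.TH980.P2

/-!
# The contradiction
-/

set_option autoImplicit false
set_option linter.unusedSectionVars false
set_option linter.unusedSimpArgs false

open Finset MeasureTheory Filter Topology

namespace Pool.Agent.TH980

variable {d : ℕ}

/-- the centres of the boxes -/
noncomputable def La (d r k : ℕ) : Finset (Vtx d) := (bx d k).image (sp (2 * r + 1))

lemma card_La (r k : ℕ) : (La d r k).card = (2 * k + 1) ^ d := by
  unfold La
  rw [card_image_of_injective _ (sp_injective (by omega)), card_bx]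

lemma La_disjoint {r k : ℕ} {a b : Vtx d} (ha : a ∈ La d r k) (hb : b ∈ La d r k) (h : a ≠ b) :
    Disjoint (bb r a) (bb r b) := by
  unfold La at ha hb
  rw [Finset.mem_image] at ha hb
  obtain ⟨v, -, rfl⟩ := ha
  obtain ⟨v', -, rfl⟩ := hb
  exact sp_disjoint (fun h' => h (by rw [h']))

/-- the number of separated triples -/
noncomputable def S3 (d r k : ℕ) (ω : Om d) : ℝ :=
  ∑ u ∈ La d r k, ∑ v ∈ La d r k, ∑ z ∈ La d r k, ind (SepE d r z u v) ω

lemma triple_bound {ω : Om d} (h3 : ∀ n, ¬ Three (tr ω) n 0) {r k : ℕ} {a b c : Vtx d}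
    (ha : a ∈ La d r k) (hb : b ∈ La d r k) (hc : c ∈ La d r k) :
    ind (CutE d r a) ω * ind (CutE d r b) ω * ind (CutE d r c) ω ≤
      (if a = b then 1 else 0) + (if a = c then 1 else 0) + (if b = c then 1 else 0) +
      (ind (SepE d r a b c) ω + ind (SepE d r b a c) ω + ind (SepE d r c a b) ω) := by
  have n1 := ind_nonneg (SepE d r a b c) ω
  have n2 := ind_nonneg (SepE d r b a c) ω
  have n3 := ind_nonneg (SepE d r c a b) ω
  have c0 : ∀ z, 0 ≤ ind (CutE d r z) ω := fun z => ind_nonneg _ _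
  have c1 : ∀ z, ind (CutE d r z) ω ≤ 1 := fun z => ind_le_one _ _
  have hle : ind (CutE d r a) ω * ind (CutE d r b) ω * ind (CutE d r c) ω ≤ 1 :=
    mul_le_one₀ (mul_le_one₀ (c1 a) (c0 b) (c1 b)) (c0 c) (c1 c)
  have p1 : (0 : ℝ) ≤ if a = b then 1 else 0 := by split_ifs <;> norm_num
  have p2 : (0 : ℝ) ≤ if a = c then 1 else 0 := by split_ifs <;> norm_num
  have p3 : (0 : ℝ) ≤ if b = c then 1 else 0 := by split_ifs <;> norm_num
  by_cases hab : a = b
  · rw [if_pos hab]; linarith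
  by_cases hac : a = c
  · rw [if_pos hac]; linarith
  by_cases hbc : b = c
  · rw [if_pos hbc]; linarith
  by_cases hA : ω ∈ CutE d r a
  swap
  · rw [ind_neg hA, zero_mul, zero_mul]; linarith
  by_cases hB : ω ∈ CutE d r b
  swap
  · rw [ind_neg hB, mul_zero, zero_mul]; linarith
  by_cases hC : ω ∈ CutE d r c
  swap
  · rw [ind_neg hC, mul_zero]; linarith
  have h := exists_sep (h3 (nm a + nm b + nm c + r)) (by omega) (by omega) (by omega)
    hA.1 hB.1 hC.1 hA.2 hB.2 hC.2 (La_disjoint ha hb hab) (La_disjoint ha hc hac)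
    (La_disjoint hb hc hbc)
  rcases h with h | h | h
  · have : ind (SepE d r a b c) ω = 1 := ind_pos h
    linarith
  · have : ind (SepE d r b a c) ω = 1 := ind_pos h
    linarith
  · have : ind (SepE d r c a b) ω = 1 := ind_pos h
    linarith

lemma cube_bound {ω : Om d} (h3 : ∀ n, ¬ Three (tr ω) n 0) (r k : ℕ) :
    (∑ z ∈ La d r k, ind (CutE d r z) ω) ^ 3 ≤
      3 * ((La d r k).card : ℝ) ^ 2 + 3 * S3 d r k ω := by
  set Λ := La d r k with hΛ
  have e1 : (∑ z ∈ Λ, ind (CutE d r z) ω) ^ 3 = ∑ a ∈ Λ, ∑ b ∈ Λ, ∑ c ∈ Λ,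
      ind (CutE d r a) ω * ind (CutE d r b) ω * ind (CutE d r c) ω := by
    rw [pow_succ, pow_two, sum_mul_sum, sum_mul]
    refine sum_congr rfl fun a _ => ?_
    rw [sum_mul]
    refine sum_congr rfl fun b _ => ?_
    rw [mul_sum]
  have e2 : ∑ a ∈ Λ, ∑ b ∈ Λ, ∑ c ∈ Λ, ((if a = b then (1 : ℝ) else 0) +
      (if a = c then 1 else 0) + (if b = c then 1 else 0) +
      (ind (SepE d r a b c) ω + ind (SepE d r b a c) ω + ind (SepE d r c a b) ω)) =
      3 * (Λ.card : ℝ) ^ 2 + 3 * S3 d r k ω := by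
    simp only [sum_add_distrib]
    have s1 : ∑ a ∈ Λ, ∑ b ∈ Λ, ∑ c ∈ Λ, (if a = b then (1 : ℝ) else 0) = (Λ.card : ℝ) ^ 2 := by
      have : ∀ a ∈ Λ, ∑ b ∈ Λ, ∑ c ∈ Λ, (if a = b then (1 : ℝ) else 0) = Λ.card := by
        intro a ha
        simp only [sum_const, nsmul_eq_mul]
        rw [← mul_sum, sum_ite_eq, if_pos ha, mul_one]
      rw [sum_congr rfl this, sum_const, nsmul_eq_mul, pow_two]
    have s2 : ∑ a ∈ Λ, ∑ b ∈ Λ, ∑ c ∈ Λ, (if a = c then (1 : ℝ) else 0) = (Λ.card : ℝ) ^ 2 := by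
      have : ∀ a ∈ Λ, ∑ b ∈ Λ, ∑ c ∈ Λ, (if a = c then (1 : ℝ) else 0) = Λ.card := by
        intro a ha
        have : ∀ b ∈ Λ, ∑ c ∈ Λ, (if a = c then (1 : ℝ) else 0) = 1 := by
          intro b _
          rw [sum_ite_eq, if_pos ha]
        rw [sum_congr rfl this, sum_const, nsmul_eq_mul, mul_one]
      rw [sum_congr rfl this, sum_const, nsmul_eq_mul, pow_two]
    have s3 : ∑ a ∈ Λ, ∑ b ∈ Λ, ∑ c ∈ Λ, (if b = c then (1 : ℝ) else 0) = (Λ.card : ℝ) ^ 2 := by
      have : ∀ a ∈ Λ, ∑ b ∈ Λ, ∑ c ∈ Λ, (if b = c then (1 : ℝ) else 0) = Λ.card := by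
        intro a _
        have : ∀ b ∈ Λ, ∑ c ∈ Λ, (if b = c then (1 : ℝ) else 0) = 1 := by
          intro b hb
          rw [sum_ite_eq, if_pos hb]
        rw [sum_congr rfl this, sum_const, nsmul_eq_mul, mul_one]
      rw [sum_congr rfl this, sum_const, nsmul_eq_mul, pow_two]
    have t3 : ∑ a ∈ Λ, ∑ b ∈ Λ, ∑ c ∈ Λ, ind (SepE d r c a b) ω = S3 d r k ω := rfl
    have t1 : ∑ a ∈ Λ, ∑ b ∈ Λ, ∑ c ∈ Λ, ind (SepE d r a b c) ω = S3 d r k ω := by
      rw [← t3, sum_comm]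
      refine sum_congr rfl fun b _ => ?_
      rw [sum_comm]
    have t2 : ∑ a ∈ Λ, ∑ b ∈ Λ, ∑ c ∈ Λ, ind (SepE d r b a c) ω = S3 d r k ω := by
      rw [← t3]
      refine sum_congr rfl fun a _ => ?_
      rw [sum_comm]
    rw [s1, s2, s3, t1, t2, t3]
    ring
  rw [e1, ← e2]
  exact sum_le_sum fun a ha => sum_le_sum fun b hb => sum_le_sum fun c hc =>
    triple_bound h3 ha hb hc

section Q

variable {x : ℝ} {Q : Measure (Om d)} [IsProbabilityMeasure Q]

lemma expect_bound (hx : 0 < x) (hx1 : x < 1) (hQ : IsQ x Q) (r k : ℕ) :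
    (Q.real (CutE d r 0)) ^ 3 * ((La d r k).card : ℝ) ^ 3 ≤ 3 * ((La d r k).card : ℝ) ^ 2 +
      3 * ∑ u ∈ La d r k, ∑ v ∈ La d r k, ∑ z ∈ La d r k, Q.real (SepE d r z u v) := by
  set Λ := La d r k with hΛ
  set ρ := Q.real (CutE d r 0) with hρ
  set m := ρ * (Λ.card : ℝ) with hm
  have hρ0 : 0 ≤ ρ := measureReal_nonneg
  have hm0 : 0 ≤ m := mul_nonneg hρ0 (Nat.cast_nonneg _)
  have hρz : ∀ z, Q.real (CutE d r z) = ρ := by
    intro z
    rw [CutE_shift, Q_shift_real hx hx1 hQ z (meas_CutE r 0)]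
  have hpt : ∀ᵐ ω ∂Q, 3 * m ^ 2 * ∑ z ∈ Λ, ind (CutE d r z) ω - 2 * m ^ 3 ≤
      3 * (Λ.card : ℝ) ^ 2 + 3 * S3 d r k ω := by
    filter_upwards [ae_no_Three hx hx1 hQ] with ω hω
    have h1 := cube_bound hω r k
    set X := ∑ z ∈ Λ, ind (CutE d r z) ω with hX
    have hX0 : 0 ≤ X := sum_nonneg fun z _ => ind_nonneg _ _
    have h2 : 3 * m ^ 2 * X - 2 * m ^ 3 ≤ X ^ 3 := by
      have : X ^ 3 - (3 * m ^ 2 * X - 2 * m ^ 3) = (X - m) ^ 2 * (X + 2 * m) := by ring
      have h3 : 0 ≤ (X - m) ^ 2 * (X + 2 * m) := by positivity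
      linarith
    linarith
  have i1 : Integrable (fun ω => ∑ z ∈ Λ, ind (CutE d r z) ω) Q :=
    integrable_finsetSum _ fun z _ => integrable_ind Q (meas_CutE r z)
  have i2 : Integrable (fun ω => S3 d r k ω) Q := by
    unfold S3
    refine integrable_finsetSum _ fun u _ => integrable_finsetSum _ fun v _ =>
      integrable_finsetSum _ fun z _ => integrable_ind Q (meas_SepE r z u v)
  have h4 := integral_mono_ae ((i1.const_mul (3 * m ^ 2)).sub (integrable_const (2 * m ^ 3)))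
    ((integrable_const (3 * (Λ.card : ℝ) ^ 2)).add (i2.const_mul 3)) hpt
  have e1 : ∫ ω, (3 * m ^ 2 * ∑ z ∈ Λ, ind (CutE d r z) ω - 2 * m ^ 3) ∂Q =
      3 * m ^ 2 * m - 2 * m ^ 3 := by
    rw [integral_sub (i1.const_mul (3 * m ^ 2)) (integrable_const (2 * m ^ 3)),
      integral_const_mul, integral_finsetSum _ (fun z _ => integrable_ind Q (meas_CutE r z))]
    have : ∑ z ∈ Λ, ∫ ω, ind (CutE d r z) ω ∂Q = m := by
      rw [sum_congr rfl (fun z _ => by rw [integral_ind Q (meas_CutE r z), hρz z]), sum_const,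
        nsmul_eq_mul, hm, mul_comm]
    rw [this, integral_const]
    simp
  have e2 : ∫ ω, (3 * (Λ.card : ℝ) ^ 2 + 3 * S3 d r k ω) ∂Q = 3 * (Λ.card : ℝ) ^ 2 +
      3 * ∑ u ∈ Λ, ∑ v ∈ Λ, ∑ z ∈ Λ, Q.real (SepE d r z u v) := by
    have e5 : ∫ ω, 3 * S3 d r k ω ∂Q = 3 * ∫ ω, S3 d r k ω ∂Q := integral_const_mul _ _
    rw [integral_add (integrable_const _) (i2.const_mul 3), e5, integral_const]
    have : ∫ ω, S3 d r k ω ∂Q = ∑ u ∈ Λ, ∑ v ∈ Λ, ∑ z ∈ Λ, Q.real (SepE d r z u v) := by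
      unfold S3
      rw [integral_finsetSum]
      · refine sum_congr rfl fun u _ => ?_
        rw [integral_finsetSum]
        · refine sum_congr rfl fun v _ => ?_
          rw [integral_finsetSum]
          · exact sum_congr rfl fun z _ => integral_ind Q (meas_SepE r z u v)
          · exact fun z _ => integrable_ind Q (meas_SepE r z u v)
        · exact fun v _ => integrable_finsetSum _ fun z _ => integrable_ind Q (meas_SepE r z u v)
      · exact fun u _ => integrable_finsetSum _ fun v _ => integrable_finsetSum _ fun z _ =>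
          integrable_ind Q (meas_SepE r z u v)
    rw [this]
    simp
  have h5 : 3 * m ^ 2 * m - 2 * m ^ 3 ≤ 3 * (Λ.card : ℝ) ^ 2 +
      3 * ∑ u ∈ Λ, ∑ v ∈ Λ, ∑ z ∈ Λ, Q.real (SepE d r z u v) := by
    rw [← e1, ← e2]
    exact h4
  have e3 : 3 * m ^ 2 * m - 2 * m ^ 3 = ρ ^ 3 * (Λ.card : ℝ) ^ 3 := by
    rw [hm]; ring
  rw [e3] at h5
  exact h5

/-- Cut boxes have probability zero. -/
theorem Q_Cut (hd : 0 < d) (hx : 0 < x) (hx1 : x < 1) (hQ : IsQ x Q) (r : ℕ) :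
    Q (CutE d r 0) = 0 := by
  obtain ⟨f, hf⟩ := flux_det hd hx hx1 hQ r
  set ρ := Q.real (CutE d r 0) with hρ
  have hρ0 : 0 ≤ ρ := measureReal_nonneg
  -- for each `R`
  have hR : ∀ R, r ≤ R → ρ ^ 3 ≤ 6 * Q.real (GoodE d R r 0)ᶜ := by
    intro R hrR
    set ε := Q.real (GoodE d R r 0)ᶜ with hε
    have hLL : Q.real (LLE d R r 0 (f + 1)) ≤ ε := by
      have h1 : ∀ᵐ ω ∂Q, ω ∈ LLE d R r 0 (f + 1) → ω ∈ (GoodE d R r 0)ᶜ := by
        have hnull : ∀ᵐ ω ∂Q, ¬ LG (tr ω) (et ω) r 0 (f + 1) := by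
          rw [ae_iff]
          simpa only [not_not] using Q_LG_null hf 0
        filter_upwards [hnull, ae_sub hQ] with ω hω hsub hL hG
        exact hω ((LL_iff hsub hrR hG (f + 1)).mp hL)
      rw [measureReal_def, hε, measureReal_def]
      exact ENNReal.toReal_mono (measure_ne_top _ _) (measure_mono_ae h1)
    obtain ⟨err, herr, hbd⟩ := qv_avg hx hx1 hQ (Loc_LLE (d := d) hrR 0 (f + 1))
    -- large boxes
    have hN : Tendsto (fun k => La d r k) atTop (big d) := by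
      unfold big
      rw [tendsto_comap_iff]
      have : (Finset.card ∘ fun k => La d r k) = fun k => (2 * k + 1) ^ d := by
        funext k
        exact card_La r k
      rw [this]
      refine tendsto_atTop_mono (fun k => ?_) tendsto_id
      show k ≤ (2 * k + 1) ^ d
      calc k ≤ 2 * k + 1 := by omega
        _ ≤ (2 * k + 1) ^ d := Nat.le_self_pow hd.ne' _
    have hcard : Tendsto (fun k => ((La d r k).card : ℝ)) atTop atTop := by
      refine tendsto_natCast_atTop_atTop.comp ?_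
      have := hN
      unfold big at this
      rwa [tendsto_comap_iff] at this
    have hk : ∀ᶠ k in atTop, ρ ^ 3 ≤ 3 / ((La d r k).card : ℝ) +
        3 * (2 * ε + err (La d r k)) := by
      filter_upwards [hN.eventually hbd, hN.eventually (ev_big 1)] with k h1 h2
      set Λ := La d r k with hΛ
      have hNpos : (0 : ℝ) < Λ.card := by exact_mod_cast h2
      have h3 := expect_bound hx hx1 hQ r k
      have h4 : ∑ u ∈ Λ, ∑ v ∈ Λ, ∑ z ∈ Λ, Q.real (SepE d r z u v) ≤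
          (2 * ε + err Λ) * (Λ.card : ℝ) ^ 3 := by
        have h5 : ∑ u ∈ Λ, ∑ v ∈ Λ, ∑ z ∈ Λ, Q.real (SepE d r z u v) ≤
            ∑ u ∈ Λ, ∑ v ∈ Λ, ∑ z ∈ Λ, (qv x (cp d x) (ci d x 0) (dV u + dV v)
              (tE z (tE 0 (bE d (R + 1)))) (shO z ⁻¹' LLE d R r 0 (f + 1)) + ε) := by
          refine sum_le_sum fun u _ => sum_le_sum fun v _ => sum_le_sum fun z _ => ?_
          have := Sep_bound hx hx1 hQ hrR hf z u v
          rw [tE_tE, zero_add]
          exact this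
        refine h5.trans ?_
        simp only [sum_add_distrib, sum_const, nsmul_eq_mul]
        have h6 := h1
        have h7 : (Q.real (LLE d R r 0 (f + 1)) + err Λ) * (Λ.card : ℝ) ^ 3 ≤
            (ε + err Λ) * (Λ.card : ℝ) ^ 3 :=
          mul_le_mul_of_nonneg_right (by linarith) (by positivity)
        have h8 : (Λ.card : ℝ) * (Λ.card * (Λ.card * ε)) = ε * (Λ.card : ℝ) ^ 3 := by ring
        rw [h8]
        nlinarith
      have h9 : ρ ^ 3 * (Λ.card : ℝ) ^ 3 ≤ 3 * (Λ.card : ℝ) ^ 2 +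
          3 * ((2 * ε + err Λ) * (Λ.card : ℝ) ^ 3) := by linarith
      have h10 : (3 / (Λ.card : ℝ) + 3 * (2 * ε + err Λ)) * (Λ.card : ℝ) ^ 3 =
          3 * (Λ.card : ℝ) ^ 2 + 3 * ((2 * ε + err Λ) * (Λ.card : ℝ) ^ 3) := by
        field_simp
      rw [← h10] at h9
      exact le_of_mul_le_mul_right h9 (by positivity)
    have hlim : Tendsto (fun k => 3 / ((La d r k).card : ℝ) + 3 * (2 * ε + err (La d r k)))
        atTop (𝓝 (0 + 3 * (2 * ε + 0))) := by
      refine Tendsto.add ?_ ?_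
      · exact Tendsto.div_atTop tendsto_const_nhds hcard
      · exact Tendsto.const_mul _ (Tendsto.const_add _ (herr.comp hN))
    have h11 := ge_of_tendsto hlim hk
    linarith
  have hlim2 : Tendsto (fun R => 6 * Q.real (GoodE d R r 0)ᶜ) atTop (𝓝 (6 * 0)) :=
    (Good_tendsto r).const_mul 6
  rw [mul_zero] at hlim2
  have hρ3 : ρ ^ 3 ≤ 0 := by
    refine ge_of_tendsto hlim2 ?_
    filter_upwards [eventually_ge_atTop r] with R hRr
    exact hR R hRr
  have hρz : ρ = 0 := by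
    have h12 : ρ ^ 3 = 0 := le_antisymm hρ3 (by positivity)
    exact pow_eq_zero_iff (n := 3) (by norm_num) |>.mp h12
  rwa [hρ, measureReal_eq_zero_iff] at hρz

/-- Every infinite component of the trace has one end, almost surely. -/
theorem ae_oneEnd (hd : 0 < d) (hx : 0 < x) (hx1 : x < 1) (hQ : IsQ x Q) :
    ∀ᵐ ω ∂Q, OneEnd (tr ω) := by
  have h1 : ∀ᵐ ω ∂Q, ∀ r, ¬ Two (tr ω) r 0 := by
    rw [ae_all_iff]
    intro r
    rw [ae_iff]
    simp only [not_not]
    exact Q_Two_of_Cut hx hx1 hQ r (Q_Cut hd hx hx1 hQ r)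
  filter_upwards [h1] with ω hω
  exact oneEnd_of hω

end Q

end Pool.Agent.TH980
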