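import Pool.Agent.TH980.C3
import Pool.Agent.TH980.P3

/-!
# One-endedness of the duplicated-current percolation model
-/

set_option autoImplicit false
set_option linter.unusedSectionVars false
set_option linter.unusedSimpArgs false

open Finset Filter Topology MeasureTheory
open scoped Nat

namespace Pool.Agent.TH980

open Model

variable {d : ℕ}

/-! ### From components to ends -/

lemma reachable_induce {t : Set (Edg d)} {S : Set (Vtx d)} {u v : Vtx d} (hu : u ∈ S)
    (hv : v ∈ S) : ((graph t).induce S).Reachable ⟨u, hu⟩ ⟨v, hv⟩ ↔ Cn (ad t) S u v := by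
  rw [SimpleGraph.reachable_iff_reflTransGen]
  constructor
  · intro h
    have key : ∀ w : S, Relation.ReflTransGen ((graph t).induce S).Adj ⟨u, hu⟩ w →
        Cn (ad t) S u w.1 := by
      intro w hw
      induction hw with
      | refl => exact Cn.refl hu
      | tail _ h1 ih => exact ih.tail h1 (Subtype.property _)
    exact key _ h
  · intro h
    have key : ∃ hw : v ∈ S, Relation.ReflTransGen ((graph t).induce S).Adj ⟨u, hu⟩ ⟨v, hw⟩ := by
      refine h.induct (P := fun w => ∃ hw : w ∈ S,
        Relation.ReflTransGen ((graph t).induce S).Adj ⟨u, hu⟩ ⟨w, hw⟩) ?_ ?_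
      · exact ⟨hu, Relation.ReflTransGen.refl⟩
      · rintro a b _ hab hb ⟨ha, h1⟩
        exact ⟨hb, h1.tail hab⟩
    exact key.2

lemma reachable_graph {t : Set (Edg d)} {u v : Vtx d} :
    (graph t).Reachable u v ↔ Cn (ad t) Set.univ u v := by
  rw [SimpleGraph.reachable_iff_reflTransGen]
  constructor
  · intro h
    induction h with
    | refl => exact Cn.refl (Set.mem_univ _)
    | tail _ h1 ih => exact ih.tail h1 (Set.mem_univ _)
  · intro h
    refine h.induct (P := fun w => Relation.ReflTransGen (graph t).Adj u w)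
      Relation.ReflTransGen.refl ?_
    intro a b _ hab _ ha
    exact ha.tail hab

lemma hasOneEnd_of {t : Set (Edg d)} (h : OneEnd t) (C : (graph t).ConnectedComponent)
    (hC : C.supp.Infinite) : HasOneEnd (graph t) C := by
  have hs := ad_symm t
  intro F hF
  obtain ⟨u, hu⟩ := hC.nonempty
  have hmem : ∀ v, v ∈ C.supp ↔ Cn (ad t) Set.univ u v := by
    intro v
    rw [SimpleGraph.ConnectedComponent.mem_supp_iff] at hu ⊢
    rw [← hu, SimpleGraph.ConnectedComponent.eq, reachable_graph]
    exact ⟨Cn.symm hs, Cn.symm hs⟩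
  have hinf : {v | Cn (ad t) Set.univ u v}.Infinite := hC.mono fun v hv => (hmem v).mp hv
  obtain ⟨⟨w, huw, hwi⟩, huniq⟩ := h u hinf F hF
  have hwF : w ∈ Fᶜ := by
    obtain ⟨v, hv⟩ := hwi.nonempty
    exact Cn.mem_left hv
  have hwS : w ∈ C.supp \ F := ⟨(hmem w).mpr huw, hwF⟩
  -- restriction of connections
  have hres : ∀ a ∈ C.supp \ F, ∀ b, Cn (ad t) Fᶜ a b → Cn (ad t) (C.supp \ F) a b := by
    intro a ha b hab
    refine hab.restrict fun v hv => ⟨(hmem v).mpr ?_, hv.mem_right⟩
    exact ((hmem a).mp ha.1).trans (hv.mono_set (Set.subset_univ _))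
  refine ⟨((graph t).induce (C.supp \ F)).connectedComponentMk ⟨w, hwS⟩, ?_, ?_⟩
  · intro hfin
    apply hwi
    refine (hfin.image Subtype.val).subset ?_
    intro v hv
    have hv' := hres w hwS v hv
    refine ⟨⟨v, hv'.mem_right⟩, ?_, rfl⟩
    rw [SimpleGraph.ConnectedComponent.mem_supp_iff, SimpleGraph.ConnectedComponent.eq,
      reachable_induce]
    exact Cn.symm hs hv'
  · intro K hK
    obtain ⟨⟨w', hw'S⟩, hw'⟩ := hK.nonempty
    rw [SimpleGraph.ConnectedComponent.mem_supp_iff] at hw'
    have hw'i : {v | Cn (ad t) Fᶜ w' v}.Infinite := by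
      intro hfin
      apply hK
      refine Set.Finite.of_finite_image (f := Subtype.val) (hfin.subset ?_)
        Subtype.val_injective.injOn
      rintro _ ⟨⟨v, hvS⟩, hv, rfl⟩
      rw [SimpleGraph.ConnectedComponent.mem_supp_iff, ← hw', SimpleGraph.ConnectedComponent.eq,
        reachable_induce] at hv
      exact (Cn.symm hs hv).mono_set fun v hv => hv.2
    have h1 := huniq w' w ((hmem w').mp hw'S.1) huw hw'i hwi
    rw [← hw', SimpleGraph.ConnectedComponent.eq, reachable_induce]
    exact hres w' hw'S w h1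

/-! ### The law of the trace -/

lemma measurable_tr : Measurable (tr : Om d → Set (Edg d)) :=
  measurable_set_iff.mpr fun e => m_coord (2, e)

open Classical in
/-- a configuration with a given trace -/
noncomputable def jt (t : Set (Edg d)) : Om d := fun p => decide (p.2 ∈ t)

open Classical in
lemma jt_true (t : Set (Edg d)) (p : Fin 3 × Edg d) : jt t p = true ↔ p.2 ∈ t := by
  unfold jt
  exact decide_eq_true_iff

lemma tr_jt (t : Set (Edg d)) : tr (jt t) = t := by
  ext e
  exact jt_true t (2, e)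

lemma measurable_jt : Measurable (jt : Set (Edg d) → Om d) := by
  refine measurable_pi_lambda _ fun p => ?_
  refine measurable_to_bool ?_
  have : (fun t : Set (Edg d) => jt t p) ⁻¹' {true} = {t | p.2 ∈ t} := by
    ext t
    exact jt_true t p
  rw [this]
  exact measurableSet_setOfPred.mpr (measurable_set_mem p.2)

/-- the cylinder events of the trace -/
def CS (B : Finset (Edg d)) (s : Set (Edg d)) : Set (Set (Edg d)) :=
  {ω | ∀ e ∈ B, (e ∈ ω ↔ e ∈ s)}

lemma jt_cyl (B : Finset (Edg d)) (m : Om d) :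
    (jt ⁻¹' cyl B m : Set (Set (Edg d))) = ∅ ∨ jt ⁻¹' cyl B m = CS B (tr m) := by
  by_cases h : ∀ e ∈ B, ∀ i, m (i, e) = m (2, e)
  · right
    ext t
    constructor
    · intro ht e he
      have h1 : jt t (2, e) = m (2, e) := ht e he 2
      show e ∈ t ↔ m (2, e) = true
      rw [← h1]
      exact (jt_true t (2, e)).symm
    · intro ht e he i
      have h1 : e ∈ t ↔ m (2, e) = true := ht e he
      show jt t (i, e) = m (i, e)
      rw [h e he i, Bool.eq_iff_iff]
      exact (jt_true t (i, e)).trans h1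
  · left
    push Not at h
    obtain ⟨e, he, i, hi⟩ := h
    rw [Set.eq_empty_iff_forall_notMem]
    intro t ht
    have h1 : jt t (i, e) = m (i, e) := ht e he i
    have h2 : jt t (2, e) = m (2, e) := ht e he 2
    have h3 : jt t (i, e) = jt t (2, e) := rfl
    exact hi ((h1.symm.trans h3).trans h2)

lemma ext_CS {μ ν : Measure (Set (Edg d))} [IsProbabilityMeasure μ] [IsProbabilityMeasure ν]
    (h : ∀ B s, μ.real (CS B s) = ν.real (CS B s)) : μ.map jt = ν.map jt := by
  have : IsProbabilityMeasure (μ.map jt) :=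
    Measure.isProbabilityMeasure_map measurable_jt.aemeasurable
  refine ext_cyl fun B m => ?_
  rw [Measure.map_apply measurable_jt (measurable_cyl B m),
    Measure.map_apply measurable_jt (measurable_cyl B m)]
  rcases jt_cyl B m with h1 | h1
  · rw [h1, measure_empty, measure_empty]
  · rw [h1, ← measureReal_eq_measureReal_iff]
    exact h B (tr m)

lemma tanh_pos' {y : ℝ} (hy : 0 < y) : 0 < Real.tanh y := by
  rw [Real.tanh_eq_sinh_div_cosh]
  exact div_pos (Real.sinh_pos_iff.mpr hy) (Real.cosh_pos y)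

lemma tanh_lt_one' (y : ℝ) : Real.tanh y < 1 := by
  rw [Real.tanh_eq_sinh_div_cosh, div_lt_one (Real.cosh_pos y)]
  exact Real.sinh_lt_cosh y

lemma law_limits {β : ℝ} (hβ : 0 < β) {Q : Measure (Om d)} [IsProbabilityMeasure Q]
    (hQ : IsQ (Real.tanh β) Q) (B : Finset (Edg d)) (s : Set (Edg d)) :
    (∀ h : ℝ, 0 < h → Tendsto (fun n => traceProb d n β h B s) atTop
      (𝓝 (qv (Real.tanh β) (ci d (Real.tanh β) (Real.tanh (β * h)))
        (ci d (Real.tanh β) 0) 0 B (TE B s)))) ∧
    Tendsto (fun h : ℝ => qv (Real.tanh β) (ci d (Real.tanh β) (Real.tanh (β * h)))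
        (ci d (Real.tanh β) 0) 0 B (TE B s)) (𝓝[>] 0) (𝓝 (Q.real (TE B s))) := by
  have hx := tanh_pos' hβ
  have hx1 := tanh_lt_one' β
  constructor
  · intro h hh
    have hy := tanh_pos' (mul_pos hβ hh)
    have hy1 := tanh_lt_one' (β * h)
    obtain ⟨n0, hn0⟩ := exists_bE B
    have h1 := tendsto_qv (x := Real.tanh β) (tendsto_cn (d := d) hx.le hx1.le hy.le hy1.le)
      (tendsto_cn (d := d) hx.le hx1.le le_rfl zero_le_one) 0 B (TE B s)
    refine h1.congr' ?_
    filter_upwards [eventually_ge_atTop n0] with n hn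
    have hBn : B ⊆ bE d n := hn0.trans (bE_mono hn)
    rw [traceProb_eq hβ.le hh.le hBn, EV_loc hx hx1 hBn (Loc_TE B s)]
  · rw [Q_loc hQ (Loc_TE B s)]
    have h1 : Tendsto (fun h : ℝ => Real.tanh (β * h)) (𝓝[>] 0) (𝓝[>] 0) := by
      rw [tendsto_nhdsWithin_iff]
      constructor
      · have hc : Continuous (fun h : ℝ => Real.tanh (β * h)) := by
          have : (fun h : ℝ => Real.tanh (β * h)) =
              fun h => Real.sinh (β * h) / Real.cosh (β * h) := by
            funext h; exact Real.tanh_eq_sinh_div_cosh _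
          rw [this]
          exact (Real.continuous_sinh.comp (continuous_const.mul continuous_id)).div
            (Real.continuous_cosh.comp (continuous_const.mul continuous_id))
            (fun h => (Real.cosh_pos _).ne')
        have h2 := hc.tendsto 0
        simp only [mul_zero, Real.tanh_zero] at h2
        exact h2.mono_left nhdsWithin_le_nhds
      · filter_upwards [self_mem_nhdsWithin] with h hh
        exact tanh_pos' (mul_pos hβ hh)
    have h2 := tendsto_qv (x := Real.tanh β) (l := 𝓝[>] (0 : ℝ))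
      (f₁ := fun y => ci d (Real.tanh β) y) (f₂ := fun _ => ci d (Real.tanh β) 0)
      (c₁ := cp d (Real.tanh β)) (c₂ := ci d (Real.tanh β) 0)
      (tendsto_cp_nhds hx.le hx1.le) (fun _ => tendsto_const_nhds) 0 B (TE B s)
    exact h2.comp h1

lemma map_tr_CS (Q : Measure (Om d)) (B : Finset (Edg d)) (s : Set (Edg d)) :
    (Q.map tr).real (CS B s) = Q.real (TE B s) := by
  have hm : MeasurableSet (CS B s : Set (Set (Edg d))) := by
    have : (CS B s : Set (Set (Edg d))) = {ω | ∀ e, e ∈ B → (e ∈ ω ↔ e ∈ s)} := rfl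
    rw [this]
    exact measurableSet_setOfPred.mpr (Measurable.forall fun e =>
      measurable_const.imp ((measurable_set_mem e).iff measurable_const))
  rw [measureReal_def, measureReal_def, Measure.map_apply measurable_tr hm]
  rfl

/-- The main theorem. -/
theorem main (hd : 0 < d) {β : ℝ} (hβ : 0 < β) :
    (∃ μ : Measure (Set (Edge d)), IsProbabilityMeasure μ ∧ IsLaw β μ) ∧
    ∀ μ : Measure (Set (Edge d)), IsProbabilityMeasure μ → IsLaw β μ →
      ∀ᵐ ω ∂μ, ∀ C : (graph ω).ConnectedComponent, C.supp.Infinite → HasOneEnd (graph ω) C := by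
  have hx := tanh_pos' hβ
  have hx1 := tanh_lt_one' β
  obtain ⟨Q, hQp, hQ⟩ := exists_Q d hx hx1
  have hprob : IsProbabilityMeasure (Q.map tr) :=
    Measure.isProbabilityMeasure_map measurable_tr.aemeasurable
  constructor
  · refine ⟨Q.map tr, hprob, fun B s => ?_⟩
    obtain ⟨h1, h2⟩ := law_limits hβ hQ B s
    refine ⟨_, h1, ?_⟩
    have h3 : ((Q.map tr) {ω | ∀ e ∈ B, (e ∈ ω ↔ e ∈ s)}).toReal = Q.real (TE B s) :=
      map_tr_CS Q B s
    rw [h3]
    exact h2
  · intro μ hμ hlaw
    -- identification of the law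
    have heq : μ.map jt = (Q.map tr).map jt := by
      refine ext_CS fun B s => ?_
      rw [map_tr_CS]
      obtain ⟨l, hl1, hl2⟩ := hlaw B s
      obtain ⟨h1, h2⟩ := law_limits hβ hQ B s
      refine tendsto_nhds_unique hl2 (h2.congr' ?_)
      filter_upwards [self_mem_nhdsWithin] with h hh
      exact tendsto_nhds_unique (h1 h hh) (hl1 h hh)
    -- no two arms
    have hmeas : MeasurableSet {ω : Om d | ∀ r, ¬ Two (tr ω) r 0} :=
      measurableSet_setOfPred.mpr (Measurable.forall fun r => (m_Two r 0).not)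
    have hQ1 : ∀ᵐ ω ∂Q, ∀ r, ¬ Two (tr ω) r 0 := by
      rw [ae_all_iff]
      intro r
      rw [ae_iff]
      simp only [not_not]
      exact Q_Two_of_Cut hx hx1 hQ r (Q_Cut hd hx hx1 hQ r)
    have hQ2 : ∀ᵐ ω ∂((Q.map tr).map jt), ∀ r, ¬ Two (tr ω) r 0 := by
      rw [Measure.map_map measurable_jt measurable_tr,
        ae_map_iff (measurable_jt.comp measurable_tr).aemeasurable hmeas]
      filter_upwards [hQ1] with ω hω r
      show ¬ Two (tr (jt (tr ω))) r 0
      rw [tr_jt]
      exact hω r
    rw [← heq, ae_map_iff measurable_jt.aemeasurable hmeas] at hQ2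
    filter_upwards [hQ2] with ω hω C hC
    refine hasOneEnd_of (oneEnd_of fun r => ?_) C hC
    have := hω r
    rwa [tr_jt] at this

end Pool.Agent.TH980
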