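import Mathlib

/-!
# Connections inside a set of vertices
-/

set_option autoImplicit false
set_option linter.unusedSectionVars false
set_option linter.unusedSimpArgs false

namespace Pool.Agent.TH980

variable {V : Type*}

/-- `u` and `v` are connected by a path all of whose vertices lie in `S` -/
def Cn (R : V → V → Prop) (S : Set V) (u v : V) : Prop :=
  u ∈ S ∧ Relation.ReflTransGen (fun a b => R a b ∧ a ∈ S ∧ b ∈ S) u v

variable {R : V → V → Prop} {S S' B : Set V} {u v w : V}

lemma Cn.refl (h : u ∈ S) : Cn R S u u := ⟨h, Relation.ReflTransGen.refl⟩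

lemma Cn.mem_left (h : Cn R S u v) : u ∈ S := h.1

lemma Cn.mem_right (h : Cn R S u v) : v ∈ S := by
  obtain ⟨h1, h2⟩ := h
  induction h2 with
  | refl => exact h1
  | tail _ h _ => exact h.2.2

lemma Cn.trans (h : Cn R S u v) (h' : Cn R S v w) : Cn R S u w := ⟨h.1, h.2.trans h'.2⟩

lemma Cn.tail (h : Cn R S u v) (h1 : R v w) (h2 : w ∈ S) : Cn R S u w :=
  ⟨h.1, h.2.tail ⟨h1, h.mem_right, h2⟩⟩

lemma Cn.single (h : R u v) (hu : u ∈ S) (hv : v ∈ S) : Cn R S u v := (Cn.refl hu).tail h hv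

/-- induction along a path -/
lemma Cn.induct {P : V → Prop} (h : Cn R S u v) (h0 : P u)
    (hs : ∀ a b, Cn R S u a → R a b → b ∈ S → P a → P b) : P v := by
  obtain ⟨hu, h⟩ := h
  induction h with
  | refl => exact h0
  | tail h1 h2 ih => exact hs _ _ ⟨hu, h1⟩ h2.1 h2.2.2 ih

lemma Cn.symm (hR : ∀ a b, R a b → R b a) (h : Cn R S u v) : Cn R S v u := by
  refine h.induct (P := fun w => Cn R S w u) (Cn.refl h.1) ?_
  intro a b ha hab hb hPa
  exact (Cn.single (hR _ _ hab) hb ha.mem_right).trans hPa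

lemma Cn.mono {R' : V → V → Prop} (h : Cn R S u v) (hR : ∀ a ∈ S, ∀ b ∈ S, R a b → R' a b)
    (hS : S ⊆ S') : Cn R' S' u v := by
  refine h.induct (P := fun w => Cn R' S' u w) (Cn.refl (hS h.1)) ?_
  intro a b ha hab hb hPa
  exact hPa.tail (hR a ha.mem_right b hb hab) (hS hb)

lemma Cn.mono_set (h : Cn R S u v) (hS : S ⊆ S') : Cn R S' u v := h.mono (fun _ _ _ _ h => h) hS

/-- A path stays in the component of its first vertex. -/
lemma Cn.restrict (h : Cn R S u v) (h' : ∀ w, Cn R S u w → w ∈ S') : Cn R S' u v := by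
  refine h.induct (P := fun w => Cn R S' u w) (Cn.refl (h' u (Cn.refl h.1))) ?_
  intro a b hab hR hb ha
  exact ha.tail hR (h' b (hab.tail hR hb))

/-- first entrance -/
lemma Cn.first (h : Cn R S u v) (hu : u ∉ B) (hv : v ∈ B) :
    ∃ w b, Cn R (S \ B) u w ∧ R w b ∧ b ∈ B ∧ b ∈ S := by
  by_contra hcon
  push Not at hcon
  have : v ∉ B := by
    have h1 : Cn R (S \ B) u v := by
      refine h.induct (P := fun w => Cn R (S \ B) u w) (Cn.refl ⟨h.1, hu⟩) ?_
      intro a b _ hR hb ha
      refine ha.tail hR ⟨hb, fun hbB => ?_⟩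
      exact hcon a b ha hR hbB hb
    exact h1.mem_right.2
  exact this hv

lemma Cn.inr_first (h : Cn R S u v) (hu : u ∉ B) (hv : v ∈ B) :
    ∃ b, Cn R S u b ∧ b ∈ B ∧ ∃ w, Cn R (S \ B) u w ∧ R w b := by
  obtain ⟨w, b, h1, h2, h3, h4⟩ := h.first hu hv
  exact ⟨b, (h1.mono_set Set.sdiff_subset).tail h2 h4, h3, w, h1, h2⟩

/-- transport along a bijection -/
lemma Cn.equiv {V' : Type*} {R' : V' → V' → Prop} (f : V ≃ V') (hR : ∀ a b, R a b ↔ R' (f a) (f b))
    {T : Set V'} (hS : ∀ a, a ∈ S ↔ f a ∈ T) : Cn R S u v ↔ Cn R' T (f u) (f v) := by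
  constructor
  · intro h
    refine h.induct (P := fun w => Cn R' T (f u) (f w)) (Cn.refl ((hS u).mp h.1)) ?_
    intro a b _ hab hb ha
    exact ha.tail ((hR _ _).mp hab) ((hS b).mp hb)
  · intro h
    have : ∀ w', Cn R' T (f u) w' → Cn R S u (f.symm w') := by
      intro w' hw'
      refine hw'.induct (P := fun w => Cn R S u (f.symm w)) ?_ ?_
      · rw [Equiv.symm_apply_apply]
        exact Cn.refl ((hS u).mpr hw'.1)
      · intro a b _ hab hb ha
        refine ha.tail ?_ ?_
        · rw [hR, Equiv.apply_symm_apply, Equiv.apply_symm_apply]; exact hab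
        · rw [hS, Equiv.apply_symm_apply]; exact hb
    have h1 := this _ h
    rwa [Equiv.symm_apply_apply] at h1

/-- An infinite component next to a finite set `B` leaves an infinite component next to `B`
after the removal of `B`. -/
lemma infinite_part (hR : ∀ a b, R a b → R b a) (hB : B.Finite)
    (hN : {w | ∃ b ∈ B, R w b}.Finite) {k : V} (hk : {v | Cn R S k v}.Infinite)
    (hadj : ∃ v b, Cn R S k v ∧ b ∈ B ∧ (R v b ∨ v = b)) :
    ∃ w, Cn R S k w ∧ w ∉ B ∧ (∃ b ∈ B, R w b) ∧ {v | Cn R (S \ B) w v}.Infinite := by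
  by_cases hKB : ∃ v, Cn R S k v ∧ v ∈ B
  · obtain ⟨v0, hv0, hv0B⟩ := hKB
    by_contra hcon
    push Not at hcon
    apply hk
    set N := {w | (∃ b ∈ B, R w b) ∧ Cn R S k w ∧ w ∉ B} with hNdef
    have hNf : N.Finite := hN.subset fun w hw => hw.1
    have hUf : (⋃ w ∈ N, {v | Cn R (S \ B) w v}).Finite := by
      refine hNf.biUnion fun w hw => ?_
      exact hcon w hw.2.1 hw.2.2 hw.1
    refine (hB.union hUf).subset ?_
    intro v hv
    by_cases hvB : v ∈ B
    · exact Or.inl hvB
    · right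
      have h1 : Cn R S v v0 := (Cn.symm hR hv).trans hv0
      obtain ⟨w, b, hw, hwb, hb, -⟩ := h1.first hvB hv0B
      have hwS : Cn R S k w := hv.trans (hw.mono_set Set.sdiff_subset)
      exact Set.mem_biUnion (show w ∈ N from ⟨⟨b, hb, hwb⟩, hwS, hw.mem_right.2⟩) (hw.symm hR)
  · push Not at hKB
    obtain ⟨v, b, hv, hb, h⟩ := hadj
    rcases h with h | rfl
    · refine ⟨v, hv, hKB v hv, ⟨b, hb, h⟩, ?_⟩
      refine hk.mono ?_
      intro u hu
      have h1 : Cn R S v u := (Cn.symm hR hv).trans hu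
      refine h1.restrict fun w hw => ?_
      exact ⟨hw.mem_right, hKB w (hv.trans hw)⟩
    · exact absurd hb (hKB v hv)

/-! ### Counting trifurcations -/

section count

variable {ι : Type*} {bo : ι → Set V} {ce : ι → V}

/-- boxes are seen as a single point by the complement of another box -/
lemma box_conn (hconn : ∀ i, ∀ b ∈ bo i, Cn R (bo i) (ce i) b) {i j : ι}
    (hd : Disjoint (bo i) (bo j)) {b : V} (hb : b ∈ bo j) : Cn R (bo i)ᶜ (ce j) b :=
  (hconn j b hb).mono_set fun _ hx hx' => Set.disjoint_left.mp hd hx' hx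

lemma other_side (hR : ∀ a b, R a b → R b a) (hconn : ∀ i, ∀ b ∈ bo i, Cn R (bo i) (ce i) b)
    (hce : ∀ i, ce i ∈ bo i) {i j : ι}
    (hd : Disjoint (bo i) (bo j)) {u : V} (hu : u ∉ bo j) (hc : Cn R Set.univ u (ce j))
    (h : ¬ Cn R (bo j)ᶜ u (ce i)) :
    (∀ w, Cn R (bo j)ᶜ u w → w ∈ (bo i)ᶜ) ∧ Cn R (bo i)ᶜ u (ce j) := by
  have h1 : ∀ w, Cn R (bo j)ᶜ u w → w ∈ (bo i)ᶜ := by
    intro w hw hwi
    apply h
    exact hw.trans (Cn.symm hR (box_conn hconn hd.symm hwi))
  refine ⟨h1, ?_⟩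
  obtain ⟨w, b, hw, hwb, hb, -⟩ := hc.first hu (hce j)
  have hw' : Cn R (bo j)ᶜ u w := hw.mono_set fun x hx => hx.2
  have h2 : Cn R (bo i)ᶜ u w := hw'.restrict h1
  have h3 : Cn R (bo i)ᶜ u b := h2.tail hwb (fun hbi => Set.disjoint_left.mp hd hbi hb)
  exact h3.trans (Cn.symm hR (box_conn hconn hd hb))

theorem count_boxes (hR : ∀ a b, R a b → R b a)
    (hconn : ∀ i, ∀ b ∈ bo i, Cn R (bo i) (ce i) b) (hce : ∀ i, ce i ∈ bo i)
    (hdisj : ∀ i j, i ≠ j → Disjoint (bo i) (bo j)) :
    ∀ (n : ℕ) (T : Finset ι) (Y : Finset V), T.card = n →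
      (∀ i ∈ T, ∃ A : Finset V, A ⊆ Y ∧ A.card = 3 ∧
        (∀ y ∈ A, y ∉ bo i ∧ Cn R Set.univ y (ce i)) ∧
        ∀ y ∈ A, ∀ y' ∈ A, y ≠ y' → ¬ Cn R (bo i)ᶜ y y') → n ≤ Y.card := by
  classical
  intro n
  induction n with
  | zero => intros; exact Nat.zero_le _
  | succ n ih =>
    intro T Y hT hA
    have hTne : T.Nonempty := by
      rw [← Finset.card_pos, hT]; exact Nat.succ_pos n
    -- a box with two free arms
    have key : ∃ j ∈ T, ∃ u ∈ Y, ∃ w ∈ Y, (u ∉ bo j ∧ Cn R Set.univ u (ce j)) ∧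
        (w ∉ bo j ∧ Cn R Set.univ w (ce j)) ∧ ¬ Cn R (bo j)ᶜ u w ∧
        (∀ k ∈ T, ¬ Cn R (bo j)ᶜ u (ce k)) ∧ ∀ k ∈ T, ¬ Cn R (bo j)ᶜ w (ce k) := by
      set P := (T ×ˢ Y).filter (fun p => (p.2 ∉ bo p.1 ∧ Cn R Set.univ p.2 (ce p.1)) ∧
        ∃ k ∈ T, Cn R (bo p.1)ᶜ p.2 (ce k)) with hP
      by_cases hPne : P.Nonempty
      · obtain ⟨⟨i, y⟩, hiy, hmin⟩ := P.exists_min_image
          (fun p => (T.filter (fun k => Cn R (bo p.1)ᶜ p.2 (ce k))).card) hPne
        rw [hP, Finset.mem_filter, Finset.mem_product] at hiy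
        obtain ⟨⟨hiT, hyY⟩, ⟨hyi, hyc⟩, j, hjT, hj⟩ := hiy
        simp only at hiT hyY hyi hyc hj
        have hij : i ≠ j := by
          rintro rfl
          exact hj.mem_right (hce i)
        obtain ⟨A, hAY, hA3, hA1, hA2⟩ := hA j hjT
        -- elements of `A` which are not connected to the box `i`
        have hcard : 1 < (A.filter (fun a => ¬ Cn R (bo j)ᶜ a (ce i))).card := by
          have h1 : (A.filter (fun a => Cn R (bo j)ᶜ a (ce i))).card ≤ 1 := by
            rw [Finset.card_le_one]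
            intro a ha b hb
            rw [Finset.mem_filter] at ha hb
            by_contra hab
            exact hA2 a ha.1 b hb.1 hab (ha.2.trans (Cn.symm hR hb.2))
          have h2 := Finset.card_filter_add_card_filter_not (s := A)
            (fun a => Cn R (bo j)ᶜ a (ce i))
          omega
        obtain ⟨u, hu, w, hw, huw⟩ := Finset.one_lt_card.mp hcard
        rw [Finset.mem_filter] at hu hw
        have free : ∀ u ∈ A, ¬ Cn R (bo j)ᶜ u (ce i) → ∀ k ∈ T, ¬ Cn R (bo j)ᶜ u (ce k) := by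
          intro u huA hui k hkT hk
          have hmem : (j, u) ∈ P := by
            rw [hP, Finset.mem_filter, Finset.mem_product]
            exact ⟨⟨hjT, hAY huA⟩, hA1 u huA, k, hkT, hk⟩
          have hle := hmin _ hmem
          have hos := other_side hR hconn hce (hdisj i j hij) (hA1 u huA).1 (hA1 u huA).2 hui
          have hlt : (T.filter (fun k => Cn R (bo j)ᶜ u (ce k))).card <
              (T.filter (fun k => Cn R (bo i)ᶜ y (ce k))).card := by
            apply Finset.card_lt_card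
            rw [Finset.ssubset_iff_of_subset]
            · refine ⟨j, Finset.mem_filter.mpr ⟨hjT, hj⟩, fun h => ?_⟩
              exact (Finset.mem_filter.mp h).2.mem_right (hce j)
            · intro k' hk'
              rw [Finset.mem_filter] at hk' ⊢
              refine ⟨hk'.1, ?_⟩
              have h1 : Cn R (bo i)ᶜ u (ce k') := hk'.2.restrict hos.1
              exact hj.trans ((Cn.symm hR hos.2).trans h1)
          exact absurd hle (not_le.mpr hlt)
        exact ⟨j, hjT, u, hAY hu.1, w, hAY hw.1, hA1 u hu.1, hA1 w hw.1, hA2 u hu.1 w hw.1 huw,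
          free u hu.1 hu.2, free w hw.1 hw.2⟩
      · obtain ⟨j, hj⟩ := hTne
        obtain ⟨A, hAY, hA3, hA1, hA2⟩ := hA j hj
        obtain ⟨u, hu, w, hw, huw⟩ := Finset.one_lt_card.mp (by omega : 1 < A.card)
        have free : ∀ u ∈ A, ∀ k ∈ T, ¬ Cn R (bo j)ᶜ u (ce k) := by
          intro u hu k hk h
          apply hPne
          refine ⟨(j, u), ?_⟩
          rw [hP, Finset.mem_filter, Finset.mem_product]
          exact ⟨⟨hj, hAY hu⟩, hA1 u hu, k, hk, h⟩
        exact ⟨j, hj, u, hAY hu, w, hAY hw, hA1 u hu, hA1 w hw, hA2 u hu w hw huw, free u hu,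
          free w hw⟩
    obtain ⟨j, hjT, u, huY, w, hwY, hu, hw, huw, hfu, hfw⟩ := key
    have huw' : w ≠ u := by
      rintro rfl
      exact huw (Cn.refl hu.1)
    have h1 : n ≤ (Y.erase u).card := by
      refine ih (T.erase j) (Y.erase u) (by rw [Finset.card_erase_of_mem hjT, hT]; rfl) ?_
      intro i hi
      obtain ⟨hij, hiT⟩ := Finset.mem_erase.mp hi
      obtain ⟨A, hAY, hA3, hA1, hA2⟩ := hA i hiT
      by_cases huA : u ∈ A
      · have ou := other_side hR hconn hce (hdisj i j hij) hu.1 hu.2 (hfu i hiT)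
        have ow := other_side hR hconn hce (hdisj i j hij) hw.1 hw.2 (hfw i hiT)
        have hwu : Cn R (bo i)ᶜ w u := ow.2.trans (Cn.symm hR ou.2)
        have hwA : w ∉ A.erase u := by
          intro h
          obtain ⟨h1, h2⟩ := Finset.mem_erase.mp h
          exact hA2 w h2 u huA h1 hwu
        refine ⟨insert w (A.erase u), ?_, ?_, ?_, ?_⟩
        · intro y hy
          rcases Finset.mem_insert.mp hy with rfl | hy
          · exact Finset.mem_erase.mpr ⟨huw', hwY⟩
          · obtain ⟨h1, h2⟩ := Finset.mem_erase.mp hy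
            exact Finset.mem_erase.mpr ⟨h1, hAY h2⟩
        · rw [Finset.card_insert_of_notMem hwA, Finset.card_erase_of_mem huA, hA3]
        · intro y hy
          rcases Finset.mem_insert.mp hy with rfl | hy
          · refine ⟨ow.2.mem_left, ?_⟩
            have h1 : Cn R Set.univ u (ce j) := hu.2
            exact hw.2.trans ((Cn.symm hR h1).trans (hA1 u huA).2)
          · exact hA1 y (Finset.mem_erase.mp hy).2
        · have hws : ∀ y ∈ A.erase u, ¬ Cn R (bo i)ᶜ w y := by
            intro y hy h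
            obtain ⟨h1, h2⟩ := Finset.mem_erase.mp hy
            exact hA2 u huA y h2 (Ne.symm h1) ((Cn.symm hR hwu).trans h)
          intro y hy y' hy' hne
          rcases Finset.mem_insert.mp hy with h1 | h1
          · rcases Finset.mem_insert.mp hy' with h2 | h2
            · exact absurd (h1.trans h2.symm) hne
            · rw [h1]; exact hws y' h2
          · rcases Finset.mem_insert.mp hy' with h2 | h2
            · rw [h2]; exact fun h => hws y h1 (Cn.symm hR h)
            · exact hA2 y (Finset.mem_erase.mp h1).2 y' (Finset.mem_erase.mp h2).2 hne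
      · refine ⟨A, ?_, hA3, hA1, hA2⟩
        intro y hy
        exact Finset.mem_erase.mpr ⟨fun h => huA (h ▸ hy), hAY hy⟩
    rw [Finset.card_erase_of_mem huY] at h1
    have : 0 < Y.card := Finset.card_pos.mpr ⟨u, huY⟩
    omega

end count

end Pool.Agent.TH980
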