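import Pool.Agent.TH980.M4

/-!
# Translation invariance, mixing, insertion tolerance
-/

set_option autoImplicit false
set_option linter.unusedSectionVars false
set_option linter.unusedSimpArgs false

open Finset Filter Topology MeasureTheory

namespace Pool.Agent.TH980

variable {d : ℕ}

/-- the configuration seen from `z` -/
def shO (z : Vtx d) (ω : Om d) : Om d := fun p => ω (p.1, shE z p.2)

lemma shO_apply (z : Vtx d) (ω : Om d) (i : Fin 3) (e : Edg d) :
    shO z ω (i, e) = ω (i, shE z e) := rfl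

lemma shE_shE (u v : Vtx d) (e : Edg d) : shE u (shE v e) = shE (v + u) e := by
  unfold shE
  simp only [Equiv.coe_fn_mk, Prod.mk.injEq, and_true]
  abel

lemma shE_zero (e : Edg d) : shE 0 e = e := by
  unfold shE
  simp

lemma shO_shO (u v : Vtx d) (ω : Om d) : shO u (shO v ω) = shO (u + v) ω := by
  funext ⟨i, e⟩
  rw [shO_apply, shO_apply, shO_apply, shE_shE]

lemma shO_zero (ω : Om d) : shO 0 ω = ω := by
  funext ⟨i, e⟩
  rw [shO_apply, shE_zero]

lemma measurable_shO (z : Vtx d) : Measurable (shO z : Om d → Om d) :=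
  measurable_pi_lambda _ fun p => measurable_pi_apply (p.1, shE z p.2)

lemma shO_cyl (z : Vtx d) (B : Finset (Edg d)) (m : Om d) :
    shO z ⁻¹' cyl B m = cyl (tE z B) (shO (-z) m) := by
  ext ω
  constructor
  · intro h e he i
    have h1 := h _ (mem_tE.mp he) i
    rw [shO_apply] at h1
    have e1 : shE z (e.1 - z, e.2) = e := by unfold shE; simp
    rw [e1] at h1
    rw [h1]
    show _ = m (i, (e.1 + -z, e.2))
    rw [sub_eq_add_neg]
  · intro h e he i
    have h1 : shE z e ∈ tE z B := by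
      rw [mem_tE]
      have : ((shE z e).1 - z, (shE z e).2) = e := by unfold shE; simp
      rwa [this]
    have h2 := h _ h1 i
    show ω (i, shE z e) = m (i, e)
    rw [h2, shO_apply, shE_shE, add_neg_cancel, shE_zero]

lemma Loc_shO {B : Finset (Edg d)} {A : Set (Om d)} (h : Loc B A) (z : Vtx d) :
    Loc (tE z B) (shO z ⁻¹' A) := by
  intro ω ω' hω hA
  refine h _ _ ?_ hA
  intro e he i
  refine hω _ ?_ i
  rw [mem_tE]
  have : ((shE z e).1 - z, (shE z e).2) = e := by unfold shE; simp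
  show ((shE z e).1 - z, (shE z e).2) ∈ B
  rwa [this]

/-- translated linear functional -/
noncomputable def elz (x : ℝ) (c : Gam d → ℝ) (a : Gam d) (z : Vtx d) (B : Finset (Edg d))
    (s : Edg d → Bool) : ℝ :=
  ∑ J ∈ B.powerset, (∏ e ∈ J, gm x (s e)) * (∏ e ∈ B \ J, al x (s e)) * c (a + sh z (bd dE J))

lemma ell_tE (x : ℝ) (c : Gam d → ℝ) (a : Gam d) (z : Vtx d) (B : Finset (Edg d))
    (s : Edg d → Bool) : ell x c a (tE z B) s = elz x c a z B (fun e => s (shE z e)) := by
  unfold ell elz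
  rw [show (tE z B).powerset = (B.map (shE z).toEmbedding).powerset from rfl,
    sum_powerset_map (shE z).toEmbedding B (fun J => (∏ e ∈ J, gm x (s e)) *
      (∏ e ∈ tE z B \ J, al x (s e)) * c (a + bd dE J))]
  refine sum_congr rfl fun J _ => ?_
  have e1 : tE z B \ Finset.map (shE z).toEmbedding J = (B \ J).map (shE z).toEmbedding := by
    unfold tE
    rw [Finset.map_sdiff]
  rw [e1, prod_map, prod_map]
  have e2 : bd dE (Finset.map (shE z).toEmbedding J) = sh z (bd dE J) := bd_tE z J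
  rw [e2]
  rfl

/-- translated weights of local configurations -/
noncomputable def qz (x : ℝ) (c₁ c₂ : Gam d → ℝ) (a : Gam d) (z : Vtx d) (B : Finset (Edg d))
    (m : Om d) : ℝ :=
  elz x c₁ a z B (fun e => m (0, e)) * elz x c₂ a z B (fun e => m (1, e)) *
    ∏ e ∈ B, kp x (m (0, e) || m (1, e)) (m (2, e))

lemma qq_tE (x : ℝ) (c₁ c₂ : Gam d → ℝ) (a : Gam d) (z : Vtx d) (B : Finset (Edg d)) (m : Om d) :
    qq x c₁ c₂ a (tE z B) m = qz x c₁ c₂ a z B (shO z m) := by
  unfold qq qz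
  rw [ell_tE, ell_tE]
  congr 1
  unfold tE
  rw [prod_map]
  rfl

lemma qz_zero {x : ℝ} {c₁ c₂ : Gam d → ℝ} (h1 : ∀ v a, c₁ (sh v a) = c₁ a)
    (h2 : ∀ v a, c₂ (sh v a) = c₂ a) (z : Vtx d) (B : Finset (Edg d)) (m : Om d) :
    qz x c₁ c₂ 0 z B m = qq x c₁ c₂ 0 B m := by
  unfold qz qq elz ell
  simp only [zero_add, h1, h2]

lemma sum_PB_tE (z : Vtx d) (B : Finset (Edg d)) (g : Om d → ℝ) :
    ∑ M ∈ PB (tE z B), g (pt M) = ∑ M ∈ PB B, g (shO (-z) (pt M)) := by
  set F : Fin 3 × Edg d ↪ Fin 3 × Edg d :=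
    (Equiv.prodCongr (Equiv.refl (Fin 3)) (shE z)).toEmbedding with hF
  have h1 : (univ ×ˢ tE z B : Finset (Fin 3 × Edg d)) = (univ ×ˢ B).map F := by
    ext ⟨i, e⟩
    rw [mem_product, Finset.mem_map_equiv, mem_product]
    simp only [mem_univ, true_and]
    exact mem_tE
  unfold PB
  rw [h1, sum_powerset_map F (univ ×ˢ B) (fun M => g (pt M))]
  refine sum_congr rfl fun M _ => ?_
  congr 1
  funext ⟨i, e⟩
  unfold pt
  rw [shO_apply]
  apply decide_eq_decide.mpr
  rw [Finset.mem_map_equiv]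
  have : (Equiv.prodCongr (Equiv.refl (Fin 3)) (shE z)).symm (i, e) = (i, shE (-z) e) := by
    unfold shE
    simp [sub_eq_add_neg]
  rw [this]

lemma qv_tE (x : ℝ) (c₁ c₂ : Gam d → ℝ) (a : Gam d) (z : Vtx d) (B : Finset (Edg d))
    (A : Set (Om d)) : qv x c₁ c₂ a (tE z B) (shO z ⁻¹' A) =
      ∑ M ∈ PB B, ind A (pt M) * qz x c₁ c₂ a z B (pt M) := by
  unfold qv
  rw [sum_PB_tE z B (fun m => ind (shO z ⁻¹' A) m * qq x c₁ c₂ a (tE z B) m)]
  refine sum_congr rfl fun M _ => ?_
  rw [qq_tE, shO_shO, add_neg_cancel, shO_zero]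
  congr 1
  have : shO (-z) (pt M) ∈ shO z ⁻¹' A ↔ pt M ∈ A := by
    rw [Set.mem_preimage, shO_shO, add_neg_cancel, shO_zero]
  by_cases h : pt M ∈ A
  · rw [ind_pos h, ind_pos (this.mpr h)]
  · rw [ind_neg h, ind_neg (fun h' => h (this.mp h'))]

/-! ### Unions of disjoint bases -/

lemma sum_powerset_union {α : Type*} [DecidableEq α] {B B' : Finset α} (h : Disjoint B B')
    (f : Finset α → ℝ) :
    ∑ K ∈ (B ∪ B').powerset, f K = ∑ J ∈ B.powerset, ∑ J' ∈ B'.powerset, f (J ∪ J') := by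
  rw [← sum_product']
  symm
  refine sum_bij' (fun p _ => p.1 ∪ p.2) (fun K _ => (K ∩ B, K ∩ B')) ?_ ?_ ?_ ?_ ?_
  · rintro ⟨J, J'⟩ hp
    rw [mem_product, mem_powerset, mem_powerset] at hp
    rw [mem_powerset]
    exact union_subset_union hp.1 hp.2
  · intro K hK
    rw [mem_product, mem_powerset, mem_powerset]
    exact ⟨inter_subset_right, inter_subset_right⟩
  · rintro ⟨J, J'⟩ hp
    rw [mem_product, mem_powerset, mem_powerset] at hp
    have h2 : J ⊆ B := hp.1
    have h3 : J' ⊆ B' := hp.2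
    ext1
    · ext e
      have a1 : e ∈ B → e ∉ B' := fun h' => disjoint_left.mp h h'
      have a2 := @h2 e
      have a3 := @h3 e
      simp only [Finset.mem_inter, Finset.mem_union]
      tauto
    · ext e
      have a1 : e ∈ B → e ∉ B' := fun h' => disjoint_left.mp h h'
      have a2 := @h2 e
      have a3 := @h3 e
      simp only [Finset.mem_inter, Finset.mem_union]
      tauto
  · intro K hK
    rw [mem_powerset] at hK
    show K ∩ B ∪ K ∩ B' = K
    rw [← inter_union_distrib_left, inter_eq_left.mpr hK]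
  · rintro ⟨J, J'⟩ _
    rfl

lemma ell_union (x : ℝ) (c : Gam d → ℝ) (a : Gam d) {B B' : Finset (Edg d)} (h : Disjoint B B')
    (s : Edg d → Bool) : ell x c a (B ∪ B') s = ∑ J ∈ B.powerset, ∑ J' ∈ B'.powerset,
      ((∏ e ∈ J, gm x (s e)) * (∏ e ∈ B \ J, al x (s e))) *
      ((∏ e ∈ J', gm x (s e)) * (∏ e ∈ B' \ J', al x (s e))) * c (a + (bd dE J + bd dE J')) := by
  unfold ell
  rw [sum_powerset_union h]
  refine sum_congr rfl fun J hJ => sum_congr rfl fun J' hJ' => ?_
  rw [mem_powerset] at hJ hJ'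
  have d1 : Disjoint J J' := Disjoint.mono hJ hJ' h
  have d2 : Disjoint (B \ J) (B' \ J') := Disjoint.mono sdiff_subset sdiff_subset h
  have e1 : (B ∪ B') \ (J ∪ J') = (B \ J) ∪ (B' \ J') := by
    ext e
    have a1 : e ∈ B → e ∉ B' := fun h' => disjoint_left.mp h h'
    have a2 := @hJ e
    have a3 := @hJ' e
    simp only [Finset.mem_sdiff, Finset.mem_union]
    tauto
  rw [e1, prod_union d1, prod_union d2, bd_union_disj _ d1]
  ring

/-- gluing of configurations -/
def glu (B : Finset (Edg d)) (v : Vtx d) (s s' : Edg d → Bool) : Edg d → Bool :=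
  fun e => if e ∈ B then s e else s' (shE (-v) e)

lemma ell_glu (x : ℝ) (c : Gam d → ℝ) {B B' : Finset (Edg d)} {v : Vtx d}
    (h : Disjoint B (tE v B')) (s s' : Edg d → Bool) :
    ell x c 0 (B ∪ tE v B') (glu B v s s') = ∑ J ∈ B.powerset, ∑ J' ∈ B'.powerset,
      ((∏ e ∈ J, gm x (s e)) * (∏ e ∈ B \ J, al x (s e))) *
      ((∏ e ∈ J', gm x (s' e)) * (∏ e ∈ B' \ J', al x (s' e))) *
        c (bd dE J + sh v (bd dE J')) := by
  rw [ell_union x c 0 h]
  refine sum_congr rfl fun J hJ => ?_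
  rw [show (tE v B').powerset = (B'.map (shE v).toEmbedding).powerset from rfl,
    sum_powerset_map (shE v).toEmbedding B' (fun J' =>
      ((∏ e ∈ J, gm x (glu B v s s' e)) * (∏ e ∈ B \ J, al x (glu B v s s' e))) *
      ((∏ e ∈ J', gm x (glu B v s s' e)) * (∏ e ∈ tE v B' \ J', al x (glu B v s s' e))) *
        c (0 + (bd dE J + bd dE J')))]
  refine sum_congr rfl fun J' hJ' => ?_
  rw [mem_powerset] at hJ hJ'
  have e1 : tE v B' \ Finset.map (shE v).toEmbedding J' = (B' \ J').map (shE v).toEmbedding := by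
    unfold tE
    rw [Finset.map_sdiff]
  have e2 : bd dE (Finset.map (shE v).toEmbedding J') = sh v (bd dE J') := bd_tE v J'
  have g1 : ∀ e ∈ B, glu B v s s' e = s e := fun e he => if_pos he
  have g2 : ∀ e ∈ B', glu B v s s' (shE v e) = s' e := by
    intro e he
    have h1 : shE v e ∈ tE v B' := by
      rw [mem_tE]
      have : ((shE v e).1 - v, (shE v e).2) = e := by unfold shE; simp
      rwa [this]
    have h3 : shE v e ∉ B := fun h' => disjoint_left.mp h h' h1
    unfold glu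
    rw [if_neg h3, shE_shE, add_neg_cancel, shE_zero]
  rw [e1, e2, prod_map, prod_map, zero_add]
  congr 2
  · congr 1
    · exact prod_congr rfl fun e he => by rw [g1 e (hJ he)]
    · exact prod_congr rfl fun e he => by rw [g1 e (Finset.mem_sdiff.mp he).1]
  · congr 1
    · refine prod_congr rfl fun e he => ?_
      show gm x (glu B v s s' (shE v e)) = _
      rw [g2 e (hJ' he)]
    · refine prod_congr rfl fun e he => ?_
      show al x (glu B v s s' (shE v e)) = _
      rw [g2 e (Finset.mem_sdiff.mp he).1]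

/-- mixing of even correlations -/
def Mix (c : Gam d → ℝ) : Prop := ∀ J J' : Finset (Edg d),
  Tendsto (fun v : Vtx d => c (bd dE J + sh v (bd dE J'))) cofinite
    (𝓝 (c (bd dE J) * c (bd dE J')))

lemma finite_bd (J : Finset (Edg d)) : (Function.support (bd dE J)).Finite := by
  refine ((J.image (fun e => e.1)) ∪ (J.image tip)).finite_toSet.subset ?_
  intro v hv
  by_contra hcon
  apply hv
  unfold bd
  rw [Finset.sum_apply]
  refine sum_eq_zero fun e he => ?_
  rw [dE_apply, if_neg]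
  rw [mem_inc]
  intro h
  apply hcon
  rw [mem_coe, Finset.mem_union, Finset.mem_image, Finset.mem_image]
  rcases h with h | h
  · exact Or.inl ⟨e, he, h⟩
  · exact Or.inr ⟨e, he, h⟩

lemma Mix_cp {x : ℝ} (hx : 0 ≤ x) (hx1 : x ≤ 1) : Mix (cp d x) := fun J J' =>
  cp_mixing hx hx1 (finite_bd J) (finite_bd J')

lemma Mix_ci {x : ℝ} (hx : 0 < x) (hx1 : x < 1) : Mix (ci d x 0) := fun J J' =>
  ci_mixing hx hx1 J J'

lemma ell_mix (x : ℝ) {c : Gam d → ℝ} (hc : Mix c) (B B' : Finset (Edg d))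
    (s s' : Edg d → Bool) :
    Tendsto (fun v : Vtx d => ell x c 0 (B ∪ tE v B') (glu B v s s')) cofinite
      (𝓝 (ell x c 0 B s * ell x c 0 B' s')) := by
  have h1 : Tendsto (fun v : Vtx d => ∑ J ∈ B.powerset, ∑ J' ∈ B'.powerset,
      ((∏ e ∈ J, gm x (s e)) * (∏ e ∈ B \ J, al x (s e))) *
      ((∏ e ∈ J', gm x (s' e)) * (∏ e ∈ B' \ J', al x (s' e))) *
        c (bd dE J + sh v (bd dE J'))) cofinite
      (𝓝 (∑ J ∈ B.powerset, ∑ J' ∈ B'.powerset,
      ((∏ e ∈ J, gm x (s e)) * (∏ e ∈ B \ J, al x (s e))) *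
      ((∏ e ∈ J', gm x (s' e)) * (∏ e ∈ B' \ J', al x (s' e))) *
        (c (bd dE J) * c (bd dE J')))) := by
    refine tendsto_finsetSum _ fun J _ => tendsto_finsetSum _ fun J' _ => ?_
    exact (hc J J').const_mul _
  have h2 : ell x c 0 B s * ell x c 0 B' s' = ∑ J ∈ B.powerset, ∑ J' ∈ B'.powerset,
      ((∏ e ∈ J, gm x (s e)) * (∏ e ∈ B \ J, al x (s e))) *
      ((∏ e ∈ J', gm x (s' e)) * (∏ e ∈ B' \ J', al x (s' e))) *
        (c (bd dE J) * c (bd dE J')) := by
    unfold ell
    rw [sum_mul_sum]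
    refine sum_congr rfl fun J _ => sum_congr rfl fun J' _ => ?_
    rw [zero_add, zero_add]
    ring
  rw [h2]
  refine h1.congr' ?_
  filter_upwards [ev_disjoint B B'] with v hv
  rw [ell_glu x c hv]

lemma cyl_inter_shO {B B' : Finset (Edg d)} {v : Vtx d} (h : Disjoint B (tE v B')) (m m' : Om d) :
    cyl B m ∩ shO v ⁻¹' cyl B' m' = cyl (B ∪ tE v B')
      (fun p => glu B v (fun e => m (p.1, e)) (fun e => m' (p.1, e)) p.2) := by
  rw [shO_cyl]
  ext ω
  constructor
  · rintro ⟨h1, h2⟩ e he i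
    show _ = glu B v (fun e => m (i, e)) (fun e => m' (i, e)) e
    unfold glu
    rcases Finset.mem_union.mp he with he | he
    · rw [if_pos he]; exact h1 e he i
    · rw [if_neg (fun h' => disjoint_left.mp h h' he)]; exact h2 e he i
  · intro h1
    refine ⟨fun e he i => ?_, fun e he i => ?_⟩
    · rw [h1 e (Finset.mem_union_left _ he) i]
      exact if_pos he
    · rw [h1 e (Finset.mem_union_right _ he) i]
      exact if_neg (fun h' => disjoint_left.mp h h' he)

section Q

variable {x : ℝ} {Q : Measure (Om d)} [IsProbabilityMeasure Q]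

lemma Q_shO (hx : 0 < x) (hx1 : x < 1) (hQ : IsQ x Q) (z : Vtx d) :
    MeasurePreserving (shO z) Q Q := by
  refine ⟨measurable_shO z, ?_⟩
  have : IsProbabilityMeasure (Q.map (shO z)) :=
    Measure.isProbabilityMeasure_map (measurable_shO z).aemeasurable
  refine ext_cyl fun B m => ?_
  rw [Measure.map_apply (measurable_shO z) (measurable_cyl B m), shO_cyl]
  rw [← measureReal_eq_measureReal_iff, hQ, hQ, qq_tE, shO_shO, add_neg_cancel, shO_zero,
    qz_zero (cp_sh hx.le hx1.le) (ci_sh hx.le hx1.le le_rfl zero_le_one)]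

lemma Q_cyl_mix (hx : 0 < x) (hx1 : x < 1) (hQ : IsQ x Q) (B B' : Finset (Edg d)) (m m' : Om d) :
    Tendsto (fun v : Vtx d => Q.real (cyl B m ∩ shO v ⁻¹' cyl B' m')) cofinite
      (𝓝 (Q.real (cyl B m) * Q.real (cyl B' m'))) := by
  have h1 := (((ell_mix x (Mix_cp hx.le hx1.le) B B' (fun e => m (0, e)) (fun e => m' (0, e))).mul
    (ell_mix x (Mix_ci hx hx1) B B' (fun e => m (1, e)) (fun e => m' (1, e))))).mul_const
    ((∏ e ∈ B, kp x (m (0, e) || m (1, e)) (m (2, e))) *
      (∏ e ∈ B', kp x (m' (0, e) || m' (1, e)) (m' (2, e))))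
  have h2 : Q.real (cyl B m) * Q.real (cyl B' m') =
      (ell x (cp d x) 0 B (fun e => m (0, e)) * ell x (cp d x) 0 B' (fun e => m' (0, e)) *
      (ell x (ci d x 0) 0 B (fun e => m (1, e)) * ell x (ci d x 0) 0 B' (fun e => m' (1, e)))) *
      ((∏ e ∈ B, kp x (m (0, e) || m (1, e)) (m (2, e))) *
      (∏ e ∈ B', kp x (m' (0, e) || m' (1, e)) (m' (2, e)))) := by
    rw [hQ, hQ]
    unfold qq
    ring
  rw [h2]
  refine h1.congr' ?_
  filter_upwards [ev_disjoint B B'] with v hv
  rw [cyl_inter_shO hv, hQ]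
  unfold qq
  congr 1
  rw [prod_union hv]
  congr 1
  · refine prod_congr rfl fun e he => ?_
    have g : ∀ s s' : Edg d → Bool, glu B v s s' e = s e := fun s s' => if_pos he
    simp only [g]
  · unfold tE
    rw [prod_map]
    refine prod_congr rfl fun e he => ?_
    have g : ∀ s s' : Edg d → Bool, glu B v s s' (shE v e) = s' e := by
      intro s s'
      have h1 : shE v e ∈ tE v B' := by
        rw [mem_tE]
        have : ((shE v e).1 - v, (shE v e).2) = e := by unfold shE; simp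
        rwa [this]
      have h3 : shE v e ∉ B := fun h' => disjoint_left.mp hv h' h1
      unfold glu
      rw [if_neg h3, shE_shE, add_neg_cancel, shE_zero]
    show _ = kp x (glu B v _ _ (shE v e) || glu B v _ _ (shE v e)) (glu B v _ _ (shE v e))
    simp only [g]

end Q

end Pool.Agent.TH980
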