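import Pool.Agent.TH980.G1
import Pool.Agent.TH980.M5

/-!
# Components of the trace
-/

set_option autoImplicit false
set_option linter.unusedSectionVars false
set_option linter.unusedSimpArgs false

open Finset

namespace Pool.Agent.TH980

variable {d : ℕ}

/-- adjacency by the edges of `t` -/
def ad (t : Set (Edg d)) (u v : Vtx d) : Prop :=
  ∃ e : Edg d, e ∈ t ∧ ((u = e.1 ∧ v = tip e) ∨ (u = tip e ∧ v = e.1))

lemma ad_symm (t : Set (Edg d)) (u v : Vtx d) (h : ad t u v) : ad t v u := by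
  obtain ⟨e, he, h | h⟩ := h
  · exact ⟨e, he, Or.inr ⟨h.2, h.1⟩⟩
  · exact ⟨e, he, Or.inl ⟨h.2, h.1⟩⟩

lemma ad_mono {t t' : Set (Edg d)} (h : t ⊆ t') {u v : Vtx d} (h' : ad t u v) : ad t' u v := by
  obtain ⟨e, he, h1⟩ := h'
  exact ⟨e, h he, h1⟩

/-- boxes -/
def bb (r : ℕ) (z : Vtx d) : Set (Vtx d) := {v | v - z ∈ bx d r}

lemma mem_bb {r : ℕ} {z v : Vtx d} : v ∈ bb r z ↔ v - z ∈ bx d r := Iff.rfl

lemma mem_bb_zero {r : ℕ} {v : Vtx d} : v ∈ bb r 0 ↔ v ∈ bx d r := by
  rw [mem_bb, sub_zero]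

lemma center_mem (r : ℕ) (z : Vtx d) : z ∈ bb r z := by
  rw [mem_bb, sub_self, mem_bx]
  intro i
  simp

lemma bb_subset {r n : ℕ} {z : Vtx d} (h : nm z + r ≤ n) : bb r z ⊆ bb n 0 := by
  intro v hv
  rw [mem_bb_zero]
  have h1 := bx_add (v := z) (mem_bb.mp hv)
  rw [sub_add_cancel] at h1
  refine bx_mono ?_ h1
  omega

lemma bb_mono {r n : ℕ} (z : Vtx d) (h : r ≤ n) : bb r z ⊆ bb n z := fun _ hv => bx_mono h hv

lemma bb_finite (r : ℕ) (z : Vtx d) : (bb r z).Finite := by
  refine ((bx d r).image (fun v => v + z)).finite_toSet.subset ?_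
  intro v hv
  rw [mem_coe, Finset.mem_image]
  exact ⟨v - z, hv, by simp⟩

lemma ad_bx {t : Set (Edg d)} {u v : Vtx d} (h : ad t u v) {n : ℕ} (hu : u ∈ bx d n) :
    v ∈ bx d (n + 1) := by
  obtain ⟨e, -, ⟨rfl, rfl⟩ | ⟨rfl, rfl⟩⟩ := h
  · exact (mem_bx_add_single hu e.2).1
  · have := (mem_bx_add_single hu e.2).2
    unfold tip at this
    rwa [add_sub_cancel_right] at this

/-- the trace seen from `z` -/
def tz (z : Vtx d) (t : Set (Edg d)) : Set (Edg d) := shE z ⁻¹' t

lemma ad_shift (z : Vtx d) (t : Set (Edg d)) (u v : Vtx d) :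
    ad (tz z t) u v ↔ ad t (u + z) (v + z) := by
  constructor
  · rintro ⟨e, he, h⟩
    refine ⟨shE z e, he, ?_⟩
    rw [tip_shE]
    rcases h with ⟨rfl, rfl⟩ | ⟨rfl, rfl⟩
    · exact Or.inl ⟨rfl, rfl⟩
    · exact Or.inr ⟨rfl, rfl⟩
  · rintro ⟨e, he, h⟩
    have h1 : shE z (shE (-z) e) = e := by rw [shE_shE, neg_add_cancel, shE_zero]
    refine ⟨shE (-z) e, ?_, ?_⟩
    · show shE z (shE (-z) e) ∈ t
      rwa [h1]
    · rw [tip_shE]
      have h2 : (shE (-z) e).1 = e.1 + -z := rfl
      rw [h2]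
      rcases h with ⟨h3, h4⟩ | ⟨h3, h4⟩
      · left
        rw [← h3, ← h4]
        exact ⟨by abel, by abel⟩
      · right
        rw [← h3, ← h4]
        exact ⟨by abel, by abel⟩

lemma ad_bb {t : Set (Edg d)} {u v : Vtx d} (h : ad t u v) {n : ℕ} {z : Vtx d}
    (hu : u ∈ bb n z) : v ∈ bb (n + 1) z := by
  have h1 : ad (tz z t) (u - z) (v - z) := by
    rw [ad_shift, sub_add_cancel, sub_add_cancel]; exact h
  exact ad_bx h1 hu

lemma nbr_finite (t : Set (Edg d)) {B : Set (Vtx d)} (hB : B.Finite) :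
    {w | ∃ b ∈ B, ad t w b}.Finite := by
  obtain ⟨n, hn⟩ : ∃ n, B ⊆ bb n 0 := by
    refine ⟨hB.toFinset.sup nm, fun v hv => ?_⟩
    rw [mem_bb_zero]
    exact bx_mono (Finset.le_sup (f := nm) ((Set.Finite.mem_toFinset hB).mpr hv)) (mem_bx_nm v)
  refine (bb_finite (n + 1) 0).subset ?_
  rintro w ⟨b, hb, h⟩
  exact ad_bb (ad_symm t w b h) (hn hb)

lemma bb_shift (r : ℕ) (z z' v : Vtx d) : v ∈ bb r z' ↔ v + z ∈ bb r (z' + z) := by
  rw [mem_bb, mem_bb]
  rw [show v + z - (z' + z) = v - z' by abel]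

lemma Cn_shift (z : Vtx d) (t : Set (Edg d)) {S T : Set (Vtx d)} (hS : ∀ a, a ∈ S ↔ a + z ∈ T)
    (u v : Vtx d) : Cn (ad (tz z t)) S u v ↔ Cn (ad t) T (u + z) (v + z) :=
  Cn.equiv (Equiv.addRight z) (fun a b => ad_shift z t a b) hS

/-- `u` is the first vertex of an infinite arm at the box -/
def Arm (t : Set (Edg d)) (r : ℕ) (z u : Vtx d) : Prop :=
  u ∉ bb r z ∧ (∃ b ∈ bb r z, ad t u b) ∧ {v | Cn (ad t) (bb r z)ᶜ u v}.Infinite

/-- two distinct infinite arms -/
def Two (t : Set (Edg d)) (r : ℕ) (z : Vtx d) : Prop :=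
  ∃ u v, Arm t r z u ∧ Arm t r z v ∧ ¬ Cn (ad t) (bb r z)ᶜ u v

/-- three distinct infinite arms -/
def Three (t : Set (Edg d)) (r : ℕ) (z : Vtx d) : Prop :=
  ∃ u v w, Arm t r z u ∧ Arm t r z v ∧ Arm t r z w ∧ ¬ Cn (ad t) (bb r z)ᶜ u v ∧
    ¬ Cn (ad t) (bb r z)ᶜ u w ∧ ¬ Cn (ad t) (bb r z)ᶜ v w

/-- all edges of the box are open -/
def Opn (t : Set (Edg d)) (r : ℕ) (z : Vtx d) : Prop :=
  ∀ e : Edg d, e.1 ∈ bb r z → tip e ∈ bb r z → e ∈ t

lemma compl_bb_shift (r : ℕ) (z z' : Vtx d) (a : Vtx d) :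
    a ∈ (bb r z')ᶜ ↔ a + z ∈ (bb r (z' + z))ᶜ := by
  rw [Set.mem_compl_iff, Set.mem_compl_iff, ← bb_shift]

lemma Cn_box_shift (r : ℕ) (z z' : Vtx d) (t : Set (Edg d)) (u v : Vtx d) :
    Cn (ad (tz z t)) (bb r z')ᶜ u v ↔ Cn (ad t) (bb r (z' + z))ᶜ (u + z) (v + z) :=
  Cn_shift z t (compl_bb_shift r z z') u v

lemma infinite_shift {P P' : Vtx d → Prop} (z : Vtx d) (h : ∀ v, P v ↔ P' (v + z)) :
    {v | P v}.Infinite ↔ {v | P' v}.Infinite := by
  have : {v | P' v} = (Equiv.addRight z) '' {v | P v} := by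
    ext v
    constructor
    · intro hv
      refine ⟨v - z, ?_, by simp⟩
      show P (v - z)
      rw [h, sub_add_cancel]
      exact hv
    · rintro ⟨w, hw, rfl⟩
      exact (h w).mp hw
  rw [this, Set.infinite_image_iff (Equiv.injective _).injOn]

lemma Arm_shift (r : ℕ) (z z' u : Vtx d) (t : Set (Edg d)) :
    Arm (tz z t) r z' u ↔ Arm t r (z' + z) (u + z) := by
  unfold Arm
  rw [← bb_shift, infinite_shift z (fun v => Cn_box_shift r z z' t u v)]
  have : (∃ b ∈ bb r z', ad (tz z t) u b) ↔ ∃ b ∈ bb r (z' + z), ad t (u + z) b := by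
    constructor
    · rintro ⟨b, hb, h⟩
      exact ⟨b + z, (bb_shift r z z' b).mp hb, (ad_shift z t u b).mp h⟩
    · rintro ⟨b, hb, h⟩
      refine ⟨b - z, ?_, ?_⟩
      · rw [bb_shift r z, sub_add_cancel]; exact hb
      · rw [ad_shift, sub_add_cancel]; exact h
  rw [this]

lemma Two_shift (r : ℕ) (z z' : Vtx d) (t : Set (Edg d)) :
    Two (tz z t) r z' ↔ Two t r (z' + z) := by
  constructor
  · rintro ⟨u, v, hu, hv, huv⟩
    exact ⟨u + z, v + z, (Arm_shift r z z' u t).mp hu, (Arm_shift r z z' v t).mp hv,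
      fun h => huv ((Cn_box_shift r z z' t u v).mpr h)⟩
  · rintro ⟨u, v, hu, hv, huv⟩
    refine ⟨u - z, v - z, ?_, ?_, ?_⟩
    · rw [Arm_shift, sub_add_cancel]; exact hu
    · rw [Arm_shift, sub_add_cancel]; exact hv
    · rw [Cn_box_shift, sub_add_cancel, sub_add_cancel]; exact huv

lemma Three_shift (r : ℕ) (z z' : Vtx d) (t : Set (Edg d)) :
    Three (tz z t) r z' ↔ Three t r (z' + z) := by
  constructor
  · rintro ⟨u, v, w, hu, hv, hw, h1, h2, h3⟩
    exact ⟨u + z, v + z, w + z, (Arm_shift r z z' u t).mp hu, (Arm_shift r z z' v t).mp hv,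
      (Arm_shift r z z' w t).mp hw,
      fun h => h1 ((Cn_box_shift r z z' t u v).mpr h),
      fun h => h2 ((Cn_box_shift r z z' t u w).mpr h),
      fun h => h3 ((Cn_box_shift r z z' t v w).mpr h)⟩
  · rintro ⟨u, v, w, hu, hv, hw, h1, h2, h3⟩
    refine ⟨u - z, v - z, w - z, ?_, ?_, ?_, ?_, ?_, ?_⟩
    · rw [Arm_shift, sub_add_cancel]; exact hu
    · rw [Arm_shift, sub_add_cancel]; exact hv
    · rw [Arm_shift, sub_add_cancel]; exact hw
    · rw [Cn_box_shift, sub_add_cancel, sub_add_cancel]; exact h1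
    · rw [Cn_box_shift, sub_add_cancel, sub_add_cancel]; exact h2
    · rw [Cn_box_shift, sub_add_cancel, sub_add_cancel]; exact h3

lemma Opn_shift (r : ℕ) (z z' : Vtx d) (t : Set (Edg d)) :
    Opn (tz z t) r z' ↔ Opn t r (z' + z) := by
  constructor
  · intro h e h1 h2
    have h3 : shE z (shE (-z) e) = e := by rw [shE_shE, neg_add_cancel, shE_zero]
    have h4 := h (shE (-z) e) (by
      rw [bb_shift r z]
      have : (shE (-z) e).1 + z = e.1 := by
        show e.1 + -z + z = e.1
        abel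
      rwa [this]) (by
      rw [bb_shift r z, tip_shE]
      have : tip e + -z + z = tip e := by abel
      rwa [this])
    have h5 : shE z (shE (-z) e) ∈ t := h4
    rwa [h3] at h5
  · intro h e h1 h2
    refine h (shE z e) ((bb_shift r z z' e.1).mp h1) ?_
    rw [tip_shE]
    exact (bb_shift r z z' (tip e)).mp h2

/-- an infinite set leaves every box -/
lemma infinite_leaves {K : Set (Vtx d)} (h : K.Infinite) (n : ℕ) (z : Vtx d) :
    ∃ v ∈ K, v ∉ bb n z := by
  by_contra hcon
  push Not at hcon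
  exact h ((bb_finite n z).subset hcon)

lemma infinite_iff (K : Set (Vtx d)) : K.Infinite ↔ ∀ n : ℕ, ∃ v, v ∈ K ∧ v ∉ bb n 0 := by
  constructor
  · intro h n
    obtain ⟨v, hv, h'⟩ := infinite_leaves h n 0
    exact ⟨v, hv, h'⟩
  · intro h hfin
    have : ∃ n, K ⊆ bb n 0 := by
      refine ⟨hfin.toFinset.sup nm, fun v hv => ?_⟩
      rw [mem_bb_zero]
      exact bx_mono (Finset.le_sup (f := nm) ((Set.Finite.mem_toFinset hfin).mpr hv)) (mem_bx_nm v)
    obtain ⟨n, hn⟩ := this
    obtain ⟨v, hv, h'⟩ := h n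
    exact h' (hn hv)

/-- Open boxes are connected. -/
lemma box_connected {t : Set (Edg d)} {r : ℕ} {z : Vtx d} (h : Opn t r z) :
    ∀ b ∈ bb r z, Cn (ad t) (bb r z) z b := by
  -- reduce to vertices with bounded size
  have key : ∀ n : ℕ, ∀ b ∈ bb r z, nm (b - z) = n → Cn (ad t) (bb r z) z b := by
    intro n
    induction n with
    | zero =>
      intro b hb hn
      have : b = z := by
        have h1 : b - z = 0 := by
          funext i
          have := abs_le_nm (b - z) i
          rw [hn] at this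
          have h2 : |(b - z) i| ≤ 0 := by exact_mod_cast this
          exact abs_nonpos_iff.mp h2
        exact sub_eq_zero.mp h1
      subst this
      exact Cn.refl hb
    | succ n ih =>
      intro b hb hn
      -- move one coordinate towards `z`
      have hne : ∃ i, (b - z) i ≠ 0 := by
        by_contra hcon
        push Not at hcon
        have : nm (b - z) = 0 := by
          unfold nm
          exact sum_eq_zero fun i _ => by rw [hcon i]; rfl
        omega
      obtain ⟨i, hi⟩ := hne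
      have hbi := mem_bx.mp (mem_bb.mp hb)
      rcases lt_or_gt_of_ne hi with hneg | hpos
      · -- increase the coordinate
        set b' := b + Pi.single i 1 with hb'
        have hb'z : b' - z = (b - z) + Pi.single i 1 := by rw [hb']; abel
        have hco : ∀ j, j ≠ i → (b' - z) j = (b - z) j := by
          intro j hj
          rw [hb'z, Pi.add_apply, Pi.single_eq_of_ne hj, add_zero]
        have hci : (b' - z) i = (b - z) i + 1 := by
          rw [hb'z, Pi.add_apply, Pi.single_eq_same]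
        have hb'm : b' ∈ bb r z := by
          rw [mem_bb, mem_bx]
          intro j
          by_cases hj : j = i
          · subst hj
            rw [hci, abs_le]
            have := abs_le.mp (hbi j)
            constructor <;> omega
          · rw [hco j hj]; exact hbi j
        have hnm : nm (b' - z) = n := by
          have h1 : nm (b - z) = nm (b' - z) + 1 := by
            unfold nm
            rw [← add_sum_erase univ _ (mem_univ i), ← add_sum_erase univ (fun j => ((b' - z) j).natAbs)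
              (mem_univ i)]
            have h2 : ∑ j ∈ univ.erase i, ((b - z) j).natAbs =
                ∑ j ∈ univ.erase i, ((b' - z) j).natAbs :=
              sum_congr rfl fun j hj => by rw [hco j (Finset.mem_erase.mp hj).1]
            rw [h2, hci]
            omega
          omega
        have hc := ih b' hb'm hnm
        refine hc.tail ?_ hb
        refine ⟨(b, i), h (b, i) hb hb'm, Or.inr ⟨rfl, rfl⟩⟩
      · set b' := b - Pi.single i 1 with hb'
        have hb'z : b' - z = (b - z) - Pi.single i 1 := by rw [hb']; abel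
        have hco : ∀ j, j ≠ i → (b' - z) j = (b - z) j := by
          intro j hj
          rw [hb'z, Pi.sub_apply, Pi.single_eq_of_ne hj, sub_zero]
        have hci : (b' - z) i = (b - z) i - 1 := by
          rw [hb'z, Pi.sub_apply, Pi.single_eq_same]
        have hb'm : b' ∈ bb r z := by
          rw [mem_bb, mem_bx]
          intro j
          by_cases hj : j = i
          · subst hj
            rw [hci, abs_le]
            have := abs_le.mp (hbi j)
            constructor <;> omega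
          · rw [hco j hj]; exact hbi j
        have hnm : nm (b' - z) = n := by
          have h1 : nm (b - z) = nm (b' - z) + 1 := by
            unfold nm
            rw [← add_sum_erase univ _ (mem_univ i), ← add_sum_erase univ (fun j => ((b' - z) j).natAbs)
              (mem_univ i)]
            have h2 : ∑ j ∈ univ.erase i, ((b - z) j).natAbs =
                ∑ j ∈ univ.erase i, ((b' - z) j).natAbs :=
              sum_congr rfl fun j hj => by rw [hco j (Finset.mem_erase.mp hj).1]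
            rw [h2, hci]
            omega
          omega
        have hc := ih b' hb'm hnm
        have htip : tip (b', i) = b := by
          unfold tip
          show b' + Pi.single i 1 = b
          rw [hb', sub_add_cancel]
        refine hc.tail ?_ hb
        refine ⟨(b', i), h (b', i) hb'm (by rw [htip]; exact hb), Or.inl ⟨rfl, htip.symm⟩⟩
  intro b hb
  exact key _ b hb rfl

/-- From a vertex connected to a box outside it, an arm is reached. -/
lemma exists_arm {t : Set (Edg d)} {r : ℕ} {z x : Vtx d} (hx : x ∉ bb r z)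
    (hc : ∃ b ∈ bb r z, Cn (ad t) Set.univ x b)
    (hinf : {v | Cn (ad t) (bb r z)ᶜ x v}.Infinite) :
    ∃ u, Arm t r z u ∧ Cn (ad t) (bb r z)ᶜ x u := by
  obtain ⟨b, hb, hxb⟩ := hc
  obtain ⟨w, b', hw, hwb, hb', -⟩ := hxb.first hx hb
  have hw' : Cn (ad t) (bb r z)ᶜ x w := hw.mono_set fun x hx => hx.2
  refine ⟨w, ⟨hw'.mem_right, ⟨b', hb', hwb⟩, ?_⟩, hw'⟩
  refine hinf.mono fun v hv => ?_
  exact (Cn.symm (ad_symm t) hw').trans hv

/-- Arms of a small box give arms of a large box. -/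
lemma arm_big {t : Set (Edg d)} {r n : ℕ} {z u : Vtx d} (hn : nm z + r ≤ n) (hu : Arm t r z u) :
    ∃ w, Arm t n 0 w ∧ Cn (ad t) (bb r z)ᶜ u w := by
  obtain ⟨h1, ⟨b, hb, hub⟩, hinf⟩ := hu
  have hsub := bb_subset (d := d) hn
  obtain ⟨w, hw, hwB, hwb, hwi⟩ := infinite_part (ad_symm t) (bb_finite n 0)
    (nbr_finite t (bb_finite n 0)) hinf ⟨u, b, Cn.refl h1, hsub hb, Or.inl hub⟩
  refine ⟨w, ⟨hwB, hwb, ?_⟩, hw⟩
  have : (bb r z)ᶜ \ bb n 0 = (bb n 0)ᶜ := by
    ext v
    constructor
    · intro hv; exact hv.2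
    · intro hv; exact ⟨fun h => hv (hsub h), hv⟩
  rwa [this] at hwi

end Pool.Agent.TH980
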