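import Pool.Agent.TH980.G2

/-!
# Fluxes
-/

set_option autoImplicit false
set_option linter.unusedSectionVars false
set_option linter.unusedSimpArgs false

open Finset

namespace Pool.Agent.TH980

variable {d : ℕ}

/-- indicator function with values in `ℤ / 2` -/
noncomputable def i2 (K : Set (Vtx d)) (v : Vtx d) : ZMod 2 :=
  open Classical in if v ∈ K then 1 else 0

lemma i2_pos {K : Set (Vtx d)} {v : Vtx d} (h : v ∈ K) : i2 K v = 1 := if_pos h
lemma i2_neg {K : Set (Vtx d)} {v : Vtx d} (h : v ∉ K) : i2 K v = 0 := if_neg h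

/-- the flux of `η` through the boundary of the set with indicator `k` -/
def fx (η : Edg d → Bool) (E : Finset (Edg d)) (k : Vtx d → ZMod 2) : ZMod 2 :=
  ∑ e ∈ E, if η e = true then k e.1 + k (tip e) else 0

lemma fx_add (η : Edg d → Bool) (E : Finset (Edg d)) (k k' : Vtx d → ZMod 2) :
    fx η E (k + k') = fx η E k + fx η E k' := by
  unfold fx
  rw [← sum_add_distrib]
  refine sum_congr rfl fun e _ => ?_
  split_ifs
  · rw [Pi.add_apply, Pi.add_apply]; ring
  · rw [add_zero]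

lemma fx_subset {η : Edg d → Bool} {E E' : Finset (Edg d)} (h : E ⊆ E') {k : Vtx d → ZMod 2}
    (hk : ∀ e ∈ E', e ∉ E → η e = true → k e.1 = k (tip e)) : fx η E k = fx η E' k := by
  unfold fx
  refine sum_subset h fun e he he' => ?_
  split_ifs with h1
  · rw [hk e he he' h1]; exact CharTwo.add_self_eq_zero _
  · rfl

/-- all degrees are even -/
def Evn (η : Edg d → Bool) : Prop := ∀ v, ∑ e ∈ inc v, (if η e = true then (1 : ZMod 2) else 0) = 0

lemma sum_dE_eq {m : ℕ} {k : Vtx d → ZMod 2} (hk : ∀ v, v ∉ bx d m → k v = 0) (e : Edg d) :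
    ∑ v ∈ bx d m, k v * (if e ∈ inc v then 1 else 0) = k e.1 + k (tip e) := by
  have h1 : ∀ v, k v * (if e ∈ inc v then (1 : ZMod 2) else 0) =
      (if v = e.1 then k v else 0) + (if v = tip e then k v else 0) := by
    intro v
    by_cases ha : v = e.1
    · have hb : v ≠ tip e := by rw [ha]; exact (tip_ne e).symm
      rw [if_pos ha, if_neg hb, if_pos (mem_inc.mpr (Or.inl ha.symm)), mul_one, add_zero]
    · by_cases hb : v = tip e
      · rw [if_neg ha, if_pos hb, if_pos (mem_inc.mpr (Or.inr hb.symm)), mul_one, zero_add]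
      · rw [if_neg ha, if_neg hb, if_neg, mul_zero, add_zero]
        rw [mem_inc]
        rintro (h | h)
        · exact ha h.symm
        · exact hb h.symm
  have h2 : ∀ w : Vtx d, ∑ v ∈ bx d m, (if v = w then k v else 0) = k w := by
    intro w
    rw [sum_ite_eq']
    split_ifs with h
    · rfl
    · exact (hk w h).symm
  simp only [h1, sum_add_distrib, h2]

lemma fx_finite {η : Edg d → Bool} (hη : Evn η) {m n : ℕ} (hmn : m + 2 ≤ n)
    {k : Vtx d → ZMod 2} (hk : ∀ v, v ∉ bx d m → k v = 0) : fx η (bE d n) k = 0 := by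
  unfold fx
  have h1 : ∀ e ∈ bE d n, (if η e = true then k e.1 + k (tip e) else 0) =
      ∑ v ∈ bx d m, k v * (if e ∈ inc v then (if η e = true then 1 else 0) else 0) := by
    intro e _
    by_cases h : η e = true
    · simp only [if_pos h]
      exact (sum_dE_eq hk e).symm
    · simp only [if_neg h]
      simp
  rw [sum_congr rfl h1, sum_comm]
  refine sum_eq_zero fun v hv => ?_
  rw [← mul_sum]
  have h2 : ∑ e ∈ bE d n, (if e ∈ inc v then (if η e = true then (1 : ZMod 2) else 0) else 0) =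
      ∑ e ∈ inc v, (if η e = true then 1 else 0) := by
    rw [← sum_filter]
    refine sum_congr ?_ fun _ _ => rfl
    ext e
    rw [mem_filter]
    refine ⟨fun h => h.2, fun h => ⟨?_, h⟩⟩
    rw [mem_bE]
    rcases mem_inc.mp h with rfl | rfl
    · refine ⟨bx_mono (by omega) hv, ?_⟩
      exact bx_mono (by omega : m + 1 ≤ n) (mem_bx_add_single hv e.2).1
    · refine ⟨?_, bx_mono (by omega) hv⟩
      have := (mem_bx_add_single hv e.2).2
      unfold tip at this
      rw [add_sub_cancel_right] at this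
      exact bx_mono (by omega : m + 1 ≤ n) this
  rw [h2, hη v, mul_zero]

/-- the flux through an arm -/
noncomputable def fl (t : Set (Edg d)) (η : Edg d → Bool) (r : ℕ) (z u : Vtx d) : ZMod 2 :=
  fx η (tE z (bE d (r + 1))) (i2 {v | Cn (ad t) (bb r z)ᶜ u v})

lemma mem_tE_bE {z : Vtx d} {r : ℕ} {e : Edg d} :
    e ∈ tE z (bE d r) ↔ e.1 ∈ bb r z ∧ tip e ∈ bb r z := by
  rw [mem_tE, mem_bE, mem_bb, mem_bb]
  have : tip ((e.1 - z, e.2) : Edg d) = tip e - z := by
    unfold tip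
    show e.1 - z + Pi.single e.2 1 = e.1 + Pi.single e.2 1 - z
    abel
  rw [this]

lemma i2_eq_of_edge {t : Set (Edg d)} {S : Set (Vtx d)} {u : Vtx d} {e : Edg d} (he : e ∈ t)
    (h1 : e.1 ∈ S) (h2 : tip e ∈ S) :
    i2 {v | Cn (ad t) S u v} e.1 = i2 {v | Cn (ad t) S u v} (tip e) := by
  have a1 : ad t e.1 (tip e) := ⟨e, he, Or.inl ⟨rfl, rfl⟩⟩
  by_cases h : Cn (ad t) S u e.1
  · rw [i2_pos (K := {v | Cn (ad t) S u v}) h,
      i2_pos (K := {v | Cn (ad t) S u v}) (h.tail a1 h2)]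
  · rw [i2_neg (K := {v | Cn (ad t) S u v}) h, i2_neg]
    intro h'
    exact h (Cn.tail h' (ad_symm _ _ _ a1) h1)

/-- Enlarging the set of edges does not change the flux. -/
lemma fl_eq {t : Set (Edg d)} {η : Edg d → Bool} (hsub : ∀ e, η e = true → e ∈ t) {r n : ℕ}
    {z u : Vtx d} (h : tE z (bE d (r + 1)) ⊆ bE d n) :
    fl t η r z u = fx η (bE d n) (i2 {v | Cn (ad t) (bb r z)ᶜ u v}) := by
  unfold fl
  refine fx_subset h fun e _ he hη => ?_
  have he' := hsub e hη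
  have a1 : ad t e.1 (tip e) := ⟨e, he', Or.inl ⟨rfl, rfl⟩⟩
  refine i2_eq_of_edge he' ?_ ?_
  · intro h1
    exact he (mem_tE_bE.mpr ⟨bb_mono z (Nat.le_succ r) h1, ad_bb a1 h1⟩)
  · intro h1
    exact he (mem_tE_bE.mpr ⟨ad_bb (ad_symm _ _ _ a1) h1, bb_mono z (Nat.le_succ r) h1⟩)

/-- All vertices connected to a big box with two infinite arms. -/
lemma trisect {t : Set (Edg d)} {n : ℕ} {w₁ w₂ : Vtx d}
    (h3 : ¬ Three t n 0) (h1 : Arm t n 0 w₁) (h2 : Arm t n 0 w₂)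
    (h12 : ¬ Cn (ad t) (bb n 0)ᶜ w₁ w₂) :
    ∃ m, ∀ v, (∃ b ∈ bb n 0, Cn (ad t) Set.univ v b) → v ∈ bx d m ∨
      Cn (ad t) (bb n 0)ᶜ w₁ v ∨ Cn (ad t) (bb n 0)ᶜ w₂ v := by
  set N := {w | (∃ b ∈ bb n 0, ad t w b) ∧ {v | Cn (ad t) (bb n 0)ᶜ w v}.Finite} with hN
  have hNf : N.Finite := (nbr_finite t (bb_finite n 0)).subset fun w hw => hw.1
  have hF : (bb n (0 : Vtx d) ∪ ⋃ w ∈ N, {v | Cn (ad t) (bb n 0)ᶜ w v}).Finite :=
    (bb_finite n 0).union (hNf.biUnion fun w hw => hw.2)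
  refine ⟨hF.toFinset.sup nm, fun v hv => ?_⟩
  by_cases hvb : v ∈ bb n (0 : Vtx d) ∪ ⋃ w ∈ N, {v | Cn (ad t) (bb n 0)ᶜ w v}
  · left
    exact bx_mono (Finset.le_sup (f := nm) ((Set.Finite.mem_toFinset hF).mpr hvb)) (mem_bx_nm v)
  · right
    rw [Set.mem_union, not_or] at hvb
    obtain ⟨hv1, hv2⟩ := hvb
    obtain ⟨b, hb, hvb⟩ := hv
    obtain ⟨w, b', hw, hwb, hb', -⟩ := hvb.first hv1 hb
    have hw' : Cn (ad t) (bb n 0)ᶜ v w := hw.mono_set fun x hx => hx.2
    have hwv := Cn.symm (ad_symm t) hw'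
    have hinf : {v | Cn (ad t) (bb n 0)ᶜ w v}.Infinite := by
      intro hfin
      apply hv2
      exact Set.mem_biUnion (show w ∈ N from ⟨⟨b', hb', hwb⟩, hfin⟩) hwv
    have harm : Arm t n 0 w := ⟨hw'.mem_right, ⟨b', hb', hwb⟩, hinf⟩
    by_contra hcon
    rw [not_or] at hcon
    apply h3
    refine ⟨w₁, w₂, w, h1, h2, harm, h12, ?_, ?_⟩
    · intro h; exact hcon.1 (h.trans hwv)
    · intro h; exact hcon.2 (h.trans hwv)

lemma compl_sub {r n : ℕ} {z : Vtx d} (h : nm z + r ≤ n) : (bb n (0 : Vtx d))ᶜ ⊆ (bb r z)ᶜ :=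
  Set.compl_subset_compl.mpr (bb_subset h)

/-- the arms of a small box with two arms, in terms of the arms of the big box -/
lemma two_big {t : Set (Edg d)} {r n : ℕ} {z w₁ w₂ : Vtx d} (hn : nm z + r ≤ n)
    (h3 : ¬ Three t n 0) (h1 : Arm t n 0 w₁) (h2 : Arm t n 0 w₂)
    (h12 : ¬ Cn (ad t) (bb n 0)ᶜ w₁ w₂) (ht : Two t r z) :
    ¬ Cn (ad t) (bb r z)ᶜ w₁ w₂ ∧ (∀ u, Arm t r z u →
      Cn (ad t) (bb r z)ᶜ u w₁ ∨ Cn (ad t) (bb r z)ᶜ u w₂) ∧
      (∃ u, Arm t r z u ∧ Cn (ad t) (bb r z)ᶜ u w₁) ∧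
      ∃ u, Arm t r z u ∧ Cn (ad t) (bb r z)ᶜ u w₂ := by
  have hs := ad_symm t
  have hany : ∀ w, Arm t n 0 w → Cn (ad t) (bb n 0)ᶜ w w₁ ∨ Cn (ad t) (bb n 0)ᶜ w w₂ := by
    intro w hw
    by_contra hcon
    rw [not_or] at hcon
    exact h3 ⟨w₁, w₂, w, h1, h2, hw, h12, fun h => hcon.1 (Cn.symm hs h),
      fun h => hcon.2 (Cn.symm hs h)⟩
  have hall : ∀ u, Arm t r z u →
      Cn (ad t) (bb r z)ᶜ u w₁ ∨ Cn (ad t) (bb r z)ᶜ u w₂ := by
    intro u hu
    obtain ⟨w, hw, huw⟩ := arm_big hn hu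
    rcases hany w hw with h | h
    · exact Or.inl (huw.trans (h.mono_set (compl_sub hn)))
    · exact Or.inr (huw.trans (h.mono_set (compl_sub hn)))
  obtain ⟨u, v, hu, hv, huv⟩ := ht
  rcases hall u hu with hu1 | hu2
  · rcases hall v hv with hv1 | hv2
    · exact absurd (hu1.trans (Cn.symm hs hv1)) huv
    · exact ⟨fun h => huv (hu1.trans (h.trans (Cn.symm hs hv2))), hall, ⟨u, hu, hu1⟩,
        ⟨v, hv, hv2⟩⟩
  · rcases hall v hv with hv1 | hv2
    · exact ⟨fun h => huv (hu2.trans ((Cn.symm hs h).trans (Cn.symm hs hv1))), hall, ⟨v, hv, hv1⟩,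
        ⟨u, hu, hu2⟩⟩
    · exact absurd (hu2.trans (Cn.symm hs hv2)) huv

/-- All fluxes through the arms of boxes with two arms agree. -/
theorem flux_const {t : Set (Edg d)} {η : Edg d → Bool} (hη : Evn η)
    (hsub : ∀ e, η e = true → e ∈ t) {n : ℕ} (h3 : ¬ Three t n 0) :
    ∃ Φ : ZMod 2, ∀ (r : ℕ) (z u : Vtx d), nm z + r + 1 ≤ n → Two t r z → Arm t r z u →
      fl t η r z u = Φ := by
  have hs := ad_symm t
  by_cases hex : ∃ (r : ℕ) (z : Vtx d), nm z + r + 1 ≤ n ∧ Two t r z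
  swap
  · refine ⟨0, fun r z u hn ht _ => ?_⟩
    exact absurd ⟨r, z, hn, ht⟩ hex
  obtain ⟨r0, z0, hn0, ht0⟩ := hex
  obtain ⟨u0, v0, hu0, hv0, huv0⟩ := ht0
  obtain ⟨w₁, hw₁, huw₁⟩ := arm_big (n := n) (by omega) hu0
  obtain ⟨w₂, hw₂, hvw₂⟩ := arm_big (n := n) (by omega) hv0
  have h12 : ¬ Cn (ad t) (bb n 0)ᶜ w₁ w₂ := by
    intro h
    apply huv0
    exact huw₁.trans ((h.mono_set (compl_sub (by omega))).trans (Cn.symm hs hvw₂))
  obtain ⟨m, hm⟩ := trisect h3 hw₁ hw₂ h12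
  set N := max (m + 2) (n + 1) with hN
  have hNm : m + 2 ≤ N := le_max_left _ _
  have hNn : n + 1 ≤ N := le_max_right _ _
  -- edges
  have hsubE : ∀ (r : ℕ) (z : Vtx d), nm z + r + 1 ≤ n → tE z (bE d (r + 1)) ⊆ bE d N := by
    intro r z hn e he
    obtain ⟨h1, h2⟩ := mem_tE_bE.mp he
    have hsub' := bb_subset (r := r + 1) (n := N) (z := z) (by omega)
    rw [mem_bE, ← mem_bb_zero, ← mem_bb_zero]
    exact ⟨hsub' h1, hsub' h2⟩
  -- the two sets in the complement of the big box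
  set M₁ : Set (Vtx d) := {v | Cn (ad t) (bb n 0)ᶜ w₁ v} with hM₁
  set M₂ : Set (Vtx d) := {v | Cn (ad t) (bb n 0)ᶜ w₂ v} with hM₂
  -- the sum of the two fluxes
  have hU : fx η (bE d N) (i2 M₁) = fx η (bE d N) (i2 M₂) := by
    set U : Set (Vtx d) := {v | ∃ b ∈ bb n 0, Cn (ad t) Set.univ v b} with hUdef
    have hMU : ∀ w, Arm t n 0 w → ∀ v, Cn (ad t) (bb n 0)ᶜ w v → v ∈ U := by
      rintro w ⟨-, ⟨b, hb, hwb⟩, -⟩ v hv
      refine ⟨b, hb, ?_⟩
      exact (Cn.symm hs (hv.mono_set (Set.subset_univ _))).trans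
        (Cn.single hwb (Set.mem_univ _) (Set.mem_univ _))
    set ρ : Vtx d → ZMod 2 := fun v => i2 U v + i2 M₁ v + i2 M₂ v with hρ
    have hρ0 : ∀ v, v ∉ bx d m → ρ v = 0 := by
      intro v hv
      rw [hρ]
      by_cases hvU : v ∈ U
      · rcases hm v hvU with h | h | h
        · exact absurd h hv
        · have h' : v ∉ M₂ := fun h' => h12 (Cn.trans h (Cn.symm hs h'))
          show i2 U v + i2 M₁ v + i2 M₂ v = 0
          rw [i2_pos hvU, i2_pos (K := M₁) h, i2_neg h']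
          decide
        · have h' : v ∉ M₁ := fun h' => h12 (Cn.trans h' (Cn.symm hs h))
          show i2 U v + i2 M₁ v + i2 M₂ v = 0
          rw [i2_pos hvU, i2_neg h', i2_pos (K := M₂) h]
          decide
      · show i2 U v + i2 M₁ v + i2 M₂ v = 0
        rw [i2_neg hvU, i2_neg (fun h => hvU (hMU w₁ hw₁ v h)),
          i2_neg (fun h => hvU (hMU w₂ hw₂ v h))]
        decide
    have e1 : fx η (bE d N) ρ = 0 := fx_finite hη hNm hρ0
    have e2 : fx η (bE d N) (i2 U) = 0 := by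
      unfold fx
      refine sum_eq_zero fun e _ => ?_
      split_ifs with h
      · have he := hsub e h
        have a1 : ad t e.1 (tip e) := ⟨e, he, Or.inl ⟨rfl, rfl⟩⟩
        have : i2 U e.1 = i2 U (tip e) := by
          by_cases h1 : e.1 ∈ U
          · obtain ⟨b, hb, hc⟩ := h1
            have h1' : e.1 ∈ U := ⟨b, hb, hc⟩
            have h2 : tip e ∈ U := ⟨b, hb, (Cn.single (hs _ _ a1) (Set.mem_univ _)
              (Set.mem_univ _)).trans hc⟩
            rw [i2_pos h1', i2_pos h2]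
          · have h2 : tip e ∉ U := by
              rintro ⟨b, hb, hc⟩
              exact h1 ⟨b, hb, (Cn.single a1 (Set.mem_univ _) (Set.mem_univ _)).trans hc⟩
            rw [i2_neg h1, i2_neg h2]
        rw [this]
        exact CharTwo.add_self_eq_zero _
      · rfl
    have e3 : ρ = (i2 U + i2 M₁) + i2 M₂ := rfl
    rw [e3, fx_add, fx_add, e2, zero_add] at e1
    exact CharTwo.add_eq_zero.mp e1
  -- each arm has the flux of the corresponding set
  have hK : ∀ (r : ℕ) (z : Vtx d), nm z + r + 1 ≤ n → Two t r z → ∀ w w', Arm t n 0 w →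
      ¬ Cn (ad t) (bb r z)ᶜ w w' →
      (∀ v, (∃ b ∈ bb n 0, Cn (ad t) Set.univ v b) → v ∈ bx d m ∨
        Cn (ad t) (bb n 0)ᶜ w v ∨ Cn (ad t) (bb n 0)ᶜ w' v) →
      fx η (bE d N) (i2 {v | Cn (ad t) (bb r z)ᶜ w v}) =
        fx η (bE d N) (i2 {v | Cn (ad t) (bb n 0)ᶜ w v}) := by
    intro r z hn ht w w' hw hww' htri
    set K : Set (Vtx d) := {v | Cn (ad t) (bb r z)ᶜ w v} with hKdef
    set M : Set (Vtx d) := {v | Cn (ad t) (bb n 0)ᶜ w v} with hMdef
    have hMK : M ⊆ K := fun v hv => Cn.mono_set hv (compl_sub (by omega))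
    set ρ : Vtx d → ZMod 2 := fun v => i2 K v + i2 M v with hρ
    have hρ0 : ∀ v, v ∉ bx d m → ρ v = 0 := by
      intro v hv
      show i2 K v + i2 M v = 0
      by_cases hvK : v ∈ K
      · have hvM : v ∈ M := by
          obtain ⟨-, ⟨b, hb, hwb⟩, -⟩ := hw
          have hc : ∃ b ∈ bb n 0, Cn (ad t) Set.univ v b := by
            refine ⟨b, hb, ?_⟩
            exact (Cn.symm hs (Cn.mono_set hvK (Set.subset_univ _))).trans
              (Cn.single hwb (Set.mem_univ _) (Set.mem_univ _))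
          rcases htri v hc with h | h | h
          · exact absurd h hv
          · exact h
          · exfalso
            apply hww'
            exact Cn.trans hvK (Cn.symm hs (h.mono_set (compl_sub (by omega))))
        rw [i2_pos hvK, i2_pos hvM]
        decide
      · rw [i2_neg hvK, i2_neg (fun h => hvK (hMK h)), add_zero]
    have e1 : fx η (bE d N) ρ = 0 := fx_finite hη hNm hρ0
    have e3 : ρ = i2 K + i2 M := rfl
    rw [e3, fx_add] at e1
    exact CharTwo.add_eq_zero.mp e1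
  refine ⟨fx η (bE d N) (i2 M₁), fun r z u hn ht hu => ?_⟩
  obtain ⟨hz12, hall, -, -⟩ := two_big (by omega) h3 hw₁ hw₂ h12 ht
  rw [fl_eq hsub (hsubE r z hn)]
  have hcls : ∀ w, Cn (ad t) (bb r z)ᶜ u w → {v | Cn (ad t) (bb r z)ᶜ u v} =
      {v | Cn (ad t) (bb r z)ᶜ w v} := by
    intro w hw
    ext v
    exact ⟨fun h => Cn.trans (Cn.symm hs hw) h, fun h => Cn.trans hw h⟩
  rcases hall u hu with h | h
  · rw [hcls w₁ h]
    exact hK r z hn ht w₁ w₂ hw₁ hz12 hm
  · rw [hcls w₂ h, hU]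
    refine hK r z hn ht w₂ w₁ hw₂ (fun h' => hz12 (Cn.symm hs h')) ?_
    intro v hv
    rcases hm v hv with h | h | h
    · exact Or.inl h
    · exact Or.inr (Or.inr h)
    · exact Or.inr (Or.inl h)

end Pool.Agent.TH980
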