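import Pool.Agent.TH980.G3

/-!
# Separation, switching, local approximation, one-endedness
-/

set_option autoImplicit false
set_option linter.unusedSectionVars false
set_option linter.unusedSimpArgs false

open Finset

namespace Pool.Agent.TH980

variable {d : ℕ}

/-- `x` and `y` lie in distinct infinite components of the complement of the box at `z` -/
def Sep (t : Set (Edg d)) (r : ℕ) (z x y : Vtx d) : Prop :=
  x ∉ bb r z ∧ y ∉ bb r z ∧ Cn (ad t) Set.univ x z ∧ Cn (ad t) Set.univ y z ∧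
    {v | Cn (ad t) (bb r z)ᶜ x v}.Infinite ∧ {v | Cn (ad t) (bb r z)ᶜ y v}.Infinite ∧
    ¬ Cn (ad t) (bb r z)ᶜ x y

lemma Sep.symm' {t : Set (Edg d)} {r : ℕ} {z x y : Vtx d} (h : Sep t r z x y) :
    Sep t r z y x :=
  ⟨h.2.1, h.1, h.2.2.2.1, h.2.2.1, h.2.2.2.2.2.1, h.2.2.2.2.1,
    fun h' => h.2.2.2.2.2.2 (Cn.symm (ad_symm t) h')⟩

/-- relative position of two boxes -/
lemma side {t : Set (Edg d)} {r n : ℕ} {zi zj w₁ w₂ : Vtx d}
    (hoi : Opn t r zi) (hoj : Opn t r zj) (hd : Disjoint (bb r zi) (bb r zj))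
    (_hni : nm zi + r ≤ n) (hnj : nm zj + r ≤ n)
    (hw₁ : Arm t n 0 w₁) (hw₂ : Arm t n 0 w₂)
    (hi : ¬ Cn (ad t) (bb r zi)ᶜ w₁ w₂) (hj : ¬ Cn (ad t) (bb r zj)ᶜ w₁ w₂)
    (hc1j : Cn (ad t) Set.univ w₁ zj) (hc2j : Cn (ad t) Set.univ w₂ zj) :
    (Cn (ad t) (bb r zj)ᶜ w₁ zi ∧ ¬ Cn (ad t) (bb r zj)ᶜ w₂ zi ∧ Cn (ad t) (bb r zi)ᶜ w₂ zj) ∨
    (¬ Cn (ad t) (bb r zj)ᶜ w₁ zi ∧ Cn (ad t) (bb r zj)ᶜ w₂ zi ∧ Cn (ad t) (bb r zi)ᶜ w₁ zj) := by
  have hs := ad_symm t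
  have hos : ∀ u, u ∉ bb r zj → Cn (ad t) Set.univ u zj → ¬ Cn (ad t) (bb r zj)ᶜ u zi →
      Cn (ad t) (bb r zi)ᶜ u zj := by
    intro u hu hc h
    exact (other_side (ι := {z : Vtx d // Opn t r z}) (bo := fun z => bb r z.1)
      (ce := fun z => z.1) hs (fun z => box_connected z.2) (fun z => center_mem r z.1)
      (i := ⟨zi, hoi⟩) (j := ⟨zj, hoj⟩) hd hu hc h).2
  have h1j : w₁ ∉ bb r zj := fun h => hw₁.1 (bb_subset hnj h)
  have h2j : w₂ ∉ bb r zj := fun h => hw₂.1 (bb_subset hnj h)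
  by_cases h1 : Cn (ad t) (bb r zj)ᶜ w₁ zi
  · left
    have h2 : ¬ Cn (ad t) (bb r zj)ᶜ w₂ zi := fun h2 => hj (h1.trans (Cn.symm hs h2))
    exact ⟨h1, h2, hos w₂ h2j hc2j h2⟩
  · right
    have h3 := hos w₁ h1j hc1j h1
    have h2 : Cn (ad t) (bb r zj)ᶜ w₂ zi := by
      by_contra h2
      have h4 := hos w₂ h2j hc2j h2
      exact hi (h3.trans (Cn.symm hs h4))
    exact ⟨h1, h2, h3⟩

/-- Among three disjoint cut boxes one separates the other two. -/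
theorem exists_sep {t : Set (Edg d)} {r n : ℕ} {z₁ z₂ z₃ : Vtx d} (h3 : ¬ Three t n 0)
    (hn1 : nm z₁ + r ≤ n) (hn2 : nm z₂ + r ≤ n) (hn3 : nm z₃ + r ≤ n)
    (ho1 : Opn t r z₁) (ho2 : Opn t r z₂) (ho3 : Opn t r z₃)
    (ht1 : Two t r z₁) (ht2 : Two t r z₂) (ht3 : Two t r z₃)
    (d12 : Disjoint (bb r z₁) (bb r z₂)) (d13 : Disjoint (bb r z₁) (bb r z₃))
    (d23 : Disjoint (bb r z₂) (bb r z₃)) :
    Sep t r z₁ z₂ z₃ ∨ Sep t r z₂ z₁ z₃ ∨ Sep t r z₃ z₁ z₂ := by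
  have hs := ad_symm t
  obtain ⟨u0, v0, hu0, hv0, huv0⟩ := id ht1
  obtain ⟨w₁, hw₁, huw₁⟩ := arm_big hn1 hu0
  obtain ⟨w₂, hw₂, hvw₂⟩ := arm_big hn1 hv0
  have h12 : ¬ Cn (ad t) (bb n 0)ᶜ w₁ w₂ := by
    intro h
    apply huv0
    exact huw₁.trans ((h.mono_set (compl_sub hn1)).trans (Cn.symm hs hvw₂))
  -- properties of each box
  have hprop : ∀ z, nm z + r ≤ n → Opn t r z → Two t r z →
      ¬ Cn (ad t) (bb r z)ᶜ w₁ w₂ ∧ Cn (ad t) Set.univ w₁ z ∧ Cn (ad t) Set.univ w₂ z := by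
    intro z hn ho ht
    obtain ⟨g1, -, ⟨u, hu, huw⟩, ⟨v, hv, hvw⟩⟩ := two_big hn h3 hw₁ hw₂ h12 ht
    have hz : ∀ u, Arm t r z u → Cn (ad t) Set.univ u z := by
      rintro u ⟨-, ⟨b, hb, hub⟩, -⟩
      exact (Cn.single hub (Set.mem_univ _) (Set.mem_univ _)).trans
        (Cn.symm hs ((box_connected ho b hb).mono_set (Set.subset_univ _)))
    refine ⟨g1, ?_, ?_⟩
    · exact (Cn.symm hs (huw.mono_set (Set.subset_univ _))).trans (hz u hu)
    · exact (Cn.symm hs (hvw.mono_set (Set.subset_univ _))).trans (hz v hv)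
  obtain ⟨n1, c11, c21⟩ := hprop z₁ hn1 ho1 ht1
  obtain ⟨n2, c12, c22⟩ := hprop z₂ hn2 ho2 ht2
  obtain ⟨n3, c13, c23⟩ := hprop z₃ hn3 ho3 ht3
  -- separation from the two sides
  have hsep : ∀ z x y, nm z + r ≤ n → ¬ Cn (ad t) (bb r z)ᶜ w₁ w₂ →
      Cn (ad t) Set.univ w₁ z → Cn (ad t) Set.univ w₂ z →
      Cn (ad t) (bb r z)ᶜ w₁ x → Cn (ad t) (bb r z)ᶜ w₂ y → Sep t r z x y := by
    intro z x y hn hnot hc1 hc2 hx hy
    refine ⟨hx.mem_right, hy.mem_right, ?_, ?_, ?_, ?_, ?_⟩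
    · exact (Cn.symm hs (hx.mono_set (Set.subset_univ _))).trans hc1
    · exact (Cn.symm hs (hy.mono_set (Set.subset_univ _))).trans hc2
    · refine hw₁.2.2.mono fun v hv => ?_
      exact (Cn.symm hs hx).trans (Cn.mono_set hv (compl_sub hn))
    · refine hw₂.2.2.mono fun v hv => ?_
      exact (Cn.symm hs hy).trans (Cn.mono_set hv (compl_sub hn))
    · intro h
      exact hnot (hx.trans (h.trans (Cn.symm hs hy)))
  -- positions: `s_ij` is about the position of the box `i` seen from the box `j`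
  have s21 := side ho2 ho1 d12.symm hn2 hn1 hw₁ hw₂ n2 n1 c11 c21
  have s31 := side ho3 ho1 d13.symm hn3 hn1 hw₁ hw₂ n3 n1 c11 c21
  have s32 := side ho3 ho2 d23.symm hn3 hn2 hw₁ hw₂ n3 n2 c12 c22
  rcases s21 with ⟨a1, a2, a3⟩ | ⟨a1, a2, a3⟩
  · rcases s31 with ⟨b1, b2, b3⟩ | ⟨b1, b2, b3⟩
    · rcases s32 with ⟨e1, e2, e3⟩ | ⟨e1, e2, e3⟩
      · -- box 2: `w₁` side contains 3, `w₂` side contains 1
        right; left
        exact (hsep z₂ z₃ z₁ hn2 n2 c12 c22 e1 a3).symm'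
      · -- box 3: `w₂` side contains 1, `w₁` side contains 2
        right; right
        exact (hsep z₃ z₂ z₁ hn3 n3 c13 c23 e3 b3).symm'
    · left
      exact hsep z₁ z₂ z₃ hn1 n1 c11 c21 a1 b2
  · rcases s31 with ⟨b1, b2, b3⟩ | ⟨b1, b2, b3⟩
    · left
      exact (hsep z₁ z₃ z₂ hn1 n1 c11 c21 b1 a2).symm'
    · rcases s32 with ⟨e1, e2, e3⟩ | ⟨e1, e2, e3⟩
      · right; right
        exact hsep z₃ z₁ z₂ hn3 n3 c13 c23 b3 e3
      · right; left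
        exact hsep z₂ z₁ z₃ hn2 n2 c12 c22 a3 e2

/-! ### The effect of switching on fluxes -/

lemma sum_path {π : Finset (Edg d)} {x y : Vtx d} (hb : bd dE π = dV x + dV y)
    (k : Vtx d → ZMod 2) : ∑ e ∈ π, (k e.1 + k (tip e)) = k x + k y := by
  obtain ⟨m, hm⟩ : ∃ m, (∀ e ∈ π, e.1 ∈ bx d m ∧ tip e ∈ bx d m) ∧ x ∈ bx d m ∧ y ∈ bx d m := by
    obtain ⟨m0, hm0⟩ := exists_bE π
    refine ⟨m0 + nm x + nm y, fun e he => ?_, ?_, ?_⟩
    · have := mem_bE.mp (hm0 he)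
      exact ⟨bx_mono (by omega) this.1, bx_mono (by omega) this.2⟩
    · exact bx_mono (by omega) (mem_bx_nm x)
    · exact bx_mono (by omega) (mem_bx_nm y)
  set k' : Vtx d → ZMod 2 := fun v => if v ∈ bx d m then k v else 0 with hk'
  have hk0 : ∀ v, v ∉ bx d m → k' v = 0 := fun v hv => if_neg hv
  have hk1 : ∀ v, v ∈ bx d m → k' v = k v := fun v hv => if_pos hv
  have e1 : ∑ e ∈ π, (k e.1 + k (tip e)) =
      ∑ v ∈ bx d m, k' v * ∑ e ∈ π, (if e ∈ inc v then (1 : ZMod 2) else 0) := by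
    have e2 : ∀ e ∈ π, k e.1 + k (tip e) =
        ∑ v ∈ bx d m, k' v * (if e ∈ inc v then (1 : ZMod 2) else 0) := by
      intro e he
      rw [sum_dE_eq hk0, hk1 _ (hm.1 e he).1, hk1 _ (hm.1 e he).2]
    rw [sum_congr rfl e2, sum_comm]
    refine sum_congr rfl fun v _ => ?_
    rw [mul_sum]
  have e3 : ∀ v, ∑ e ∈ π, (if e ∈ inc v then (1 : ZMod 2) else 0) = dV x v + dV y v := by
    intro v
    have h1 : bd dE π v = ∑ e ∈ π, (if e ∈ inc v then (1 : ZMod 2) else 0) := by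
      unfold bd
      rw [Finset.sum_apply]
      exact sum_congr rfl fun e _ => dE_apply e v
    rw [← h1, hb]
    rfl
  have e4 : ∀ w, w ∈ bx d m → ∑ v ∈ bx d m, k' v * dV w v = k w := by
    intro w hw
    rw [sum_eq_single w]
    · unfold dV
      rw [Pi.single_eq_same, mul_one, hk1 w hw]
    · intro v _ hv
      unfold dV
      rw [Pi.single_eq_of_ne hv, mul_zero]
    · intro h; exact absurd hw h
  rw [e1]
  simp only [e3, mul_add, sum_add_distrib]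
  rw [e4 x hm.2.1, e4 y hm.2.2]

lemma flux_swap {t : Set (Edg d)} {η η' : Edg d → Bool} {π : Finset (Edg d)}
    (hη' : ∀ e, η' e = xor (η e) (decide (e ∈ π))) (hπ : ∀ e ∈ π, e ∈ t) {x y : Vtx d}
    (hb : bd dE π = dV x + dV y) {r : ℕ} {z u : Vtx d} (hx : Cn (ad t) (bb r z)ᶜ u x)
    (hy : ¬ Cn (ad t) (bb r z)ᶜ u y) : fl t η' r z u = fl t η r z u + 1 := by
  unfold fl fx
  set k := i2 {v | Cn (ad t) (bb r z)ᶜ u v} with hk
  have e1 : ∀ e ∈ tE z (bE d (r + 1)), (if η' e = true then k e.1 + k (tip e) else 0) =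
      (if η e = true then k e.1 + k (tip e) else 0) +
        (if e ∈ π then k e.1 + k (tip e) else 0) := by
    intro e _
    rw [hη' e]
    have hc : (k e.1 + k (tip e)) + (k e.1 + k (tip e)) = 0 := CharTwo.add_self_eq_zero _
    by_cases h1 : η e = true
    · by_cases h2 : e ∈ π
      · simp [h1, h2, hc]
      · simp [h1, h2]
    · by_cases h2 : e ∈ π
      · simp [h1, h2]
      · simp [h1, h2]
  rw [sum_congr rfl e1, sum_add_distrib]
  congr 1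
  have e2 : ∑ e ∈ tE z (bE d (r + 1)), (if e ∈ π then k e.1 + k (tip e) else 0) =
      ∑ e ∈ π, (k e.1 + k (tip e)) := by
    rw [← sum_filter, filter_mem_eq_inter]
    refine sum_subset inter_subset_right fun e he he' => ?_
    have he'' : e ∉ tE z (bE d (r + 1)) := fun h => he' (Finset.mem_inter.mpr ⟨h, he⟩)
    have het := hπ e he
    have a1 : ad t e.1 (tip e) := ⟨e, het, Or.inl ⟨rfl, rfl⟩⟩
    have : k e.1 = k (tip e) := by
      refine i2_eq_of_edge het ?_ ?_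
      · intro h1
        exact he'' (mem_tE_bE.mpr ⟨bb_mono z (Nat.le_succ r) h1, ad_bb a1 h1⟩)
      · intro h1
        exact he'' (mem_tE_bE.mpr ⟨ad_bb (ad_symm _ _ _ a1) h1, bb_mono z (Nat.le_succ r) h1⟩)
    rw [this]
    exact CharTwo.add_self_eq_zero _
  rw [e2, sum_path hb, hk, i2_pos (K := {v | Cn (ad t) (bb r z)ᶜ u v}) hx,
    i2_neg (K := {v | Cn (ad t) (bb r z)ᶜ u v}) hy, add_zero]

/-! ### One end -/

/-- every infinite component has one end -/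
def OneEnd (t : Set (Edg d)) : Prop :=
  ∀ u, {v | Cn (ad t) Set.univ u v}.Infinite → ∀ F : Set (Vtx d), F.Finite →
    (∃ w, Cn (ad t) Set.univ u w ∧ {v | Cn (ad t) Fᶜ w v}.Infinite) ∧
    ∀ w w', Cn (ad t) Set.univ u w → Cn (ad t) Set.univ u w' →
      {v | Cn (ad t) Fᶜ w v}.Infinite → {v | Cn (ad t) Fᶜ w' v}.Infinite →
      Cn (ad t) Fᶜ w w'

theorem oneEnd_of {t : Set (Edg d)} (h : ∀ r, ¬ Two t r 0) : OneEnd t := by
  have hs := ad_symm t
  intro u hu F hF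
  constructor
  · by_cases hadj : ∃ v b, Cn (ad t) Set.univ u v ∧ b ∈ F ∧ (ad t v b ∨ v = b)
    · obtain ⟨w, hw, -, -, hwi⟩ := infinite_part hs hF (nbr_finite t hF) hu hadj
      refine ⟨w, hw, ?_⟩
      have : Set.univ \ F = Fᶜ := by
        ext v
        exact ⟨fun hv => hv.2, fun hv => ⟨Set.mem_univ _, hv⟩⟩
      rwa [this] at hwi
    · refine ⟨u, Cn.refl (Set.mem_univ _), hu.mono fun v hv => ?_⟩
      refine Cn.restrict hv fun w hw hwF => ?_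
      exact hadj ⟨w, w, hw, hwF, Or.inr rfl⟩
  · intro w w' hw hw' hwi hwi'
    by_contra hcon
    obtain ⟨n, hFn, hun⟩ : ∃ n, F ⊆ bb n 0 ∧ u ∈ bb n (0 : Vtx d) := by
      refine ⟨hF.toFinset.sup nm + nm u, fun v hv => ?_, ?_⟩
      · rw [mem_bb_zero]
        refine bx_mono ?_ (mem_bx_nm v)
        exact (Finset.le_sup (f := nm) ((Set.Finite.mem_toFinset hF).mpr hv)).trans
          (Nat.le_add_right _ _)
      · rw [mem_bb_zero]
        exact bx_mono (Nat.le_add_left _ _) (mem_bx_nm u)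
    have key : ∀ w, Cn (ad t) Set.univ u w → {v | Cn (ad t) Fᶜ w v}.Infinite →
        ∃ a, Arm t n 0 a ∧ Cn (ad t) Fᶜ w a := by
      intro w hw hwi
      have hwF : w ∈ Fᶜ := by
        obtain ⟨v, hv⟩ := hwi.nonempty
        exact Cn.mem_left hv
      have hadj : ∃ v b, Cn (ad t) Fᶜ w v ∧ b ∈ bb n (0 : Vtx d) ∧ (ad t v b ∨ v = b) := by
        by_cases hwn : w ∈ bb n (0 : Vtx d)
        · exact ⟨w, w, Cn.refl hwF, hwn, Or.inr rfl⟩
        · obtain ⟨w1, b, hw1, hwb, hb, -⟩ := (Cn.symm hs hw).first hwn hun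
          exact ⟨w1, b, hw1.mono_set fun v hv h => hv.2 (hFn h), hb, Or.inl hwb⟩
      obtain ⟨a, ha, han, hab, hai⟩ := infinite_part hs (bb_finite n 0)
        (nbr_finite t (bb_finite n 0)) hwi hadj
      refine ⟨a, ⟨han, hab, ?_⟩, ha⟩
      have : Fᶜ \ bb n (0 : Vtx d) = (bb n 0)ᶜ := by
        ext v
        exact ⟨fun hv => hv.2, fun hv => ⟨fun h => hv (hFn h), hv⟩⟩
      rwa [this] at hai
    obtain ⟨a, ha, hwa⟩ := key w hw hwi
    obtain ⟨a', ha', hwa'⟩ := key w' hw' hwi'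
    refine h n ⟨a, a', ha, ha', fun h' => hcon ?_⟩
    have h'' : Cn (ad t) Fᶜ a a' := h'.mono_set fun v hv h => hv (hFn h)
    exact hwa.trans (h''.trans (Cn.symm hs hwa'))

end Pool.Agent.TH980
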