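import Pool.Agent.TH980.G4

/-!
# Local approximation of arms
-/

set_option autoImplicit false
set_option linter.unusedSectionVars false
set_option linter.unusedSimpArgs false

open Finset

namespace Pool.Agent.TH980

variable {d : ℕ}

/-- the annulus between two boxes -/
def An (R r : ℕ) (z : Vtx d) : Set (Vtx d) := bb (R + 1) z \ bb r z

lemma An_sub (R r : ℕ) (z : Vtx d) : An R r z ⊆ (bb r z)ᶜ := fun _ h => h.2

lemma An_mono {R R' : ℕ} (h : R ≤ R') (r : ℕ) (z : Vtx d) : An R r z ⊆ An R' r z :=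
  fun _ hv => ⟨bb_mono z (by omega) hv.1, hv.2⟩

/-- neighbours of a box -/
def Nb (t : Set (Edg d)) (r : ℕ) (z u : Vtx d) : Prop := u ∉ bb r z ∧ ∃ b ∈ bb r z, ad t u b

/-- local arms -/
def ArmL (t : Set (Edg d)) (R r : ℕ) (z u : Vtx d) : Prop :=
  Nb t r z u ∧ ∃ v, v ∉ bb R z ∧ Cn (ad t) (An R r z) u v

/-- local flux -/
noncomputable def flL (t : Set (Edg d)) (η : Edg d → Bool) (R r : ℕ) (z u : Vtx d) : ZMod 2 :=
  fx η (tE z (bE d (r + 1))) (i2 {v | Cn (ad t) (An R r z) u v})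

/-- the event that a box has two arms and that one of them has the flux `g` -/
def LG (t : Set (Edg d)) (η : Edg d → Bool) (r : ℕ) (z : Vtx d) (g : ZMod 2) : Prop :=
  ∃ u v, Arm t r z u ∧ Arm t r z v ∧ ¬ Cn (ad t) (bb r z)ᶜ u v ∧ fl t η r z u = g

/-- the local version -/
def LL (t : Set (Edg d)) (η : Edg d → Bool) (R r : ℕ) (z : Vtx d) (g : ZMod 2) : Prop :=
  ∃ u v, ArmL t R r z u ∧ ArmL t R r z v ∧ ¬ Cn (ad t) (An R r z) u v ∧ flL t η R r z u = g

/-- the local picture agrees with the global one -/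
def Good (t : Set (Edg d)) (R r : ℕ) (z : Vtx d) : Prop :=
  ∀ u v, Nb t r z u → Nb t r z v →
    (Cn (ad t) (An R r z) u v ↔ Cn (ad t) (bb r z)ᶜ u v) ∧ (ArmL t R r z u ↔ Arm t r z u)

lemma arm_nb {t : Set (Edg d)} {r : ℕ} {z u : Vtx d} (h : Arm t r z u) : Nb t r z u := ⟨h.1, h.2.1⟩

lemma nb_annulus {t : Set (Edg d)} {r R : ℕ} (hr : r ≤ R) {z u : Vtx d} (h : Nb t r z u) :
    u ∈ An R r z := by
  obtain ⟨h1, b, hb, hub⟩ := h
  exact ⟨bb_mono z (by omega) (ad_bb (ad_symm _ _ _ hub) hb), h1⟩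

lemma flL_eq {t : Set (Edg d)} {η : Edg d → Bool} (hsub : ∀ e, η e = true → e ∈ t) {R r : ℕ}
    (hr : r ≤ R) {z u : Vtx d} (hg : Good t R r z) (hu : Nb t r z u) :
    flL t η R r z u = fl t η r z u := by
  unfold flL fl fx
  refine sum_congr rfl fun e he => ?_
  split_ifs with h
  swap
  · rfl
  have het := hsub e h
  have a1 : ad t e.1 (tip e) := ⟨e, het, Or.inl ⟨rfl, rfl⟩⟩
  have a2 := ad_symm _ _ _ a1
  obtain ⟨he1, he2⟩ := mem_tE_bE.mp he
  -- value at a vertex of the box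
  have hin : ∀ v, v ∈ bb r z → i2 {v | Cn (ad t) (An R r z) u v} v = 0 ∧
      i2 {v | Cn (ad t) (bb r z)ᶜ u v} v = 0 := by
    intro v hv
    constructor
    · exact i2_neg fun h => (Cn.mem_right h).2 hv
    · exact i2_neg fun h => (Cn.mem_right h) hv
  -- value at a neighbour of the box
  have hnb : ∀ v, Nb t r z v → i2 {v | Cn (ad t) (An R r z) u v} v =
      i2 {v | Cn (ad t) (bb r z)ᶜ u v} v := by
    intro v hv
    have := (hg u v hu hv).1
    by_cases hc : Cn (ad t) (An R r z) u v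
    · rw [i2_pos (K := {v | Cn (ad t) (An R r z) u v}) hc,
        i2_pos (K := {v | Cn (ad t) (bb r z)ᶜ u v}) (this.mp hc)]
    · rw [i2_neg (K := {v | Cn (ad t) (An R r z) u v}) hc,
        i2_neg (K := {v | Cn (ad t) (bb r z)ᶜ u v}) (fun h' => hc (this.mpr h'))]
  by_cases h1 : e.1 ∈ bb r z
  · by_cases h2 : tip e ∈ bb r z
    · rw [(hin _ h1).1, (hin _ h1).2, (hin _ h2).1, (hin _ h2).2]
    · rw [(hin _ h1).1, (hin _ h1).2, hnb (tip e) ⟨h2, e.1, h1, a2⟩]
  · by_cases h2 : tip e ∈ bb r z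
    · rw [(hin _ h2).1, (hin _ h2).2, hnb e.1 ⟨h1, tip e, h2, a1⟩]
    · have g1 : e.1 ∈ An R r z := ⟨bb_mono z (by omega) he1, h1⟩
      have g2 : tip e ∈ An R r z := ⟨bb_mono z (by omega) he2, h2⟩
      rw [i2_eq_of_edge het g1 g2, i2_eq_of_edge (S := (bb r z)ᶜ) het h1 h2]
      rw [CharTwo.add_self_eq_zero, CharTwo.add_self_eq_zero]

lemma LL_iff {t : Set (Edg d)} {η : Edg d → Bool} (hsub : ∀ e, η e = true → e ∈ t) {R r : ℕ}
    (hr : r ≤ R) {z : Vtx d} (hg : Good t R r z) (g : ZMod 2) :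
    LL t η R r z g ↔ LG t η r z g := by
  constructor
  · rintro ⟨u, v, hu, hv, huv, hf⟩
    have hu' := ((hg u v hu.1 hv.1).2).mp hu
    have hv' := ((hg v u hv.1 hu.1).2).mp hv
    refine ⟨u, v, hu', hv', fun h => huv ((hg u v hu.1 hv.1).1.mpr h), ?_⟩
    rw [← flL_eq hsub hr hg hu.1]
    exact hf
  · rintro ⟨u, v, hu, hv, huv, hf⟩
    have hu' := ((hg u v (arm_nb hu) (arm_nb hv)).2).mpr hu
    have hv' := ((hg v u (arm_nb hv) (arm_nb hu)).2).mpr hv
    refine ⟨u, v, hu', hv', fun h => huv ((hg u v hu'.1 hv'.1).1.mp h), ?_⟩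
    rw [flL_eq hsub hr hg hu'.1]
    exact hf

/-- The local picture is eventually correct. -/
lemma eventually_good (t : Set (Edg d)) (r : ℕ) (z : Vtx d) :
    ∀ᶠ R in Filter.atTop, Good t R r z := by
  have hNf : {u | Nb t r z u}.Finite :=
    (nbr_finite t (bb_finite r z)).subset fun u hu => hu.2
  have h1 : ∀ u ∈ {u | Nb t r z u}, ∀ v ∈ {u | Nb t r z u}, ∀ᶠ R in Filter.atTop,
      (Cn (ad t) (An R r z) u v ↔ Cn (ad t) (bb r z)ᶜ u v) ∧
        (ArmL t R r z u ↔ Arm t r z u) := by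
    intro u hu v hv
    refine Filter.Eventually.and ?_ ?_
    · by_cases hc : Cn (ad t) (bb r z)ᶜ u v
      · have h2 : ∃ R0, Cn (ad t) (An R0 r z) u v := by
          refine hc.induct (P := fun w => ∃ R0, Cn (ad t) (An R0 r z) u w) ?_ ?_
          · exact ⟨r, Cn.refl (nb_annulus le_rfl hu)⟩
          · rintro a b ha hab hb ⟨R0, hR0⟩
            refine ⟨R0 + 1, ?_⟩
            refine (hR0.mono_set (An_mono (Nat.le_succ R0) r z)).tail hab ⟨?_, hb⟩
            exact ad_bb hab (hR0.mem_right.1)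
        obtain ⟨R0, hR0⟩ := h2
        filter_upwards [Filter.eventually_ge_atTop R0] with R hR
        exact ⟨fun _ => hc, fun _ => hR0.mono_set (An_mono hR r z)⟩
      · refine Filter.Eventually.of_forall fun R => ?_
        exact ⟨fun h => h.mono_set (An_sub R r z), fun h => absurd h hc⟩
    · by_cases hinf : {v | Cn (ad t) (bb r z)ᶜ u v}.Infinite
      · filter_upwards [Filter.eventually_ge_atTop (r + 1)] with R hR
        refine ⟨fun _ => ⟨hu.1, hu.2, hinf⟩, fun _ => ⟨hu, ?_⟩⟩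
        obtain ⟨w, hw, hwR⟩ := infinite_leaves hinf R z
        have huR : u ∉ (bb R z)ᶜ := by
          intro h
          apply h
          obtain ⟨b, hb, hub⟩ := hu.2
          exact bb_mono z hR (ad_bb (ad_symm _ _ _ hub) hb)
        obtain ⟨a, b, ha, hab, hb, hb2⟩ := Cn.first hw huR hwR
        have h3 : (bb r z)ᶜ \ (bb R z)ᶜ ⊆ An R r z := by
          rintro v ⟨hv1, hv2⟩
          exact ⟨bb_mono z (Nat.le_succ R) (Set.not_notMem.mp hv2), hv1⟩
        have h4 := ha.mono_set h3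
        refine ⟨b, hb, h4.tail hab ⟨?_, hb2⟩⟩
        exact ad_bb hab (Set.not_notMem.mp ha.mem_right.2)
      · rw [Set.not_infinite] at hinf
        obtain ⟨n, hn⟩ : ∃ n, {v | Cn (ad t) (bb r z)ᶜ u v} ⊆ bb n z := by
          refine ⟨hinf.toFinset.sup (fun v => nm (v - z)), fun v hv => ?_⟩
          rw [mem_bb]
          exact bx_mono (Finset.le_sup (f := fun v => nm (v - z))
            ((Set.Finite.mem_toFinset hinf).mpr hv)) (mem_bx_nm (v - z))
        filter_upwards [Filter.eventually_ge_atTop n] with R hR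
        refine ⟨?_, fun h => absurd hinf h.2.2⟩
        rintro ⟨-, w, hw, hc⟩
        exact absurd (bb_mono z hR (hn (hc.mono_set (An_sub R r z)))) hw
  have h2 : ∀ᶠ R in Filter.atTop, ∀ u ∈ {u | Nb t r z u}, ∀ v ∈ {u | Nb t r z u},
      (Cn (ad t) (An R r z) u v ↔ Cn (ad t) (bb r z)ᶜ u v) ∧
        (ArmL t R r z u ↔ Arm t r z u) := by
    rw [Filter.eventually_all_finite hNf]
    intro u hu
    rw [Filter.eventually_all_finite hNf]
    intro v hv
    exact h1 u hu v hv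
  filter_upwards [h2] with R hR u v hu hv
  exact hR u hu v hv

/-! ### Translations -/

lemma An_shift (R r : ℕ) (z z' a : Vtx d) : a ∈ An R r z' ↔ a + z ∈ An R r (z' + z) := by
  unfold An
  rw [Set.mem_sdiff, Set.mem_sdiff, ← bb_shift, ← bb_shift]

lemma Cn_An_shift (R r : ℕ) (z z' : Vtx d) (t : Set (Edg d)) (u v : Vtx d) :
    Cn (ad (tz z t)) (An R r z') u v ↔ Cn (ad t) (An R r (z' + z)) (u + z) (v + z) :=
  Cn_shift z t (An_shift R r z z') u v

lemma Nb_shift (r : ℕ) (z z' u : Vtx d) (t : Set (Edg d)) :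
    Nb (tz z t) r z' u ↔ Nb t r (z' + z) (u + z) := by
  unfold Nb
  rw [← bb_shift]
  have : (∃ b ∈ bb r z', ad (tz z t) u b) ↔ ∃ b ∈ bb r (z' + z), ad t (u + z) b := by
    constructor
    · rintro ⟨b, hb, h⟩
      exact ⟨b + z, (bb_shift r z z' b).mp hb, (ad_shift z t u b).mp h⟩
    · rintro ⟨b, hb, h⟩
      refine ⟨b - z, ?_, ?_⟩
      · rw [bb_shift r z, sub_add_cancel]; exact hb
      · rw [ad_shift, sub_add_cancel]; exact h
  rw [this]

lemma ArmL_shift (R r : ℕ) (z z' u : Vtx d) (t : Set (Edg d)) :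
    ArmL (tz z t) R r z' u ↔ ArmL t R r (z' + z) (u + z) := by
  unfold ArmL
  rw [Nb_shift]
  have : (∃ v, v ∉ bb R z' ∧ Cn (ad (tz z t)) (An R r z') u v) ↔
      ∃ v, v ∉ bb R (z' + z) ∧ Cn (ad t) (An R r (z' + z)) (u + z) v := by
    constructor
    · rintro ⟨v, hv, h⟩
      exact ⟨v + z, fun h' => hv ((bb_shift R z z' v).mpr h'), (Cn_An_shift R r z z' t u v).mp h⟩
    · rintro ⟨v, hv, h⟩
      refine ⟨v - z, fun h' => hv ?_, ?_⟩
      · have := (bb_shift R z z' (v - z)).mp h'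
        rwa [sub_add_cancel] at this
      · rw [Cn_An_shift, sub_add_cancel]; exact h
  rw [this]

lemma Good_shift (R r : ℕ) (z z' : Vtx d) (t : Set (Edg d)) :
    Good (tz z t) R r z' ↔ Good t R r (z' + z) := by
  constructor
  · intro h u v hu hv
    have := h (u - z) (v - z) (by rw [Nb_shift, sub_add_cancel]; exact hu)
      (by rw [Nb_shift, sub_add_cancel]; exact hv)
    rw [Cn_An_shift, Cn_box_shift, ArmL_shift, Arm_shift] at this
    simpa only [sub_add_cancel] using this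
  · intro h u v hu hv
    have := h (u + z) (v + z) ((Nb_shift r z z' u t).mp hu) ((Nb_shift r z z' v t).mp hv)
    rw [Cn_An_shift, Cn_box_shift, ArmL_shift, Arm_shift]
    exact this

lemma tE_tE (u v : Vtx d) (J : Finset (Edg d)) : tE u (tE v J) = tE (v + u) J := by
  ext e
  rw [mem_tE, mem_tE, mem_tE]
  show (e.1 - u - v, e.2) ∈ J ↔ _
  rw [show e.1 - u - v = e.1 - (v + u) by abel]

lemma fx_shift (η : Edg d → Bool) (z : Vtx d) (E : Finset (Edg d)) (k : Vtx d → ZMod 2) :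
    fx (fun e => η (shE z e)) E (fun v => k (v + z)) = fx η (tE z E) k := by
  unfold fx tE
  rw [sum_map]
  refine sum_congr rfl fun e _ => ?_
  show _ = if η (shE z e) = true then k (shE z e).1 + k (tip (shE z e)) else 0
  rw [tip_shE]
  rfl

lemma flL_shift (R r : ℕ) (z z' u : Vtx d) (t : Set (Edg d)) (η : Edg d → Bool) :
    flL (tz z t) (fun e => η (shE z e)) R r z' u = flL t η R r (z' + z) (u + z) := by
  unfold flL
  rw [← tE_tE]
  refine Eq.trans ?_ (fx_shift η z (tE z' (bE d (r + 1))) _)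
  congr 1
  funext v
  by_cases h : Cn (ad (tz z t)) (An R r z') u v
  · rw [i2_pos (K := {v | Cn (ad (tz z t)) (An R r z') u v}) h, i2_pos]
    exact (Cn_An_shift R r z z' t u v).mp h
  · rw [i2_neg (K := {v | Cn (ad (tz z t)) (An R r z') u v}) h, i2_neg]
    exact fun h' => h ((Cn_An_shift R r z z' t u v).mpr h')

lemma fl_shift (r : ℕ) (z z' u : Vtx d) (t : Set (Edg d)) (η : Edg d → Bool) :
    fl (tz z t) (fun e => η (shE z e)) r z' u = fl t η r (z' + z) (u + z) := by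
  unfold fl
  rw [← tE_tE]
  refine Eq.trans ?_ (fx_shift η z (tE z' (bE d (r + 1))) _)
  congr 1
  funext v
  by_cases h : Cn (ad (tz z t)) (bb r z')ᶜ u v
  · rw [i2_pos (K := {v | Cn (ad (tz z t)) (bb r z')ᶜ u v}) h, i2_pos]
    exact (Cn_box_shift r z z' t u v).mp h
  · rw [i2_neg (K := {v | Cn (ad (tz z t)) (bb r z')ᶜ u v}) h, i2_neg]
    exact fun h' => h ((Cn_box_shift r z z' t u v).mpr h')

lemma LL_shift (R r : ℕ) (z z' : Vtx d) (t : Set (Edg d)) (η : Edg d → Bool) (g : ZMod 2) :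
    LL (tz z t) (fun e => η (shE z e)) R r z' g ↔ LL t η R r (z' + z) g := by
  constructor
  · rintro ⟨u, v, hu, hv, huv, hf⟩
    refine ⟨u + z, v + z, (ArmL_shift R r z z' u t).mp hu, (ArmL_shift R r z z' v t).mp hv,
      fun h => huv ((Cn_An_shift R r z z' t u v).mpr h), ?_⟩
    rw [← flL_shift]; exact hf
  · rintro ⟨u, v, hu, hv, huv, hf⟩
    refine ⟨u - z, v - z, ?_, ?_, ?_, ?_⟩
    · rw [ArmL_shift, sub_add_cancel]; exact hu
    · rw [ArmL_shift, sub_add_cancel]; exact hv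
    · rw [Cn_An_shift, sub_add_cancel, sub_add_cancel]; exact huv
    · rw [flL_shift, sub_add_cancel]; exact hf

/-! ### Locality -/

lemma ad_local {t t' : Set (Edg d)} {R : ℕ} {z : Vtx d}
    (h : ∀ e ∈ tE z (bE d R), (e ∈ t ↔ e ∈ t')) {u v : Vtx d} (hu : u ∈ bb R z) (hv : v ∈ bb R z)
    (huv : ad t u v) : ad t' u v := by
  obtain ⟨e, he, h'⟩ := huv
  refine ⟨e, (h e (mem_tE_bE.mpr ?_)).mp he, h'⟩
  rcases h' with ⟨rfl, rfl⟩ | ⟨rfl, rfl⟩
  · exact ⟨hu, hv⟩
  · exact ⟨hv, hu⟩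

lemma Cn_local {t t' : Set (Edg d)} {R : ℕ} {z : Vtx d}
    (h : ∀ e ∈ tE z (bE d R), (e ∈ t ↔ e ∈ t')) {S : Set (Vtx d)} (hS : S ⊆ bb R z)
    {u v : Vtx d} (huv : Cn (ad t) S u v) : Cn (ad t') S u v :=
  huv.mono (fun _ ha _ hb hab => ad_local h (hS ha) (hS hb) hab) subset_rfl

lemma LL_local {t t' : Set (Edg d)} {η η' : Edg d → Bool} {R r : ℕ} (hr : r ≤ R) {z : Vtx d}
    (ht : ∀ e ∈ tE z (bE d (R + 1)), (e ∈ t ↔ e ∈ t'))
    (hη : ∀ e ∈ tE z (bE d (R + 1)), η e = η' e) {g : ZMod 2} (h : LL t η R r z g) :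
    LL t' η' R r z g := by
  have ht' : ∀ e ∈ tE z (bE d (R + 1)), (e ∈ t' ↔ e ∈ t) := fun e he => (ht e he).symm
  have hAn : An R r z ⊆ bb (R + 1) z := fun v hv => hv.1
  have hCn : ∀ u v, Cn (ad t) (An R r z) u v ↔ Cn (ad t') (An R r z) u v := fun u v =>
    ⟨Cn_local ht hAn, Cn_local ht' hAn⟩
  have hNb : ∀ u, Nb t r z u → Nb t' r z u := by
    rintro u ⟨h1, b, hb, hub⟩
    refine ⟨h1, b, hb, ad_local ht ?_ ?_ hub⟩
    · exact bb_mono z (by omega) (ad_bb (ad_symm _ _ _ hub) hb)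
    · exact bb_mono z (by omega) hb
  have hArm : ∀ u, ArmL t R r z u → ArmL t' R r z u := by
    rintro u ⟨h1, v, hv, huv⟩
    exact ⟨hNb u h1, v, hv, (hCn u v).mp huv⟩
  obtain ⟨u, v, hu, hv, huv, hf⟩ := h
  refine ⟨u, v, hArm u hu, hArm v hv, fun h => huv ((hCn u v).mpr h), ?_⟩
  rw [← hf]
  unfold flL fx
  have hset : {v | Cn (ad t') (An R r z) u v} = {v | Cn (ad t) (An R r z) u v} := by
    ext w
    exact (hCn u w).symm
  rw [hset]
  refine sum_congr rfl fun e he => ?_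
  rw [hη e ?_]
  obtain ⟨h1, h2⟩ := mem_tE_bE.mp he
  exact mem_tE_bE.mpr ⟨bb_mono z (by omega) h1, bb_mono z (by omega) h2⟩

end Pool.Agent.TH980
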