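import Pool.Agent.TH980.G5
import Pool.Agent.TH980.M7

/-!
# Measurability
-/

set_option autoImplicit false
set_option linter.unusedSectionVars false
set_option linter.unusedSimpArgs false

open Finset MeasureTheory

namespace Pool.Agent.TH980

variable {d : ℕ}

/-- the trace of a configuration -/
def tr (ω : Om d) : Set (Edg d) := {e | ω (2, e) = true}

/-- the second even subgraph of a configuration -/
def et (ω : Om d) : Edg d → Bool := fun e => ω (1, e)

lemma tr_shO (z : Vtx d) (ω : Om d) : tr (shO z ω) = tz z (tr ω) := rfl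
lemma et_shO (z : Vtx d) (ω : Om d) : et (shO z ω) = fun e => et ω (shE z e) := rfl

lemma m_coord (p : Fin 3 × Edg d) : Measurable (fun ω : Om d => ω p = true) := by
  have h : MeasurableSet ((fun ω : Om d => ω p) ⁻¹' {true}) :=
    (measurable_pi_apply p) (measurableSet_singleton true)
  exact measurableSet_setOfPred.mp h

lemma m_sub (F : Finset (Edg d)) : Measurable (fun ω : Om d => (F : Set (Edg d)) ⊆ tr ω) := by
  have : (fun ω : Om d => (F : Set (Edg d)) ⊆ tr ω) = fun ω => ∀ e, e ∈ F → ω (2, e) = true := by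
    funext ω; rfl
  rw [this]
  exact Measurable.forall fun e => Measurable.imp measurable_const (m_coord (2, e))

lemma m_ad (u v : Vtx d) : Measurable (fun ω : Om d => ad (tr ω) u v) :=
  Measurable.exists fun e => (m_coord (2, e)).and measurable_const

lemma Cn_iff_finite (t : Set (Edg d)) (S : Set (Vtx d)) (u v : Vtx d) :
    Cn (ad t) S u v ↔ ∃ F : Finset (Edg d), (F : Set (Edg d)) ⊆ t ∧ Cn (ad (F : Set (Edg d))) S u v := by
  constructor
  · intro h
    refine h.induct (P := fun w => ∃ F : Finset (Edg d), (F : Set (Edg d)) ⊆ t ∧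
      Cn (ad (F : Set (Edg d))) S u w) ?_ ?_
    · exact ⟨∅, by simp, Cn.refl h.mem_left⟩
    · classical
      rintro a b _ ⟨e, he, hab⟩ hb ⟨F, hF, hc⟩
      refine ⟨insert e F, ?_, ?_⟩
      · intro e' he'
        rw [mem_coe, Finset.mem_insert] at he'
        rcases he' with rfl | he'
        · exact he
        · exact hF he'
      · have h1 : Cn (ad ((insert e F : Finset (Edg d)) : Set (Edg d))) S u a := by
          refine hc.mono (fun x _ y _ hxy => ad_mono ?_ hxy) subset_rfl
          intro e' he'
          exact mem_insert_of_mem he'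
        exact h1.tail ⟨e, mem_insert_self e F, hab⟩ hb
  · rintro ⟨F, hF, h⟩
    exact h.mono (fun x _ y _ hxy => ad_mono hF hxy) subset_rfl

lemma m_Cn (S : Set (Vtx d)) (u v : Vtx d) : Measurable (fun ω : Om d => Cn (ad (tr ω)) S u v) := by
  have : (fun ω : Om d => Cn (ad (tr ω)) S u v) = fun ω => ∃ F : Finset (Edg d),
      (F : Set (Edg d)) ⊆ tr ω ∧ Cn (ad (F : Set (Edg d))) S u v := by
    funext ω
    exact propext (Cn_iff_finite _ _ _ _)
  rw [this]
  exact Measurable.exists fun F => (m_sub F).and measurable_const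

lemma m_Inf (S : Set (Vtx d)) (u : Vtx d) :
    Measurable (fun ω : Om d => {v | Cn (ad (tr ω)) S u v}.Infinite) := by
  simp only [infinite_iff]
  exact Measurable.forall fun n => Measurable.exists fun v => (m_Cn S u v).and measurable_const

lemma m_Nb (r : ℕ) (z u : Vtx d) : Measurable (fun ω : Om d => Nb (tr ω) r z u) := by
  unfold Nb
  exact measurable_const.and (Measurable.exists fun b => measurable_const.and (m_ad u b))

lemma m_Arm (r : ℕ) (z u : Vtx d) : Measurable (fun ω : Om d => Arm (tr ω) r z u) := by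
  unfold Arm
  exact measurable_const.and ((Measurable.exists fun b => measurable_const.and (m_ad u b)).and
    (m_Inf _ u))

lemma m_Two (r : ℕ) (z : Vtx d) : Measurable (fun ω : Om d => Two (tr ω) r z) := by
  unfold Two
  exact Measurable.exists fun u => Measurable.exists fun v => (m_Arm r z u).and
    ((m_Arm r z v).and (m_Cn _ u v).not)

lemma m_Three (r : ℕ) (z : Vtx d) : Measurable (fun ω : Om d => Three (tr ω) r z) := by
  unfold Three
  exact Measurable.exists fun u => Measurable.exists fun v => Measurable.exists fun w =>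
    (m_Arm r z u).and ((m_Arm r z v).and ((m_Arm r z w).and ((m_Cn _ u v).not.and
      ((m_Cn _ u w).not.and (m_Cn _ v w).not))))

lemma m_Opn (r : ℕ) (z : Vtx d) : Measurable (fun ω : Om d => Opn (tr ω) r z) := by
  unfold Opn
  exact Measurable.forall fun e => measurable_const.imp (measurable_const.imp (m_coord (2, e)))

lemma m_Sep (r : ℕ) (z x y : Vtx d) : Measurable (fun ω : Om d => Sep (tr ω) r z x y) := by
  unfold Sep
  exact measurable_const.and (measurable_const.and ((m_Cn _ x z).and ((m_Cn _ y z).and
    ((m_Inf _ x).and ((m_Inf _ y).and (m_Cn _ x y).not)))))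

lemma m_ArmL (R r : ℕ) (z u : Vtx d) : Measurable (fun ω : Om d => ArmL (tr ω) R r z u) := by
  unfold ArmL
  exact (m_Nb r z u).and (Measurable.exists fun v => measurable_const.and (m_Cn _ u v))

lemma m_Good (R r : ℕ) (z : Vtx d) : Measurable (fun ω : Om d => Good (tr ω) R r z) := by
  unfold Good
  exact Measurable.forall fun u => Measurable.forall fun v => (m_Nb r z u).imp ((m_Nb r z v).imp
    (((m_Cn _ u v).iff (m_Cn _ u v)).and ((m_ArmL R r z u).iff (m_Arm r z u))))

lemma m_sum {κ : Type*} (E : Finset κ) (f : κ → Om d → ZMod 2)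
    (hf : ∀ e g, Measurable (fun ω => f e ω = g)) (g : ZMod 2) :
    Measurable (fun ω => ∑ e ∈ E, f e ω = g) := by
  classical
  induction E using Finset.induction_on generalizing g with
  | empty => simp only [sum_empty]; exact measurable_const
  | insert e E he ih =>
    have : (fun ω => ∑ e' ∈ insert e E, f e' ω = g) =
        fun ω => ∃ g' : ZMod 2, f e ω = g' ∧ ∑ e' ∈ E, f e' ω = g - g' := by
      funext ω
      rw [sum_insert he]
      apply propext
      constructor
      · intro h
        exact ⟨f e ω, rfl, by rw [← h]; ring⟩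
      · rintro ⟨g', h1, h2⟩
        rw [h1, h2]; ring
    rw [this]
    exact Measurable.exists fun g' => (hf e g').and (ih (g - g'))

lemma m_i2 (S : Set (Vtx d)) (u w : Vtx d) (g : ZMod 2) :
    Measurable (fun ω : Om d => i2 {v | Cn (ad (tr ω)) S u v} w = g) := by
  have : (fun ω : Om d => i2 {v | Cn (ad (tr ω)) S u v} w = g) =
      fun ω => (Cn (ad (tr ω)) S u w ∧ g = 1) ∨ (¬ Cn (ad (tr ω)) S u w ∧ g = 0) := by
    funext ω
    apply propext
    by_cases h : Cn (ad (tr ω)) S u w
    · rw [i2_pos (K := {v | Cn (ad (tr ω)) S u v}) h]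
      simp only [h, true_and, not_true_eq_false, false_and, or_false]
      exact eq_comm
    · rw [i2_neg (K := {v | Cn (ad (tr ω)) S u v}) h]
      simp only [h, false_and, not_false_eq_true, true_and, false_or]
      exact eq_comm
  rw [this]
  exact ((m_Cn S u w).and measurable_const).or ((m_Cn S u w).not.and measurable_const)

lemma m_fl (r : ℕ) (z u : Vtx d) (g : ZMod 2) :
    Measurable (fun ω : Om d => fl (tr ω) (et ω) r z u = g) := by
  unfold fl fx
  refine m_sum _ _ (fun e g' => ?_) g
  have : (fun ω : Om d => (if et ω e = true then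
      i2 {v | Cn (ad (tr ω)) (bb r z)ᶜ u v} e.1 + i2 {v | Cn (ad (tr ω)) (bb r z)ᶜ u v} (tip e)
      else 0) = g') = fun ω : Om d => (ω (1, e) = true → ∃ g₁ : ZMod 2,
        i2 {v | Cn (ad (tr ω)) (bb r z)ᶜ u v} e.1 = g₁ ∧
        i2 {v | Cn (ad (tr ω)) (bb r z)ᶜ u v} (tip e) = g' - g₁) ∧
        (¬ ω (1, e) = true → 0 = g') := by
    funext ω
    apply propext
    show (if ω (1, e) = true then _ else _) = g' ↔ _
    by_cases h : ω (1, e) = true
    · rw [if_pos h]
      constructor
      · intro h'
        exact ⟨fun _ => ⟨_, rfl, by rw [← h']; ring⟩, fun hn => absurd h hn⟩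
      · rintro ⟨h1, -⟩
        obtain ⟨g₁, h2, h3⟩ := h1 h
        rw [h2, h3]; ring
    · rw [if_neg h]
      constructor
      · intro h'
        exact ⟨fun hp => absurd hp h, fun _ => h'⟩
      · rintro ⟨-, h1⟩
        exact h1 h
  rw [this]
  exact ((m_coord (1, e)).imp (Measurable.exists fun g₁ => (m_i2 _ u _ g₁).and
    (m_i2 _ u _ (g' - g₁)))).and ((m_coord (1, e)).not.imp measurable_const)

lemma m_LG (r : ℕ) (z : Vtx d) (g : ZMod 2) :
    Measurable (fun ω : Om d => LG (tr ω) (et ω) r z g) := by
  unfold LG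
  exact Measurable.exists fun u => Measurable.exists fun v => (m_Arm r z u).and
    ((m_Arm r z v).and ((m_Cn _ u v).not.and (m_fl r z u g)))

end Pool.Agent.TH980
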