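import Pool.Agent.TH980.A2

/-!
# The lattice with ghost edges
-/

set_option autoImplicit false
set_option linter.unusedSectionVars false
set_option linter.unusedSimpArgs false

open Finset

namespace Pool.Agent.TH980

/-- vertices of the lattice -/
abbrev Vtx (d : ℕ) := Fin d → ℤ

/-- lattice edges: `(x, i)` joins `x` and `x + e_i` -/
abbrev Edg (d : ℕ) := (Fin d → ℤ) × Fin d

/-- functions on the vertices with values in `ℤ / 2` -/
abbrev Gam (d : ℕ) := (Fin d → ℤ) → ZMod 2

noncomputable instance instDecEqGam (d : ℕ) : DecidableEq (Gam d) := Classical.decEq _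

variable {d : ℕ}

lemma gam_two (g : Gam d) : g + g = 0 := by
  funext v
  exact CharTwo.add_self_eq_zero _

/-- the second endpoint of an edge -/
def tip (e : Edg d) : Vtx d := e.1 + Pi.single e.2 1

/-- boundary of an edge -/
def dE (e : Edg d) : Gam d := Pi.single e.1 1 + Pi.single (tip e) 1

/-- boundary of a ghost edge -/
def dV (v : Vtx d) : Gam d := Pi.single v 1

/-- boundary of lattice and ghost edges -/
def dS (d : ℕ) : Edg d ⊕ Vtx d → Gam d := Sum.elim dE dV

/-- weights of lattice and ghost edges -/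
def wS (d : ℕ) (x y : ℝ) : Edg d ⊕ Vtx d → ℝ := Sum.elim (fun _ => x) (fun _ => y)

/-- the box `{-n, …, n}^d` -/
noncomputable def bx (d n : ℕ) : Finset (Vtx d) := Finset.Icc (fun _ => -(n : ℤ)) (fun _ => (n : ℤ))

/-- the edges of the box -/
noncomputable def bE (d n : ℕ) : Finset (Edg d) := (bx d n ×ˢ univ).filter (fun e => tip e ∈ bx d n)

/-- the lattice and ghost edges of the box -/
noncomputable def TS (d n : ℕ) : Finset (Edg d ⊕ Vtx d) := (bE d n).disjSum (bx d n)

lemma mem_bx {n : ℕ} {v : Vtx d} : v ∈ bx d n ↔ ∀ i, |v i| ≤ n := by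
  unfold bx
  rw [Finset.mem_Icc, Pi.le_def, Pi.le_def, ← forall_and]
  exact forall_congr' fun i => abs_le.symm

lemma mem_bE {n : ℕ} {e : Edg d} : e ∈ bE d n ↔ e.1 ∈ bx d n ∧ tip e ∈ bx d n := by
  unfold bE
  rw [mem_filter, mem_product]
  simp

lemma inl_mem_TS {n : ℕ} {e : Edg d} : Sum.inl e ∈ TS d n ↔ e ∈ bE d n := by
  unfold TS; simp

lemma inr_mem_TS {n : ℕ} {v : Vtx d} : Sum.inr v ∈ TS d n ↔ v ∈ bx d n := by
  unfold TS; simp

lemma bx_mono {n m : ℕ} (h : n ≤ m) : bx d n ⊆ bx d m := by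
  intro v hv
  rw [mem_bx] at hv ⊢
  intro i
  have := hv i
  have : (n : ℤ) ≤ m := by exact_mod_cast h
  linarith

lemma bE_mono {n m : ℕ} (h : n ≤ m) : bE d n ⊆ bE d m := by
  intro e he
  rw [mem_bE] at he ⊢
  exact ⟨bx_mono h he.1, bx_mono h he.2⟩

lemma TS_mono {n m : ℕ} (h : n ≤ m) : TS d n ⊆ TS d m := by
  intro s hs
  rcases s with e | v
  · rw [inl_mem_TS] at hs ⊢; exact bE_mono h hs
  · rw [inr_mem_TS] at hs ⊢; exact bx_mono h hs

lemma wS_nonneg {x y : ℝ} (hx : 0 ≤ x) (hy : 0 ≤ y) (s : Edg d ⊕ Vtx d) : 0 ≤ wS d x y s := by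
  rcases s with e | v
  · exact hx
  · exact hy

lemma wS_le_one {x y : ℝ} (hx : x ≤ 1) (hy : y ≤ 1) (s : Edg d ⊕ Vtx d) : wS d x y s ≤ 1 := by
  rcases s with e | v
  · exact hx
  · exact hy

/-! ### Clusters of a configuration of lattice and ghost edges -/

/-- `u` and `w` are joined by a lattice edge of `t` -/
def rel (t : Finset (Edg d ⊕ Vtx d)) (u w : Vtx d) : Prop :=
  ∃ e : Edg d, Sum.inl e ∈ t ∧ ((u = e.1 ∧ w = tip e) ∨ (u = tip e ∧ w = e.1))

/-- connection by lattice edges of `t` -/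
def reach (t : Finset (Edg d ⊕ Vtx d)) : Vtx d → Vtx d → Prop := Relation.ReflTransGen (rel t)

lemma rel_symm {t : Finset (Edg d ⊕ Vtx d)} {u w : Vtx d} (h : rel t u w) : rel t w u := by
  obtain ⟨e, he, h | h⟩ := h
  · exact ⟨e, he, Or.inr ⟨h.2, h.1⟩⟩
  · exact ⟨e, he, Or.inl ⟨h.2, h.1⟩⟩

lemma bd_sub_add {ι : Type*} [DecidableEq ι] {δ : ι → Gam d} {t : Finset ι} {b c : Gam d}
    (hb : ∃ R ⊆ t, bd δ R = b) (hc : ∃ R ⊆ t, bd δ R = c) : ∃ R ⊆ t, bd δ R = b + c := by
  obtain ⟨R, hR, rfl⟩ := hb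
  obtain ⟨R', hR', rfl⟩ := hc
  exact ⟨symmDiff R R', (symmDiff_le_sup : symmDiff R R' ≤ R ⊔ R').trans (union_subset hR hR'),
    bd_symmDiff gam_two δ R R'⟩

lemma bd_sub_zero {ι : Type*} {δ : ι → Gam d} {t : Finset ι} : ∃ R ⊆ t, bd δ R = 0 :=
  ⟨∅, empty_subset t, rfl⟩

lemma path_bd {t : Finset (Edg d ⊕ Vtx d)} {u w : Vtx d} (h : reach t u w) :
    ∃ R ⊆ t, bd (dS d) R = dV u + dV w := by
  induction h with
  | refl => rw [gam_two]; exact bd_sub_zero
  | tail _ hr ih =>
    rename_i v w _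
    obtain ⟨e, he, h⟩ := hr
    have h1 : ∃ R ⊆ t, bd (dS d) R = dV v + dV w := by
      refine ⟨{Sum.inl e}, singleton_subset_iff.mpr he, ?_⟩
      unfold bd
      rw [sum_singleton]
      rcases h with ⟨rfl, rfl⟩ | ⟨rfl, rfl⟩
      · rfl
      · show dE e = _
        unfold dE dV
        rw [add_comm]
    have h3 := bd_sub_add ih h1
    have e1 : dV u + dV v + (dV v + dV w) = dV u + dV w := by
      have := gam_two (dV v)
      calc dV u + dV v + (dV v + dV w) = dV u + dV w + (dV v + dV v) := by abel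
        _ = _ := by rw [this, add_zero]
    rwa [e1] at h3

lemma zmod_ne_zero {z : ZMod 2} (h : z ≠ 0) : z = 1 := by
  revert z; decide

/-- If sources `a + b` are possible in `t` but sources `b` are not, then some source of `a` has a
cluster without ghost edges which contains a source of `b`. -/
lemma exists_bad {t D : Finset (Edg d ⊕ Vtx d)} {a b : Gam d} (ha : (Function.support a).Finite)
    (hD : D ⊆ t) (hDb : bd (dS d) D = a + b) (hb : ¬ ∃ R ⊆ t, bd (dS d) R = b) :
    ∃ v, a v ≠ 0 ∧ (∀ w, reach t v w → Sum.inr w ∉ t) ∧ ∃ w, reach t v w ∧ b w ≠ 0 := by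
  classical
  by_contra hcon
  push Not at hcon
  apply hb
  suffices H : ∃ R ⊆ t, bd (dS d) R = a by
    have h1 := bd_sub_add H ⟨D, hD, hDb⟩
    have : a + (a + b) = b := by rw [← add_assoc, gam_two, zero_add]
    rwa [this] at h1
  set R2 : Set (Vtx d) := {w | ∃ v, a v ≠ 0 ∧ reach t v w ∧ ∀ w', reach t v w' → Sum.inr w' ∉ t}
    with hR2
  have hR2b : ∀ w ∈ R2, b w = 0 := by
    rintro w ⟨v, hv, hvw, hg⟩
    exact hcon v hv hg w hvw
  have hR2g : ∀ w ∈ R2, Sum.inr w ∉ t := by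
    rintro w ⟨v, hv, hvw, hg⟩
    exact hg w hvw
  have hR2c : ∀ w ∈ R2, ∀ w', rel t w w' → w' ∈ R2 := by
    rintro w ⟨v, hv, hvw, hg⟩ w' hr
    exact ⟨v, hv, hvw.tail hr, hg⟩
  set D2 : Finset (Edg d ⊕ Vtx d) := D.filter (fun s => ∃ e : Edg d, s = Sum.inl e ∧ e.1 ∈ R2)
    with hD2
  have hD2t : D2 ⊆ t := (filter_subset _ _).trans hD
  have key : bd (dS d) D2 = fun w => if w ∈ R2 then a w else 0 := by
    funext w
    have hsum : ∀ F : Finset (Edg d ⊕ Vtx d), bd (dS d) F w = ∑ s ∈ F, dS d s w := by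
      intro F; unfold bd; rw [Finset.sum_apply]
    by_cases hw : w ∈ R2
    · rw [if_pos hw]
      have h1 : a w = bd (dS d) D w := by
        rw [hDb, Pi.add_apply, hR2b w hw, add_zero]
      rw [h1, hsum, hsum]
      refine sum_subset (filter_subset _ _) fun s hsD hs => ?_
      rcases s with e | u
      · have he : e.1 ∉ R2 := fun h => hs (mem_filter.mpr ⟨hsD, e, rfl, h⟩)
        have he' : tip e ∉ R2 := fun h =>
          he (hR2c _ h _ ⟨e, hD hsD, Or.inr ⟨rfl, rfl⟩⟩)
        show dE e w = 0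
        unfold dE
        have n1 : w ≠ e.1 := by rintro rfl; exact he hw
        have n2 : w ≠ tip e := by rintro rfl; exact he' hw
        rw [Pi.add_apply, Pi.single_eq_of_ne n1, Pi.single_eq_of_ne n2, add_zero]
      · show dV u w = 0
        unfold dV
        rw [Pi.single_eq_of_ne]
        rintro rfl
        exact hR2g w hw (hD hsD)
    · rw [if_neg hw, hsum]
      refine sum_eq_zero fun s hs => ?_
      obtain ⟨hsD, e, rfl, he⟩ := mem_filter.mp hs
      have he' : tip e ∈ R2 := hR2c _ he _ ⟨e, hD hsD, Or.inl ⟨rfl, rfl⟩⟩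
      show dE e w = 0
      unfold dE
      have n1 : w ≠ e.1 := by rintro rfl; exact hw he
      have n2 : w ≠ tip e := by rintro rfl; exact hw he'
      rw [Pi.add_apply, Pi.single_eq_of_ne n1, Pi.single_eq_of_ne n2, add_zero]
  have hrest : ∃ R ⊆ t, bd (dS d) R = ∑ v ∈ ha.toFinset.filter (fun v => v ∉ R2), dV v := by
    have : ∀ F : Finset (Vtx d), (∀ v ∈ F, ∃ R ⊆ t, bd (dS d) R = dV v) →
        ∃ R ⊆ t, bd (dS d) R = ∑ v ∈ F, dV v := by
      intro F
      induction F using Finset.induction_on with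
      | empty => intro _; rw [sum_empty]; exact bd_sub_zero
      | insert v F hv ih =>
        intro h
        rw [sum_insert hv]
        exact bd_sub_add (h v (mem_insert_self v F)) (ih fun w hw => h w (mem_insert_of_mem hw))
    refine this _ fun v hv => ?_
    rw [mem_filter, Set.Finite.mem_toFinset, Function.mem_support] at hv
    have h1 : ∃ w, reach t v w ∧ Sum.inr w ∈ t := by
      by_contra h
      push Not at h
      exact hv.2 ⟨v, hv.1, Relation.ReflTransGen.refl, h⟩
    obtain ⟨w, hw, hwt⟩ := h1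
    have h3 : ∃ R ⊆ t, bd (dS d) R = dV w :=
      ⟨{Sum.inr w}, singleton_subset_iff.mpr hwt, by unfold bd; rw [sum_singleton]; rfl⟩
    have h4 := bd_sub_add (path_bd hw) h3
    rwa [add_assoc, gam_two, add_zero] at h4
  have h5 := bd_sub_add ⟨D2, hD2t, key⟩ hrest
  have e1 : (fun w => if w ∈ R2 then a w else 0) +
      ∑ v ∈ ha.toFinset.filter (fun v => v ∉ R2), dV v = a := by
    funext w
    rw [Pi.add_apply, Finset.sum_apply]
    by_cases hw : w ∈ R2
    · rw [if_pos hw]
      rw [sum_eq_zero, add_zero]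
      intro v hv
      rw [mem_filter] at hv
      unfold dV
      rw [Pi.single_eq_of_ne]
      rintro rfl
      exact hv.2 hw
    · rw [if_neg hw, zero_add]
      by_cases haw : a w = 0
      · rw [haw]
        refine sum_eq_zero fun v hv => ?_
        rw [mem_filter, Set.Finite.mem_toFinset, Function.mem_support] at hv
        unfold dV
        rw [Pi.single_eq_of_ne]
        rintro rfl
        exact hv.1 haw
      · rw [zmod_ne_zero haw, sum_eq_single w]
        · unfold dV; rw [Pi.single_eq_same]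
        · intro v _ hv
          unfold dV
          rw [Pi.single_eq_of_ne (Ne.symm hv)]
        · intro h
          exfalso
          apply h
          rw [mem_filter, Set.Finite.mem_toFinset, Function.mem_support]
          exact ⟨haw, hw⟩
  rwa [e1] at h5

/-! ### Size of a cluster -/

lemma rel_coord {t : Finset (Edg d ⊕ Vtx d)} {u w : Vtx d} (h : rel t u w) (i : Fin d) :
    |w i - u i| ≤ 1 := by
  obtain ⟨e, -, ⟨rfl, rfl⟩ | ⟨rfl, rfl⟩⟩ := h
  · unfold tip
    rw [Pi.add_apply, add_sub_cancel_left]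
    by_cases hi : i = e.2
    · rw [hi, Pi.single_eq_same]; simp
    · rw [Pi.single_eq_of_ne hi]; simp
  · unfold tip
    rw [Pi.add_apply, sub_add_cancel_left, abs_neg]
    by_cases hi : i = e.2
    · rw [hi, Pi.single_eq_same]; simp
    · rw [Pi.single_eq_of_ne hi]; simp

/-- discrete intermediate value theorem for coordinates -/
lemma reach_ivt {t : Finset (Edg d ⊕ Vtx d)} {u w : Vtx d} (h : reach t u w) (i : Fin d) :
    ∀ m : ℤ, (u i ≤ m ∧ m ≤ w i ∨ w i ≤ m ∧ m ≤ u i) → ∃ z, reach t u z ∧ z i = m := by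
  induction h with
  | refl => intro m hm; exact ⟨u, Relation.ReflTransGen.refl, by omega⟩
  | tail h1 hr ih =>
    rename_i v w
    intro m hm
    have h2 := rel_coord hr i
    rw [abs_le] at h2
    by_cases hmw : w i = m
    · exact ⟨w, h1.tail hr, hmw⟩
    · apply ih
      omega

open Classical in
/-- the ghost edges of the cluster of `v` in the box -/
noncomputable def ghs (n : ℕ) (v : Vtx d) (t : Finset (Edg d ⊕ Vtx d)) :
    Finset (Edg d ⊕ Vtx d) :=
  ((bx d n).filter (fun w => reach t v w)).map ⟨Sum.inr, Sum.inr_injective⟩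

lemma mem_ghs {n : ℕ} {v : Vtx d} {t : Finset (Edg d ⊕ Vtx d)} {s : Edg d ⊕ Vtx d} :
    s ∈ ghs n v t ↔ ∃ w ∈ bx d n, reach t v w ∧ s = Sum.inr w := by
  classical
  unfold ghs
  rw [mem_map]
  constructor
  · rintro ⟨w, hw, rfl⟩
    rw [mem_filter] at hw
    exact ⟨w, hw.1, hw.2, rfl⟩
  · rintro ⟨w, hw, hr, rfl⟩
    exact ⟨w, mem_filter.mpr ⟨hw, hr⟩, rfl⟩

lemma reach_box {n : ℕ} {t : Finset (Edg d ⊕ Vtx d)} (ht : t ⊆ TS d n) {u w : Vtx d}
    (hu : u ∈ bx d n) (h : reach t u w) : w ∈ bx d n := by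
  induction h with
  | refl => exact hu
  | tail _ hr _ =>
    obtain ⟨e, he, h⟩ := hr
    have := mem_bE.mp (inl_mem_TS.mp (ht he))
    rcases h with ⟨-, rfl⟩ | ⟨-, rfl⟩
    · exact this.2
    · exact this.1

lemma ghs_card {n : ℕ} {t : Finset (Edg d ⊕ Vtx d)} (ht : t ⊆ TS d n) {u w : Vtx d}
    (hu : u ∈ bx d n) (h : reach t u w) (i : Fin d) {k : ℕ} (hk : (k : ℤ) ≤ |w i - u i|) :
    k ≤ (ghs n u t).card := by
  classical
  have h1 : ∀ m : ℕ, m < k → ∃ z, reach t u z ∧ z i = (if u i ≤ w i then u i + m else u i - m) := by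
    intro m hm
    apply reach_ivt h i
    have hm' : (m : ℤ) < k := by exact_mod_cast hm
    split_ifs with hc
    · left
      rw [abs_of_nonneg (by omega)] at hk
      omega
    · right
      rw [abs_of_neg (by omega)] at hk
      omega
  choose! z hz using h1
  have h2 : ((range k).image fun m => (Sum.inr (z m) : Edg d ⊕ Vtx d)) ⊆ ghs n u t := by
    intro s hs
    rw [mem_image] at hs
    obtain ⟨m, hm, rfl⟩ := hs
    rw [mem_range] at hm
    exact mem_ghs.mpr ⟨z m, reach_box ht hu (hz m hm).1, (hz m hm).1, rfl⟩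
  refine le_trans (le_of_eq ?_) (card_le_card h2)
  rw [card_image_of_injOn, card_range]
  intro m hm m' hm' heq
  rw [mem_coe, mem_range] at hm hm'
  have e1 := (hz m hm).2
  have e2 := (hz m' hm').2
  have e3 : z m = z m' := Sum.inr_injective heq
  rw [e3, e2] at e1
  split_ifs at e1 <;> omega

lemma reach_union_ghost {t W : Finset (Edg d ⊕ Vtx d)} (hW : ∀ s ∈ W, ∃ v, s = Sum.inr v) :
    reach (t ∪ W) = reach t := by
  have : rel (t ∪ W) = rel t := by
    funext u w
    apply propext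
    unfold rel
    constructor
    · rintro ⟨e, he, h⟩
      rw [mem_union] at he
      rcases he with he | he
      · exact ⟨e, he, h⟩
      · obtain ⟨v, hv⟩ := hW _ he
        exact absurd hv (by simp)
    · rintro ⟨e, he, h⟩
      exact ⟨e, mem_union_left _ he, h⟩
  unfold reach
  rw [this]

/-- Exponential decay of truncated correlations in the presence of a positive field. -/
lemma trunc_decay {n : ℕ} {x y : ℝ} (hx : 0 ≤ x) (hx1 : x ≤ 1) (hy : 0 ≤ y) (hy1 : y < 1)
    {a b : Gam d} (ha : (Function.support a).Finite) (hab : ∀ v, a v ≠ 0 → v ∈ bx d n) {k : ℕ}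
    (hk : ∀ v w, a v ≠ 0 → b w ≠ 0 → ∃ i, (k : ℤ) ≤ |w i - v i|) :
    cor (dS d) (wS d x y) (TS d n) (a + b) -
      cor (dS d) (wS d x y) (TS d n) a * cor (dS d) (wS d x y) (TS d n) b ≤
      ha.toFinset.card * (1 - y ^ 2) ^ k := by
  classical
  have w0 := wS_nonneg (d := d) hx hy
  have w1 := wS_le_one (d := d) hx1 hy1.le
  have hy2 : 0 < 1 - y ^ 2 := by nlinarith
  have main : cor (dS d) (wS d x y) (TS d n) (a + b) -
      cor (dS d) (wS d x y) (TS d n) a * cor (dS d) (wS d x y) (TS d n) b ≤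
      (ha.toFinset.card * (1 - y ^ 2) ^ k) * cor (dS d) (wS d x y) (TS d n) (a + b) := by
    refine trunc_le gam_two w0 a b ?_
    intro S₁ hS₁ S₂ hS₂ hb1 hb2
    have hU := union_subset hS₁ hS₂
    have step : ∀ t ∈ (TS d n).powerset.filter (fun t => S₁ ∪ S₂ ⊆ t),
        omt (wS d x y) (TS d n) (S₁ ∪ S₂) t * (if ¬ ∃ S ⊆ t, bd (dS d) S = b then 1 else 0) ≤
        ∑ v ∈ ha.toFinset, omt (wS d x y) (TS d n) (S₁ ∪ S₂) t *
          (if v ∈ bx d n ∧ (∀ w, reach t v w → Sum.inr w ∉ t) ∧ (∃ w, reach t v w ∧ b w ≠ 0) ∧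
            a v ≠ 0 then 1 else 0) := by
      intro t ht
      rw [mem_filter, mem_powerset] at ht
      have hnn := omt_nonneg w0 w1 (T := TS d n) (S₁ ∪ S₂) t
      have hterm : ∀ v ∈ ha.toFinset, 0 ≤ omt (wS d x y) (TS d n) (S₁ ∪ S₂) t *
          (if v ∈ bx d n ∧ (∀ w, reach t v w → Sum.inr w ∉ t) ∧ (∃ w, reach t v w ∧ b w ≠ 0) ∧
            a v ≠ 0 then (1 : ℝ) else 0) := by
        intro v _
        split_ifs
        · rw [mul_one]; exact hnn
        · rw [mul_zero]
      by_cases hc : ∃ S ⊆ t, bd (dS d) S = b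
      · rw [if_neg (not_not.mpr hc), mul_zero]
        exact sum_nonneg hterm
      · obtain ⟨v, hv, hg, hw⟩ := exists_bad ha (subset_union_left.trans ht.2) hb1 hc
        have hv' : v ∈ ha.toFinset := by
          rw [Set.Finite.mem_toFinset, Function.mem_support]; exact hv
        rw [if_pos hc]
        refine le_trans (le_of_eq ?_) (single_le_sum hterm hv')
        rw [if_pos ⟨hab v hv, hg, hw, hv⟩]
    refine (sum_le_sum step).trans ?_
    rw [sum_comm]
    refine (sum_le_card_nsmul _ _ ((1 - y ^ 2) ^ k) ?_).trans (le_of_eq (nsmul_eq_mul _ _))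
    intro v hv
    refine closed_bound w0 w1 hU (ghs n v) _ hy hy1 ?_
    rintro t htT hUt ⟨hvb, hg, ⟨w, hw, hbw⟩, hav⟩
    refine ⟨?_, ?_, ?_, ?_, ?_⟩
    · intro s hs
      obtain ⟨w, hw, -, rfl⟩ := mem_ghs.mp hs
      exact inr_mem_TS.mpr hw
    · rw [disjoint_left]
      intro s hs hst
      obtain ⟨w, hw, hr, rfl⟩ := mem_ghs.mp hs
      exact hg w hr hst
    · obtain ⟨i, hi⟩ := hk v w hav hbw
      exact ghs_card htT hvb hw i hi
    · intro s hs
      obtain ⟨w, hw, hr, rfl⟩ := mem_ghs.mp hs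
      rfl
    · intro W hW
      have : reach (t ∪ W) = reach t := reach_union_ghost fun s hs => by
        obtain ⟨w, -, -, rfl⟩ := mem_ghs.mp (hW hs)
        exact ⟨w, rfl⟩
      unfold ghs
      rw [this]
  have h1 := cor_le_one (δ := dS d) (T := TS d n) gam_two w0 w1 (a + b)
  have h0 : 0 ≤ (ha.toFinset.card : ℝ) * (1 - y ^ 2) ^ k := by positivity
  nlinarith

end Pool.Agent.TH980
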