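import Pool.Agent.TH980.A3
import Pool.Agent.TH980.L1

/-!
# Infinite-volume correlations
-/

set_option autoImplicit false
set_option linter.unusedSectionVars false
set_option linter.unusedSimpArgs false

open Finset Filter Topology

namespace Pool.Agent.TH980

/-! ### Transport -/

lemma Z_map {ι ι' Γ Γ' : Type*} [DecidableEq ι] [AddCommGroup Γ] [DecidableEq Γ]
    [DecidableEq ι'] [AddCommGroup Γ'] [DecidableEq Γ'] {δ : ι → Γ} {x : ι → ℝ} {δ' : ι' → Γ'}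
    {x' : ι' → ℝ} (f : ι ≃ ι') (φ : Γ ≃+ Γ') (hδ : ∀ e, δ' (f e) = φ (δ e))
    (hx : ∀ e, x' (f e) = x e) (T : Finset ι) (a : Γ) :
    Z δ' x' (T.map f.toEmbedding) (φ a) = Z δ x T a := by
  unfold Z
  symm
  refine sum_bij' (fun S _ => S.map f.toEmbedding) (fun S _ => S.map f.symm.toEmbedding)
    ?_ ?_ ?_ ?_ ?_
  · intro S hS
    rw [mem_powerset] at hS ⊢
    exact map_subset_map.mpr hS
  · intro S hS
    rw [mem_powerset] at hS ⊢
    have := map_subset_map (f := f.symm.toEmbedding).mpr hS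
    rwa [Finset.map_map, ← Equiv.trans_toEmbedding, Equiv.self_trans_symm, Equiv.refl_toEmbedding,
      Finset.map_refl] at this
  · intro S _
    rw [Finset.map_map, ← Equiv.trans_toEmbedding, Equiv.self_trans_symm, Equiv.refl_toEmbedding,
      Finset.map_refl]
  · intro S _
    rw [Finset.map_map, ← Equiv.trans_toEmbedding, Equiv.symm_trans_self, Equiv.refl_toEmbedding,
      Finset.map_refl]
  · intro S _
    have h1 : bd δ' (S.map f.toEmbedding) = φ (bd δ S) := by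
      unfold bd
      rw [sum_map, map_sum]
      exact sum_congr rfl fun e _ => hδ e
    have h2 : ∏ e ∈ S.map f.toEmbedding, x' e = ∏ e ∈ S, x e := by
      rw [prod_map]
      exact prod_congr rfl fun e _ => hx e
    rw [h1, h2]
    by_cases h : bd δ S = a
    · rw [if_pos h, if_pos (by rw [h])]
    · rw [if_neg h, if_neg (fun h' => h (φ.injective h'))]

variable {d : ℕ}

/-- translation of functions on the vertices -/
def sh (v : Vtx d) : Gam d ≃+ Gam d where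
  toFun a := fun w => a (w - v)
  invFun a := fun w => a (w + v)
  left_inv a := by funext w; simp
  right_inv a := by funext w; simp
  map_add' a b := rfl

lemma sh_apply (v : Vtx d) (a : Gam d) (w : Vtx d) : sh v a w = a (w - v) := rfl

/-- translation of edges -/
def shE (v : Vtx d) : Edg d ≃ Edg d where
  toFun e := (e.1 + v, e.2)
  invFun e := (e.1 - v, e.2)
  left_inv e := by simp
  right_inv e := by simp

/-- translation of lattice and ghost edges -/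
def shS (v : Vtx d) : Edg d ⊕ Vtx d ≃ Edg d ⊕ Vtx d := Equiv.sumCongr (shE v) (Equiv.addRight v)

lemma sh_single (v w : Vtx d) : sh v (dV w) = dV (w + v) := by
  funext u
  rw [sh_apply]
  unfold dV
  by_cases h : u = w + v
  · rw [h, Pi.single_eq_same]; simp
  · rw [Pi.single_eq_of_ne h, Pi.single_eq_of_ne]
    intro h'
    apply h
    rw [← h']; simp

lemma tip_shE (v : Vtx d) (e : Edg d) : tip (shE v e) = tip e + v := by
  unfold tip shE
  simp only [Equiv.coe_fn_mk]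
  abel

lemma dE_eq (e : Edg d) : dE e = dV e.1 + dV (tip e) := rfl

lemma dE_shE (v : Vtx d) (e : Edg d) : dE (shE v e) = sh v (dE e) := by
  rw [dE_eq, dE_eq, tip_shE, map_add, sh_single, sh_single]
  rfl

lemma dS_shS (v : Vtx d) (s : Edg d ⊕ Vtx d) : dS d (shS v s) = sh v (dS d s) := by
  rcases s with e | w
  · exact dE_shE v e
  · exact (sh_single v w).symm

lemma wS_shS (v : Vtx d) (x y : ℝ) (s : Edg d ⊕ Vtx d) : wS d x y (shS v s) = wS d x y s := by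
  rcases s with e | w <;> rfl

/-- the size of a vertex -/
def nm (v : Vtx d) : ℕ := ∑ i, (v i).natAbs

lemma abs_le_nm (v : Vtx d) (i : Fin d) : |v i| ≤ (nm v : ℤ) := by
  unfold nm
  rw [Int.abs_eq_natAbs]
  exact_mod_cast single_le_sum (f := fun i => (v i).natAbs) (fun _ _ => Nat.zero_le _) (mem_univ i)

lemma mem_bx_nm (v : Vtx d) : v ∈ bx d (nm v) := mem_bx.mpr (abs_le_nm v)

lemma bx_add {n : ℕ} {u v : Vtx d} (h : u ∈ bx d n) : u + v ∈ bx d (n + nm v) := by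
  rw [mem_bx] at h ⊢
  intro i
  rw [Pi.add_apply]
  have h1 := h i
  have h2 := abs_le_nm v i
  have h3 := abs_add_le (u i) (v i)
  push_cast
  linarith

lemma bx_add' {n m : ℕ} {u v : Vtx d} (h : u ∈ bx d n) (h' : v ∈ bx d m) :
    u + v ∈ bx d (n + m) := by
  rw [mem_bx] at h h' ⊢
  intro i
  rw [Pi.add_apply]
  have h1 := h i
  have h2 := h' i
  have h3 := abs_add_le (u i) (v i)
  push_cast
  linarith

lemma bx_neg {n : ℕ} {u : Vtx d} (h : u ∈ bx d n) : -u ∈ bx d n := by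
  rw [mem_bx] at h ⊢
  intro i
  rw [Pi.neg_apply, abs_neg]
  exact h i

lemma TS_shift (n : ℕ) (v : Vtx d) :
    (TS d n).map (shS v).toEmbedding ⊆ TS d (n + nm v) := by
  intro s hs
  rw [Finset.mem_map] at hs
  obtain ⟨s, hs, rfl⟩ := hs
  rcases s with e | w
  · have := mem_bE.mp (inl_mem_TS.mp hs)
    show Sum.inl (shE v e) ∈ _
    rw [inl_mem_TS, mem_bE, tip_shE]
    exact ⟨bx_add this.1, bx_add this.2⟩
  · have := inr_mem_TS.mp hs
    show Sum.inr (w + v) ∈ _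
    rw [inr_mem_TS]
    exact bx_add this

/-! ### Limits -/

/-- finite-volume correlations -/
noncomputable def cn (d n : ℕ) (x y : ℝ) (a : Gam d) : ℝ := cor (dS d) (wS d x y) (TS d n) a

/-- infinite-volume correlations -/
noncomputable def ci (d : ℕ) (x y : ℝ) (a : Gam d) : ℝ := ⨆ n, cn d n x y a

/-- infinite-volume correlations in a vanishing field -/
noncomputable def cp (d : ℕ) (x : ℝ) (a : Gam d) : ℝ := ⨅ k : ℕ, ci d x (1 / (k + 2)) a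

section bounds

variable {x y : ℝ}

lemma cn_nonneg (hx : 0 ≤ x) (hy : 0 ≤ y) (n : ℕ) (a : Gam d) : 0 ≤ cn d n x y a :=
  cor_nonneg (wS_nonneg hx hy) a

lemma cn_le_one (hx : 0 ≤ x) (hx1 : x ≤ 1) (hy : 0 ≤ y) (hy1 : y ≤ 1) (n : ℕ) (a : Gam d) :
    cn d n x y a ≤ 1 := cor_le_one gam_two (wS_nonneg hx hy) (wS_le_one hx1 hy1) a

lemma cn_zero (hx : 0 ≤ x) (hy : 0 ≤ y) (n : ℕ) : cn d n x y 0 = 1 := cor_zero (wS_nonneg hx hy)

lemma cn_mono (hx : 0 ≤ x) (hx1 : x ≤ 1) (hy : 0 ≤ y) (hy1 : y ≤ 1) (a : Gam d) :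
    Monotone fun n => cn d n x y a := fun _ _ h =>
  cor_mono gam_two (wS_nonneg hx hy) (wS_le_one hx1 hy1) a (TS_mono h)

lemma cn_bdd (hx : 0 ≤ x) (hx1 : x ≤ 1) (hy : 0 ≤ y) (hy1 : y ≤ 1) (a : Gam d) :
    BddAbove (Set.range fun n => cn d n x y a) :=
  ⟨1, by rintro _ ⟨n, rfl⟩; exact cn_le_one hx hx1 hy hy1 n a⟩

lemma tendsto_cn (hx : 0 ≤ x) (hx1 : x ≤ 1) (hy : 0 ≤ y) (hy1 : y ≤ 1) (a : Gam d) :
    Tendsto (fun n => cn d n x y a) atTop (𝓝 (ci d x y a)) :=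
  tendsto_atTop_ciSup (cn_mono hx hx1 hy hy1 a) (cn_bdd hx hx1 hy hy1 a)

lemma cn_le_ci (hx : 0 ≤ x) (hx1 : x ≤ 1) (hy : 0 ≤ y) (hy1 : y ≤ 1) (n : ℕ) (a : Gam d) :
    cn d n x y a ≤ ci d x y a := le_ciSup (cn_bdd hx hx1 hy hy1 a) n

lemma ci_nonneg (hx : 0 ≤ x) (hx1 : x ≤ 1) (hy : 0 ≤ y) (hy1 : y ≤ 1) (a : Gam d) :
    0 ≤ ci d x y a := (cn_nonneg hx hy 0 a).trans (cn_le_ci hx hx1 hy hy1 0 a)

lemma ci_le_one (hx : 0 ≤ x) (hx1 : x ≤ 1) (hy : 0 ≤ y) (hy1 : y ≤ 1) (a : Gam d) :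
    ci d x y a ≤ 1 := ciSup_le fun n => cn_le_one hx hx1 hy hy1 n a

lemma ci_zero (hx : 0 ≤ x) (hx1 : x ≤ 1) (hy : 0 ≤ y) (hy1 : y ≤ 1) : ci d x y 0 = 1 :=
  tendsto_nhds_unique (tendsto_cn hx hx1 hy hy1 0)
    (by simp only [cn_zero hx hy]; exact tendsto_const_nhds)

lemma ci_gks (hx : 0 ≤ x) (hx1 : x ≤ 1) (hy : 0 ≤ y) (hy1 : y ≤ 1) (a b : Gam d) :
    ci d x y a * ci d x y b ≤ ci d x y (a + b) :=
  le_of_tendsto_of_tendsto' ((tendsto_cn hx hx1 hy hy1 a).mul (tendsto_cn hx hx1 hy hy1 b))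
    (tendsto_cn hx hx1 hy hy1 (a + b))
    (fun _ => cor_gks gam_two (wS_nonneg hx hy) (wS_le_one hx1 hy1) a b)

lemma ci_PD (hx : 0 ≤ x) (hx1 : x ≤ 1) (hy : 0 ≤ y) (hy1 : y ≤ 1) : PD (ci d x y) :=
  PD_lim (fun n => PD_cor gam_two (wS_nonneg hx hy) (wS_le_one hx1 hy1) (TS d n))
    (tendsto_cn hx hx1 hy hy1)

lemma wS_mono {y' : ℝ} (h : y ≤ y') (s : Edg d ⊕ Vtx d) : wS d x y s ≤ wS d x y' s := by
  rcases s with e | v
  · exact le_rfl
  · exact h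

lemma cn_mono_y {y' : ℝ} (hx : 0 ≤ x) (hx1 : x ≤ 1) (hy : 0 ≤ y) (h : y ≤ y') (hy1 : y' ≤ 1)
    (n : ℕ) (a : Gam d) : cn d n x y a ≤ cn d n x y' a :=
  cor_mono_weight gam_two (wS_nonneg hx hy) (wS_mono h) (wS_le_one hx1 hy1) a _

lemma ci_mono_y {y' : ℝ} (hx : 0 ≤ x) (hx1 : x ≤ 1) (hy : 0 ≤ y) (h : y ≤ y') (hy1 : y' ≤ 1)
    (a : Gam d) : ci d x y a ≤ ci d x y' a :=
  ciSup_le fun n => (cn_mono_y hx hx1 hy h hy1 n a).trans
    (cn_le_ci hx hx1 (hy.trans h) hy1 n a)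

lemma ci_sh_le (hx : 0 ≤ x) (hx1 : x ≤ 1) (hy : 0 ≤ y) (hy1 : y ≤ 1) (a : Gam d) (v : Vtx d) :
    ci d x y a ≤ ci d x y (sh v a) := by
  refine ciSup_le fun n => ?_
  have h1 : cn d n x y a = cor (dS d) (wS d x y) ((TS d n).map (shS v).toEmbedding) (sh v a) := by
    unfold cn cor
    rw [← Z_map (δ' := dS d) (x' := wS d x y) (shS v) (sh v) (dS_shS v) (wS_shS v x y) (TS d n) a,
      ← Z_map (δ' := dS d) (x' := wS d x y) (shS v) (sh v) (dS_shS v) (wS_shS v x y) (TS d n) 0,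
      map_zero]
  rw [h1]
  exact (cor_mono gam_two (wS_nonneg hx hy) (wS_le_one hx1 hy1) _ (TS_shift n v)).trans
    (cn_le_ci hx hx1 hy hy1 _ _)

lemma sh_sh (u v : Vtx d) (a : Gam d) : sh u (sh v a) = sh (u + v) a := by
  funext w
  rw [sh_apply, sh_apply, sh_apply, sub_sub]

lemma sh_zero (a : Gam d) : sh (0 : Vtx d) a = a := by
  funext w
  rw [sh_apply, sub_zero]

lemma ci_sh (hx : 0 ≤ x) (hx1 : x ≤ 1) (hy : 0 ≤ y) (hy1 : y ≤ 1) (v : Vtx d) (a : Gam d) :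
    ci d x y (sh v a) = ci d x y a := by
  refine le_antisymm ?_ (ci_sh_le hx hx1 hy hy1 a v)
  have := ci_sh_le hx hx1 hy hy1 (sh v a) (-v)
  rwa [sh_sh, neg_add_cancel, sh_zero] at this

lemma yk_pos (k : ℕ) : (0 : ℝ) < 1 / ((k : ℝ) + 2) := by positivity

lemma yk_lt (k : ℕ) : 1 / ((k : ℝ) + 2) < 1 := by
  rw [div_lt_one (by positivity)]
  have : (0 : ℝ) ≤ k := Nat.cast_nonneg k
  linarith

lemma yk_anti {k l : ℕ} (h : k ≤ l) : 1 / ((l : ℝ) + 2) ≤ 1 / ((k : ℝ) + 2) := by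
  apply one_div_le_one_div_of_le (by positivity)
  have : (k : ℝ) ≤ l := by exact_mod_cast h
  linarith

lemma cp_bdd (hx : 0 ≤ x) (hx1 : x ≤ 1) (a : Gam d) :
    BddBelow (Set.range fun k : ℕ => ci d x (1 / (k + 2)) a) :=
  ⟨0, by rintro _ ⟨k, rfl⟩; exact ci_nonneg hx hx1 (yk_pos k).le (yk_lt k).le a⟩

lemma tendsto_cp (hx : 0 ≤ x) (hx1 : x ≤ 1) (a : Gam d) :
    Tendsto (fun k : ℕ => ci d x (1 / (k + 2)) a) atTop (𝓝 (cp d x a)) :=
  tendsto_atTop_ciInf (fun k l h => ci_mono_y hx hx1 (yk_pos l).le (yk_anti h) (yk_lt k).le a)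
    (cp_bdd hx hx1 a)

lemma cp_le_ci (hx : 0 ≤ x) (hx1 : x ≤ 1) (hy : 0 < y) (hy1 : y ≤ 1) (a : Gam d) :
    cp d x a ≤ ci d x y a := by
  obtain ⟨k, hk⟩ := exists_nat_gt (1 / y)
  have h1 : 1 / ((k : ℝ) + 2) ≤ y := by
    rw [div_le_iff₀ (by positivity)]
    rw [div_lt_iff₀ hy] at hk
    nlinarith
  exact (ciInf_le (cp_bdd hx hx1 a) k).trans (ci_mono_y hx hx1 (yk_pos k).le h1 hy1 a)

lemma tendsto_cp_nhds (hx : 0 ≤ x) (hx1 : x ≤ 1) (a : Gam d) :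
    Tendsto (fun y : ℝ => ci d x y a) (𝓝[>] 0) (𝓝 (cp d x a)) := by
  rw [tendsto_order]
  constructor
  · intro b hb
    have h1 : ∀ᶠ y : ℝ in 𝓝[>] 0, y ∈ Set.Ioo (0 : ℝ) 1 := Ioo_mem_nhdsGT one_pos
    filter_upwards [h1] with y hy
    exact hb.trans_le (cp_le_ci hx hx1 hy.1 hy.2.le a)
  · intro b hb
    have h1 := (tendsto_order.mp (tendsto_cp hx hx1 a)).2 b hb
    obtain ⟨k, hk⟩ := h1.exists
    have h2 : ∀ᶠ y : ℝ in 𝓝[>] 0, y ∈ Set.Ioo (0 : ℝ) (1 / ((k : ℝ) + 2)) :=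
      Ioo_mem_nhdsGT (yk_pos k)
    filter_upwards [h2] with y hy
    exact (ci_mono_y hx hx1 hy.1.le hy.2.le (yk_lt k).le a).trans_lt hk

lemma cp_nonneg (hx : 0 ≤ x) (hx1 : x ≤ 1) (a : Gam d) : 0 ≤ cp d x a :=
  ge_of_tendsto' (tendsto_cp hx hx1 a) fun k => ci_nonneg hx hx1 (yk_pos k).le (yk_lt k).le a

lemma cp_le_one (hx : 0 ≤ x) (hx1 : x ≤ 1) (a : Gam d) : cp d x a ≤ 1 :=
  le_of_tendsto' (tendsto_cp hx hx1 a) fun k => ci_le_one hx hx1 (yk_pos k).le (yk_lt k).le a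

lemma cp_zero (hx : 0 ≤ x) (hx1 : x ≤ 1) : cp d x 0 = 1 :=
  tendsto_nhds_unique (tendsto_cp hx hx1 0) (by
    have : (fun k : ℕ => ci d x (1 / (k + 2)) 0) = fun _ => 1 := by
      funext k; exact ci_zero hx hx1 (yk_pos k).le (yk_lt k).le
    rw [this]; exact tendsto_const_nhds)

lemma cp_gks (hx : 0 ≤ x) (hx1 : x ≤ 1) (a b : Gam d) :
    cp d x a * cp d x b ≤ cp d x (a + b) :=
  le_of_tendsto_of_tendsto' ((tendsto_cp hx hx1 a).mul (tendsto_cp hx hx1 b))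
    (tendsto_cp hx hx1 (a + b))
    (fun k => ci_gks hx hx1 (yk_pos k).le (yk_lt k).le a b)

lemma cp_PD (hx : 0 ≤ x) (hx1 : x ≤ 1) : PD (cp d x) :=
  PD_lim (fun k => ci_PD hx hx1 (yk_pos k).le (yk_lt k).le) (tendsto_cp hx hx1)

lemma cp_sh (hx : 0 ≤ x) (hx1 : x ≤ 1) (v : Vtx d) (a : Gam d) :
    cp d x (sh v a) = cp d x a :=
  tendsto_nhds_unique (tendsto_cp hx hx1 (sh v a)) (by
    have : (fun k : ℕ => ci d x (1 / (k + 2)) (sh v a)) = fun k : ℕ => ci d x (1 / (k + 2)) a := by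
      funext k; exact ci_sh hx hx1 (yk_pos k).le (yk_lt k).le v a
    rw [this]; exact tendsto_cp hx hx1 a)

end bounds

end Pool.Agent.TH980
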