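import Pool.Agent.TH980.L2

/-!
# Mixing of correlations
-/

set_option autoImplicit false
set_option linter.unusedSectionVars false
set_option linter.unusedSimpArgs false

open Finset Filter Topology

namespace Pool.Agent.TH980

variable {d : ℕ}

/-- translated sets of edges -/
def tE (v : Vtx d) (J : Finset (Edg d)) : Finset (Edg d) := J.map (shE v).toEmbedding

lemma mem_tE {v : Vtx d} {J : Finset (Edg d)} {e : Edg d} :
    e ∈ tE v J ↔ (e.1 - v, e.2) ∈ J := by
  unfold tE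
  rw [Finset.mem_map_equiv]
  rfl

lemma bd_tE (v : Vtx d) (J : Finset (Edg d)) : bd dE (tE v J) = sh v (bd dE J) := by
  unfold bd tE
  rw [sum_map, map_sum]
  exact sum_congr rfl fun e _ => dE_shE v e

lemma ev_disjoint (A B : Finset (Edg d)) : ∀ᶠ v : Vtx d in cofinite, Disjoint A (tE v B) := by
  rw [eventually_cofinite]
  refine ((A ×ˢ B).image (fun p => p.1.1 - p.2.1)).finite_toSet.subset ?_
  intro v hv
  rw [Set.mem_ofPred_eq, Finset.disjoint_left] at hv
  push Not at hv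
  obtain ⟨e, he, he'⟩ := hv
  rw [mem_tE] at he'
  rw [mem_coe, Finset.mem_image]
  exact ⟨(e, (e.1 - v, e.2)), mem_product.mpr ⟨he, he'⟩, by simp⟩

lemma sum_powerset_map {α β : Type*} [DecidableEq α] [DecidableEq β] (f : α ↪ β) (T : Finset α)
    (g : Finset β → ℝ) :
    ∑ S ∈ (T.map f).powerset, g S = ∑ S ∈ T.powerset, g (S.map f) := by
  have h : (T.map f).powerset = T.powerset.image (fun S => S.map f) := by
    ext S
    rw [mem_powerset, Finset.mem_image, subset_map_iff]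
    constructor
    · rintro ⟨u, hu, rfl⟩; exact ⟨u, mem_powerset.mpr hu, rfl⟩
    · rintro ⟨u, hu, rfl⟩; exact ⟨u, mem_powerset.mp hu, rfl⟩
  rw [h, sum_image]
  intro S _ S' _ hS
  exact Finset.map_injective f hS

/-! ### The state in a vanishing field -/

lemma ev_far {a b : Gam d} (ha : (Function.support a).Finite) (hb : (Function.support b).Finite)
    (k : ℕ) : ∀ᶠ v : Vtx d in cofinite,
      ∀ u w, a u ≠ 0 → sh v b w ≠ 0 → ∃ i, (k : ℤ) ≤ |w i - u i| := by
  rw [eventually_cofinite]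
  refine ((ha.toFinset ×ˢ hb.toFinset ×ˢ bx d k).image
    (fun p => p.1 - p.2.1 + p.2.2)).finite_toSet.subset ?_
  intro v hv
  rw [Set.mem_ofPred_eq] at hv
  push Not at hv
  obtain ⟨u, w, hu, hw, h⟩ := hv
  rw [sh_apply] at hw
  rw [mem_coe, Finset.mem_image]
  refine ⟨(u, w - v, w - u), ?_, by simp⟩
  rw [mem_product, mem_product, Set.Finite.mem_toFinset, Set.Finite.mem_toFinset, mem_bx]
  exact ⟨hu, hw, fun i => (h i).le⟩

lemma support_subset_bx {a : Gam d} (ha : (Function.support a).Finite) :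
    ∃ n, ∀ v, a v ≠ 0 → v ∈ bx d n := by
  refine ⟨ha.toFinset.sup nm, fun v hv => ?_⟩
  have : nm v ≤ ha.toFinset.sup nm :=
    Finset.le_sup (f := nm) ((Set.Finite.mem_toFinset ha).mpr hv)
  exact bx_mono this (mem_bx_nm v)

lemma ci_trunc {x y : ℝ} (hx : 0 ≤ x) (hx1 : x ≤ 1) (hy : 0 ≤ y) (hy1 : y < 1)
    {a b : Gam d} (ha : (Function.support a).Finite) {k : ℕ}
    (hk : ∀ v w, a v ≠ 0 → b w ≠ 0 → ∃ i, (k : ℤ) ≤ |w i - v i|) :
    ci d x y (a + b) - ci d x y a * ci d x y b ≤ ha.toFinset.card * (1 - y ^ 2) ^ k := by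
  obtain ⟨n0, hn0⟩ := support_subset_bx ha
  have h1 : Tendsto (fun n => cn d n x y (a + b) - cn d n x y a * cn d n x y b) atTop
      (𝓝 (ci d x y (a + b) - ci d x y a * ci d x y b)) :=
    (tendsto_cn hx hx1 hy hy1.le (a + b)).sub
      ((tendsto_cn hx hx1 hy hy1.le a).mul (tendsto_cn hx hx1 hy hy1.le b))
  refine le_of_tendsto h1 ?_
  filter_upwards [eventually_ge_atTop n0] with n hn
  exact trunc_decay hx hx1 hy hy1 ha (fun v hv => bx_mono hn (hn0 v hv)) hk

/-- Mixing of the correlations of the state in a vanishing field. -/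
lemma cp_mixing {x : ℝ} (hx : 0 ≤ x) (hx1 : x ≤ 1) {a b : Gam d}
    (ha : (Function.support a).Finite) (hb : (Function.support b).Finite) :
    Tendsto (fun v : Vtx d => cp d x (a + sh v b)) cofinite (𝓝 (cp d x a * cp d x b)) := by
  rw [tendsto_order]
  constructor
  · intro c hc
    refine Eventually.of_forall fun v => hc.trans_le ?_
    rw [← cp_sh hx hx1 v b]
    exact cp_gks hx hx1 a (sh v b)
  · intro c hc
    have h1 := (tendsto_cp_nhds hx hx1 a).mul (tendsto_cp_nhds hx hx1 b)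
    have h2 := (tendsto_order.mp h1).2 c hc
    have h3 : ∀ᶠ y : ℝ in 𝓝[>] 0, y ∈ Set.Ioo (0 : ℝ) 1 := Ioo_mem_nhdsGT one_pos
    obtain ⟨y, hy, hy01⟩ := (h2.and h3).exists
    have hy2 : 0 ≤ 1 - y ^ 2 := by nlinarith [hy01.1, hy01.2]
    have hy3 : 1 - y ^ 2 < 1 := by nlinarith [hy01.1, hy01.2]
    have h4 : Tendsto (fun k : ℕ => (ha.toFinset.card : ℝ) * (1 - y ^ 2) ^ k) atTop (𝓝 0) := by
      have := (tendsto_pow_atTop_nhds_zero_of_lt_one hy2 hy3).const_mul (ha.toFinset.card : ℝ)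
      rwa [mul_zero] at this
    have h5 : 0 < c - ci d x y a * ci d x y b := by linarith
    obtain ⟨k, hk⟩ := ((tendsto_order.mp h4).2 _ h5).exists
    filter_upwards [ev_far ha hb k] with v hv
    have h6 := ci_trunc hx hx1 hy01.1.le hy01.2 ha hv
    rw [ci_sh hx hx1 hy01.1.le hy01.2.le] at h6
    have h7 := cp_le_ci (d := d) hx hx1 hy01.1 hy01.2.le (a + sh v b)
    linarith

/-! ### The free state -/

/-- lattice edges among all edges -/
def lf (J : Finset (Edg d)) : Finset (Edg d ⊕ Vtx d) := J.map Function.Embedding.inl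

lemma bd_lf (J : Finset (Edg d)) : bd (dS d) (lf J) = bd dE J := by
  unfold bd lf
  rw [sum_map]
  rfl

lemma mem_lf {J : Finset (Edg d)} {s : Edg d ⊕ Vtx d} : s ∈ lf J ↔ ∃ e ∈ J, Sum.inl e = s := by
  unfold lf
  rw [Finset.mem_map]
  rfl

lemma lf_subset_TS {J : Finset (Edg d)} {n : ℕ} (h : J ⊆ bE d n) : lf J ⊆ TS d n := by
  intro s hs
  obtain ⟨e, he, rfl⟩ := mem_lf.mp hs
  exact inl_mem_TS.mpr (h he)

lemma lf_union (J J' : Finset (Edg d)) : lf (J ∪ J') = lf J ∪ lf J' := by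
  unfold lf; rw [map_union]

lemma lf_disj {J J' : Finset (Edg d)} (h : Disjoint J J') : Disjoint (lf J) (lf J') := by
  unfold lf; rwa [Finset.disjoint_map]

lemma exists_bE (J : Finset (Edg d)) : ∃ n, J ⊆ bE d n := by
  refine ⟨J.sup (fun e => nm e.1 + nm (tip e)), fun e he => ?_⟩
  have h : nm e.1 + nm (tip e) ≤ J.sup (fun e => nm e.1 + nm (tip e)) :=
    Finset.le_sup (f := fun e => nm e.1 + nm (tip e)) he
  rw [mem_bE]
  exact ⟨bx_mono ((Nat.le_add_right _ _).trans h) (mem_bx_nm _),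
    bx_mono ((Nat.le_add_left _ _).trans h) (mem_bx_nm _)⟩

/-- finite-volume probability that all edges of `F` are empty -/
noncomputable def ps (d : ℕ) (x : ℝ) (n : ℕ) (F : Finset (Edg d)) : ℝ :=
  Z (dS d) (wS d x 0) (TS d n \ lf F) 0 / Z (dS d) (wS d x 0) (TS d n) 0

/-- infinite-volume probability that all edges of `F` are empty -/
noncomputable def pl (d : ℕ) (x : ℝ) (F : Finset (Edg d)) : ℝ :=
  ∑ J ∈ F.powerset, (gm x false) ^ J.card * (al x false) ^ (F.card - J.card) * ci d x 0 (bd dE J)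

section free

variable {x : ℝ}

lemma lf_sdiff (J J' : Finset (Edg d)) : lf J \ lf J' = lf (J \ J') := by
  ext s
  rw [Finset.mem_sdiff, mem_lf, mem_lf, mem_lf]
  constructor
  · rintro ⟨⟨e, he, rfl⟩, h⟩
    exact ⟨e, Finset.mem_sdiff.mpr ⟨he, fun h' => h ⟨e, h', rfl⟩⟩, rfl⟩
  · rintro ⟨e, he, rfl⟩
    refine ⟨⟨e, (Finset.mem_sdiff.mp he).1, rfl⟩, ?_⟩
    rintro ⟨e', he', h'⟩
    rw [Sum.inl_injective h'] at he'
    exact (Finset.mem_sdiff.mp he).2 he'

lemma prod_lf (J : Finset (Edg d)) (f : ℝ → ℝ) (y : ℝ) :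
    ∏ s ∈ lf J, f (wS d x y s) = f x ^ J.card := by
  unfold lf
  rw [prod_map]
  rw [← prod_const]
  rfl

lemma ps_eq (hx : 0 < x) (hx1 : x < 1) {n : ℕ} {F : Finset (Edg d)} (hF : F ⊆ bE d n) :
    ps d x n F = ∑ J ∈ F.powerset, (gm x false) ^ J.card * (al x false) ^ (F.card - J.card) *
      cn d n x 0 (bd dE J) := by
  unfold ps
  have w1 : ∀ s ∈ lf F, wS d x 0 s ≠ 0 := by
    intro s hs
    obtain ⟨e, he, rfl⟩ := mem_lf.mp hs
    exact hx.ne'
  have w2 : ∀ s ∈ lf F, 1 - wS d x 0 s ^ 2 ≠ 0 := by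
    intro s hs
    obtain ⟨e, he, rfl⟩ := mem_lf.mp hs
    show 1 - x ^ 2 ≠ 0
    nlinarith
  rw [empty_prob gam_two w1 w2 (lf_subset_TS hF), sum_div]
  conv_lhs => unfold lf
  rw [sum_powerset_map Function.Embedding.inl F (fun J => ((∏ e ∈ J, gm (wS d x 0 e) false) *
    (∏ e ∈ (Finset.map Function.Embedding.inl F) \ J, al (wS d x 0 e) false) *
      Z (dS d) (wS d x 0) (TS d n) (bd (dS d) J)) / Z (dS d) (wS d x 0) (TS d n) 0)]
  refine sum_congr rfl fun J hJ => ?_
  rw [mem_powerset] at hJ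
  change ((∏ e ∈ lf J, gm (wS d x 0 e) false) * (∏ e ∈ lf F \ lf J, al (wS d x 0 e) false) *
      Z (dS d) (wS d x 0) (TS d n) (bd (dS d) (lf J))) / Z (dS d) (wS d x 0) (TS d n) 0 = _
  rw [lf_sdiff, bd_lf, prod_lf J (fun z => gm z false), prod_lf (F \ J) (fun z => al z false),
    card_sdiff_of_subset hJ, mul_div_assoc]
  rfl

lemma tendsto_ps (hx : 0 < x) (hx1 : x < 1) (F : Finset (Edg d)) :
    Tendsto (fun n => ps d x n F) atTop (𝓝 (pl d x F)) := by
  obtain ⟨n0, hn0⟩ := exists_bE F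
  have h1 : Tendsto (fun n => ∑ J ∈ F.powerset, (gm x false) ^ J.card *
      (al x false) ^ (F.card - J.card) * cn d n x 0 (bd dE J)) atTop (𝓝 (pl d x F)) := by
    unfold pl
    refine tendsto_finsetSum _ fun J _ => ?_
    exact (tendsto_cn hx.le hx1.le le_rfl zero_le_one _).const_mul _
  refine h1.congr' ?_
  filter_upwards [eventually_ge_atTop n0] with n hn
  exact (ps_eq hx hx1 (hn0.trans (bE_mono hn))).symm

lemma pl_tE (hx : 0 < x) (hx1 : x < 1) (v : Vtx d) (F : Finset (Edg d)) :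
    pl d x (tE v F) = pl d x F := by
  unfold pl
  conv_lhs => unfold tE
  rw [sum_powerset_map (shE v).toEmbedding F (fun J => (gm x false) ^ J.card *
      (al x false) ^ ((Finset.map (shE v).toEmbedding F).card - J.card) * ci d x 0 (bd dE J))]
  refine sum_congr rfl fun J _ => ?_
  rw [card_map, card_map]
  change _ * ci d x 0 (bd dE (tE v J)) = _
  rw [bd_tE, ci_sh hx.le hx1.le le_rfl zero_le_one]

lemma ps_nonneg (hx : 0 ≤ x) (n : ℕ) (F : Finset (Edg d)) : 0 ≤ ps d x n F :=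
  div_nonneg (Z_nonneg (wS_nonneg hx le_rfl) 0) (Z_nonneg (wS_nonneg hx le_rfl) 0)

lemma pl_nonneg (hx : 0 < x) (hx1 : x < 1) (F : Finset (Edg d)) : 0 ≤ pl d x F :=
  ge_of_tendsto' (tendsto_ps hx hx1 F) fun n => ps_nonneg hx.le n F

lemma ps_union (n : ℕ) (F F' : Finset (Edg d)) (hx : 0 ≤ x) :
    ps d x n (F ∪ F') = Z (dS d) (wS d x 0) ((TS d n \ lf F') \ lf F) 0 /
      Z (dS d) (wS d x 0) (TS d n \ lf F') 0 * ps d x n F' := by
  unfold ps
  have := (Z_pos (δ := dS d) (T := TS d n \ lf F') (wS_nonneg hx le_rfl)).ne'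
  rw [div_mul_div_cancel₀ this]
  congr 2
  rw [lf_union]
  ext s
  simp only [Finset.mem_union, Finset.mem_sdiff]
  tauto

lemma ps_lower (hx : 0 ≤ x) (hx1 : x ≤ 1) {n : ℕ} {F F' : Finset (Edg d)} (hF : F ⊆ bE d n)
    (hd : Disjoint F F') : ps d x n F * ps d x n F' ≤ ps d x n (F ∪ F') := by
  rw [ps_union n F F' hx]
  refine mul_le_mul_of_nonneg_right ?_ (ps_nonneg hx n F')
  refine ratio_mono gam_two (wS_nonneg hx le_rfl) (wS_le_one hx1 zero_le_one) sdiff_subset _ ?_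
  intro s hs
  rw [Finset.mem_sdiff]
  exact ⟨lf_subset_TS hF hs, disjoint_left.mp (lf_disj hd) hs⟩

lemma ps_upper (hx : 0 ≤ x) (hx1 : x ≤ 1) {n m : ℕ} (hmn : m ≤ n) {F F' : Finset (Edg d)}
    (hF : F ⊆ bE d m) (hd : Disjoint (bE d m) F') :
    ps d x n (F ∪ F') ≤ ps d x m F * ps d x n F' := by
  rw [ps_union n F F' hx]
  refine mul_le_mul_of_nonneg_right ?_ (ps_nonneg hx n F')
  refine ratio_mono gam_two (wS_nonneg hx le_rfl) (wS_le_one hx1 zero_le_one) ?_ _
    (lf_subset_TS hF)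
  intro s hs
  rw [Finset.mem_sdiff]
  refine ⟨TS_mono hmn hs, fun h => ?_⟩
  obtain ⟨e, he, rfl⟩ := mem_lf.mp h
  exact disjoint_left.mp hd (inl_mem_TS.mp hs) he

lemma pl_lower (hx : 0 < x) (hx1 : x < 1) {F F' : Finset (Edg d)}
    (hd : Disjoint F F') : pl d x F * pl d x F' ≤ pl d x (F ∪ F') := by
  obtain ⟨n0, hn0⟩ := exists_bE F
  refine le_of_tendsto_of_tendsto ((tendsto_ps hx hx1 F).mul (tendsto_ps hx hx1 F'))
    (tendsto_ps hx hx1 (F ∪ F')) ?_
  filter_upwards [eventually_ge_atTop n0] with n hn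
  exact ps_lower hx.le hx1.le (hn0.trans (bE_mono hn)) hd

lemma pl_upper (hx : 0 < x) (hx1 : x < 1) {m : ℕ} {F F' : Finset (Edg d)}
    (hF : F ⊆ bE d m) (hd : Disjoint (bE d m) F') :
    pl d x (F ∪ F') ≤ ps d x m F * pl d x F' := by
  refine le_of_tendsto_of_tendsto (tendsto_ps hx hx1 (F ∪ F'))
    ((tendsto_ps hx hx1 F').const_mul _) ?_
  filter_upwards [eventually_ge_atTop m] with n hn
  exact ps_upper hx.le hx1.le hn hF hd

lemma pl_mixing (hx : 0 < x) (hx1 : x < 1) (F F' : Finset (Edg d)) :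
    Tendsto (fun v : Vtx d => pl d x (F ∪ tE v F')) cofinite (𝓝 (pl d x F * pl d x F')) := by
  rw [tendsto_order]
  constructor
  · intro c hc
    filter_upwards [ev_disjoint F F'] with v hv
    refine hc.trans_le ?_
    rw [← pl_tE hx hx1 v F']
    exact pl_lower hx hx1 hv
  · intro c hc
    have h1 := (tendsto_ps hx hx1 F).mul_const (pl d x F')
    have h2 := (tendsto_order.mp h1).2 c hc
    obtain ⟨n0, hn0⟩ := exists_bE F
    obtain ⟨m, hm, hm0⟩ := (h2.and (eventually_ge_atTop n0)).exists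
    filter_upwards [ev_disjoint (bE d m) F'] with v hv
    refine lt_of_le_of_lt ?_ hm
    rw [← pl_tE hx hx1 v F']
    exact pl_upper hx hx1 (hn0.trans (bE_mono hm0)) hv

/-- expansion coefficients -/
noncomputable def ex (x : ℝ) (J F : Finset (Edg d)) : ℝ :=
  (x - x⁻¹) ^ F.card * x⁻¹ ^ (J.card - F.card)

lemma exc_lf {J F : Finset (Edg d)} (h : F ⊆ J) : exc (wS d x 0) (lf J) (lf F) = ex x J F := by
  unfold exc ex
  rw [lf_sdiff, prod_lf F (fun z => z - z⁻¹), prod_lf (J \ F) (fun z => z⁻¹),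
    card_sdiff_of_subset h]

lemma ci_expand (hx : 0 < x) (hx1 : x < 1) {J J' : Finset (Edg d)} (hd : Disjoint J J') :
    ci d x 0 (bd dE J + bd dE J') = ∑ F ∈ J.powerset, ∑ F' ∈ J'.powerset,
      ex x J F * ex x J' F' * pl d x (F ∪ F') := by
  have h1 : Tendsto (fun n => ∑ F ∈ J.powerset, ∑ F' ∈ J'.powerset,
      ex x J F * ex x J' F' * ps d x n (F ∪ F')) atTop (𝓝 (∑ F ∈ J.powerset, ∑ F' ∈ J'.powerset,
      ex x J F * ex x J' F' * pl d x (F ∪ F'))) := by
    refine tendsto_finsetSum _ fun F _ => tendsto_finsetSum _ fun F' _ => ?_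
    exact (tendsto_ps hx hx1 _).const_mul _
  refine tendsto_nhds_unique (tendsto_cn hx.le hx1.le le_rfl zero_le_one _) (h1.congr' ?_)
  obtain ⟨n0, hn0⟩ := exists_bE (J ∪ J')
  filter_upwards [eventually_ge_atTop n0] with n hn
  have hJ : J ⊆ bE d n := subset_union_left.trans (hn0.trans (bE_mono hn))
  have hJ' : J' ⊆ bE d n := subset_union_right.trans (hn0.trans (bE_mono hn))
  have w1 : ∀ s ∈ lf J ∪ lf J', wS d x 0 s ≠ 0 := by
    intro s hs
    rw [← lf_union] at hs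
    obtain ⟨e, he, rfl⟩ := mem_lf.mp hs
    exact hx.ne'
  have h3 := expand2 (δ := dS d) (x := wS d x 0) (T := TS d n) gam_two w1 (lf_subset_TS hJ)
    (lf_subset_TS hJ') (lf_disj hd)
  rw [bd_lf, bd_lf] at h3
  show _ = Z (dS d) (wS d x 0) (TS d n) (bd dE J + bd dE J') / Z (dS d) (wS d x 0) (TS d n) 0
  rw [h3, sum_div]
  have e1 : ∀ g : Finset (Edg d ⊕ Vtx d) → ℝ, ∑ F ∈ (lf J).powerset, g F =
      ∑ F ∈ J.powerset, g (lf F) := fun g => sum_powerset_map Function.Embedding.inl J g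
  have e2 : ∀ g : Finset (Edg d ⊕ Vtx d) → ℝ, ∑ F ∈ (lf J').powerset, g F =
      ∑ F ∈ J'.powerset, g (lf F) := fun g => sum_powerset_map Function.Embedding.inl J' g
  rw [e1]
  refine sum_congr rfl fun F hF => ?_
  rw [mem_powerset] at hF
  rw [e2, sum_div]
  refine sum_congr rfl fun F' hF' => ?_
  rw [mem_powerset] at hF'
  rw [exc_lf hF, exc_lf hF', ← lf_union, mul_div_assoc]
  rfl

lemma ci_expand_one (hx : 0 < x) (hx1 : x < 1) (J : Finset (Edg d)) :
    ci d x 0 (bd dE J) = ∑ F ∈ J.powerset, ex x J F * pl d x F := by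
  have h := ci_expand hx hx1 (J := J) (J' := ∅) (disjoint_empty_right J)
  rw [bd_empty, add_zero] at h
  rw [h]
  refine sum_congr rfl fun F _ => ?_
  rw [powerset_empty, sum_singleton, union_empty]
  unfold ex
  simp

/-- Mixing of the even correlations of the free state. -/
lemma ci_mixing (hx : 0 < x) (hx1 : x < 1) (J J' : Finset (Edg d)) :
    Tendsto (fun v : Vtx d => ci d x 0 (bd dE J + sh v (bd dE J'))) cofinite
      (𝓝 (ci d x 0 (bd dE J) * ci d x 0 (bd dE J'))) := by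
  rw [ci_expand_one hx hx1 J, ci_expand_one hx hx1 J', sum_mul_sum]
  have h1 : Tendsto (fun v : Vtx d => ∑ F ∈ J.powerset, ∑ F' ∈ J'.powerset,
      ex x J F * ex x J' F' * pl d x (F ∪ tE v F')) cofinite
      (𝓝 (∑ F ∈ J.powerset, ∑ F' ∈ J'.powerset,
        ex x J F * ex x J' F' * (pl d x F * pl d x F'))) := by
    refine tendsto_finsetSum _ fun F _ => tendsto_finsetSum _ fun F' _ => ?_
    exact (pl_mixing hx hx1 F F').const_mul _
  have e1 : (∑ F ∈ J.powerset, ∑ F' ∈ J'.powerset,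
        ex x J F * ex x J' F' * (pl d x F * pl d x F')) =
      ∑ F ∈ J.powerset, ∑ F' ∈ J'.powerset, ex x J F * pl d x F * (ex x J' F' * pl d x F') := by
    refine sum_congr rfl fun F _ => sum_congr rfl fun F' _ => by ring
  rw [← e1]
  refine h1.congr' ?_
  filter_upwards [ev_disjoint J J'] with v hv
  rw [← bd_tE, ci_expand hx hx1 hv]
  refine sum_congr rfl fun F _ => ?_
  rw [show (tE v J').powerset = (J'.map (shE v).toEmbedding).powerset from rfl,
    sum_powerset_map (shE v).toEmbedding J' (fun F' => ex x J F * ex x (tE v J') F' *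
      pl d x (F ∪ F'))]
  refine sum_congr rfl fun F' _ => ?_
  have : ex x (tE v J') (Finset.map (shE v).toEmbedding F') = ex x J' F' := by
    unfold ex tE
    rw [card_map, card_map]
  rw [this]
  rfl

end free

end Pool.Agent.TH980
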