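import Pool.Agent.TH980.L3

/-!
# Finite-volume measures
-/

set_option autoImplicit false
set_option linter.unusedSectionVars false
set_option linter.unusedSimpArgs false

open Finset Filter Topology

namespace Pool.Agent.TH980

/-- configurations of two even subgraphs and a trace -/
abbrev Om (d : ℕ) := Fin 3 × Edg d → Bool

variable {d : ℕ}

/-- indicator function with real values -/
noncomputable def ind {α : Type*} (A : Set α) (ω : α) : ℝ :=
  open Classical in if ω ∈ A then 1 else 0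

lemma ind_pos {α : Type*} {A : Set α} {ω : α} (h : ω ∈ A) : ind A ω = 1 := if_pos h
lemma ind_neg {α : Type*} {A : Set α} {ω : α} (h : ω ∉ A) : ind A ω = 0 := if_neg h
lemma ind_nonneg {α : Type*} (A : Set α) (ω : α) : 0 ≤ ind A ω := by
  by_cases h : ω ∈ A
  · rw [ind_pos h]; exact zero_le_one
  · rw [ind_neg h]
lemma ind_le_one {α : Type*} (A : Set α) (ω : α) : ind A ω ≤ 1 := by
  by_cases h : ω ∈ A
  · rw [ind_pos h]
  · rw [ind_neg h]; exact zero_le_one

/-- conditional weights of the trace -/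
def kp (x : ℝ) (u s : Bool) : ℝ := if u then (if s then 1 else 0) else (if s then x ^ 2 else 1 - x ^ 2)

lemma kp_sum (x : ℝ) (u : Bool) : kp x u true + kp x u false = 1 := by
  rcases u <;> simp [kp]

lemma kp_nonneg {x : ℝ} (hx : 0 ≤ x) (hx1 : x ≤ 1) (u s : Bool) : 0 ≤ kp x u s := by
  rcases u <;> rcases s <;> unfold kp
  · show 0 ≤ 1 - x ^ 2
    nlinarith
  · show 0 ≤ x ^ 2
    positivity
  · exact le_rfl
  · exact zero_le_one

/-- local weights -/
def lw (x : ℝ) (u₁ u₂ s : Bool) : ℝ :=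
  (if u₁ then x else 1) * (if u₂ then x else 1) * kp x (u₁ || u₂) s

lemma lw_swap (x : ℝ) (u₁ u₂ : Bool) : lw x (!u₁) (!u₂) true = lw x u₁ u₂ true := by
  rcases u₁ <;> rcases u₂ <;> simp [lw, kp] <;> ring

/-- the configuration given by three sets -/
def cf (S₁ S₂ : Finset (Edg d ⊕ Vtx d)) (t : Finset (Edg d)) : Om d := fun p =>
  ![decide (Sum.inl p.2 ∈ S₁), decide (Sum.inl p.2 ∈ S₂), decide (p.2 ∈ t)] p.1

/-- weights of configurations -/
noncomputable def WT (n : ℕ) (x y : ℝ) (S₁ S₂ : Finset (Edg d ⊕ Vtx d)) (t : Finset (Edg d)) : ℝ :=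
  (∏ e ∈ bE d n, lw x (decide (Sum.inl e ∈ S₁)) (decide (Sum.inl e ∈ S₂)) (decide (e ∈ t))) *
    ∏ v ∈ bx d n, ((if Sum.inr v ∈ S₁ then y else 1) * (if Sum.inr v ∈ S₂ then 0 else 1))

lemma prod_TS (n : ℕ) (f : Edg d ⊕ Vtx d → ℝ) :
    ∏ s ∈ TS d n, f s = (∏ e ∈ bE d n, f (Sum.inl e)) * ∏ v ∈ bx d n, f (Sum.inr v) := by
  unfold TS
  rw [prod_disjSum]

lemma prod_sub_eq {α : Type*} [DecidableEq α] {S T : Finset α} (h : S ⊆ T) (w : α → ℝ) :
    ∏ s ∈ S, w s = ∏ s ∈ T, if s ∈ S then w s else 1 := by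
  rw [prod_ite_mem, inter_eq_right.mpr h]

lemma WT_eq {n : ℕ} {x y : ℝ} {S₁ S₂ : Finset (Edg d ⊕ Vtx d)} {t : Finset (Edg d)}
    (h1 : S₁ ⊆ TS d n) (h2 : S₂ ⊆ TS d n) :
    WT n x y S₁ S₂ t = (∏ s ∈ S₁, wS d x y s) * (∏ s ∈ S₂, wS d x 0 s) *
      ∏ e ∈ bE d n, kp x (decide (Sum.inl e ∈ S₁) || decide (Sum.inl e ∈ S₂)) (decide (e ∈ t)) := by
  rw [prod_sub_eq h1, prod_sub_eq h2, prod_TS, prod_TS]
  unfold WT lw
  rw [prod_mul_distrib, prod_mul_distrib, prod_mul_distrib]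
  have e1 : ∀ S : Finset (Edg d ⊕ Vtx d), ∏ e ∈ bE d n, (if decide (Sum.inl e ∈ S) then x else 1) =
      ∏ e ∈ bE d n, (if Sum.inl e ∈ S then x else 1) := by
    intro S
    refine prod_congr rfl fun e _ => ?_
    simp
  have e2 : ∀ (S : Finset (Edg d ⊕ Vtx d)) (z : ℝ),
      ∏ e ∈ bE d n, (if Sum.inl e ∈ S then wS d x z (Sum.inl e) else 1) =
      ∏ e ∈ bE d n, (if Sum.inl e ∈ S then x else 1) := fun _ _ => rfl
  have e3 : ∀ (S : Finset (Edg d ⊕ Vtx d)) (z : ℝ),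
      ∏ v ∈ bx d n, (if Sum.inr v ∈ S then wS d x z (Sum.inr v) else 1) =
      ∏ v ∈ bx d n, (if Sum.inr v ∈ S then z else 1) := fun _ _ => rfl
  rw [e1, e1, e2, e2, e3, e3]
  ring

lemma kp_sum_powerset {α : Type*} [DecidableEq α] {B T : Finset α} (hB : B ⊆ T)
    (k : α → Bool → ℝ) (hk : ∀ e ∈ T, k e true + k e false = 1) (s : α → Bool) :
    ∑ t ∈ T.powerset, (∏ e ∈ T, k e (decide (e ∈ t))) *
      (if ∀ e ∈ B, decide (e ∈ t) = s e then 1 else 0) = ∏ e ∈ B, k e (s e) := by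
  have h1 : ∏ e ∈ B, k e (s e) = ∏ e ∈ T,
      (k e true * (if e ∈ B then (if true = s e then 1 else 0) else 1) +
        k e false * (if e ∈ B then (if false = s e then 1 else 0) else 1)) := by
    rw [prod_sub_eq hB]
    refine prod_congr rfl fun e he => ?_
    by_cases h : e ∈ B
    · simp only [if_pos h]
      rcases s e <;> simp
    · simp only [if_neg h, mul_one]
      exact (hk e he).symm
  rw [h1, prod_add]
  refine sum_congr rfl fun t ht => ?_
  rw [mem_powerset] at ht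
  have h2 : ∏ e ∈ T, k e (decide (e ∈ t)) = (∏ e ∈ t, k e true) * ∏ e ∈ T \ t, k e false := by
    rw [← prod_sdiff ht, mul_comm]
    congr 1
    · exact prod_congr rfl fun e he => by rw [decide_eq_true he]
    · refine prod_congr rfl fun e he => ?_
      rw [decide_eq_false (Finset.mem_sdiff.mp he).2]
  have h3 : (if ∀ e ∈ B, decide (e ∈ t) = s e then (1 : ℝ) else 0) =
      ∏ e ∈ T, if e ∈ B then (if decide (e ∈ t) = s e then (1 : ℝ) else 0) else 1 := by
    rw [prod_ite_mem, inter_eq_right.mpr hB, prod_ite_zero]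
    simp
  have h4 : (∏ e ∈ T, if e ∈ B then (if decide (e ∈ t) = s e then (1 : ℝ) else 0) else 1) =
      (∏ e ∈ t, if e ∈ B then (if true = s e then (1 : ℝ) else 0) else 1) *
        ∏ e ∈ T \ t, if e ∈ B then (if false = s e then (1 : ℝ) else 0) else 1 := by
    rw [← prod_sdiff ht, mul_comm]
    congr 1
    · exact prod_congr rfl fun e he => by rw [decide_eq_true he]
    · refine prod_congr rfl fun e he => ?_
      rw [decide_eq_false (Finset.mem_sdiff.mp he).2]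
  rw [h2, h3, h4, prod_mul_distrib, prod_mul_distrib]
  ring

/-- linear functional of correlations which gives the weight of a local configuration -/
noncomputable def ell (x : ℝ) (c : Gam d → ℝ) (a : Gam d) (B : Finset (Edg d)) (s : Edg d → Bool) :
    ℝ := ∑ J ∈ B.powerset, (∏ e ∈ J, gm x (s e)) * (∏ e ∈ B \ J, al x (s e)) * c (a + bd dE J)

lemma S_cyl {x y : ℝ} (hx : 0 < x) (hx1 : x < 1) {n : ℕ} {B : Finset (Edg d)}
    (hB : B ⊆ bE d n) (a : Gam d) (s : Edg d → Bool) :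
    (∑ S ∈ (TS d n).powerset, (if bd (dS d) S = a then ∏ e ∈ S, wS d x y e else 0) *
      (if ∀ e ∈ B, decide (Sum.inl e ∈ S) = s e then 1 else 0)) / Z (dS d) (wS d x y) (TS d n) 0 =
      ell x (cn d n x y) a B s := by
  have w1 : ∀ s ∈ lf B, wS d x y s ≠ 0 := by
    intro s hs
    obtain ⟨e, he, rfl⟩ := mem_lf.mp hs
    exact hx.ne'
  have w2 : ∀ s ∈ lf B, 1 - wS d x y s ^ 2 ≠ 0 := by
    intro s hs
    obtain ⟨e, he, rfl⟩ := mem_lf.mp hs
    show 1 - x ^ 2 ≠ 0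
    nlinarith
  have h := cyl_sum (δ := dS d) (x := wS d x y) (T := TS d n) gam_two w1 w2 (lf_subset_TS hB)
    (fun g => if g = 0 then 1 else 0) a (Sum.elim s (fun _ => false))
  simp only [ZG_delta gam_two] at h
  have e1 : ∀ S ∈ (TS d n).powerset, (∏ e ∈ S, wS d x y e) *
      (if a + bd (dS d) S = 0 then (1 : ℝ) else 0) *
      (if ∀ e ∈ lf B, decide (e ∈ S) = Sum.elim s (fun _ => false) e then 1 else 0) =
      (if bd (dS d) S = a then ∏ e ∈ S, wS d x y e else 0) *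
      (if ∀ e ∈ B, decide (Sum.inl e ∈ S) = s e then 1 else 0) := by
    intro S _
    have h1 : a + bd (dS d) S = 0 ↔ bd (dS d) S = a := by
      constructor
      · intro h
        calc bd (dS d) S = a + a + bd (dS d) S := by rw [gam_two, zero_add]
          _ = a + (a + bd (dS d) S) := by abel
          _ = _ := by rw [h, add_zero]
      · intro h; rw [h, gam_two]
    have h2 : (∀ e ∈ lf B, decide (e ∈ S) = Sum.elim s (fun _ => false) e) ↔
        ∀ e ∈ B, decide (Sum.inl e ∈ S) = s e := by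
      constructor
      · intro h e he
        exact h (Sum.inl e) (mem_lf.mpr ⟨e, he, rfl⟩)
      · intro h s hs
        obtain ⟨e, he, rfl⟩ := mem_lf.mp hs
        exact h e he
    rw [if_congr h1 rfl rfl, if_congr h2 rfl rfl]
    by_cases h3 : bd (dS d) S = a <;> simp [h3]
  rw [sum_congr rfl e1] at h
  rw [h, sum_div]
  have e2 : ∀ g : Finset (Edg d ⊕ Vtx d) → ℝ, ∑ F ∈ (lf B).powerset, g F =
      ∑ F ∈ B.powerset, g (lf F) := fun g => sum_powerset_map Function.Embedding.inl B g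
  rw [e2]
  unfold ell
  refine sum_congr rfl fun J hJ => ?_
  rw [lf_sdiff, bd_lf]
  have e3 : ∀ (F : Finset (Edg d)) (f : ℝ → Bool → ℝ),
      ∏ e ∈ lf F, f (wS d x y e) (Sum.elim s (fun _ => false) e) = ∏ e ∈ F, f x (s e) := by
    intro F f
    unfold lf
    rw [prod_map]
    rfl
  rw [e3 J gm, e3 (B \ J) al, mul_div_assoc]
  rfl

/-- cylinder events -/
def cyl (B : Finset (Edg d)) (m : Om d) : Set (Om d) := {ω | ∀ e ∈ B, ∀ i, ω (i, e) = m (i, e)}

lemma mem_cyl {B : Finset (Edg d)} {m ω : Om d} :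
    ω ∈ cyl B m ↔ ∀ e ∈ B, ∀ i, ω (i, e) = m (i, e) := Iff.rfl

/-- unnormalised finite-volume expectation with sources `a` -/
noncomputable def NV (d n : ℕ) (x y : ℝ) (a : Gam d) (f : Om d → ℝ) : ℝ :=
  ∑ t ∈ (bE d n).powerset, ∑ S₁ ∈ (TS d n).powerset, ∑ S₂ ∈ (TS d n).powerset,
    (if bd (dS d) S₁ = a ∧ bd (dS d) S₂ = a then WT n x y S₁ S₂ t else 0) * f (cf S₁ S₂ t)

/-- finite-volume expectation with sources `a` -/
noncomputable def EV (d n : ℕ) (x y : ℝ) (a : Gam d) (f : Om d → ℝ) : ℝ :=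
  NV d n x y a f / (Z (dS d) (wS d x y) (TS d n) 0 * Z (dS d) (wS d x 0) (TS d n) 0)

/-- weight of a local configuration -/
noncomputable def qq (x : ℝ) (c₁ c₂ : Gam d → ℝ) (a : Gam d) (B : Finset (Edg d)) (m : Om d) : ℝ :=
  ell x c₁ a B (fun e => m (0, e)) * ell x c₂ a B (fun e => m (1, e)) *
    ∏ e ∈ B, kp x (m (0, e) || m (1, e)) (m (2, e))

lemma cf_mem_cyl {S₁ S₂ : Finset (Edg d ⊕ Vtx d)} {t : Finset (Edg d)} {B : Finset (Edg d)}
    {m : Om d} : cf S₁ S₂ t ∈ cyl B m ↔ (∀ e ∈ B, decide (Sum.inl e ∈ S₁) = m (0, e)) ∧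
      (∀ e ∈ B, decide (Sum.inl e ∈ S₂) = m (1, e)) ∧ ∀ e ∈ B, decide (e ∈ t) = m (2, e) := by
  rw [mem_cyl]
  constructor
  · intro h
    exact ⟨fun e he => h e he 0, fun e he => h e he 1, fun e he => h e he 2⟩
  · rintro ⟨h1, h2, h3⟩ e he i
    fin_cases i
    · exact h1 e he
    · exact h2 e he
    · exact h3 e he

lemma EV_cyl {x y : ℝ} (hx : 0 < x) (hx1 : x < 1) {n : ℕ} {B : Finset (Edg d)}
    (hB : B ⊆ bE d n) (a : Gam d) (m : Om d) :
    EV d n x y a (ind (cyl B m)) = qq x (cn d n x y) (cn d n x 0) a B m := by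
  unfold qq
  rw [← S_cyl hx hx1 hB a (fun e => m (0, e)), ← S_cyl hx hx1 hB a (fun e => m (1, e)),
    div_mul_div_comm, div_mul_eq_mul_div]
  unfold EV
  congr 1
  unfold NV
  rw [sum_comm]
  rw [sum_mul_sum, sum_mul]
  refine sum_congr rfl fun S₁ hS₁ => ?_
  rw [sum_comm, sum_mul]
  refine sum_congr rfl fun S₂ hS₂ => ?_
  rw [mem_powerset] at hS₁ hS₂
  have hk := kp_sum_powerset hB
    (fun e s => kp x (decide (Sum.inl e ∈ S₁) || decide (Sum.inl e ∈ S₂)) s)
    (fun e _ => kp_sum x _) (fun e => m (2, e))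
  by_cases hb : bd (dS d) S₁ = a ∧ bd (dS d) S₂ = a
  · simp only [if_pos hb, if_pos hb.1, if_pos hb.2]
    by_cases h1 : ∀ e ∈ B, decide (Sum.inl e ∈ S₁) = m (0, e)
    · by_cases h2 : ∀ e ∈ B, decide (Sum.inl e ∈ S₂) = m (1, e)
      · rw [if_pos h1, if_pos h2, mul_one, mul_one]
        have e1 : ∏ e ∈ B, kp x (m (0, e) || m (1, e)) (m (2, e)) =
            ∏ e ∈ B, kp x (decide (Sum.inl e ∈ S₁) || decide (Sum.inl e ∈ S₂)) (m (2, e)) := by
          refine prod_congr rfl fun e he => ?_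
          rw [h1 e he, h2 e he]
        rw [e1, ← hk, mul_sum]
        refine sum_congr rfl fun t _ => ?_
        rw [WT_eq hS₁ hS₂, mul_assoc]
        congr 2
        by_cases h3 : ∀ e ∈ B, decide (e ∈ t) = m (2, e)
        · rw [if_pos h3, ind_pos (cf_mem_cyl.mpr ⟨h1, h2, h3⟩)]
        · rw [if_neg h3, ind_neg (fun h => h3 (cf_mem_cyl.mp h).2.2)]
      · rw [if_neg h2, mul_zero, mul_zero, zero_mul]
        refine sum_eq_zero fun t _ => ?_
        rw [ind_neg (fun h => h2 (cf_mem_cyl.mp h).2.1), mul_zero]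
    · rw [if_neg h1, mul_zero, zero_mul, zero_mul]
      refine sum_eq_zero fun t _ => ?_
      rw [ind_neg (fun h => h1 (cf_mem_cyl.mp h).1), mul_zero]
  · simp only [if_neg hb, zero_mul, sum_const_zero]
    by_cases h1 : bd (dS d) S₁ = a
    · have h2 : ¬ bd (dS d) S₂ = a := fun h => hb ⟨h1, h⟩
      rw [if_neg h2]; ring
    · rw [if_neg h1]; ring

end Pool.Agent.TH980
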