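import Pool.Agent.TH980.M1

/-!
# Local events and the switching inequality in finite volume
-/

set_option autoImplicit false
set_option linter.unusedSectionVars false
set_option linter.unusedSimpArgs false

open Finset Filter Topology

namespace Pool.Agent.TH980

variable {d : ℕ}

/-- events which depend only on the edges in `B` -/
def Loc (B : Finset (Edg d)) (A : Set (Om d)) : Prop :=
  ∀ ω ω' : Om d, (∀ e ∈ B, ∀ i, ω (i, e) = ω' (i, e)) → ω ∈ A → ω' ∈ A

lemma Loc.mono {B B' : Finset (Edg d)} {A : Set (Om d)} (h : Loc B A) (hB : B ⊆ B') : Loc B' A :=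
  fun ω ω' hω => h ω ω' fun e he => hω e (hB he)

lemma Loc.compl {B : Finset (Edg d)} {A : Set (Om d)} (h : Loc B A) : Loc B Aᶜ :=
  fun ω ω' hω hA hA' => hA (h ω' ω (fun e he i => (hω e he i).symm) hA')

lemma Loc.inter {B : Finset (Edg d)} {A A' : Set (Om d)} (h : Loc B A) (h' : Loc B A') :
    Loc B (A ∩ A') := fun ω ω' hω hA => ⟨h ω ω' hω hA.1, h' ω ω' hω hA.2⟩

lemma Loc.union {B : Finset (Edg d)} {A A' : Set (Om d)} (h : Loc B A) (h' : Loc B A') :
    Loc B (A ∪ A') := fun ω ω' hω hA => hA.imp (h ω ω' hω) (h' ω ω' hω)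

lemma Loc_cyl (B : Finset (Edg d)) (m : Om d) : Loc B (cyl B m) :=
  fun _ _ hω hA e he i => (hω e he i).symm.trans (hA e he i)

/-- indices of local configurations -/
def PB (B : Finset (Edg d)) : Finset (Finset (Fin 3 × Edg d)) := (univ ×ˢ B).powerset

/-- the configuration of a set -/
def pt (M : Finset (Fin 3 × Edg d)) : Om d := fun p => decide (p ∈ M)

lemma ind_loc {B : Finset (Edg d)} {A : Set (Om d)} (h : Loc B A) (ω : Om d) :
    ind A ω = ∑ M ∈ PB B, ind A (pt M) * ind (cyl B (pt M)) ω := by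
  set M0 : Finset (Fin 3 × Edg d) := (univ ×ˢ B).filter (fun p => ω p = true) with hM0
  have hM0m : ∀ e ∈ B, ∀ i, pt M0 (i, e) = ω (i, e) := by
    intro e he i
    unfold pt
    by_cases h : ω (i, e) = true
    · rw [h, decide_eq_true_iff, hM0, mem_filter, mem_product]
      exact ⟨⟨mem_univ i, he⟩, h⟩
    · rw [Bool.not_eq_true] at h
      rw [h, decide_eq_false_iff_not, hM0, mem_filter]
      rintro ⟨-, h'⟩
      rw [h] at h'
      exact absurd h' (by simp)
  rw [sum_eq_single M0]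
  · rw [ind_pos (A := cyl B (pt M0)) (fun e he i => (hM0m e he i).symm), mul_one]
    by_cases hA : ω ∈ A
    · rw [ind_pos hA, ind_pos (h ω _ (fun e he i => (hM0m e he i).symm) hA)]
    · rw [ind_neg hA, ind_neg (fun h' => hA (h _ ω hM0m h'))]
  · intro M hM hMM
    rw [ind_neg (A := cyl B (pt M)), mul_zero]
    intro hc
    apply hMM
    ext ⟨i, e⟩
    by_cases he : e ∈ B
    · have h1 := hc e he i
      rw [← hM0m e he i] at h1
      unfold pt at h1
      have := decide_eq_decide.mp h1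
      exact this.symm
    · constructor
      · intro h
        exact absurd (mem_product.mp (mem_powerset.mp hM h)).2 he
      · intro h
        rw [hM0, mem_filter, mem_product] at h
        exact absurd h.1.2 he
  · intro h
    exact absurd (mem_powerset.mpr (filter_subset _ _)) h

/-- weight of a local event -/
noncomputable def qv (x : ℝ) (c₁ c₂ : Gam d → ℝ) (a : Gam d) (B : Finset (Edg d))
    (A : Set (Om d)) : ℝ := ∑ M ∈ PB B, ind A (pt M) * qq x c₁ c₂ a B (pt M)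

/-! ### Properties of the finite-volume expectation -/

section EV

variable {n : ℕ} {x y : ℝ} {a : Gam d}

lemma NV_sum {κ : Type*} (s : Finset κ) (c : κ → ℝ) (f : κ → Om d → ℝ) :
    NV d n x y a (fun ω => ∑ k ∈ s, c k * f k ω) = ∑ k ∈ s, c k * NV d n x y a (f k) := by
  unfold NV
  have e1 : ∀ k ∈ s, c k * ∑ t ∈ (bE d n).powerset, ∑ S₁ ∈ (TS d n).powerset,
      ∑ S₂ ∈ (TS d n).powerset, (if bd (dS d) S₁ = a ∧ bd (dS d) S₂ = a then
        WT n x y S₁ S₂ t else 0) * f k (cf S₁ S₂ t) = ∑ t ∈ (bE d n).powerset,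
      ∑ S₁ ∈ (TS d n).powerset, ∑ S₂ ∈ (TS d n).powerset, c k *
      ((if bd (dS d) S₁ = a ∧ bd (dS d) S₂ = a then WT n x y S₁ S₂ t else 0) *
        f k (cf S₁ S₂ t)) := by
    intro k _
    rw [mul_sum]
    refine sum_congr rfl fun t _ => ?_
    rw [mul_sum]
    refine sum_congr rfl fun S₁ _ => ?_
    rw [mul_sum]
  rw [sum_congr rfl e1]
  conv_rhs => rw [sum_comm]
  refine sum_congr rfl fun t _ => ?_
  conv_rhs => rw [sum_comm]
  refine sum_congr rfl fun S₁ _ => ?_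
  conv_rhs => rw [sum_comm]
  refine sum_congr rfl fun S₂ _ => ?_
  rw [mul_sum]
  exact sum_congr rfl fun k _ => by ring

lemma EV_sum {κ : Type*} (s : Finset κ) (c : κ → ℝ) (f : κ → Om d → ℝ) :
    EV d n x y a (fun ω => ∑ k ∈ s, c k * f k ω) = ∑ k ∈ s, c k * EV d n x y a (f k) := by
  unfold EV
  rw [NV_sum, sum_div]
  exact sum_congr rfl fun k _ => by rw [mul_div_assoc]

lemma EV_loc (hx : 0 < x) (hx1 : x < 1) {B : Finset (Edg d)} (hB : B ⊆ bE d n) {A : Set (Om d)}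
    (hA : Loc B A) : EV d n x y a (ind A) = qv x (cn d n x y) (cn d n x 0) a B A := by
  have : ind A = fun ω => ∑ M ∈ PB B, ind A (pt M) * ind (cyl B (pt M)) ω := by
    funext ω; exact ind_loc hA ω
  rw [this, EV_sum]
  unfold qv
  refine sum_congr rfl fun M _ => ?_
  rw [← EV_cyl hx hx1 hB a (pt M)]

lemma WT_nonneg (hx : 0 ≤ x) (hx1 : x ≤ 1) (hy : 0 ≤ y) (S₁ S₂ : Finset (Edg d ⊕ Vtx d))
    (t : Finset (Edg d)) : 0 ≤ WT n x y S₁ S₂ t := by
  unfold WT
  refine mul_nonneg (prod_nonneg fun e _ => ?_) (prod_nonneg fun v _ => ?_)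
  · unfold lw
    refine mul_nonneg (mul_nonneg ?_ ?_) (kp_nonneg hx hx1 _ _)
    · split_ifs
      · exact hx
      · exact zero_le_one
    · split_ifs
      · exact hx
      · exact zero_le_one
  · refine mul_nonneg ?_ ?_
    · split_ifs
      · exact hy
      · exact zero_le_one
    · split_ifs
      · exact le_rfl
      · exact zero_le_one

lemma EV_mono_of (hx : 0 ≤ x) (hx1 : x ≤ 1) (hy : 0 ≤ y) {f g : Om d → ℝ}
    (h : ∀ S₁ ⊆ TS d n, ∀ S₂ ⊆ TS d n, ∀ t ⊆ bE d n, bd (dS d) S₁ = a → bd (dS d) S₂ = a →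
      WT n x y S₁ S₂ t ≠ 0 → f (cf S₁ S₂ t) ≤ g (cf S₁ S₂ t)) :
    EV d n x y a f ≤ EV d n x y a g := by
  unfold EV
  refine div_le_div_of_nonneg_right ?_ (mul_nonneg (Z_nonneg (wS_nonneg hx hy) 0)
    (Z_nonneg (wS_nonneg hx le_rfl) 0))
  unfold NV
  refine sum_le_sum fun t ht => sum_le_sum fun S₁ hS₁ => sum_le_sum fun S₂ hS₂ => ?_
  rw [mem_powerset] at ht hS₁ hS₂
  by_cases hb : bd (dS d) S₁ = a ∧ bd (dS d) S₂ = a
  · rw [if_pos hb]
    by_cases h0 : WT n x y S₁ S₂ t = 0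
    · rw [h0, zero_mul, zero_mul]
    · exact mul_le_mul_of_nonneg_left (h S₁ hS₁ S₂ hS₂ t ht hb.1 hb.2 h0)
        (WT_nonneg hx hx1 hy _ _ _)
  · rw [if_neg hb, zero_mul, zero_mul]

lemma EV_mono (hx : 0 ≤ x) (hx1 : x ≤ 1) (hy : 0 ≤ y) {f g : Om d → ℝ} (h : ∀ ω, f ω ≤ g ω) :
    EV d n x y a f ≤ EV d n x y a g :=
  EV_mono_of hx hx1 hy fun _ _ _ _ _ _ _ _ _ => h _

lemma EV_zero_fun : EV d n x y a (fun _ => 0) = 0 := by
  unfold EV NV
  simp

lemma EV_nonneg (hx : 0 ≤ x) (hx1 : x ≤ 1) (hy : 0 ≤ y) {f : Om d → ℝ} (h : ∀ ω, 0 ≤ f ω) :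
    0 ≤ EV d n x y a f := by
  rw [← EV_zero_fun (n := n) (x := x) (y := y) (a := a)]
  exact EV_mono hx hx1 hy h

lemma EV_one (hx : 0 < x) (hx1 : x < 1) (hy : 0 ≤ y) : EV d n x y 0 (fun _ => 1) = 1 := by
  have h1 : (fun _ : Om d => (1 : ℝ)) = ind (cyl ∅ (fun _ => false)) := by
    funext ω
    rw [ind_pos]
    intro e he
    exact absurd he (notMem_empty e)
  rw [h1, EV_cyl hx hx1 (empty_subset _)]
  unfold qq ell
  simp [cn_zero hx.le hy, cn_zero hx.le (le_refl (0 : ℝ))]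

end EV

/-! ### The switching inequality -/

/-- adding `π ω` to both even subgraphs -/
def sw (π : Om d → Finset (Edg d)) (ω : Om d) : Om d := fun p =>
  if p.1 = 2 then ω p else xor (ω p) (decide (p.2 ∈ π ω))

lemma symm_mem {S : Finset (Edg d ⊕ Vtx d)} {π : Finset (Edg d)} {e : Edg d} :
    decide (Sum.inl e ∈ symmDiff S (lf π)) = xor (decide (Sum.inl e ∈ S)) (decide (e ∈ π)) := by
  have : Sum.inl e ∈ lf π ↔ e ∈ π := by
    rw [mem_lf]
    constructor
    · rintro ⟨e', he', h⟩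
      rwa [← Sum.inl_injective h]
    · intro h; exact ⟨e, h, rfl⟩
  by_cases h1 : Sum.inl e ∈ S <;> by_cases h2 : e ∈ π <;>
    simp [Finset.mem_symmDiff, this, h1, h2]

lemma symm_mem_ghost {S : Finset (Edg d ⊕ Vtx d)} {π : Finset (Edg d)} {v : Vtx d} :
    Sum.inr v ∈ symmDiff S (lf π) ↔ Sum.inr v ∈ S := by
  have : Sum.inr v ∉ lf π := by
    rw [mem_lf]
    rintro ⟨e', he', h⟩
    exact absurd h (by simp)
  simp [Finset.mem_symmDiff, this]

lemma WT_swap {n : ℕ} {x y : ℝ} {S₁ S₂ : Finset (Edg d ⊕ Vtx d)} {π t : Finset (Edg d)}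
    (h : π ⊆ t) : WT n x y (symmDiff S₁ (lf π)) (symmDiff S₂ (lf π)) t = WT n x y S₁ S₂ t := by
  unfold WT
  congr 1
  · refine prod_congr rfl fun e _ => ?_
    rw [symm_mem, symm_mem]
    by_cases he : e ∈ π
    · rw [decide_eq_true he, decide_eq_true (h he)]
      simp only [Bool.xor_true]
      exact lw_swap x _ _
    · rw [decide_eq_false he]
      simp only [Bool.xor_false]
  · refine prod_congr rfl fun v _ => ?_
    rw [if_congr symm_mem_ghost rfl rfl, if_congr symm_mem_ghost rfl rfl]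

lemma EV_swap {n : ℕ} {x y : ℝ} (hx : 0 ≤ x) (hx1 : x ≤ 1) (hy : 0 ≤ y) {b : Gam d}
    {D : Set (Om d)} {π : Om d → Finset (Edg d)}
    (hD : ∀ ω ω' : Om d, (∀ e, ω (2, e) = ω' (2, e)) → ω ∈ D → ω' ∈ D ∧ π ω = π ω')
    (hb : ∀ ω ∈ D, bd dE (π ω) = b ∧ ∀ e ∈ π ω, ω (2, e) = true) (A : Set (Om d)) :
    EV d n x y 0 (ind (D ∩ sw π ⁻¹' A)) ≤ EV d n x y b (ind A) := by
  unfold EV
  refine div_le_div_of_nonneg_right ?_ (mul_nonneg (Z_nonneg (wS_nonneg hx hy) 0)
    (Z_nonneg (wS_nonneg hx le_rfl) 0))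
  unfold NV
  refine sum_le_sum fun t ht => ?_
  rw [mem_powerset] at ht
  by_cases hDt : cf ∅ ∅ t ∈ D
  · set R := π (cf ∅ ∅ t) with hR
    have hRt : R ⊆ t := by
      intro e he
      have := (hb _ hDt).2 e he
      exact decide_eq_true_eq.mp this
    have hRn : lf R ⊆ TS d n := lf_subset_TS (hRt.trans ht)
    have hbR : bd (dS d) (lf R) = b := by rw [bd_lf]; exact (hb _ hDt).1
    have hc : ∀ S₁ S₂ : Finset (Edg d ⊕ Vtx d), cf S₁ S₂ t ∈ D ∧ π (cf S₁ S₂ t) = R := by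
      intro S₁ S₂
      have := hD (cf ∅ ∅ t) (cf S₁ S₂ t) (fun e => rfl) hDt
      exact ⟨this.1, this.2.symm⟩
    have hsw : ∀ S₁ S₂ : Finset (Edg d ⊕ Vtx d), sw π (cf S₁ S₂ t) =
        cf (symmDiff S₁ (lf R)) (symmDiff S₂ (lf R)) t := by
      intro S₁ S₂
      funext ⟨i, e⟩
      unfold sw
      rw [(hc S₁ S₂).2]
      fin_cases i
      · exact symm_mem.symm
      · exact symm_mem.symm
      · rfl
    refine le_of_eq ?_
    refine sum_bij' (fun S _ => symmDiff S (lf R)) (fun S _ => symmDiff S (lf R)) ?_ ?_ ?_ ?_ ?_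
    · intro S hS
      rw [mem_powerset] at hS ⊢
      exact (symmDiff_le_sup : symmDiff S (lf R) ≤ S ⊔ lf R).trans (union_subset hS hRn)
    · intro S hS
      rw [mem_powerset] at hS ⊢
      exact (symmDiff_le_sup : symmDiff S (lf R) ≤ S ⊔ lf R).trans (union_subset hS hRn)
    · intro S _; simp [symmDiff_assoc]
    · intro S _; simp [symmDiff_assoc]
    intro S₁ hS₁
    refine sum_bij' (fun S _ => symmDiff S (lf R)) (fun S _ => symmDiff S (lf R)) ?_ ?_ ?_ ?_ ?_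
    · intro S hS
      rw [mem_powerset] at hS ⊢
      exact (symmDiff_le_sup : symmDiff S (lf R) ≤ S ⊔ lf R).trans (union_subset hS hRn)
    · intro S hS
      rw [mem_powerset] at hS ⊢
      exact (symmDiff_le_sup : symmDiff S (lf R) ≤ S ⊔ lf R).trans (union_subset hS hRn)
    · intro S _; simp [symmDiff_assoc]
    · intro S _; simp [symmDiff_assoc]
    intro S₂ hS₂
    rw [WT_swap hRt, bd_symmDiff gam_two, bd_symmDiff gam_two, hbR]
    have h1 : (bd (dS d) S₁ + b = b ∧ bd (dS d) S₂ + b = b) ↔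
        (bd (dS d) S₁ = 0 ∧ bd (dS d) S₂ = 0) := by
      rw [add_eq_right, add_eq_right]
    rw [if_congr h1 rfl rfl]
    congr 1
    by_cases hA : sw π (cf S₁ S₂ t) ∈ A
    · rw [ind_pos (A := D ∩ sw π ⁻¹' A) ⟨(hc S₁ S₂).1, hA⟩]
      rw [hsw] at hA
      rw [ind_pos hA]
    · rw [ind_neg (A := D ∩ sw π ⁻¹' A) (fun h => hA h.2)]
      rw [hsw] at hA
      rw [ind_neg hA]
  · refine sum_le_sum fun S₁ _ => sum_le_sum fun S₂ _ => ?_
    rw [ind_neg (A := D ∩ sw π ⁻¹' A), mul_zero]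
    · refine mul_nonneg ?_ (ind_nonneg _ _)
      split_ifs
      · exact WT_nonneg hx hx1 hy _ _ _
      · exact le_rfl
    · rintro ⟨h, -⟩
      exact hDt (hD (cf S₁ S₂ t) (cf ∅ ∅ t) (fun e => rfl) h).1

end Pool.Agent.TH980
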