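import Pool.Agent.TH980.M2
import Mathlib.MeasureTheory.Measure.Prokhorov

/-!
# Even degrees in finite volume and existence of limiting measures
-/

set_option autoImplicit false
set_option linter.unusedSectionVars false
set_option linter.unusedSimpArgs false

open Finset Filter Topology

namespace Pool.Agent.TH980

variable {d : ℕ}

lemma tip_ne (e : Edg d) : tip e ≠ e.1 := by
  intro h
  have := congrFun h e.2
  unfold tip at this
  rw [Pi.add_apply, Pi.single_eq_same] at this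
  omega

lemma mem_bx_add_single {n : ℕ} {v : Vtx d} (h : v ∈ bx d n) (i : Fin d) :
    v + Pi.single i 1 ∈ bx d (n + 1) ∧ v - Pi.single i 1 ∈ bx d (n + 1) := by
  rw [mem_bx] at h
  rw [mem_bx, mem_bx]
  refine ⟨fun j => ?_, fun j => ?_⟩
  · rw [Pi.add_apply]
    have h1 := h j
    have h3 : |(Pi.single i (1 : ℤ) : Fin d → ℤ) j| ≤ 1 := by
      by_cases hj : j = i
      · rw [hj, Pi.single_eq_same]; simp
      · rw [Pi.single_eq_of_ne hj]; simp
    have h2 := abs_add_le (v j) ((Pi.single i (1 : ℤ) : Fin d → ℤ) j)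
    push_cast
    linarith
  · rw [Pi.sub_apply]
    have h1 := h j
    have h3 : |(Pi.single i (1 : ℤ) : Fin d → ℤ) j| ≤ 1 := by
      by_cases hj : j = i
      · rw [hj, Pi.single_eq_same]; simp
      · rw [Pi.single_eq_of_ne hj]; simp
    have h2 := abs_sub (v j) ((Pi.single i (1 : ℤ) : Fin d → ℤ) j)
    push_cast
    linarith

/-- edges at a vertex -/
noncomputable def inc (v : Vtx d) : Finset (Edg d) :=
  (bE d (nm v + 1)).filter (fun e => e.1 = v ∨ tip e = v)

lemma mem_inc {v : Vtx d} {e : Edg d} : e ∈ inc v ↔ e.1 = v ∨ tip e = v := by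
  unfold inc
  rw [mem_filter]
  refine ⟨fun h => h.2, fun h => ⟨?_, h⟩⟩
  rw [mem_bE]
  rcases h with rfl | rfl
  · exact ⟨bx_mono (Nat.le_succ _) (mem_bx_nm _), (mem_bx_add_single (mem_bx_nm _) e.2).1⟩
  · refine ⟨?_, bx_mono (Nat.le_succ _) (mem_bx_nm _)⟩
    have := (mem_bx_add_single (mem_bx_nm (tip e)) e.2).2
    unfold tip at this ⊢
    rwa [add_sub_cancel_right] at this

lemma inc_subset {v : Vtx d} {n : ℕ} (h : nm v + 1 ≤ n) : inc v ⊆ bE d n :=
  (filter_subset _ _).trans (bE_mono h)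

lemma dE_apply (e : Edg d) (v : Vtx d) : dE e v = if e ∈ inc v then 1 else 0 := by
  unfold dE
  rw [Pi.add_apply]
  by_cases h : e ∈ inc v
  · rw [if_pos h]
    rcases mem_inc.mp h with rfl | rfl
    · rw [Pi.single_eq_same, Pi.single_eq_of_ne (tip_ne e).symm, add_zero]
    · rw [Pi.single_eq_same, Pi.single_eq_of_ne (tip_ne e), zero_add]
  · rw [if_neg h]
    rw [mem_inc] at h
    push Not at h
    rw [Pi.single_eq_of_ne h.1.symm, Pi.single_eq_of_ne h.2.symm, add_zero]

/-- degree modulo two -/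
noncomputable def dg (ω : Om d) (i : Fin 3) (v : Vtx d) : ZMod 2 :=
  ∑ e ∈ inc v, if ω (i, e) = true then 1 else 0

/-- the event that a degree is odd -/
def Odv (i : Fin 3) (v : Vtx d) : Set (Om d) := {ω | dg ω i v ≠ 0}

lemma Loc_Odv (i : Fin 3) (v : Vtx d) : Loc (inc v) (Odv i v) := by
  intro ω ω' h hω
  have : dg ω i v = dg ω' i v := by
    unfold dg
    exact sum_congr rfl fun e he => by rw [h e he i]
  show dg ω' i v ≠ 0
  rw [← this]
  exact hω

lemma bd_apply_eq {n : ℕ} {S : Finset (Edg d ⊕ Vtx d)} (hS : S ⊆ TS d n) {v : Vtx d}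
    (hv : nm v + 1 ≤ n) : bd (dS d) S v = (∑ e ∈ inc v, if Sum.inl e ∈ S then 1 else 0) +
      if Sum.inr v ∈ S then 1 else 0 := by
  have h1 : bd (dS d) S v = ∑ s ∈ TS d n, if s ∈ S then dS d s v else 0 := by
    unfold bd
    rw [Finset.sum_apply, ← sum_filter, filter_mem_eq_inter, inter_eq_right.mpr hS]
  rw [h1]
  unfold TS
  rw [sum_disjSum]
  congr 1
  · rw [← sum_subset (inc_subset hv)]
    · refine sum_congr rfl fun e he => ?_
      show (if Sum.inl e ∈ S then dE e v else 0) = _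
      rw [dE_apply, if_pos he]
    · intro e _ he
      show (if Sum.inl e ∈ S then dE e v else 0) = _
      rw [dE_apply, if_neg he]
      split_ifs <;> rfl
  · rw [sum_eq_single v]
    · show (if Sum.inr v ∈ S then dV v v else 0) = _
      unfold dV
      rw [Pi.single_eq_same]
    · intro w _ hw
      show (if Sum.inr w ∈ S then dV w v else 0) = _
      unfold dV
      rw [Pi.single_eq_of_ne (Ne.symm hw)]
      split_ifs <;> rfl
    · intro h
      exact absurd (bx_mono ((Nat.le_succ _).trans hv) (mem_bx_nm v)) h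

lemma dg_cf {n : ℕ} {S₁ S₂ : Finset (Edg d ⊕ Vtx d)} {t : Finset (Edg d)} (h1 : S₁ ⊆ TS d n)
    (h2 : S₂ ⊆ TS d n) {v : Vtx d} (hv : nm v + 1 ≤ n) :
    (bd (dS d) S₁ v = 0 → dg (cf S₁ S₂ t) 0 v = if Sum.inr v ∈ S₁ then 1 else 0) ∧
    (bd (dS d) S₂ v = 0 → dg (cf S₁ S₂ t) 1 v = if Sum.inr v ∈ S₂ then 1 else 0) := by
  have key : ∀ (a b : ZMod 2), a + b = 0 → a = b := by decide
  constructor
  · intro h
    rw [bd_apply_eq h1 hv] at h
    rw [← key _ _ h]
    unfold dg
    refine sum_congr rfl fun e _ => ?_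
    show (if decide (Sum.inl e ∈ S₁) = true then _ else _) = _
    simp
  · intro h
    rw [bd_apply_eq h2 hv] at h
    rw [← key _ _ h]
    unfold dg
    refine sum_congr rfl fun e _ => ?_
    show (if decide (Sum.inl e ∈ S₂) = true then _ else _) = _
    simp

section odd

variable {n : ℕ} {x y : ℝ}

lemma EV_odd_one (hx : 0 < x) (hx1 : x < 1) (hy : 0 ≤ y) {v : Vtx d} (hv : nm v + 1 ≤ n) :
    EV d n x y 0 (ind (Odv 1 v)) = 0 := by
  refine le_antisymm ?_ (EV_nonneg hx.le hx1.le hy (ind_nonneg _))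
  rw [← EV_zero_fun (n := n) (x := x) (y := y) (a := 0)]
  refine EV_mono_of hx.le hx1.le hy ?_
  intro S₁ hS₁ S₂ hS₂ t ht hb1 hb2 hW
  rw [ind_neg]
  intro hodd
  apply hodd
  rw [(dg_cf hS₁ hS₂ hv).2 (by rw [hb2]; rfl), if_neg]
  intro hg
  apply hW
  unfold WT
  have hvb : v ∈ bx d n := bx_mono ((Nat.le_succ _).trans hv) (mem_bx_nm v)
  rw [prod_eq_zero hvb (by rw [if_pos hg, mul_zero]), mul_zero]

lemma ghost_sum (hx : 0 ≤ x) (hx1 : x ≤ 1) (hy : 0 ≤ y) (hy1 : y ≤ 1) {v : Vtx d}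
    (hv : v ∈ bx d n) :
    ∑ S ∈ (TS d n).powerset, (if bd (dS d) S = 0 then ∏ s ∈ S, wS d x y s else 0) *
      (if Sum.inr v ∈ S then 1 else 0) ≤ y * Z (dS d) (wS d x y) (TS d n) 0 := by
  have w0 := wS_nonneg (d := d) hx hy
  have w1 := wS_le_one (d := d) hx1 hy1
  set g : Edg d ⊕ Vtx d := Sum.inr v with hg
  have hgT : g ∈ TS d n := inr_mem_TS.mpr hv
  set U := (TS d n).erase g with hU
  have hgU : g ∉ U := notMem_erase g _
  have hT : TS d n = insert g U := (insert_erase hgT).symm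
  have h1 : ∑ S ∈ (TS d n).powerset, (if bd (dS d) S = 0 then ∏ s ∈ S, wS d x y s else 0) *
      (if g ∈ S then (1 : ℝ) else 0) = y * Z (dS d) (wS d x y) U (dV v) := by
    rw [hT, sum_powerset_insert hgU]
    have e1 : ∑ S ∈ U.powerset, (if bd (dS d) S = 0 then ∏ s ∈ S, wS d x y s else 0) *
        (if g ∈ S then (1 : ℝ) else 0) = 0 := by
      refine sum_eq_zero fun S hS => ?_
      rw [if_neg (c := g ∈ S) (fun h => hgU (mem_powerset.mp hS h)), mul_zero]
    rw [e1, zero_add]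
    unfold Z
    rw [mul_sum]
    refine sum_congr rfl fun S hS => ?_
    have hgS : g ∉ S := fun h => hgU (mem_powerset.mp hS h)
    rw [if_pos (mem_insert_self g S), mul_one, bd_insert _ hgS, prod_insert hgS]
    have h3 : bd (dS d) S + dS d g = 0 ↔ bd (dS d) S = dV v := by
      show bd (dS d) S + dV v = 0 ↔ _
      constructor
      · intro h
        calc bd (dS d) S = bd (dS d) S + (dV v + dV v) := by rw [gam_two, add_zero]
          _ = bd (dS d) S + dV v + dV v := by abel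
          _ = dV v := by rw [h, zero_add]
      · intro h; rw [h, gam_two]
    rw [if_congr h3 rfl rfl]
    by_cases h4 : bd (dS d) S = dV v
    · rw [if_pos h4, if_pos h4]; rfl
    · rw [if_neg h4, if_neg h4, mul_zero]
  rw [h1]
  refine mul_le_mul_of_nonneg_left ?_ hy
  have h2 := cor_le_one (δ := dS d) (T := U) gam_two w0 w1 (dV v)
  unfold cor at h2
  rw [div_le_one (Z_pos w0)] at h2
  refine h2.trans ?_
  rw [hT, Z_insert hgU gam_two]
  have := mul_nonneg (w0 g) (Z_nonneg (δ := dS d) (T := U) w0 (0 + dS d g))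
  linarith

lemma EV_odd_zero (hx : 0 < x) (hx1 : x < 1) (hy : 0 ≤ y) (hy1 : y ≤ 1) {v : Vtx d}
    (hv : nm v + 1 ≤ n) : EV d n x y 0 (ind (Odv 0 v)) ≤ y := by
  have w0 := wS_nonneg (d := d) hx.le hy
  have w00 := wS_nonneg (d := d) hx.le (le_refl (0 : ℝ))
  have hp := Z_pos (δ := dS d) (T := TS d n) w0
  have hp0 := Z_pos (δ := dS d) (T := TS d n) w00
  unfold EV
  rw [div_le_iff₀ (mul_pos hp hp0), ← mul_assoc]
  have h1 : NV d n x y 0 (ind (Odv 0 v)) = (∑ S ∈ (TS d n).powerset,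
      (if bd (dS d) S = 0 then ∏ s ∈ S, wS d x y s else 0) *
      (if Sum.inr v ∈ S then 1 else 0)) * Z (dS d) (wS d x 0) (TS d n) 0 := by
    unfold NV Z
    rw [sum_comm, sum_mul_sum]
    refine sum_congr rfl fun S₁ hS₁ => ?_
    rw [sum_comm]
    refine sum_congr rfl fun S₂ hS₂ => ?_
    rw [mem_powerset] at hS₁ hS₂
    by_cases hb1 : bd (dS d) S₁ = 0
    · by_cases hb2 : bd (dS d) S₂ = 0
      · simp only [if_pos hb1, if_pos hb2, if_pos (And.intro hb1 hb2)]
        have hk := kp_sum_powerset (empty_subset (bE d n))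
          (fun e s => kp x (decide (Sum.inl e ∈ S₁) || decide (Sum.inl e ∈ S₂)) s)
          (fun e _ => kp_sum x _) (fun _ => false)
        simp only [notMem_empty, false_imp_iff, implies_true, if_true, mul_one, prod_empty] at hk
        have e1 : ∀ t ∈ (bE d n).powerset, WT n x y S₁ S₂ t * ind (Odv 0 v) (cf S₁ S₂ t) =
            ((∏ s ∈ S₁, wS d x y s) * (if Sum.inr v ∈ S₁ then 1 else 0) *
              (∏ s ∈ S₂, wS d x 0 s)) * ∏ e ∈ bE d n,
              kp x (decide (Sum.inl e ∈ S₁) || decide (Sum.inl e ∈ S₂)) (decide (e ∈ t)) := by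
          intro t _
          rw [WT_eq hS₁ hS₂]
          have h2 := (dg_cf (t := t) hS₁ hS₂ hv).1 (by rw [hb1]; rfl)
          by_cases h3 : Sum.inr v ∈ S₁
          · rw [if_pos h3] at h2 ⊢
            rw [ind_pos (show cf S₁ S₂ t ∈ Odv 0 v by
              show dg _ 0 v ≠ 0; rw [h2]; exact one_ne_zero)]
            ring
          · rw [if_neg h3] at h2 ⊢
            rw [ind_neg (show cf S₁ S₂ t ∉ Odv 0 v from fun h => h h2)]
            ring
        rw [sum_congr rfl e1, ← mul_sum, hk, mul_one]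
      · have hb : ¬ (bd (dS d) S₁ = 0 ∧ bd (dS d) S₂ = 0) := fun h => hb2 h.2
        simp only [if_neg hb, if_neg hb2, zero_mul, mul_zero, sum_const_zero]
    · have hb : ¬ (bd (dS d) S₁ = 0 ∧ bd (dS d) S₂ = 0) := fun h => hb1 h.1
      simp only [if_neg hb, if_neg hb1, zero_mul, sum_const_zero]
  rw [h1]
  exact mul_le_mul_of_nonneg_right (ghost_sum hx.le hx1.le hy hy1
    (bx_mono ((Nat.le_succ _).trans hv) (mem_bx_nm v))) hp0.le

end odd

/-! ### The measures -/

open MeasureTheory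

lemma isClopen_cyl (B : Finset (Edg d)) (m : Om d) : IsClopen (cyl B m) := by
  have : cyl B m = ⋂ e ∈ B, ⋂ i : Fin 3, (fun ω : Om d => ω (i, e)) ⁻¹' {m (i, e)} := by
    ext ω
    simp [mem_cyl]
  rw [this]
  refine isClopen_biInter_finset fun e _ => ?_
  refine isClopen_iInter_of_finite fun i => ?_
  exact (isClopen_discrete _).preimage (continuous_apply _)

lemma measurable_cyl (B : Finset (Edg d)) (m : Om d) : MeasurableSet (cyl B m) :=
  (isClopen_cyl B m).isOpen.measurableSet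

/-- the finite-volume measure -/
noncomputable def muF (d n : ℕ) (x y : ℝ) : Measure (Om d) :=
  ∑ t ∈ (bE d n).powerset, ∑ S₁ ∈ (TS d n).powerset, ∑ S₂ ∈ (TS d n).powerset,
    ENNReal.ofReal ((if bd (dS d) S₁ = 0 ∧ bd (dS d) S₂ = 0 then WT n x y S₁ S₂ t else 0) /
      (Z (dS d) (wS d x y) (TS d n) 0 * Z (dS d) (wS d x 0) (TS d n) 0)) •
      Measure.dirac (cf S₁ S₂ t)

lemma muF_apply {n : ℕ} {x y : ℝ} (hx : 0 ≤ x) (hx1 : x ≤ 1) (hy : 0 ≤ y) {A : Set (Om d)}
    (hA : MeasurableSet A) : muF d n x y A = ENNReal.ofReal (EV d n x y 0 (ind A)) := by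
  have hpos : ∀ S₁ S₂ t, 0 ≤ ((if bd (dS d) S₁ = 0 ∧ bd (dS d) S₂ = 0 then WT n x y S₁ S₂ t else 0) /
      (Z (dS d) (wS d x y) (TS d n) 0 * Z (dS d) (wS d x 0) (TS d n) 0)) := by
    intro S₁ S₂ t
    refine div_nonneg ?_ (mul_nonneg (Z_nonneg (wS_nonneg hx hy) 0)
      (Z_nonneg (wS_nonneg hx le_rfl) 0))
    split_ifs
    · exact WT_nonneg hx hx1 hy _ _ _
    · exact le_rfl
  have h1 : EV d n x y 0 (ind A) = ∑ t ∈ (bE d n).powerset, ∑ S₁ ∈ (TS d n).powerset,
      ∑ S₂ ∈ (TS d n).powerset,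
      ((if bd (dS d) S₁ = 0 ∧ bd (dS d) S₂ = 0 then WT n x y S₁ S₂ t else 0) /
      (Z (dS d) (wS d x y) (TS d n) 0 * Z (dS d) (wS d x 0) (TS d n) 0)) *
        ind A (cf S₁ S₂ t) := by
    unfold EV NV
    rw [sum_div]
    refine sum_congr rfl fun t _ => ?_
    rw [sum_div]
    refine sum_congr rfl fun S₁ _ => ?_
    rw [sum_div]
    refine sum_congr rfl fun S₂ _ => ?_
    ring
  rw [h1]
  unfold muF
  rw [Measure.finsetSum_apply, ENNReal.ofReal_sum_of_nonneg]
  swap
  · intro t _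
    exact sum_nonneg fun S₁ _ => sum_nonneg fun S₂ _ => mul_nonneg (hpos _ _ _) (ind_nonneg _ _)
  refine sum_congr rfl fun t _ => ?_
  rw [Measure.finsetSum_apply, ENNReal.ofReal_sum_of_nonneg]
  swap
  · intro S₁ _
    exact sum_nonneg fun S₂ _ => mul_nonneg (hpos _ _ _) (ind_nonneg _ _)
  refine sum_congr rfl fun S₁ _ => ?_
  rw [Measure.finsetSum_apply, ENNReal.ofReal_sum_of_nonneg]
  swap
  · intro S₂ _
    exact mul_nonneg (hpos _ _ _) (ind_nonneg _ _)
  refine sum_congr rfl fun S₂ _ => ?_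
  rw [Measure.smul_apply, Measure.dirac_apply' _ hA, smul_eq_mul,
    ENNReal.ofReal_mul (hpos _ _ _)]
  congr 1
  by_cases h : cf S₁ S₂ t ∈ A
  · rw [Set.indicator_of_mem h, ind_pos h]; simp
  · rw [Set.indicator_of_notMem h, ind_neg h]; simp

lemma muF_prob {n : ℕ} {x y : ℝ} (hx : 0 < x) (hx1 : x < 1) (hy : 0 ≤ y) :
    IsProbabilityMeasure (muF d n x y) := by
  constructor
  rw [muF_apply hx.le hx1.le hy MeasurableSet.univ]
  have : (ind (Set.univ : Set (Om d))) = fun _ => 1 := by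
    funext ω; exact ind_pos (Set.mem_univ ω)
  rw [this, EV_one hx hx1 hy, ENNReal.ofReal_one]

lemma exists_limit {q : Finset (Edg d) → Om d → ℝ} (μ : ℕ → ProbabilityMeasure (Om d))
    (h : ∀ B m, Tendsto (fun n => ((μ n : Measure (Om d)) (cyl B m)).toReal) atTop
      (𝓝 (q B m))) :
    ∃ ν : ProbabilityMeasure (Om d), ∀ B m, ((ν : Measure (Om d)) (cyl B m)).toReal = q B m := by
  obtain ⟨ν, hν⟩ := exists_clusterPt_of_compactSpace (Filter.map μ atTop)
  refine ⟨ν, fun B m => ?_⟩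
  have h1 : Tendsto (fun ρ : ProbabilityMeasure (Om d) => ((ρ : Measure (Om d)) (cyl B m)).toReal)
      (𝓝 ν) (𝓝 (((ν : Measure (Om d)) (cyl B m)).toReal)) := by
    have := ProbabilityMeasure.tendsto_measure_of_isClopen_of_tendsto
      (tendsto_id (x := 𝓝 ν)) (isClopen_cyl B m)
    exact (NNReal.continuous_coe.tendsto _).comp this
  have h2 : MapClusterPt (((ν : Measure (Om d)) (cyl B m)).toReal) atTop
      ((fun ρ : ProbabilityMeasure (Om d) => ((ρ : Measure (Om d)) (cyl B m)).toReal) ∘ μ) :=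
    MapClusterPt.tendsto_comp h1 hν
  have h3 : ClusterPt (((ν : Measure (Om d)) (cyl B m)).toReal) (𝓝 (q B m)) :=
    ClusterPt.mono h2 (h B m)
  exact eq_of_nhds_neBot h3

end Pool.Agent.TH980
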