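import Pool.Agent.TH980.M3
import Mathlib.MeasureTheory.Measure.SeparableMeasure

/-!
# The infinite-volume measure
-/

set_option autoImplicit false
set_option linter.unusedSectionVars false
set_option linter.unusedSimpArgs false

open Finset Filter Topology MeasureTheory

namespace Pool.Agent.TH980

variable {d : ℕ}

/-! ### Local events generate -/

lemma Loc.eq_union {B : Finset (Edg d)} {A : Set (Om d)} (h : Loc B A) :
    A = ⋃ M ∈ {M | M ∈ PB B ∧ pt M ∈ A}, cyl B (pt M) := by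
  ext ω
  rw [Set.mem_iUnion₂]
  constructor
  · intro hω
    have h1 := ind_loc h ω
    rw [ind_pos hω] at h1
    by_contra hcon
    push Not at hcon
    have : ∑ M ∈ PB B, ind A (pt M) * ind (cyl B (pt M)) ω = 0 := by
      refine sum_eq_zero fun M hM => ?_
      by_cases hA : pt M ∈ A
      · rw [ind_neg (hcon M ⟨hM, hA⟩), mul_zero]
      · rw [ind_neg hA, zero_mul]
    rw [this] at h1
    exact one_ne_zero h1
  · rintro ⟨M, ⟨-, hA⟩, hω⟩
    exact h (pt M) ω (fun e he i => (hω e he i).symm) hA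

lemma finite_PB (B : Finset (Edg d)) (A : Set (Om d)) : {M | M ∈ PB B ∧ pt M ∈ A}.Finite :=
  (PB B).finite_toSet.subset fun _ hM => hM.1

lemma Loc.measurable {B : Finset (Edg d)} {A : Set (Om d)} (h : Loc B A) : MeasurableSet A := by
  rw [h.eq_union]
  exact (finite_PB B A).measurableSet_biUnion fun M _ => measurable_cyl B (pt M)

/-- the family of cylinders -/
def Cy (d : ℕ) : Set (Set (Om d)) := {S | ∃ B m, S = cyl B m}

lemma isPi_Cy : IsPiSystem (Cy d) := by
  rintro _ ⟨B, m, rfl⟩ _ ⟨B', m', rfl⟩ ⟨ω, hω, hω'⟩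
  classical
  refine ⟨B ∪ B', ω, ?_⟩
  ext ρ
  constructor
  · rintro ⟨h, h'⟩ e he i
    rcases Finset.mem_union.mp he with he | he
    · rw [h e he i, hω e he i]
    · rw [h' e he i, hω' e he i]
  · intro h
    exact ⟨fun e he i => (h e (Finset.mem_union_left _ he) i).trans (hω e he i),
      fun e he i => (h e (Finset.mem_union_right _ he) i).trans (hω' e he i)⟩

lemma gen_Cy : (inferInstance : MeasurableSpace (Om d)) = MeasurableSpace.generateFrom (Cy d) := by
  refine le_antisymm ?_ ?_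
  · show MeasurableSpace.pi ≤ _
    refine iSup_le fun p => ?_
    rintro _ ⟨s, -, rfl⟩
    have hL : Loc {p.2} ((fun ω : Om d => ω p) ⁻¹' s) := by
      intro ω ω' h hω
      have := h p.2 (mem_singleton_self _) p.1
      show ω' p ∈ s
      rw [← this]
      exact hω
    rw [hL.eq_union]
    refine (finite_PB {p.2} _).measurableSet_biUnion fun M _ => ?_
    exact MeasurableSpace.measurableSet_generateFrom ⟨_, _, rfl⟩
  · refine MeasurableSpace.generateFrom_le ?_
    rintro _ ⟨B, m, rfl⟩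
    exact measurable_cyl B m

lemma cyl_empty (m : Om d) : cyl ∅ m = Set.univ := by
  ext ω
  simp [mem_cyl]

lemma ext_cyl {μ ν : Measure (Om d)} [IsFiniteMeasure μ] (h : ∀ B m, μ (cyl B m) = ν (cyl B m)) :
    μ = ν := by
  refine ext_of_generate_finite (Cy d) gen_Cy isPi_Cy ?_ ?_
  · rintro _ ⟨B, m, rfl⟩
    exact h B m
  · have := h ∅ (fun _ => false)
    rwa [cyl_empty] at this

/-- the family of local events -/
def LE (d : ℕ) : Set (Set (Om d)) := {A | ∃ B, Loc B A}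

lemma isAlg_LE : IsSetAlgebra (LE d) where
  empty_mem := ⟨∅, fun _ _ _ h => h⟩
  compl_mem := by
    rintro A ⟨B, h⟩
    exact ⟨B, h.compl⟩
  union_mem := by
    rintro A A' ⟨B, h⟩ ⟨B', h'⟩
    classical
    exact ⟨B ∪ B', (h.mono Finset.subset_union_left).union (h'.mono Finset.subset_union_right)⟩

lemma gen_LE : (inferInstance : MeasurableSpace (Om d)) = MeasurableSpace.generateFrom (LE d) := by
  refine le_antisymm ?_ ?_
  · rw [gen_Cy]
    refine MeasurableSpace.generateFrom_mono ?_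
    rintro _ ⟨B, m, rfl⟩
    exact ⟨B, Loc_cyl B m⟩
  · refine MeasurableSpace.generateFrom_le ?_
    rintro A ⟨B, h⟩
    exact h.measurable

lemma dense_LE (μ : Measure (Om d)) [IsFiniteMeasure μ] : μ.MeasureDense (LE d) :=
  Measure.MeasureDense.of_generateFrom_isSetAlgebra_finite μ isAlg_LE gen_LE

lemma real_loc (μ : Measure (Om d)) [IsFiniteMeasure μ] {B : Finset (Edg d)} {A : Set (Om d)}
    (h : Loc B A) : μ.real A = ∑ M ∈ PB B, ind A (pt M) * μ.real (cyl B (pt M)) := by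
  have h1 : μ.real A = ∫ ω, ind A ω ∂μ := by
    have e1 : (fun ω => ind A ω) = A.indicator 1 := by
      funext ω
      by_cases hω : ω ∈ A
      · rw [ind_pos hω, Set.indicator_of_mem hω]; rfl
      · rw [ind_neg hω, Set.indicator_of_notMem hω]
    rw [e1, integral_indicator_one h.measurable]
  have h2 : ∀ M, μ.real (cyl B (pt M)) = ∫ ω, ind (cyl B (pt M)) ω ∂μ := by
    intro M
    have e1 : (fun ω => ind (cyl B (pt M)) ω) = (cyl B (pt M)).indicator 1 := by
      funext ω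
      by_cases hω : ω ∈ cyl B (pt M)
      · rw [ind_pos hω, Set.indicator_of_mem hω]; rfl
      · rw [ind_neg hω, Set.indicator_of_notMem hω]
    rw [e1, integral_indicator_one (measurable_cyl _ _)]
  have h3 : ∀ M, Integrable (fun ω => ind (cyl B (pt M)) ω) μ := by
    intro M
    have e1 : (fun ω => ind (cyl B (pt M)) ω) = (cyl B (pt M)).indicator 1 := by
      funext ω
      by_cases hω : ω ∈ cyl B (pt M)
      · rw [ind_pos hω, Set.indicator_of_mem hω]; rfl
      · rw [ind_neg hω, Set.indicator_of_notMem hω]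
    rw [e1]
    exact (integrable_const (1 : ℝ)).indicator (measurable_cyl _ _)
  rw [h1]
  have h4 : (fun ω => ind A ω) = fun ω => ∑ M ∈ PB B, ind A (pt M) * ind (cyl B (pt M)) ω := by
    funext ω; exact ind_loc h ω
  rw [h4, integral_finsetSum]
  · refine sum_congr rfl fun M _ => ?_
    rw [integral_const_mul, h2]
  · intro M _
    exact (h3 M).const_mul _

/-! ### Limits of the weights -/

section limits

variable {x : ℝ} {κ : Type*} {l : Filter κ} {f₁ f₂ : κ → Gam d → ℝ} {c₁ c₂ : Gam d → ℝ}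

lemma tendsto_ell (h : ∀ a, Tendsto (fun k => f₁ k a) l (𝓝 (c₁ a))) (a : Gam d)
    (B : Finset (Edg d)) (s : Edg d → Bool) :
    Tendsto (fun k => ell x (f₁ k) a B s) l (𝓝 (ell x c₁ a B s)) := by
  unfold ell
  exact tendsto_finsetSum _ fun J _ => (h _).const_mul _

lemma tendsto_qq (h1 : ∀ a, Tendsto (fun k => f₁ k a) l (𝓝 (c₁ a)))
    (h2 : ∀ a, Tendsto (fun k => f₂ k a) l (𝓝 (c₂ a))) (a : Gam d)
    (B : Finset (Edg d)) (m : Om d) :
    Tendsto (fun k => qq x (f₁ k) (f₂ k) a B m) l (𝓝 (qq x c₁ c₂ a B m)) := by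
  unfold qq
  exact ((tendsto_ell h1 a B _).mul (tendsto_ell h2 a B _)).mul_const _

lemma tendsto_qv (h1 : ∀ a, Tendsto (fun k => f₁ k a) l (𝓝 (c₁ a)))
    (h2 : ∀ a, Tendsto (fun k => f₂ k a) l (𝓝 (c₂ a))) (a : Gam d)
    (B : Finset (Edg d)) (A : Set (Om d)) :
    Tendsto (fun k => qv x (f₁ k) (f₂ k) a B A) l (𝓝 (qv x c₁ c₂ a B A)) := by
  unfold qv
  exact tendsto_finsetSum _ fun M _ => (tendsto_qq h1 h2 a B _).const_mul _

end limits

/-- the characterisation of the infinite-volume measure -/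
def IsQ (x : ℝ) (Q : Measure (Om d)) : Prop :=
  ∀ B m, Q.real (cyl B m) = qq x (cp d x) (ci d x 0) 0 B m

lemma exists_Qy (d : ℕ) {x y : ℝ} (hx : 0 < x) (hx1 : x < 1) (hy : 0 < y) (hy1 : y < 1) :
    ∃ ν : ProbabilityMeasure (Om d),
      ∀ B m, ((ν : Measure (Om d)) (cyl B m)).toReal = qq x (ci d x y) (ci d x 0) 0 B m := by
  have hp : ∀ n, IsProbabilityMeasure (muF d n x y) := fun n => muF_prob hx hx1 hy.le
  set μ : ℕ → ProbabilityMeasure (Om d) := fun n => ⟨muF d n x y, hp n⟩ with hμ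
  refine exists_limit μ ?_
  intro B m
  obtain ⟨n0, hn0⟩ := exists_bE B
  have h1 : Tendsto (fun n => qq x (cn d n x y) (cn d n x 0) 0 B m) atTop
      (𝓝 (qq x (ci d x y) (ci d x 0) 0 B m)) :=
    tendsto_qq (tendsto_cn hx.le hx1.le hy.le hy1.le)
      (tendsto_cn hx.le hx1.le le_rfl zero_le_one) 0 B m
  refine h1.congr' ?_
  filter_upwards [eventually_ge_atTop n0] with n hn
  have h2 : ((μ n : Measure (Om d)) (cyl B m)) = muF d n x y (cyl B m) := rfl
  rw [h2, muF_apply hx.le hx1.le hy.le (measurable_cyl B m),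
    ENNReal.toReal_ofReal (EV_nonneg hx.le hx1.le hy.le (ind_nonneg _)),
    EV_cyl hx hx1 (hn0.trans (bE_mono hn))]

lemma exists_Q_aux (d : ℕ) {x : ℝ} (hx : 0 < x) (hx1 : x < 1) (ν : ℕ → ProbabilityMeasure (Om d))
    (hν : ∀ k : ℕ, ∀ B m, ((ν k : Measure (Om d)) (cyl B m)).toReal =
        qq x (ci d x (1 / (k + 2))) (ci d x 0) 0 B m) :
    ∃ Q : ProbabilityMeasure (Om d), ∀ B m, ((Q : Measure (Om d)) (cyl B m)).toReal =
      qq x (cp d x) (ci d x 0) 0 B m := by
  refine exists_limit ν ?_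
  intro B m
  have h1 : Tendsto (fun k : ℕ => qq x (ci d x (1 / (k + 2))) (ci d x 0) 0 B m) atTop
      (𝓝 (qq x (cp d x) (ci d x 0) 0 B m)) :=
    tendsto_qq (f₁ := fun k : ℕ => ci d x (1 / (k + 2))) (f₂ := fun _ : ℕ => ci d x 0)
      (c₁ := cp d x) (c₂ := ci d x 0)
      (tendsto_cp hx.le hx1.le) (fun _ => tendsto_const_nhds) 0 B m
  refine h1.congr fun k => ?_
  rw [hν k B m]

lemma exists_Q (d : ℕ) {x : ℝ} (hx : 0 < x) (hx1 : x < 1) :
    ∃ Q : Measure (Om d), IsProbabilityMeasure Q ∧ IsQ x Q := by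
  obtain ⟨Q, hQ⟩ := exists_Q_aux d hx hx1
    (fun k => (exists_Qy d hx hx1 (yk_pos k) (yk_lt k)).choose)
    (fun k => (exists_Qy d hx hx1 (yk_pos k) (yk_lt k)).choose_spec)
  exact ⟨(Q : Measure (Om d)), inferInstance, fun B m => hQ B m⟩

section Q

variable {x : ℝ} {Q : Measure (Om d)} [IsProbabilityMeasure Q]

lemma Q_loc (hQ : IsQ x Q) {B : Finset (Edg d)} {A : Set (Om d)} (h : Loc B A) :
    Q.real A = qv x (cp d x) (ci d x 0) 0 B A := by
  rw [real_loc Q h]
  unfold qv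
  exact sum_congr rfl fun M _ => by rw [hQ B (pt M)]

/-- Comparison of weights of local events via finite volumes. -/
lemma qv_le (hx : 0 < x) (hx1 : x < 1) {a b : Gam d} {B B' : Finset (Edg d)} {A A' : Set (Om d)}
    (hA : Loc B A) (hA' : Loc B' A') {r : ℝ → ℝ} {n0 : ℕ} (hr : Tendsto r (𝓝[>] 0) (𝓝 0))
    (h : ∀ y : ℝ, 0 < y → y < 1 → ∀ n ≥ n0, EV d n x y a (ind A) ≤ EV d n x y b (ind A') + r y) :
    qv x (cp d x) (ci d x 0) a B A ≤ qv x (cp d x) (ci d x 0) b B' A' := by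
  have h1 : ∀ y : ℝ, 0 < y → y < 1 →
      qv x (ci d x y) (ci d x 0) a B A ≤ qv x (ci d x y) (ci d x 0) b B' A' + r y := by
    intro y hy hy1
    have t1 := tendsto_qv (x := x) (tendsto_cn hx.le hx1.le hy.le hy1.le)
      (tendsto_cn hx.le hx1.le le_rfl zero_le_one) a B A
    have t2 := (tendsto_qv (x := x) (tendsto_cn hx.le hx1.le hy.le hy1.le)
      (tendsto_cn hx.le hx1.le le_rfl zero_le_one) b B' A').add_const (r y)
    refine le_of_tendsto_of_tendsto t1 t2 ?_
    obtain ⟨n1, hn1⟩ := exists_bE (B ∪ B')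
    filter_upwards [eventually_ge_atTop n0, eventually_ge_atTop n1] with n hn hn'
    have e1 : B ⊆ bE d n := Finset.subset_union_left.trans (hn1.trans (bE_mono hn'))
    have e2 : B' ⊆ bE d n := Finset.subset_union_right.trans (hn1.trans (bE_mono hn'))
    show qv x (cn d n x y) (cn d n x 0) a B A ≤ qv x (cn d n x y) (cn d n x 0) b B' A' + r y
    rw [← EV_loc hx hx1 e1 hA, ← EV_loc hx hx1 e2 hA']
    exact h y hy hy1 n hn
  have t1 := tendsto_qv (x := x) (tendsto_cp_nhds hx.le hx1.le)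
    (fun a => tendsto_const_nhds (x := ci d x 0 a)) a B A
  have t2 := (tendsto_qv (x := x) (tendsto_cp_nhds hx.le hx1.le)
    (fun a => tendsto_const_nhds (x := ci d x 0 a)) b B' A').add hr
  rw [add_zero] at t2
  refine le_of_tendsto_of_tendsto t1 t2 ?_
  have h3 : ∀ᶠ y : ℝ in 𝓝[>] 0, y ∈ Set.Ioo (0 : ℝ) 1 := Ioo_mem_nhdsGT one_pos
  filter_upwards [h3] with y hy
  exact h1 y hy.1 hy.2

lemma ind_empty (ω : Om d) : ind (∅ : Set (Om d)) ω = 0 := ind_neg (Set.notMem_empty ω)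

lemma Q_null (hx : 0 < x) (hx1 : x < 1) (hQ : IsQ x Q) {B : Finset (Edg d)} {A : Set (Om d)}
    (hA : Loc B A) {r : ℝ → ℝ} {n0 : ℕ} (hr : Tendsto r (𝓝[>] 0) (𝓝 0))
    (h : ∀ y : ℝ, 0 < y → y < 1 → ∀ n ≥ n0, EV d n x y 0 (ind A) ≤ r y) : Q A = 0 := by
  have h1 : qv x (cp d x) (ci d x 0) 0 B A ≤ qv x (cp d x) (ci d x 0) 0 ∅ (∅ : Set (Om d)) := by
    refine qv_le hx hx1 hA (fun _ _ _ h => h) hr (n0 := n0) ?_
    intro y hy hy1 n hn
    have e1 : ind (∅ : Set (Om d)) = fun _ => 0 := by funext ω; exact ind_empty ω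
    rw [e1, EV_zero_fun, zero_add]
    exact h y hy hy1 n hn
  have h2 : qv x (cp d x) (ci d x 0) 0 ∅ (∅ : Set (Om d)) = 0 := by
    unfold qv
    refine sum_eq_zero fun M _ => ?_
    rw [ind_empty, zero_mul]
  rw [h2, ← Q_loc hQ hA] at h1
  have h3 : Q.real A = 0 := le_antisymm h1 measureReal_nonneg
  rwa [measureReal_eq_zero_iff] at h3

/-- The degrees are almost surely even. -/
lemma Q_even (hx : 0 < x) (hx1 : x < 1) (hQ : IsQ x Q) :
    ∀ᵐ ω ∂Q, ∀ v, dg ω 0 v = 0 ∧ dg ω 1 v = 0 := by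
  rw [ae_all_iff]
  intro v
  have h0 : Q (Odv 0 v) = 0 := by
    refine Q_null hx hx1 hQ (Loc_Odv 0 v) (r := id) (n0 := nm v + 1) ?_ ?_
    · exact tendsto_id.mono_left nhdsWithin_le_nhds
    · intro y hy hy1 n hn
      exact EV_odd_zero hx hx1 hy.le hy1.le hn
  have h1 : Q (Odv 1 v) = 0 := by
    refine Q_null hx hx1 hQ (Loc_Odv 1 v) (r := fun _ => 0) (n0 := nm v + 1)
      tendsto_const_nhds ?_
    intro y hy hy1 n hn
    rw [EV_odd_one hx hx1 hy.le hn]
  have e0 : ∀ᵐ ω ∂Q, ω ∉ Odv 0 v := by rw [ae_iff]; simpa using h0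
  have e1 : ∀ᵐ ω ∂Q, ω ∉ Odv 1 v := by rw [ae_iff]; simpa using h1
  filter_upwards [e0, e1] with ω h0 h1
  exact ⟨not_not.mp h0, not_not.mp h1⟩

/-- The even subgraphs are almost surely contained in the trace. -/
lemma Q_sub (hQ : IsQ x Q) :
    ∀ᵐ ω ∂Q, ∀ e, (ω (0, e) = true ∨ ω (1, e) = true) → ω (2, e) = true := by
  rw [ae_all_iff]
  intro e
  have hL : Loc {e} {ω : Om d | ¬ ((ω (0, e) = true ∨ ω (1, e) = true) → ω (2, e) = true)} := by
    intro ω ω' h hω
    have h1 := fun i => h e (mem_singleton_self e) i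
    show ¬ ((ω' (0, e) = true ∨ ω' (1, e) = true) → ω' (2, e) = true)
    rw [← h1, ← h1, ← h1]
    exact hω
  rw [ae_iff, ← measureReal_eq_zero_iff, Q_loc hQ hL]
  unfold qv
  refine sum_eq_zero fun M _ => ?_
  by_cases hM : pt M ∈ {ω : Om d | ¬ ((ω (0, e) = true ∨ ω (1, e) = true) → ω (2, e) = true)}
  · have hM' : ¬ ((pt M (0, e) = true ∨ pt M (1, e) = true) → pt M (2, e) = true) := hM
    push Not at hM'
    unfold qq
    rw [prod_singleton]
    have : kp x (pt M (0, e) || pt M (1, e)) (pt M (2, e)) = 0 := by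
      have e1 : (pt M (0, e) || pt M (1, e)) = true := by
        rw [Bool.or_eq_true]; exact hM'.1
      rw [e1, Bool.not_eq_true _ |>.mp hM'.2]
      rfl
    rw [this]
    ring
  · rw [ind_neg hM, zero_mul]

/-- The switching inequality in infinite volume. -/
lemma Q_swap (hx : 0 < x) (hx1 : x < 1) (hQ : IsQ x Q) {b : Gam d}
    {D : Set (Om d)} {π : Om d → Finset (Edg d)}
    (hD : ∀ ω ω' : Om d, (∀ e, ω (2, e) = ω' (2, e)) → ω ∈ D → ω' ∈ D ∧ π ω = π ω')
    (hb : ∀ ω ∈ D, bd dE (π ω) = b ∧ ∀ e ∈ π ω, ω (2, e) = true)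
    {B B' : Finset (Edg d)} {A : Set (Om d)} (hA : Loc B A) (hDA : Loc B' (D ∩ sw π ⁻¹' A)) :
    Q.real (D ∩ sw π ⁻¹' A) ≤ qv x (cp d x) (ci d x 0) b B A := by
  rw [Q_loc hQ hDA]
  refine qv_le hx hx1 hDA hA (r := fun _ => 0) (n0 := 0) tendsto_const_nhds ?_
  intro y hy hy1 n hn
  rw [add_zero]
  exact EV_swap hx.le hx1.le hy.le hD hb A

end Q

end Pool.Agent.TH980
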