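import Pool.Agent.TH980.M5

/-!
# Zero-one law and insertion tolerance
-/

set_option autoImplicit false
set_option linter.unusedSectionVars false
set_option linter.unusedSimpArgs false

open Finset Filter Topology MeasureTheory

namespace Pool.Agent.TH980

variable {d : ℕ}

lemma ind_eq_indicator {α : Type*} (A : Set α) : ind A = A.indicator 1 := by
  funext ω
  by_cases hω : ω ∈ A
  · rw [ind_pos hω, Set.indicator_of_mem hω]; rfl
  · rw [ind_neg hω, Set.indicator_of_notMem hω]

lemma integral_ind {α : Type*} [MeasurableSpace α] (μ : Measure α) {A : Set α}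
    (hA : MeasurableSet A) : ∫ ω, ind A ω ∂μ = μ.real A := by
  rw [ind_eq_indicator, integral_indicator_one hA]

lemma integrable_ind {α : Type*} [MeasurableSpace α] (μ : Measure α) [IsFiniteMeasure μ]
    {A : Set α} (hA : MeasurableSet A) : Integrable (ind A) μ := by
  rw [ind_eq_indicator]
  exact (integrable_const (1 : ℝ)).indicator hA

lemma ind_inter {α : Type*} (A A' : Set α) (ω : α) : ind (A ∩ A') ω = ind A ω * ind A' ω := by
  by_cases h : ω ∈ A
  · by_cases h' : ω ∈ A'
    · rw [ind_pos h, ind_pos h', ind_pos (A := A ∩ A') ⟨h, h'⟩, mul_one]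
    · rw [ind_neg h', ind_neg (A := A ∩ A') (fun h'' => h' h''.2), mul_zero]
  · rw [ind_neg h, ind_neg (A := A ∩ A') (fun h'' => h h''.1), zero_mul]

lemma ind_preimage {α β : Type*} (f : α → β) (A : Set β) (ω : α) :
    ind (f ⁻¹' A) ω = ind A (f ω) := rfl

section Q

variable {x : ℝ} {Q : Measure (Om d)} [IsProbabilityMeasure Q]

lemma Q_loc_mix (hx : 0 < x) (hx1 : x < 1) (hQ : IsQ x Q) {B B' : Finset (Edg d)}
    {A A' : Set (Om d)} (hA : Loc B A) (hA' : Loc B' A') :
    Tendsto (fun v : Vtx d => Q.real (A ∩ shO v ⁻¹' A')) cofinite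
      (𝓝 (Q.real A * Q.real A')) := by
  have h1 : ∀ v : Vtx d, Q.real (A ∩ shO v ⁻¹' A') = ∑ M ∈ PB B, ∑ M' ∈ PB B',
      (ind A (pt M) * ind A' (pt M')) * Q.real (cyl B (pt M) ∩ shO v ⁻¹' cyl B' (pt M')) := by
    intro v
    rw [← integral_ind Q (hA.measurable.inter (measurable_shO v hA'.measurable))]
    have e1 : (fun ω => ind (A ∩ shO v ⁻¹' A') ω) = fun ω => ∑ M ∈ PB B, ∑ M' ∈ PB B',
        (ind A (pt M) * ind A' (pt M')) * ind (cyl B (pt M) ∩ shO v ⁻¹' cyl B' (pt M')) ω := by
      funext ω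
      rw [ind_inter, ind_preimage, ind_loc hA ω, ind_loc hA' (shO v ω), sum_mul_sum]
      refine sum_congr rfl fun M _ => sum_congr rfl fun M' _ => ?_
      rw [ind_inter, ind_preimage]
      ring
    have hm : ∀ M M', MeasurableSet (cyl B (pt M) ∩ shO v ⁻¹' cyl B' (pt M')) := fun M M' =>
      (measurable_cyl _ _).inter (measurable_shO v (measurable_cyl _ _))
    rw [e1, integral_finsetSum]
    · refine sum_congr rfl fun M _ => ?_
      rw [integral_finsetSum]
      · refine sum_congr rfl fun M' _ => ?_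
        rw [integral_const_mul, integral_ind Q (hm M M')]
      · intro M' _
        exact (integrable_ind Q (hm M M')).const_mul _
    · intro M _
      refine integrable_finsetSum _ fun M' _ => ?_
      exact (integrable_ind Q (hm M M')).const_mul _
  simp only [h1]
  have h2 : Q.real A * Q.real A' = ∑ M ∈ PB B, ∑ M' ∈ PB B',
      (ind A (pt M) * ind A' (pt M')) * (Q.real (cyl B (pt M)) * Q.real (cyl B' (pt M'))) := by
    rw [real_loc Q hA, real_loc Q hA', sum_mul_sum]
    refine sum_congr rfl fun M _ => sum_congr rfl fun M' _ => by ring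
  rw [h2]
  refine tendsto_finsetSum _ fun M _ => tendsto_finsetSum _ fun M' _ => ?_
  exact (Q_cyl_mix hx hx1 hQ B B' (pt M) (pt M')).const_mul _

lemma infinite_Vtx (hd : 0 < d) : Infinite (Vtx d) := by
  have : Nonempty (Fin d) := ⟨⟨0, hd⟩⟩
  infer_instance

lemma real_symmDiff_le {A L : Set (Om d)} (_hA : MeasurableSet A) (_hL : MeasurableSet L) :
    |Q.real A - Q.real L| ≤ Q.real (symmDiff A L) := by
  have h1 : A ⊆ L ∪ symmDiff A L := by
    intro ω hω
    by_cases h : ω ∈ L
    · exact Or.inl h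
    · exact Or.inr (Or.inl ⟨hω, h⟩)
  have h2 : L ⊆ A ∪ symmDiff A L := by
    intro ω hω
    by_cases h : ω ∈ A
    · exact Or.inl h
    · exact Or.inr (Or.inr ⟨hω, h⟩)
  have h3 := (measureReal_mono (μ := Q) h1).trans (measureReal_union_le _ _)
  have h4 := (measureReal_mono (μ := Q) h2).trans (measureReal_union_le _ _)
  rw [abs_le]
  constructor <;> linarith

/-- The zero-one law for translation invariant events. -/
lemma Q_zero_one (hd : 0 < d) (hx : 0 < x) (hx1 : x < 1) (hQ : IsQ x Q) {A : Set (Om d)}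
    (hA : MeasurableSet A) (hinv : ∀ v, shO v ⁻¹' A = A) : Q A = 0 ∨ Q A = 1 := by
  have := infinite_Vtx hd
  have key : ∀ ε : ℝ, 0 < ε → |Q.real A - Q.real A * Q.real A| ≤ 4 * ε := by
    intro ε hε
    obtain ⟨L, ⟨B, hL⟩, hAL⟩ := (dense_LE Q).approx A hA (measure_ne_top Q A) ε hε
    have hAL' : Q.real (symmDiff A L) ≤ ε := by
      rw [measureReal_def]
      exact (ENNReal.toReal_le_of_le_ofReal hε.le hAL.le)
    have hLm := hL.measurable
    have h1 : ∀ v : Vtx d, |Q.real A - Q.real (L ∩ shO v ⁻¹' L)| ≤ 2 * ε := by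
      intro v
      have e1 : Q.real A = Q.real (A ∩ shO v ⁻¹' A) := by rw [hinv, Set.inter_self]
      rw [e1]
      refine (real_symmDiff_le (hA.inter (measurable_shO v hA))
        (hLm.inter (measurable_shO v hLm))).trans ?_
      have e2 : symmDiff (A ∩ shO v ⁻¹' A) (L ∩ shO v ⁻¹' L) ⊆
          symmDiff A L ∪ shO v ⁻¹' (symmDiff A L) := by
        rintro ω (⟨⟨h1, h2⟩, h3⟩ | ⟨⟨h1, h2⟩, h3⟩)
        · by_cases h4 : ω ∈ L
          · refine Or.inr (Or.inl ⟨h2, fun h5 => h3 ⟨h4, h5⟩⟩)
          · exact Or.inl (Or.inl ⟨h1, h4⟩)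
        · by_cases h4 : ω ∈ A
          · refine Or.inr (Or.inr ⟨h2, fun h5 => h3 ⟨h4, h5⟩⟩)
          · exact Or.inl (Or.inr ⟨h1, h4⟩)
      have e3 : Q.real (shO v ⁻¹' (symmDiff A L)) = Q.real (symmDiff A L) := by
        rw [measureReal_def, measureReal_def,
          (Q_shO hx hx1 hQ v).measure_preimage (hA.symmDiff hLm).nullMeasurableSet]
      calc Q.real (symmDiff (A ∩ shO v ⁻¹' A) (L ∩ shO v ⁻¹' L))
          ≤ Q.real (symmDiff A L ∪ shO v ⁻¹' (symmDiff A L)) := measureReal_mono e2
        _ ≤ Q.real (symmDiff A L) + Q.real (shO v ⁻¹' (symmDiff A L)) :=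
            measureReal_union_le _ _
        _ ≤ 2 * ε := by rw [e3]; linarith
    have h2 : |Q.real A - Q.real L * Q.real L| ≤ 2 * ε := by
      have t1 : Tendsto (fun v : Vtx d => |Q.real A - Q.real (L ∩ shO v ⁻¹' L)|) cofinite
          (𝓝 |Q.real A - Q.real L * Q.real L|) :=
        ((Q_loc_mix hx hx1 hQ hL hL).const_sub _).abs
      exact le_of_tendsto' t1 h1
    have h3 := (real_symmDiff_le (Q := Q) hA hLm).trans hAL'
    have h4 : 0 ≤ Q.real A := measureReal_nonneg
    have h5 : Q.real A ≤ 1 := measureReal_le_one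
    have h6 : 0 ≤ Q.real L := measureReal_nonneg
    have h7 : Q.real L ≤ 1 := measureReal_le_one
    rw [abs_le] at h2 h3 ⊢
    constructor <;> nlinarith
  have h0 : Q.real A - Q.real A * Q.real A = 0 := by
    by_contra hne
    have hpos : 0 < |Q.real A - Q.real A * Q.real A| := abs_pos.mpr hne
    have := key (|Q.real A - Q.real A * Q.real A| / 8) (by positivity)
    linarith
  have h8 : Q.real A * (1 - Q.real A) = 0 := by linarith
  rcases mul_eq_zero.mp h8 with h | h
  · left
    rwa [measureReal_eq_zero_iff] at h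
  · right
    have : Q.real A = 1 := by linarith
    rw [measureReal_def] at this
    rwa [ENNReal.toReal_eq_one_iff] at this

/-! ### Insertion tolerance -/

/-- opening the edges in `F` -/
def ins (F : Finset (Edg d)) (ω : Om d) : Om d := fun p =>
  if p.1 = 2 ∧ p.2 ∈ F then true else ω p

lemma measurable_ins (F : Finset (Edg d)) : Measurable (ins F : Om d → Om d) := by
  refine measurable_pi_lambda _ fun p => ?_
  unfold ins
  by_cases h : p.1 = 2 ∧ p.2 ∈ F
  · simp only [if_pos h]; exact measurable_const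
  · simp only [if_neg h]; exact measurable_pi_apply p

lemma Q_ins_cyl (hx : 0 < x) (hx1 : x < 1) (hQ : IsQ x Q) {B : Finset (Edg d)} {e : Edg d}
    (he : e ∈ B) (m : Om d) :
    Q.real (ins {e} ⁻¹' cyl B m) ≤ (x ^ 2)⁻¹ * Q.real (cyl B m) := by
  have hx2 : 0 < x ^ 2 := by positivity
  by_cases hm : m (2, e) = true
  · set m' : Om d := fun p => if p.1 = 2 ∧ p.2 = e then false else m p with hm'
    have h1 : ins {e} ⁻¹' cyl B m ⊆ cyl B m ∪ cyl B m' := by
      intro ω hω
      by_cases h2 : ω (2, e) = true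
      · left
        intro e' he' i
        have h3 := hω e' he' i
        unfold ins at h3
        by_cases h4 : i = 2 ∧ e' = e
        · obtain ⟨rfl, rfl⟩ := h4
          rw [h2, hm]
        · rw [if_neg (fun h => h4 ⟨h.1, mem_singleton.mp h.2⟩)] at h3
          exact h3
      · right
        intro e' he' i
        have h3 := hω e' he' i
        unfold ins at h3
        rw [hm']
        by_cases h4 : i = 2 ∧ e' = e
        · show _ = if i = 2 ∧ e' = e then false else m (i, e')
          rw [if_pos h4]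
          obtain ⟨rfl, rfl⟩ := h4
          exact Bool.not_eq_true _ |>.mp h2
        · rw [if_neg (fun h => h4 ⟨h.1, mem_singleton.mp h.2⟩)] at h3
          show _ = if i = 2 ∧ e' = e then false else m (i, e')
          rw [if_neg h4]
          exact h3
    have h2 : Q.real (ins {e} ⁻¹' cyl B m) ≤ Q.real (cyl B m) + Q.real (cyl B m') :=
      (measureReal_mono h1).trans (measureReal_union_le _ _)
    set R := ell x (cp d x) 0 B (fun e => m (0, e)) * ell x (ci d x 0) 0 B (fun e => m (1, e)) *
      ∏ e' ∈ B.erase e, kp x (m (0, e') || m (1, e')) (m (2, e')) with hR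
    have h3 : Q.real (cyl B m) = R * kp x (m (0, e) || m (1, e)) true := by
      rw [hQ, hR]
      unfold qq
      rw [← mul_prod_erase B _ he, hm]
      ring
    have h4 : Q.real (cyl B m') = R * kp x (m (0, e) || m (1, e)) false := by
      rw [hQ, hR]
      unfold qq
      rw [← mul_prod_erase B _ he]
      have e0 : ∀ e', m' (0, e') = m (0, e') := by
        intro e'
        rw [hm']
        exact if_neg (fun h => absurd h.1 (show ¬ (0 : Fin 3) = 2 by decide))
      have e1 : ∀ e', m' (1, e') = m (1, e') := by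
        intro e'
        rw [hm']
        exact if_neg (fun h => absurd h.1 (show ¬ (1 : Fin 3) = 2 by decide))
      have e2 : m' (2, e) = false := if_pos ⟨rfl, rfl⟩
      have e3 : ∀ e' ∈ B.erase e, m' (2, e') = m (2, e') := by
        intro e' he'
        exact if_neg (fun h => (Finset.mem_erase.mp he').1 h.2)
      simp only [e0, e1, e2]
      rw [prod_congr rfl (fun e' he' => by rw [e3 e' he'])]
      ring
    have h5 := kp_sum x (m (0, e) || m (1, e))
    have h6 : Q.real (cyl B m) + Q.real (cyl B m') = R := by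
      rw [h3, h4, ← mul_add, h5, mul_one]
    have h7 : 0 ≤ R := by
      rw [← h6]
      exact add_nonneg measureReal_nonneg measureReal_nonneg
    have h8 : x ^ 2 ≤ kp x (m (0, e) || m (1, e)) true := by
      rcases (m (0, e) || m (1, e))
      · exact le_rfl
      · show x ^ 2 ≤ 1
        nlinarith
    rw [inv_mul_eq_div, le_div_iff₀ hx2]
    calc Q.real (ins {e} ⁻¹' cyl B m) * x ^ 2 ≤ R * x ^ 2 := by
          refine mul_le_mul_of_nonneg_right ?_ hx2.le
          rw [← h6]; exact h2
      _ ≤ R * kp x (m (0, e) || m (1, e)) true := mul_le_mul_of_nonneg_left h8 h7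
      _ = Q.real (cyl B m) := h3.symm
  · have h1 : ins {e} ⁻¹' cyl B m = ∅ := by
      rw [Set.eq_empty_iff_forall_notMem]
      intro ω hω
      have h2 := hω e he 2
      unfold ins at h2
      rw [if_pos ⟨rfl, mem_singleton_self e⟩] at h2
      exact hm h2.symm
    rw [h1, measureReal_empty]
    have : 0 ≤ Q.real (cyl B m) := measureReal_nonneg
    positivity

lemma Q_ins_one (hx : 0 < x) (hx1 : x < 1) (hQ : IsQ x Q) (e : Edg d) {A : Set (Om d)}
    (hA : MeasurableSet A) : Q.real (ins {e} ⁻¹' A) ≤ (x ^ 2)⁻¹ * Q.real A := by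
  have hx2 : 0 < (x ^ 2)⁻¹ := by positivity
  set μ := Q.map (ins {e}) with hμ
  have : IsProbabilityMeasure μ :=
    Measure.isProbabilityMeasure_map (measurable_ins {e}).aemeasurable
  have hμA : ∀ {S : Set (Om d)}, MeasurableSet S → μ.real S = Q.real (ins {e} ⁻¹' S) := by
    intro S hS
    rw [measureReal_def, measureReal_def, hμ, Measure.map_apply (measurable_ins {e}) hS]
  have hloc : ∀ L ∈ LE d, μ.real L ≤ (x ^ 2)⁻¹ * Q.real L := by
    classical
    rintro L ⟨B, hL⟩
    have hL' : Loc (insert e B) L := hL.mono (Finset.subset_insert e B)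
    rw [real_loc μ hL', real_loc Q hL', mul_sum]
    refine sum_le_sum fun M _ => ?_
    rw [mul_left_comm]
    refine mul_le_mul_of_nonneg_left ?_ (ind_nonneg _ _)
    rw [hμA (measurable_cyl _ _)]
    exact Q_ins_cyl hx hx1 hQ (Finset.mem_insert_self e B) _
  rw [← hμA hA]
  refine le_of_forall_pos_le_add fun ε hε => ?_
  set η := ε / (1 + (x ^ 2)⁻¹) with hη
  have hη0 : 0 < η := by positivity
  obtain ⟨L, hL, hAL⟩ := (dense_LE (μ + Q)).approx A hA (measure_ne_top _ A) η hη0
  have hLm : MeasurableSet L := (dense_LE Q).measurable L hL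
  have hAL1 : μ.real (symmDiff A L) ≤ η := by
    rw [measureReal_def]
    refine (ENNReal.toReal_le_of_le_ofReal hη0.le (le_trans ?_ hAL.le))
    rw [Measure.add_apply]
    exact le_self_add
  have hAL2 : Q.real (symmDiff A L) ≤ η := by
    rw [measureReal_def]
    refine (ENNReal.toReal_le_of_le_ofReal hη0.le (le_trans ?_ hAL.le))
    rw [Measure.add_apply]
    exact le_add_self
  have h1 := (abs_le.mp ((real_symmDiff_le (Q := μ) hA hLm).trans hAL1)).2
  have h2 := (abs_le.mp ((real_symmDiff_le (Q := Q) hA hLm).trans hAL2)).1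
  have h3 := hloc L hL
  have h4 : (1 + (x ^ 2)⁻¹) * η = ε := by
    rw [hη]; field_simp
  have h5 : (x ^ 2)⁻¹ * Q.real L ≤ (x ^ 2)⁻¹ * (Q.real A + η) :=
    mul_le_mul_of_nonneg_left (by linarith) hx2.le
  nlinarith

/-- Insertion tolerance. -/
lemma Q_ins (hx : 0 < x) (hx1 : x < 1) (hQ : IsQ x Q) (F : Finset (Edg d)) {A : Set (Om d)}
    (hA : MeasurableSet A) (h0 : Q A = 0) : Q (ins F ⁻¹' A) = 0 := by
  classical
  induction F using Finset.induction_on with
  | empty =>
    have : ins (∅ : Finset (Edg d)) ⁻¹' A = A := by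
      have : ins (∅ : Finset (Edg d)) = id := by
        funext ω p
        unfold ins
        simp
      rw [this]; rfl
    rwa [this]
  | insert e F _ ih =>
    have h1 : ins (insert e F) ⁻¹' A = ins {e} ⁻¹' (ins F ⁻¹' A) := by
      have : (ins (insert e F) : Om d → Om d) = ins F ∘ ins {e} := by
        funext ω p
        unfold ins
        simp only [Function.comp_apply, Finset.mem_insert, Finset.mem_singleton]
        by_cases h1 : p.1 = 2 <;> by_cases h2 : p.2 = e <;> by_cases h3 : p.2 ∈ F <;>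
          simp [h1, h2, h3]
      rw [this]; rfl
    rw [h1]
    have h2 := Q_ins_one hx hx1 hQ e (measurable_ins F hA)
    rw [measureReal_def Q (ins F ⁻¹' A), ih, ENNReal.toReal_zero, mul_zero] at h2
    have h3 : Q.real (ins {e} ⁻¹' (ins F ⁻¹' A)) = 0 := le_antisymm h2 measureReal_nonneg
    rwa [measureReal_eq_zero_iff] at h3

end Q

end Pool.Agent.TH980
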