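import Mathlib

/-!
# The duplicated-current percolation model on `ℤ^d`

All definitions which enter the statement of the main theorem.
-/

set_option autoImplicit false

open Filter Topology MeasureTheory
open scoped Nat

namespace Pool.Agent.TH980.Model

/-- The vertices of `ℤ^d`. -/
abbrev Vertex (d : ℕ) := Fin d → ℤ

/-- The nearest-neighbour edges of `ℤ^d`: the pair `(x, i)` stands for the edge between `x` and
`x + e_i`; every nearest-neighbour edge is represented exactly once. -/
abbrev Edge (d : ℕ) := (Fin d → ℤ) × Fin d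

variable {d : ℕ}

/-- The second endpoint `x + e_i` of the edge `(x, i)`. -/
def top (e : Edge d) : Vertex d := e.1 + Pi.single e.2 1

/-- The box `Λ_n = {-n, …, n}^d`. -/
noncomputable def Box (d n : ℕ) : Finset (Vertex d) :=
  Finset.Icc (fun _ => -(n : ℤ)) (fun _ => (n : ℤ))

/-- The set `E_n` of nearest-neighbour edges of the box `Λ_n`. -/
noncomputable def BoxEdges (d n : ℕ) : Finset (Edge d) :=
  (Box d n ×ˢ Finset.univ).filter (fun e => top e ∈ Box d n)

/-- The edges on which currents live: `Sum.inl e` for `e ∈ E_n`, and `Sum.inr x` with `x ∈ Λ_n`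
for the edge `xg` between `x` and the ghost vertex `g`. -/
noncomputable def GhostEdges (d n : ℕ) : Finset (Edge d ⊕ Vertex d) :=
  (BoxEdges d n).disjSum (Box d n)

/-- A current: a map from `E_n ∪ {xg : x ∈ Λ_n}` to `{0, 1, 2, …}`. -/
abbrev Current (d n : ℕ) := {a // a ∈ GhostEdges d n} → ℕ

/-- The vertex `x` of the lattice is an endpoint of the edge `a`. -/
def Touches (x : Vertex d) : Edge d ⊕ Vertex d → Prop
  | Sum.inl e => x = e.1 ∨ x = top e
  | Sum.inr y => x = y

/-- The parameter of an edge in the weight of a current: `β` for the edges of the lattice and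
`β h` for the edges to the ghost vertex. -/
def coupling (β h : ℝ) : Edge d ⊕ Vertex d → ℝ
  | Sum.inl _ => β
  | Sum.inr _ => β * h

/-- The weight `w(n) = ∏_{e ∈ E_n} β^{n(e)} / n(e)! ∏_{x ∈ Λ_n} (β h)^{n(xg)} / n(xg)!`. -/
noncomputable def weight {n : ℕ} (β h : ℝ) (c : Current d n) : ℝ :=
  ∏ a, coupling β h a.1 ^ c a / (c a)!

open Classical in
/-- A current is sourceless if `∑_{e ∋ x} n(e)` is even for every `x ∈ Λ_n`. -/
def Sourceless {n : ℕ} (c : Current d n) : Prop :=
  ∀ x ∈ Box d n, Even (∑ a, if Touches x a.1 then c a else 0)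

open Classical in
/-- The partition function of sourceless currents. -/
noncomputable def Zpart (d n : ℕ) (β h : ℝ) : ℝ :=
  ∑' c : Current d n, if Sourceless c then weight β h c else 0

open Classical in
/-- The probability of a current under `P^∅_{Λ_n, β, h}`. -/
noncomputable def prob {n : ℕ} (β h : ℝ) (c : Current d n) : ℝ :=
  (if Sourceless c then weight β h c else 0) / Zpart d n β h

/-- The set of edges `e ∈ E_n` with `n₁(e) + n₂(e) > 0`. -/
def trace {n : ℕ} (c₁ c₂ : Current d n) : Set (Edge d) :=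
  {e | ∃ h : Sum.inl e ∈ GhostEdges d n, 0 < c₁ ⟨Sum.inl e, h⟩ + c₂ ⟨Sum.inl e, h⟩}

open Classical in
/-- The probability that the trace of `n₁ + n₂` agrees with `s` on the finite set `B` of edges,
for independent `n₁ ∼ P^∅_{Λ_n, β, h}` and `n₂ ∼ P^∅_{Λ_n, β, 0}`. -/
noncomputable def traceProb (d n : ℕ) (β h : ℝ) (B : Finset (Edge d)) (s : Set (Edge d)) : ℝ :=
  ∑' p : Current d n × Current d n,
    if ∀ e ∈ B, (e ∈ trace p.1 p.2 ↔ e ∈ s) then prob β h p.1 * prob β 0 p.2 else 0

/-- `μ` is the law of the duplicated-current percolation model at inverse temperature `β`: its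
finite-dimensional distributions are obtained from those in the boxes `Λ_n` with external field
`h > 0` by the limit `n → ∞` followed by the limit `h ↘ 0`. -/
def IsLaw (β : ℝ) (μ : Measure (Set (Edge d))) : Prop :=
  ∀ (B : Finset (Edge d)) (s : Set (Edge d)), ∃ l : ℝ → ℝ,
    (∀ h : ℝ, 0 < h → Tendsto (fun n => traceProb d n β h B s) atTop (𝓝 (l h))) ∧
    Tendsto l (𝓝[>] 0) (𝓝 (μ {ω | ∀ e ∈ B, (e ∈ ω ↔ e ∈ s)}).toReal)

/-- The subgraph of `ℤ^d` with the edge set `ω`. -/
def graph (ω : Set (Edge d)) : SimpleGraph (Vertex d) where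
  Adj u v := ∃ e ∈ ω, (u = e.1 ∧ v = top e) ∨ (u = top e ∧ v = e.1)
  symm := ⟨fun _ _ ⟨e, he, h⟩ => ⟨e, he, h.symm.imp (fun h => ⟨h.2, h.1⟩) (fun h => ⟨h.2, h.1⟩)⟩⟩
  loopless := ⟨fun u ⟨e, _, h⟩ => by
    have key : top e ≠ e.1 := by
      intro h'
      have := congrFun h' e.2
      simp [top] at this
    rcases h with ⟨h1, h2⟩ | ⟨h1, h2⟩
    · exact key (h2.symm.trans h1)
    · exact key (h1.symm.trans h2)⟩

/-- A connected component `C` of a graph has one end: for every finite set `F` of vertices, the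
graph `C ∖ F` has exactly one infinite connected component. -/
def HasOneEnd {V : Type*} (G : SimpleGraph V) (C : G.ConnectedComponent) : Prop :=
  ∀ F : Set V, F.Finite →
    ∃! K : (G.induce (C.supp \ F)).ConnectedComponent, K.supp.Infinite

end Pool.Agent.TH980.Model
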