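import Pool.Agent.TH980.G6

/-!
# At most two infinite arms
-/

set_option autoImplicit false
set_option linter.unusedSectionVars false
set_option linter.unusedSimpArgs false

open Finset MeasureTheory Filter Topology

namespace Pool.Agent.TH980

variable {d : ℕ}

/-! ### Geometry of the sublattice -/

/-- points of the sublattice -/
def sp (s : ℕ) (v : Vtx d) : Vtx d := fun i => (s : ℤ) * v i

lemma sp_disjoint {r : ℕ} {v v' : Vtx d} (h : v ≠ v') :
    Disjoint (bb r (sp (2 * r + 1) v)) (bb r (sp (2 * r + 1) v')) := by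
  rw [Set.disjoint_left]
  intro w hw hw'
  apply h
  funext i
  have h1 := abs_le.mp (mem_bx.mp (mem_bb.mp hw) i)
  have h2 := abs_le.mp (mem_bx.mp (mem_bb.mp hw') i)
  rw [Pi.sub_apply] at h1 h2
  unfold sp at h1 h2
  push_cast at h1 h2
  by_contra hne
  rcases lt_or_gt_of_ne hne with hlt | hlt
  · have : v i + 1 ≤ v' i := hlt
    have h3 : (2 * (r : ℤ) + 1) * (v i + 1) ≤ (2 * (r : ℤ) + 1) * v' i :=
      mul_le_mul_of_nonneg_left this (by positivity)
    nlinarith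
  · have : v' i + 1 ≤ v i := hlt
    have h3 : (2 * (r : ℤ) + 1) * (v' i + 1) ≤ (2 * (r : ℤ) + 1) * v i :=
      mul_le_mul_of_nonneg_left this (by positivity)
    nlinarith

lemma sp_box {r k : ℕ} {v : Vtx d} (hv : v ∈ bx d k) :
    bb r (sp (2 * r + 1) v) ⊆ bb ((2 * r + 1) * k + r) 0 := by
  intro w hw
  rw [mem_bb_zero, mem_bx]
  intro i
  have h1 := abs_le.mp (mem_bx.mp (mem_bb.mp hw) i)
  have h2 := abs_le.mp (mem_bx.mp hv i)
  rw [Pi.sub_apply] at h1
  unfold sp at h1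
  push_cast at h1 ⊢
  rw [abs_le]
  have h3 : (2 * (r : ℤ) + 1) * v i ≤ (2 * (r : ℤ) + 1) * k :=
    mul_le_mul_of_nonneg_left h2.2 (by positivity)
  have h4 : (2 * (r : ℤ) + 1) * (-k) ≤ (2 * (r : ℤ) + 1) * v i :=
    mul_le_mul_of_nonneg_left h2.1 (by positivity)
  constructor <;> nlinarith

lemma sp_injective {s : ℕ} (hs : 0 < s) : Function.Injective (sp s : Vtx d → Vtx d) := by
  intro v v' h
  funext i
  have := congrFun h i
  unfold sp at this
  have hs' : (s : ℤ) ≠ 0 := by exact_mod_cast hs.ne'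
  exact mul_left_cancel₀ hs' this

lemma card_bx (n : ℕ) : (bx d n).card = (2 * n + 1) ^ d := by
  unfold bx
  rw [Pi.card_Icc]
  simp only [Int.card_Icc]
  rw [prod_const, card_univ, Fintype.card_fin]
  congr 1
  omega

/-- the sites of the boundary of a box -/
noncomputable def Yb (d L : ℕ) : Finset (Vtx d) := bx d (L + 1) \ bx d L

lemma card_Yb (L : ℕ) : ((Yb d L).card : ℝ) = ((2 : ℝ) * L + 3) ^ d - ((2 : ℝ) * L + 1) ^ d := by
  unfold Yb
  rw [card_sdiff_of_subset (bx_mono (Nat.le_succ L)), card_bx, card_bx, Nat.cast_sub]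
  · push_cast
    ring
  · exact Nat.pow_le_pow_left (by omega) d

/-- An arm of a box inside `bx d L` reaches the boundary. -/
lemma arm_reaches {t : Set (Edg d)} {r L : ℕ} {z u : Vtx d} (hsub : bb r z ⊆ bb L 0)
    (hu : Arm t r z u) : ∃ y ∈ Yb d L, Cn (ad t) (bb r z)ᶜ u y := by
  obtain ⟨h1, ⟨b, hb, hub⟩, hinf⟩ := hu
  have huL : u ∈ bb (L + 1) (0 : Vtx d) := ad_bb (ad_symm _ _ _ hub) (hsub hb)
  by_cases hu0 : u ∈ bb L (0 : Vtx d)
  · obtain ⟨w, hw, hwL⟩ := infinite_leaves hinf L 0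
    have hu0' : u ∉ (bb L (0 : Vtx d))ᶜ := fun h => h hu0
    obtain ⟨y, hy, hyL, a, ha, hay⟩ := Cn.inr_first hw hu0' hwL
    refine ⟨y, ?_, hy⟩
    unfold Yb
    rw [Finset.mem_sdiff, ← mem_bb_zero, ← mem_bb_zero]
    exact ⟨ad_bb hay (Set.not_notMem.mp ha.mem_right.2), hyL⟩
  · refine ⟨u, ?_, Cn.refl h1⟩
    unfold Yb
    rw [Finset.mem_sdiff, ← mem_bb_zero, ← mem_bb_zero]
    exact ⟨huL, hu0⟩

/-- The number of trifurcation boxes is at most the size of the boundary. -/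
lemma tri_count (t : Set (Edg d)) (r k : ℕ) (T : Finset (Vtx d)) (hT : T ⊆ bx d k)
    (h : ∀ v ∈ T, Opn t r (sp (2 * r + 1) v) ∧ Three t r (sp (2 * r + 1) v)) :
    T.card ≤ (Yb d ((2 * r + 1) * k + r)).card := by
  classical
  have hs := ad_symm t
  set bo : Vtx d → Set (Vtx d) := fun v =>
    if Opn t r (sp (2 * r + 1) v) then bb r (sp (2 * r + 1) v) else {sp (2 * r + 1) v} with hbo
  have hbos : ∀ v, bo v ⊆ bb r (sp (2 * r + 1) v) := by
    intro v
    rw [hbo]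
    show (if Opn t r (sp (2 * r + 1) v) then bb r (sp (2 * r + 1) v) else
      {sp (2 * r + 1) v}) ⊆ _
    split_ifs
    · exact subset_rfl
    · intro w hw
      rw [Set.mem_singleton_iff] at hw
      rw [hw]
      exact center_mem r _
  have hboT : ∀ v ∈ T, bo v = bb r (sp (2 * r + 1) v) := fun v hv => if_pos (h v hv).1
  refine count_boxes (R := ad t) (bo := bo) (ce := sp (2 * r + 1)) hs ?_ ?_ ?_ T.card T _ rfl ?_
  · intro v b hb
    by_cases ho : Opn t r (sp (2 * r + 1) v)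
    · have e1 : bo v = bb r (sp (2 * r + 1) v) := if_pos ho
      rw [e1] at hb ⊢
      exact box_connected ho b hb
    · have e1 : bo v = {sp (2 * r + 1) v} := if_neg ho
      rw [e1] at hb ⊢
      rw [Set.mem_singleton_iff] at hb
      rw [hb]
      exact Cn.refl rfl
  · intro v
    by_cases ho : Opn t r (sp (2 * r + 1) v)
    · have e1 : bo v = bb r (sp (2 * r + 1) v) := if_pos ho
      rw [e1]
      exact center_mem r _
    · have e1 : bo v = {sp (2 * r + 1) v} := if_neg ho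
      rw [e1]
      rfl
  · intro v v' hne
    exact Set.disjoint_of_subset (hbos v) (hbos v') (sp_disjoint hne)
  · intro v hv
    obtain ⟨ho, u₁, u₂, u₃, h1, h2, h3, h12, h13, h23⟩ := h v hv
    have hsub := sp_box (r := r) (hT hv)
    obtain ⟨y₁, hy1, hc1⟩ := arm_reaches hsub h1
    obtain ⟨y₂, hy2, hc2⟩ := arm_reaches hsub h2
    obtain ⟨y₃, hy3, hc3⟩ := arm_reaches hsub h3
    have n12 : ¬ Cn (ad t) (bb r (sp (2 * r + 1) v))ᶜ y₁ y₂ := fun h =>
      h12 (hc1.trans (h.trans (Cn.symm hs hc2)))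
    have n13 : ¬ Cn (ad t) (bb r (sp (2 * r + 1) v))ᶜ y₁ y₃ := fun h =>
      h13 (hc1.trans (h.trans (Cn.symm hs hc3)))
    have n23 : ¬ Cn (ad t) (bb r (sp (2 * r + 1) v))ᶜ y₂ y₃ := fun h =>
      h23 (hc2.trans (h.trans (Cn.symm hs hc3)))
    have e12 : y₁ ≠ y₂ := by rintro rfl; exact n12 (Cn.refl hc1.mem_right)
    have e13 : y₁ ≠ y₃ := by rintro rfl; exact n13 (Cn.refl hc1.mem_right)
    have e23 : y₂ ≠ y₃ := by rintro rfl; exact n23 (Cn.refl hc2.mem_right)
    have hcen : ∀ u y, Arm t r (sp (2 * r + 1) v) u → Cn (ad t) (bb r (sp (2 * r + 1) v))ᶜ u y →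
        Cn (ad t) Set.univ y (sp (2 * r + 1) v) := by
      rintro u y ⟨-, ⟨b, hb, hub⟩, -⟩ huy
      exact ((Cn.symm hs huy).mono_set (Set.subset_univ _)).trans
        ((Cn.single hub (Set.mem_univ _) (Set.mem_univ _)).trans
        (Cn.symm hs ((box_connected ho b hb).mono_set (Set.subset_univ _))))
    rw [hboT v hv]
    refine ⟨{y₁, y₂, y₃}, ?_, ?_, ?_, ?_⟩
    · intro y hy
      rw [Finset.mem_insert, Finset.mem_insert, Finset.mem_singleton] at hy
      rcases hy with rfl | rfl | rfl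
      · exact hy1
      · exact hy2
      · exact hy3
    · rw [card_eq_three]
      exact ⟨y₁, y₂, y₃, e12, e13, e23, rfl⟩
    · intro y hy
      rw [Finset.mem_insert, Finset.mem_insert, Finset.mem_singleton] at hy
      rcases hy with rfl | rfl | rfl
      · exact ⟨hc1.mem_right, hcen _ _ h1 hc1⟩
      · exact ⟨hc2.mem_right, hcen _ _ h2 hc2⟩
      · exact ⟨hc3.mem_right, hcen _ _ h3 hc3⟩
    · intro y hy y' hy' hne
      rw [Finset.mem_insert, Finset.mem_insert, Finset.mem_singleton] at hy hy'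
      rcases hy with rfl | rfl | rfl <;> rcases hy' with rfl | rfl | rfl
      · exact absurd rfl hne
      · exact n12
      · exact n13
      · exact fun h => n12 (Cn.symm hs h)
      · exact absurd rfl hne
      · exact n23
      · exact fun h => n13 (Cn.symm hs h)
      · exact fun h => n23 (Cn.symm hs h)
      · exact absurd rfl hne

/-! ### Opening the edges of a box -/

lemma tr_ins (F : Finset (Edg d)) (ω : Om d) : tr (ins F ω) = tr ω ∪ F := by
  ext e
  show (if (2 : Fin 3) = 2 ∧ e ∈ F then true else ω (2, e)) = true ↔ e ∈ tr ω ∨ e ∈ (F : Set _)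
  by_cases h : e ∈ F
  · rw [if_pos ⟨rfl, h⟩]
    exact ⟨fun _ => Or.inr h, fun _ => rfl⟩
  · rw [if_neg (fun h' => h h'.2)]
    exact ⟨fun h' => Or.inl h', fun h' => h'.resolve_right h⟩

lemma opn_ins (t : Set (Edg d)) (r : ℕ) : Opn (t ∪ (bE d r : Set (Edg d))) r 0 := by
  intro e h1 h2
  right
  rw [mem_coe, mem_bE, ← mem_bb_zero, ← mem_bb_zero]
  exact ⟨h1, h2⟩

lemma Cn_ins (t : Set (Edg d)) (r : ℕ) (u v : Vtx d) :
    Cn (ad (t ∪ (bE d r : Set (Edg d)))) (bb r 0)ᶜ u v ↔ Cn (ad t) (bb r 0)ᶜ u v := by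
  constructor
  · intro h
    refine h.mono ?_ subset_rfl
    rintro a ha b hb ⟨e, he, hab⟩
    rcases he with he | he
    · exact ⟨e, he, hab⟩
    · exfalso
      rw [mem_coe, mem_bE, ← mem_bb_zero, ← mem_bb_zero] at he
      rcases hab with ⟨rfl, rfl⟩ | ⟨rfl, rfl⟩
      · exact ha he.1
      · exact ha he.2
  · intro h
    exact h.mono (fun a _ b _ hab => ad_mono Set.subset_union_left hab) subset_rfl

lemma Arm_ins {t : Set (Edg d)} {r : ℕ} {u : Vtx d} (h : Arm t r 0 u) :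
    Arm (t ∪ (bE d r : Set (Edg d))) r 0 u := by
  obtain ⟨h1, ⟨b, hb, hub⟩, hinf⟩ := h
  refine ⟨h1, ⟨b, hb, ad_mono Set.subset_union_left hub⟩, ?_⟩
  simp only [Cn_ins]
  exact hinf

lemma Two_ins {t : Set (Edg d)} {r : ℕ} (h : Two t r 0) :
    Two (t ∪ (bE d r : Set (Edg d))) r 0 := by
  obtain ⟨u, v, hu, hv, huv⟩ := h
  exact ⟨u, v, Arm_ins hu, Arm_ins hv, fun h => huv ((Cn_ins t r u v).mp h)⟩

lemma Three_ins {t : Set (Edg d)} {r : ℕ} (h : Three t r 0) :
    Three (t ∪ (bE d r : Set (Edg d))) r 0 := by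
  obtain ⟨u, v, w, hu, hv, hw, h1, h2, h3⟩ := h
  exact ⟨u, v, w, Arm_ins hu, Arm_ins hv, Arm_ins hw, fun h => h1 ((Cn_ins t r u v).mp h),
    fun h => h2 ((Cn_ins t r u w).mp h), fun h => h3 ((Cn_ins t r v w).mp h)⟩

section Q

variable {x : ℝ} {Q : Measure (Om d)} [IsProbabilityMeasure Q]

/-- trifurcation events -/
def TriE (d r : ℕ) (z : Vtx d) : Set (Om d) := {ω | Opn (tr ω) r z ∧ Three (tr ω) r z}

/-- cut events -/
def CutE (d r : ℕ) (z : Vtx d) : Set (Om d) := {ω | Opn (tr ω) r z ∧ Two (tr ω) r z}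

lemma meas_TriE (r : ℕ) (z : Vtx d) : MeasurableSet (TriE d r z) :=
  measurableSet_setOfPred.mpr ((m_Opn r z).and (m_Three r z))

lemma meas_CutE (r : ℕ) (z : Vtx d) : MeasurableSet (CutE d r z) :=
  measurableSet_setOfPred.mpr ((m_Opn r z).and (m_Two r z))

lemma TriE_shift (r : ℕ) (z : Vtx d) : TriE d r z = shO z ⁻¹' TriE d r 0 := by
  ext ω
  show Opn (tr ω) r z ∧ Three (tr ω) r z ↔ Opn (tz z (tr ω)) r 0 ∧ Three (tz z (tr ω)) r 0
  rw [Opn_shift, Three_shift, zero_add]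

lemma CutE_shift (r : ℕ) (z : Vtx d) : CutE d r z = shO z ⁻¹' CutE d r 0 := by
  ext ω
  show Opn (tr ω) r z ∧ Two (tr ω) r z ↔ Opn (tz z (tr ω)) r 0 ∧ Two (tz z (tr ω)) r 0
  rw [Opn_shift, Two_shift, zero_add]

lemma Q_shift_real (hx : 0 < x) (hx1 : x < 1) (hQ : IsQ x Q) (z : Vtx d) {A : Set (Om d)}
    (hA : MeasurableSet A) : Q.real (shO z ⁻¹' A) = Q.real A := by
  rw [measureReal_def, measureReal_def,
    (Q_shO hx hx1 hQ z).measure_preimage hA.nullMeasurableSet]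

lemma Q_Tri (hx : 0 < x) (hx1 : x < 1) (hQ : IsQ x Q) (r : ℕ) : Q (TriE d r 0) = 0 := by
  classical
  set p := Q.real (TriE d r 0) with hp
  have hpz : ∀ z, Q.real (TriE d r z) = p := by
    intro z
    rw [TriE_shift, Q_shift_real hx hx1 hQ z (meas_TriE r 0)]
  -- counting
  have hcount : ∀ k : ℕ, p * ((2 : ℝ) * k + 1) ^ d ≤
      ((2 * (r : ℝ) + 1) * (2 * k + 1) + 2) ^ d - ((2 * (r : ℝ) + 1) * (2 * k + 1)) ^ d := by
    intro k
    have hpt : ∀ ω : Om d, ∑ v ∈ bx d k, ind (TriE d r (sp (2 * r + 1) v)) ω ≤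
        (Yb d ((2 * r + 1) * k + r)).card := by
      intro ω
      have e1 : ∑ v ∈ bx d k, ind (TriE d r (sp (2 * r + 1) v)) ω =
          ((bx d k).filter (fun v => ω ∈ TriE d r (sp (2 * r + 1) v))).card := by
        rw [card_filter]
        push_cast
        refine sum_congr rfl fun v _ => ?_
        by_cases h : ω ∈ TriE d r (sp (2 * r + 1) v)
        · rw [ind_pos h, if_pos h]
        · rw [ind_neg h, if_neg h]
      rw [e1]
      exact Nat.cast_le.mpr (tri_count (tr ω) r k _ (filter_subset _ _)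
        (fun v hv => (mem_filter.mp hv).2))
    have hint : ∑ v ∈ bx d k, Q.real (TriE d r (sp (2 * r + 1) v)) ≤
        (Yb d ((2 * r + 1) * k + r)).card := by
      have e2 : ∑ v ∈ bx d k, Q.real (TriE d r (sp (2 * r + 1) v)) =
          ∫ ω, ∑ v ∈ bx d k, ind (TriE d r (sp (2 * r + 1) v)) ω ∂Q := by
        rw [integral_finsetSum]
        · exact sum_congr rfl fun v _ => (integral_ind Q (meas_TriE r _)).symm
        · intro v _
          exact integrable_ind Q (meas_TriE r _)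
      rw [e2]
      calc ∫ ω, ∑ v ∈ bx d k, ind (TriE d r (sp (2 * r + 1) v)) ω ∂Q
          ≤ ∫ _, ((Yb d ((2 * r + 1) * k + r)).card : ℝ) ∂Q := by
            refine integral_mono ?_ (integrable_const _) hpt
            exact integrable_finsetSum _ fun v _ => integrable_ind Q (meas_TriE r _)
        _ = _ := by rw [integral_const]; simp
    rw [sum_congr rfl (fun v _ => hpz _), sum_const, nsmul_eq_mul, card_bx, card_Yb] at hint
    push_cast at hint
    have e3 : (2 * ((2 * (r : ℝ) + 1) * k + r) + 3) = (2 * (r : ℝ) + 1) * (2 * k + 1) + 2 := by ring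
    have e4 : (2 * ((2 * (r : ℝ) + 1) * k + r) + 1) = (2 * (r : ℝ) + 1) * (2 * k + 1) := by ring
    rw [e3, e4] at hint
    linarith
  -- limit
  have hlim : ∀ k : ℕ, p ≤ ((2 * (r : ℝ) + 1) + 2 / (2 * k + 1)) ^ d - (2 * (r : ℝ) + 1) ^ d := by
    intro k
    have hm : (0 : ℝ) < 2 * k + 1 := by positivity
    have h1 := hcount k
    have e5 : ((2 * (r : ℝ) + 1) * (2 * k + 1) + 2) =
        ((2 * (r : ℝ) + 1) + 2 / (2 * k + 1)) * (2 * k + 1) := by
      field_simp
    rw [e5, mul_pow, mul_pow, ← sub_mul] at h1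
    exact le_of_mul_le_mul_right h1 (by positivity)
  have ht : Tendsto (fun k : ℕ => ((2 * (r : ℝ) + 1) + 2 / (2 * (k : ℝ) + 1)) ^ d -
      (2 * (r : ℝ) + 1) ^ d) atTop (𝓝 (((2 * (r : ℝ) + 1) + 0) ^ d - (2 * (r : ℝ) + 1) ^ d)) := by
    refine Tendsto.sub_const (Tendsto.pow (Tendsto.const_add _ ?_) d) _
    refine Tendsto.div_atTop tendsto_const_nhds ?_
    refine tendsto_atTop_add_const_right _ _ ?_
    exact Tendsto.const_mul_atTop two_pos tendsto_natCast_atTop_atTop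
  have hp0 : p ≤ 0 := by
    have := ge_of_tendsto' ht hlim
    rwa [add_zero, sub_self] at this
  have : p = 0 := le_antisymm hp0 measureReal_nonneg
  rwa [hp, measureReal_eq_zero_iff] at this

lemma Q_Three (hx : 0 < x) (hx1 : x < 1) (hQ : IsQ x Q) (r : ℕ) :
    Q {ω | Three (tr ω) r 0} = 0 := by
  have h1 := Q_ins hx hx1 hQ (bE d r) (meas_TriE r 0) (Q_Tri hx hx1 hQ r)
  refine measure_mono_null ?_ h1
  intro ω hω
  show Opn (tr (ins (bE d r) ω)) r 0 ∧ Three (tr (ins (bE d r) ω)) r 0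
  rw [tr_ins]
  exact ⟨opn_ins _ r, Three_ins hω⟩

lemma Q_Two_of_Cut (hx : 0 < x) (hx1 : x < 1) (hQ : IsQ x Q) (r : ℕ)
    (h : Q (CutE d r 0) = 0) : Q {ω | Two (tr ω) r 0} = 0 := by
  have h1 := Q_ins hx hx1 hQ (bE d r) (meas_CutE r 0) h
  refine measure_mono_null ?_ h1
  intro ω hω
  show Opn (tr (ins (bE d r) ω)) r 0 ∧ Two (tr (ins (bE d r) ω)) r 0
  rw [tr_ins]
  exact ⟨opn_ins _ r, Two_ins hω⟩

lemma ae_no_Three (hx : 0 < x) (hx1 : x < 1) (hQ : IsQ x Q) :
    ∀ᵐ ω ∂Q, ∀ r, ¬ Three (tr ω) r 0 := by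
  rw [ae_all_iff]
  intro r
  rw [ae_iff]
  simp only [not_not]
  exact Q_Three hx hx1 hQ r

end Q

end Pool.Agent.TH980
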