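import Pool.Agent.TH980.P1

/-!
# The flux is deterministic; the probability of separation
-/

set_option autoImplicit false
set_option linter.unusedSectionVars false
set_option linter.unusedSimpArgs false

open Finset MeasureTheory Filter Topology

namespace Pool.Agent.TH980

variable {d : ℕ}

/-! ### Paths -/

/-- the open edges of a box -/
noncomputable def tk (k : ℕ) (ω : Om d) : Finset (Edg d) := (bE d k).filter (fun e => ω (2, e) = true)

/-- a set of edges with given sources -/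
noncomputable def pick (b : Gam d) (T : Finset (Edg d)) : Finset (Edg d) :=
  open Classical in if h : ∃ S ⊆ T, bd dE S = b then h.choose else ∅

lemma pick_spec {b : Gam d} {T : Finset (Edg d)} (h : ∃ S ⊆ T, bd dE S = b) :
    pick b T ⊆ T ∧ bd dE (pick b T) = b := by
  unfold pick
  rw [dif_pos h]
  exact h.choose_spec

/-- the event that the sources can be paired inside a box -/
def DE (k : ℕ) (b : Gam d) : Set (Om d) := {ω | ∃ S ⊆ tk k ω, bd dE S = b}

lemma tk_congr {k : ℕ} {ω ω' : Om d} (h : ∀ e ∈ bE d k, ω (2, e) = ω' (2, e)) :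
    tk k ω = tk k ω' := by
  unfold tk
  ext e
  rw [mem_filter, mem_filter]
  constructor
  · rintro ⟨h1, h2⟩; exact ⟨h1, by rw [← h e h1]; exact h2⟩
  · rintro ⟨h1, h2⟩; exact ⟨h1, by rw [h e h1]; exact h2⟩

lemma tk_mono {k l : ℕ} (h : k ≤ l) (ω : Om d) : tk k ω ⊆ tk l ω := by
  intro e he
  unfold tk at he ⊢
  rw [mem_filter] at he ⊢
  exact ⟨bE_mono h he.1, he.2⟩

lemma Loc_DE (k : ℕ) (b : Gam d) : Loc (bE d k) (DE k b) := by
  intro ω ω' h hω
  have := tk_congr (k := k) (ω := ω) (ω' := ω') (fun e he => h e he 2)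
  show ∃ S ⊆ tk k ω', bd dE S = b
  rw [← this]
  exact hω

lemma path_exists {ω : Om d} {x y : Vtx d} (h : Cn (ad (tr ω)) Set.univ x y) :
    ∃ k, ω ∈ DE k (dV x + dV y) := by
  refine h.induct (P := fun y => ∃ k, ω ∈ DE k (dV x + dV y)) ?_ ?_
  · refine ⟨0, ∅, empty_subset _, ?_⟩
    rw [gam_two, bd_empty]
  · rintro a b _ ⟨e, he, hab⟩ - ⟨k, S, hS, hb⟩
    obtain ⟨k', hk'⟩ := exists_bE ({e} : Finset (Edg d))
    refine ⟨max k k', symmDiff S {e}, ?_, ?_⟩
    · refine (symmDiff_le_sup : symmDiff S {e} ≤ S ⊔ {e}).trans (union_subset ?_ ?_)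
      · exact hS.trans (tk_mono (le_max_left _ _) ω)
      · intro e' he'
        rw [Finset.mem_singleton] at he'
        subst he'
        unfold tk
        rw [mem_filter]
        exact ⟨bE_mono (le_max_right _ _) (hk' (mem_singleton_self e')), he⟩
    · rw [bd_symmDiff gam_two, hb]
      have e1 : bd dE ({e} : Finset (Edg d)) = dV a + dV b := by
        unfold bd
        rw [sum_singleton]
        rcases hab with ⟨rfl, rfl⟩ | ⟨rfl, rfl⟩
        · rfl
        · show dV e.1 + dV (tip e) = _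
          rw [add_comm]
      rw [e1]
      calc dV x + dV a + (dV a + dV b) = dV x + dV b + (dV a + dV a) := by abel
        _ = _ := by rw [gam_two, add_zero]

/-- the switching path -/
noncomputable def pk (k : ℕ) (b : Gam d) (ω : Om d) : Finset (Edg d) := pick b (tk k ω)

lemma DE_det (k : ℕ) (b : Gam d) (ω ω' : Om d) (h : ∀ e, ω (2, e) = ω' (2, e)) (hω : ω ∈ DE k b) :
    ω' ∈ DE k b ∧ pk k b ω = pk k b ω' := by
  have := tk_congr (k := k) (ω := ω) (ω' := ω') (fun e _ => h e)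
  unfold pk
  rw [this]
  refine ⟨?_, rfl⟩
  show ∃ S ⊆ tk k ω', bd dE S = b
  rw [← this]
  exact hω

lemma DE_spec (k : ℕ) (b : Gam d) (ω : Om d) (hω : ω ∈ DE k b) :
    bd dE (pk k b ω) = b ∧ ∀ e ∈ pk k b ω, ω (2, e) = true := by
  have h := pick_spec (b := b) (T := tk k ω) hω
  refine ⟨h.2, fun e he => ?_⟩
  have := h.1 he
  unfold tk at this
  exact (mem_filter.mp this).2

lemma Loc_sw {B : Finset (Edg d)} {A : Set (Om d)} (hA : Loc B A) (k : ℕ) (b : Gam d) :
    Loc (B ∪ bE d k) (DE k b ∩ sw (pk k b) ⁻¹' A) := by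
  intro ω ω' h ⟨h1, h2⟩
  have htk := tk_congr (k := k) (ω := ω) (ω' := ω')
    (fun e he => h e (Finset.mem_union_right _ he) 2)
  refine ⟨Loc_DE k b ω ω' (fun e he i => h e (Finset.mem_union_right _ he) i) h1, ?_⟩
  refine hA _ _ ?_ h2
  intro e he i
  unfold sw
  have hp : pk k b ω = pk k b ω' := by unfold pk; rw [htk]
  rw [hp, h e (Finset.mem_union_left _ he) i]

lemma tr_sw (π : Om d → Finset (Edg d)) (ω : Om d) : tr (sw π ω) = tr ω := rfl

lemma et_sw (π : Om d → Finset (Edg d)) (ω : Om d) (e : Edg d) :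
    et (sw π ω) e = xor (et ω e) (decide (e ∈ π ω)) := rfl

/-! ### Events -/

/-- separation event -/
def SepE (d r : ℕ) (z x y : Vtx d) : Set (Om d) := {ω | Sep (tr ω) r z x y}

/-- good event -/
def GoodE (d R r : ℕ) (z : Vtx d) : Set (Om d) := {ω | Good (tr ω) R r z}

/-- local flux event -/
def LLE (d R r : ℕ) (z : Vtx d) (g : ZMod 2) : Set (Om d) := {ω | LL (tr ω) (et ω) R r z g}

lemma meas_SepE (r : ℕ) (z x y : Vtx d) : MeasurableSet (SepE d r z x y) :=
  measurableSet_setOfPred.mpr (m_Sep r z x y)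

lemma meas_GoodE (R r : ℕ) (z : Vtx d) : MeasurableSet (GoodE d R r z) :=
  measurableSet_setOfPred.mpr (m_Good R r z)

lemma GoodE_shift (R r : ℕ) (z : Vtx d) : GoodE d R r z = shO z ⁻¹' GoodE d R r 0 := by
  ext ω
  show Good (tr ω) R r z ↔ Good (tz z (tr ω)) R r 0
  rw [Good_shift, zero_add]

lemma LLE_shift (R r : ℕ) (z : Vtx d) (g : ZMod 2) :
    LLE d R r z g = shO z ⁻¹' LLE d R r 0 g := by
  ext ω
  show LL (tr ω) (et ω) R r z g ↔ LL (tz z (tr ω)) (fun e => et ω (shE z e)) R r 0 g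
  rw [LL_shift, zero_add]

lemma Loc_LLE {R r : ℕ} (hr : r ≤ R) (z : Vtx d) (g : ZMod 2) :
    Loc (tE z (bE d (R + 1))) (LLE d R r z g) := by
  intro ω ω' h hω
  refine LL_local hr ?_ ?_ hω
  · intro e he
    show ω (2, e) = true ↔ ω' (2, e) = true
    rw [h e he 2]
  · intro e he
    exact h e he 1

section Q

variable {x : ℝ} {Q : Measure (Om d)} [IsProbabilityMeasure Q]

lemma ae_evn (hx : 0 < x) (hx1 : x < 1) (hQ : IsQ x Q) : ∀ᵐ ω ∂Q, Evn (et ω) := by
  filter_upwards [Q_even hx hx1 hQ] with ω hω v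
  exact (hω v).2

lemma ae_sub (hQ : IsQ x Q) : ∀ᵐ ω ∂Q, ∀ e, et ω e = true → e ∈ tr ω := by
  filter_upwards [Q_sub hQ] with ω hω e he
  exact hω e (Or.inr he)

/-- The flux is almost surely constant. -/
lemma flux_det (hd : 0 < d) (hx : 0 < x) (hx1 : x < 1) (hQ : IsQ x Q) (r : ℕ) :
    ∃ f : ZMod 2, ∀ᵐ ω ∂Q, ∀ z u : Vtx d, Two (tr ω) r z → Arm (tr ω) r z u →
      fl (tr ω) (et ω) r z u = f := by
  set A : Set (Om d) := {ω | ∃ z u : Vtx d, Two (tr ω) r z ∧ Arm (tr ω) r z u ∧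
    fl (tr ω) (et ω) r z u = 1} with hA
  have hAm : MeasurableSet A := measurableSet_setOfPred.mpr (Measurable.exists fun z =>
    Measurable.exists fun u => (m_Two r z).and ((m_Arm r z u).and (m_fl r z u 1)))
  have hinv : ∀ v, shO v ⁻¹' A = A := by
    intro v
    ext ω
    show (∃ z u : Vtx d, Two (tz v (tr ω)) r z ∧ Arm (tz v (tr ω)) r z u ∧
      fl (tz v (tr ω)) (fun e => et ω (shE v e)) r z u = 1) ↔ _
    constructor
    · rintro ⟨z, u, h1, h2, h3⟩
      rw [Two_shift] at h1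
      rw [Arm_shift] at h2
      rw [fl_shift] at h3
      exact ⟨z + v, u + v, h1, h2, h3⟩
    · rintro ⟨z, u, h1, h2, h3⟩
      refine ⟨z - v, u - v, ?_, ?_, ?_⟩
      · rw [Two_shift, sub_add_cancel]; exact h1
      · rw [Arm_shift, sub_add_cancel, sub_add_cancel]; exact h2
      · rw [fl_shift, sub_add_cancel, sub_add_cancel]; exact h3
  rcases Q_zero_one hd hx hx1 hQ hAm hinv with h0 | h1
  · refine ⟨0, ?_⟩
    have h0' : ∀ᵐ ω ∂Q, ω ∉ A := by
      rw [ae_iff]
      simpa using h0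
    filter_upwards [h0'] with ω hω z u ht hu
    by_contra hne
    exact hω ⟨z, u, ht, hu, zmod_ne_zero hne⟩
  · refine ⟨1, ?_⟩
    have h1' : ∀ᵐ ω ∂Q, ω ∈ A := by
      rw [ae_iff]
      have : {ω | ¬ ω ∈ A} = Aᶜ := rfl
      rw [this, prob_compl_eq_zero_iff hAm]
      exact h1
    filter_upwards [h1', ae_no_Three hx hx1 hQ, ae_evn hx hx1 hQ, ae_sub hQ]
      with ω hω h3 hev hsub z u ht hu
    obtain ⟨z0, u0, ht0, hu0, hf0⟩ := hω
    obtain ⟨Φ, hΦ⟩ := flux_const hev hsub (h3 (nm z + nm z0 + r + 1))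
    rw [hΦ r z u (by omega) ht hu, ← hΦ r z0 u0 (by omega) ht0 hu0, hf0]

lemma Q_LG_null {r : ℕ} {f : ZMod 2} (hf : ∀ᵐ ω ∂Q, ∀ z u : Vtx d, Two (tr ω) r z →
    Arm (tr ω) r z u → fl (tr ω) (et ω) r z u = f) (z : Vtx d) :
    Q {ω | LG (tr ω) (et ω) r z (f + 1)} = 0 := by
  have : ∀ᵐ ω ∂Q, ¬ LG (tr ω) (et ω) r z (f + 1) := by
    filter_upwards [hf] with ω hω
    rintro ⟨u, v, hu, hv, huv, hfl⟩
    rw [hω z u ⟨u, v, hu, hv, huv⟩ hu] at hfl
    have : (1 : ZMod 2) = 0 := by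
      have h := hfl
      rw [left_eq_add] at h
      exact h
    exact one_ne_zero this
  rw [ae_iff] at this
  simpa only [not_not] using this

/-- Probability that the local picture is wrong tends to zero. -/
lemma Good_tendsto (r : ℕ) : Tendsto (fun R => Q.real (GoodE d R r 0)ᶜ) atTop (𝓝 0) := by
  set H : ℕ → Set (Om d) := fun R => ⋂ R' ∈ {R' | R ≤ R'}, GoodE d R' r 0 with hH
  have hHm : ∀ R, MeasurableSet (H R) := fun R =>
    MeasurableSet.biInter (Set.to_countable _) fun R' _ => meas_GoodE R' r 0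
  have hmono : Monotone H := by
    intro a b hab ω hω
    rw [Set.mem_iInter₂] at hω ⊢
    intro R' hR'
    exact hω R' (le_trans hab hR')
  have hU : ⋃ R, H R = Set.univ := by
    rw [Set.eq_univ_iff_forall]
    intro ω
    obtain ⟨R0, hR0⟩ := eventually_atTop.mp (eventually_good (tr ω) r 0)
    rw [Set.mem_iUnion]
    refine ⟨R0, ?_⟩
    rw [Set.mem_iInter₂]
    intro R' hR'
    exact hR0 R' hR'
  have h1 : Tendsto (fun R => Q (H R)) atTop (𝓝 (Q (⋃ R, H R))) :=
    tendsto_measure_iUnion_atTop hmono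
  rw [hU, measure_univ] at h1
  have h2 : Tendsto (fun R => Q.real (H R)) atTop (𝓝 1) := by
    have := (ENNReal.tendsto_toReal ENNReal.one_ne_top).comp h1
    rw [ENNReal.toReal_one] at this
    exact this
  have h3 : Tendsto (fun R => 1 - Q.real (H R)) atTop (𝓝 0) := by
    have := h2.const_sub 1
    rwa [sub_self] at this
  refine squeeze_zero (fun R => measureReal_nonneg) (fun R => ?_) h3
  have h4 : (GoodE d R r 0)ᶜ ⊆ (H R)ᶜ := by
    rw [Set.compl_subset_compl]
    intro ω hω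
    rw [Set.mem_iInter₂] at hω
    exact hω R (show R ≤ R from le_rfl)
  calc Q.real (GoodE d R r 0)ᶜ ≤ Q.real (H R)ᶜ := measureReal_mono h4
    _ = 1 - Q.real (H R) := probReal_compl_eq_one_sub (hHm R)

/-- Bound for the probability of separation. -/
lemma Sep_bound (hx : 0 < x) (hx1 : x < 1) (hQ : IsQ x Q) {r R : ℕ} (hr : r ≤ R) {f : ZMod 2}
    (hf : ∀ᵐ ω ∂Q, ∀ z u : Vtx d, Two (tr ω) r z → Arm (tr ω) r z u →
      fl (tr ω) (et ω) r z u = f) (z a b : Vtx d) :
    Q.real (SepE d r z a b) ≤ qv x (cp d x) (ci d x 0) (dV a + dV b) (tE z (bE d (R + 1)))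
      (shO z ⁻¹' LLE d R r 0 (f + 1)) + Q.real (GoodE d R r 0)ᶜ := by
  set β := dV a + dV b with hβ
  have hLoc := Loc_LLE hr z (f + 1)
  rw [← LLE_shift]
  -- the bound for each `k`
  have key : ∀ k, Q.real (SepE d r z a b) ≤ qv x (cp d x) (ci d x 0) β (tE z (bE d (R + 1)))
      (LLE d R r z (f + 1)) + Q.real (GoodE d R r 0)ᶜ + Q.real (SepE d r z a b \ DE k β) := by
    intro k
    have h1 := Q_swap hx hx1 hQ (DE_det k β) (DE_spec k β) hLoc (Loc_sw hLoc k β)
    have h2 : ∀ᵐ ω ∂Q, ω ∈ SepE d r z a b → ω ∈ ((DE k β ∩ sw (pk k β) ⁻¹' LLE d R r z (f + 1)) ∪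
        (GoodE d R r z)ᶜ) ∪ (SepE d r z a b \ DE k β) := by
      filter_upwards [hf, ae_sub hQ] with ω hω hsub hS
      by_cases hD : ω ∈ DE k β
      swap
      · exact Or.inr ⟨hS, hD⟩
      left
      by_cases hG : ω ∈ GoodE d R r z
      swap
      · exact Or.inr hG
      left
      refine ⟨hD, ?_⟩
      obtain ⟨ha, hb, hca, hcb, hia, hib, hab⟩ := hS
      obtain ⟨hpb, hpt'⟩ := DE_spec k β ω hD
      have hpt : ∀ e ∈ pk k β ω, e ∈ tr ω := hpt'
      obtain ⟨u, hu, hau⟩ := exists_arm ha ⟨z, center_mem r z, hca⟩ hia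
      obtain ⟨v, hv, hbv⟩ := exists_arm hb ⟨z, center_mem r z, hcb⟩ hib
      have hs := ad_symm (tr ω)
      have huv : ¬ Cn (ad (tr ω)) (bb r z)ᶜ u v := fun h =>
        hab (hau.trans (h.trans (Cn.symm hs hbv)))
      have hflu := hω z u ⟨u, v, hu, hv, huv⟩ hu
      have hub : ¬ Cn (ad (tr ω)) (bb r z)ᶜ u b := fun h => hab (hau.trans h)
      have hfl' : fl (tr ω) (et (sw (pk k β) ω)) r z u = f + 1 := by
        rw [flux_swap (et_sw (pk k β) ω) hpt hpb (Cn.symm hs hau) hub, hflu]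
      have hsub' : ∀ e, et (sw (pk k β) ω) e = true → e ∈ tr ω := by
        intro e he
        rw [et_sw] at he
        by_cases h : e ∈ pk k β ω
        · exact hpt e h
        · rw [decide_eq_false h, Bool.xor_false] at he
          exact hsub e he
      show LL (tr (sw (pk k β) ω)) (et (sw (pk k β) ω)) R r z (f + 1)
      rw [tr_sw]
      exact (LL_iff hsub' hr hG (f + 1)).mpr ⟨u, v, hu, hv, huv, hfl'⟩
    have h3 : Q.real (SepE d r z a b) ≤ Q.real (((DE k β ∩ sw (pk k β) ⁻¹'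
        LLE d R r z (f + 1)) ∪ (GoodE d R r z)ᶜ) ∪ (SepE d r z a b \ DE k β)) := by
      rw [measureReal_def, measureReal_def]
      exact ENNReal.toReal_mono (measure_ne_top _ _) (measure_mono_ae h2)
    have h4 : Q.real (GoodE d R r z)ᶜ = Q.real (GoodE d R r 0)ᶜ := by
      rw [GoodE_shift, ← Set.preimage_compl, Q_shift_real hx hx1 hQ z (meas_GoodE R r 0).compl]
    have h5 := measureReal_union_le (μ := Q) ((DE k β ∩ sw (pk k β) ⁻¹' LLE d R r z (f + 1)) ∪
      (GoodE d R r z)ᶜ) (SepE d r z a b \ DE k β)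
    have h6 := measureReal_union_le (μ := Q) (DE k β ∩ sw (pk k β) ⁻¹' LLE d R r z (f + 1))
      (GoodE d R r z)ᶜ
    rw [h4] at h6
    linarith
  -- the last term tends to zero
  have hlim : Tendsto (fun k => Q.real (SepE d r z a b \ DE k β)) atTop (𝓝 0) := by
    have hm : ∀ k, MeasurableSet (SepE d r z a b \ DE k β) := fun k =>
      (meas_SepE r z a b).diff (Loc_DE k β).measurable
    have h1 : Tendsto (fun k => Q (SepE d r z a b \ DE k β)) atTop
        (𝓝 (Q (⋂ k, SepE d r z a b \ DE k β))) := by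
      refine tendsto_measure_iInter_atTop (fun k => (hm k).nullMeasurableSet) ?_
        ⟨0, measure_ne_top _ _⟩
      intro k l hkl ω hω
      refine ⟨hω.1, fun h => hω.2 ?_⟩
      obtain ⟨S, hS, hb⟩ := h
      exact ⟨S, hS.trans (tk_mono hkl ω), hb⟩
    have h2 : (⋂ k, SepE d r z a b \ DE k β) = ∅ := by
      rw [Set.eq_empty_iff_forall_notMem]
      intro ω hω
      rw [Set.mem_iInter] at hω
      obtain ⟨-, -, hca, hcb, -⟩ := (hω 0).1
      obtain ⟨k, hk⟩ := path_exists (hca.trans (Cn.symm (ad_symm _) hcb))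
      exact (hω k).2 hk
    rw [h2, measure_empty] at h1
    have := (ENNReal.tendsto_toReal ENNReal.zero_ne_top).comp h1
    rw [ENNReal.toReal_zero] at this
    exact this
  have h7 := hlim.const_add (qv x (cp d x) (ci d x 0) β (tE z (bE d (R + 1)))
      (LLE d R r z (f + 1)) + Q.real (GoodE d R r 0)ᶜ)
  rw [add_zero] at h7
  exact ge_of_tendsto' h7 key

end Q

end Pool.Agent.TH980
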